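import Mathlib

set_option autoImplicit false

namespace Pool.Agent.Helper182.Bing

/-- The dyadic solenoid. -/
def Sol : Subgroup (ℕ → Circle) where
  carrier := {x | ∀ n, x (n + 1) ^ 2 = x n}
  mul_mem' := by
    intro a b ha hb n
    simp only [Pi.mul_apply, mul_pow, ha n, hb n]
  one_mem' := by
    intro n
    simp
  inv_mem' := by
    intro a ha n
    simp only [Pi.inv_apply, inv_pow, ha n]

theorem mem_Sol (x : ℕ → Circle) : x ∈ Sol ↔ ∀ n, x (n + 1) ^ 2 = x n := Iff.rfl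

theorem phi_mem (t : ℝ) : (fun n : ℕ => Circle.exp (2 * Real.pi * (t / 2 ^ n))) ∈ Sol := by
  intro n
  simp only
  rw [← Circle.exp_nsmul]
  congr 1
  rw [pow_succ, nsmul_eq_mul]
  push_cast
  field_simp

/-- The one parameter subgroup of the solenoid. -/
noncomputable def phi (t : ℝ) : Sol :=
  ⟨fun n : ℕ => Circle.exp (2 * Real.pi * (t / 2 ^ n)), phi_mem t⟩

theorem omega_mem : (fun n : ℕ => Circle.exp (2 * Real.pi * (6 ^ n / 11))) ∈ Sol := by
  intro n
  simp only
  rw [← Circle.exp_nsmul, Circle.exp_eq_exp]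
  refine ⟨6 ^ n, ?_⟩
  rw [pow_succ, nsmul_eq_mul]
  push_cast
  ring

/-- A point of order 11 of the solenoid. -/
noncomputable def omega : Sol :=
  ⟨fun n : ℕ => Circle.exp (2 * Real.pi * (6 ^ n / 11)), omega_mem⟩

/-- Directions of the five rays. -/
def sg : Fin 5 → ℝ := ![1, 1, 1, -1, -1]

/-- Base points of the five rays. -/
noncomputable def xb (i : Fin 5) : Sol := omega ^ (i : ℕ)

/-- The ambient space. -/
abbrev E : Type := (ℕ → ℂ) × (Fin 5 → ℝ)

noncomputable def Phi (i : Fin 5) (x : Sol) (h : ℝ) : E :=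
  (fun n => ((1 - h : ℝ) : ℂ) * ((x : ℕ → Circle) n : ℂ), Pi.single i (h * (1 - h)))

/-- The i-th ray together with the solenoid, before the end points are identified. -/
def Lset (i : Fin 5) : Set (Sol × ℝ) :=
  {p | p.2 = 0 ∨ (0 < p.2 ∧ p.2 ≤ 1 ∧ p.1 = xb i * phi (sg i * (1 / p.2 - 1)))}

def Kset : Set E := ⋃ i : Fin 5, (fun p : Sol × ℝ => Phi i p.1 p.2) '' Lset i

/-- The continuum. -/
abbrev K : Type := Kset

theorem Phi_mem (i : Fin 5) (x : Sol) (h : ℝ) (hx : (x, h) ∈ Lset i) : Phi i x h ∈ Kset :=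
  Set.mem_iUnion.2 ⟨i, (x, h), hx, rfl⟩

theorem sigma_mem (x : Sol) : Phi 0 x 0 ∈ Kset := Phi_mem 0 x 0 (Or.inl rfl)

theorem ray_mem (i : Fin 5) (s : ℝ) :
    Phi i (xb i * phi (sg i * max s 0)) (1 / (1 + max s 0)) ∈ Kset := by
  have h0 : 0 ≤ max s 0 := le_max_right _ _
  apply Phi_mem
  right
  refine ⟨by positivity, ?_, ?_⟩
  · simp only
    rw [div_le_one (by positivity)]
    linarith
  · simp

/-- The solenoid inside the continuum. -/
noncomputable def sig (x : Sol) : K := ⟨Phi 0 x 0, sigma_mem x⟩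

/-- The i-th ray, constant for negative parameters. -/
noncomputable def ray (i : Fin 5) (s : ℝ) : K :=
  ⟨Phi i (xb i * phi (sg i * max s 0)) (1 / (1 + max s 0)), ray_mem i s⟩

/-- The centre. -/
noncomputable def cen : K := ray 0 0

noncomputable def H (k : K) : ℝ := 1 - ‖k.1.1 0‖

def W (i : Fin 5) (k : K) : ℝ := k.1.2 i

/-- The direction of a complex number. -/
noncomputable def nz (z : ℂ) : Circle := Circle.exp (Complex.arg z)

theorem nz_zero : nz 0 = 1 := by simp [nz]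

theorem nz_mul (a : ℝ) (ha : 0 < a) (u : Circle) : nz ((a : ℂ) * (u : ℂ)) = u := by
  unfold nz
  rw [Complex.arg_real_mul _ ha]
  exact Circle.exp_arg u

theorem nz_Phi (i : Fin 5) (x : Sol) (h : ℝ) (hx : h < 1) (n : ℕ) :
    nz ((Phi i x h).1 n) = (x : ℕ → Circle) n := by
  unfold Phi
  simp only
  exact nz_mul _ (by linarith) _

theorem P_mem (k : K) : (fun n => nz (k.1.1 n)) ∈ Sol := by
  obtain ⟨k, hk⟩ := k
  obtain ⟨i, ⟨x, h⟩, hx, rfl⟩ := Set.mem_iUnion.1 hk
  have h1 : h ≤ 1 := by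
    rcases hx with h0 | h0
    · simp only at h0
      linarith
    · exact h0.2.1
  intro n
  simp only
  rcases lt_or_eq_of_le h1 with h2 | h2
  · rw [nz_Phi i x h h2, nz_Phi i x h h2]
    exact x.2 n
  · subst h2
    simp [Phi, nz_zero]

/-- The solenoid coordinate, equal to 1 at the centre. -/
noncomputable def P (k : K) : Sol := ⟨fun n => nz (k.1.1 n), P_mem k⟩

end Pool.Agent.Helper182.Bing
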