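import Mathlib
import Pool.Agent.Helper182.BDefs

set_option autoImplicit false

namespace Pool.Agent.Helper182.Bing


theorem phi_zero : phi 0 = 1 := by
  apply Subtype.ext
  funext n
  show Circle.exp (2 * Real.pi * (0 / 2 ^ n)) = 1
  simp

theorem phi_add (s t : ℝ) : phi (s + t) = phi s * phi t := by
  apply Subtype.ext
  funext n
  show Circle.exp (2 * Real.pi * ((s + t) / 2 ^ n)) =
    Circle.exp (2 * Real.pi * (s / 2 ^ n)) * Circle.exp (2 * Real.pi * (t / 2 ^ n))
  rw [← Circle.exp_add]
  congr 1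
  ring

theorem phi_neg (t : ℝ) : phi (-t) = (phi t)⁻¹ := by
  apply eq_inv_of_mul_eq_one_left
  rw [← phi_add, neg_add_cancel, phi_zero]

theorem continuous_phi : Continuous phi := by
  apply Continuous.subtype_mk
  apply continuous_pi
  intro n
  exact Circle.exp.continuous.comp (by fun_prop)

theorem phi_injective : Function.Injective phi := by
  intro s t hst
  by_contra hne
  have hpos : 0 < |s - t| := abs_pos.2 (sub_ne_zero.2 hne)
  obtain ⟨n, hn⟩ := pow_unbounded_of_one_lt |s - t| (by norm_num : (1 : ℝ) < 2)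
  have h1 : Circle.exp (2 * Real.pi * (s / 2 ^ n)) = Circle.exp (2 * Real.pi * (t / 2 ^ n)) :=
    congrFun (congrArg Subtype.val hst) n
  rw [Circle.exp_eq_exp] at h1
  obtain ⟨m, hm⟩ := h1
  have hpi : (0 : ℝ) < 2 * Real.pi := by positivity
  have h2 : s / 2 ^ n = t / 2 ^ n + m := by
    have h3 : 2 * Real.pi * (s / 2 ^ n) = 2 * Real.pi * (t / 2 ^ n + m) := by rw [hm]; ring
    exact mul_left_cancel₀ hpi.ne' h3
  have h2n : (0 : ℝ) < 2 ^ n := by positivity
  have h4 : s - t = m * 2 ^ n := by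
    field_simp at h2
    linarith
  rw [h4, abs_mul, abs_of_pos h2n] at hn hpos
  have h5 : |(m : ℝ)| < 1 := by
    by_contra h6
    push Not at h6
    nlinarith
  have h6 : m = 0 := by
    have : |m| < 1 := by exact_mod_cast h5
    exact Int.abs_lt_one_iff.1 this
  rw [h6] at hpos
  simp at hpos

theorem sg_cases (i : Fin 5) : sg i = 1 ∨ sg i = -1 := by
  fin_cases i <;> simp [sg]

theorem isClosed_Sol : IsClosed (Sol : Set (ℕ → Circle)) := by
  have h : (Sol : Set (ℕ → Circle)) = ⋂ n : ℕ, {x : ℕ → Circle | x (n + 1) ^ 2 = x n} := by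
    ext x
    rw [Set.mem_iInter]
    rfl
  rw [h]
  apply isClosed_iInter
  intro n
  exact isClosed_eq ((continuous_apply (n + 1)).pow 2) (continuous_apply n)

theorem compactSpace_Sol : CompactSpace Sol := by
  exact isCompact_iff_compactSpace.1 isClosed_Sol.isCompact

theorem A1_omega_pow_val (k n : ℕ) : ((omega ^ k : Sol) : ℕ → Circle) n =
    Circle.exp (k * (2 * Real.pi * (6 ^ n / 11))) := by
  rw [SubmonoidClass.coe_pow, Pi.pow_apply]
  show (Circle.exp (2 * Real.pi * (6 ^ n / 11))) ^ k = _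
  rw [← Circle.exp_nsmul, nsmul_eq_mul]

theorem omega_pow_11 : omega ^ 11 = 1 := by
  apply Subtype.ext
  funext n
  rw [A1_omega_pow_val]
  show _ = (1 : Circle)
  rw [← Circle.exp_zero, Circle.exp_eq_exp]
  refine ⟨6 ^ n, ?_⟩
  push_cast
  ring

theorem A1_phi_nat (n : ℕ) (t : ℝ) : phi (n * t) = phi t ^ n := by
  induction n with
  | zero => rw [Nat.cast_zero, zero_mul, phi_zero, pow_zero]
  | succ n ih =>
    rw [pow_succ, ← ih, ← phi_add]
    congr 1
    push_cast
    ring

theorem omega_pow_not (k : ℕ) (hk : 1 ≤ k) (hk2 : k ≤ 10) (t : ℝ) : omega ^ k ≠ phi t := by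
  intro h
  have h1 : phi ((11 : ℕ) * t) = phi 0 := by
    rw [A1_phi_nat, ← h, ← pow_mul, mul_comm, pow_mul, omega_pow_11, one_pow, phi_zero]
  have h2 := phi_injective h1
  have h3 : t = 0 := by
    push_cast at h2
    linarith
  rw [h3, phi_zero] at h
  have h4 := congrFun (congrArg Subtype.val h) 0
  rw [A1_omega_pow_val] at h4
  have h5 : Circle.exp (k * (2 * Real.pi * (6 ^ 0 / 11))) = Circle.exp 0 := by
    rw [h4, Circle.exp_zero]
    rfl
  rw [Circle.exp_eq_exp] at h5
  obtain ⟨m, hm⟩ := h5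
  have hpi : (0 : ℝ) < 2 * Real.pi := by positivity
  have h6 : (k : ℝ) / 11 = m := by
    have h7 : 2 * Real.pi * ((k : ℝ) / 11) = 2 * Real.pi * m := by
      rw [pow_zero] at hm
      linarith
    exact mul_left_cancel₀ hpi.ne' h7
  have h8 : (k : ℝ) = 11 * m := by linarith
  have h9 : (k : ℤ) = 11 * m := by exact_mod_cast h8
  omega

theorem xb_mul_phi (i j : Fin 5) (t : ℝ) (h : xb i = xb j * phi t) : i = j ∧ t = 0 := by
  unfold xb at h
  rcases lt_trichotomy (i : ℕ) (j : ℕ) with hij | hij | hij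
  · exfalso
    obtain ⟨d, hd⟩ := Nat.exists_eq_add_of_lt hij
    have hj := j.isLt
    have h1 : omega ^ (d + 1) = phi (-t) := by
      rw [phi_neg]
      apply eq_inv_of_mul_eq_one_left
      have h2 : omega ^ (i : ℕ) * (omega ^ (d + 1) * phi t) = omega ^ (i : ℕ) * 1 := by
        rw [← mul_assoc, ← pow_add, mul_one, ← add_assoc, ← hd]
        exact h.symm
      exact mul_left_cancel h2
    exact omega_pow_not (d + 1) (by omega) (by omega) _ h1
  · have hij' : i = j := Fin.ext hij
    refine ⟨hij', ?_⟩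
    rw [hij'] at h
    have h1 : phi t = phi 0 := by
      rw [phi_zero]
      have h2 : omega ^ (j : ℕ) * phi t = omega ^ (j : ℕ) * 1 := by rw [mul_one]; exact h.symm
      exact mul_left_cancel h2
    exact phi_injective h1
  · exfalso
    obtain ⟨d, hd⟩ := Nat.exists_eq_add_of_lt hij
    have hi := i.isLt
    have h1 : omega ^ (d + 1) = phi t := by
      have h2 : omega ^ (j : ℕ) * omega ^ (d + 1) = omega ^ (j : ℕ) * phi t := by
        rw [← pow_add, ← add_assoc, ← hd]
        exact h
      exact mul_left_cancel h2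
    exact omega_pow_not (d + 1) (by omega) (by omega) _ h1


end Pool.Agent.Helper182.Bing
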