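import Mathlib
import Pool.Agent.Helper182.BA1

set_option autoImplicit false

namespace Pool.Agent.Helper182.Bing


lemma j20086_pow (z : Sol) (k : ℕ) : ∀ m : ℕ, (z : ℕ → Circle) m =
    ((z : ℕ → Circle) (m + k)) ^ (2 ^ k) := by
  induction k with
  | zero => intro m; simp
  | succ k ih =>
    intro m
    rw [ih m, ← z.2 (m + k), ← pow_mul, pow_succ, mul_comm 2]
    rfl

lemma j20086_exp (e : ℝ) (he : e = 1 ∨ e = -1) (k : ℕ) :
    Circle.exp (2 * Real.pi * (e * k)) = 1 := by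
  have h1 : ∃ j : ℤ, (j : ℝ) = e * k := by
    rcases he with rfl | rfl
    · exact ⟨k, by simp⟩
    · exact ⟨-k, by simp⟩
  obtain ⟨j, hj⟩ := h1
  rw [← hj, ← Circle.exp_zero, Circle.exp_eq_exp]
  exact ⟨j, by ring⟩

theorem dense_half (x y : Sol) (e : ℝ) (he : e = 1 ∨ e = -1) (n : ℕ) :
    ∃ s : ℝ, (n : ℝ) ≤ s ∧ ∀ m ≤ n, ((y * phi (e * s) : Sol) : ℕ → Circle) m = (x : ℕ → Circle) m := by
  set w : Circle := ((y : ℕ → Circle) n)⁻¹ * (x : ℕ → Circle) n with hw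
  set θ : ℝ := Complex.arg (w : ℂ) with hθ
  have hexp : Circle.exp θ = w := Circle.exp_arg w
  have he2 : e * e = 1 := by rcases he with rfl | rfl <;> norm_num
  have h2n : (1:ℝ) ≤ 2 ^ n := one_le_pow₀ (by norm_num)
  obtain ⟨k, hk⟩ := exists_nat_ge ((n : ℝ) - e * (θ / (2 * Real.pi)) * 2 ^ n)
  refine ⟨e * (θ / (2 * Real.pi)) * 2 ^ n + 2 ^ n * k, ?_, ?_⟩
  · have h3 : (k : ℝ) ≤ 2 ^ n * k := by
      have : (0:ℝ) ≤ k := Nat.cast_nonneg k
      nlinarith
    linarith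
  · have hn : ((y * phi (e * (e * (θ / (2 * Real.pi)) * 2 ^ n + 2 ^ n * k)) : Sol) :
        ℕ → Circle) n = (x : ℕ → Circle) n := by
      show (y : ℕ → Circle) n * Circle.exp (2 * Real.pi *
        ((e * (e * (θ / (2 * Real.pi)) * 2 ^ n + 2 ^ n * k)) / 2 ^ n)) = (x : ℕ → Circle) n
      have h4 : 2 * Real.pi * ((e * (e * (θ / (2 * Real.pi)) * 2 ^ n + 2 ^ n * k)) / 2 ^ n) =
          θ + 2 * Real.pi * (e * k) := by
        have hpi : Real.pi ≠ 0 := Real.pi_ne_zero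
        have h2 : (2:ℝ) ^ n ≠ 0 := by positivity
        have h5 : e * (e * (θ / (2 * Real.pi)) * 2 ^ n + 2 ^ n * k) / 2 ^ n =
            (e * e) * (θ / (2 * Real.pi)) + e * k := by
          field_simp
        rw [h5, he2]
        field_simp
      rw [h4, Circle.exp_add, j20086_exp e he k, mul_one, hexp, hw, mul_inv_cancel_left]
    intro m hm
    obtain ⟨d, rfl⟩ := Nat.exists_eq_add_of_le hm
    rw [j20086_pow _ d m, j20086_pow x d m, hn]


end Pool.Agent.Helper182.Bing
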