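import Mathlib
import Pool.Agent.Helper182.BA1

set_option autoImplicit false

namespace Pool.Agent.Helper182.Bing


theorem coord_const_pow (x : Sol) (m : ℕ) :
    (x : ℕ → Circle) m ^ (2 ^ m) = (x : ℕ → Circle) 0 := by
  induction m with
  | zero => simp
  | succ m ih =>
    rw [pow_succ', pow_mul, x.2 m]
    exact ih

theorem coord_const_coe (u : Circle) (N : ℕ) (h : u ^ N = 1) : (u : ℂ) ^ N = 1 := by
  rw [← Circle.coe_pow, h, Circle.coe_one]

theorem coord_const_finite (N : ℕ) (hN : 0 < N) : {u : Circle | u ^ N = 1}.Finite := by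
  have h1 : {z : ℂ | z ^ N = 1}.Finite := by
    refine ((Polynomial.nthRoots N (1 : ℂ)).toFinset.finite_toSet).subset ?_
    intro z hz
    rw [Finset.mem_coe, Multiset.mem_toFinset, Polynomial.mem_nthRoots hN]
    exact hz
  refine (h1.preimage (Circle.coe_injective.injOn)).subset ?_
  intro u hu
  exact coord_const_coe u N hu

theorem coord_const {X : Type*} [TopologicalSpace X] (A : Set X) (hA : IsPreconnected A)
    (B : X → Sol) (hB : ContinuousOn B A) (n : ℕ) (h1 : ∀ k ∈ A, (B k : ℕ → Circle) n = 1) :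
    ∀ k ∈ A, ∀ l ∈ A, B k = B l := by
  intro k hk l hl
  apply Subtype.ext
  funext m
  have hc : ContinuousOn (fun k => (B k : ℕ → Circle) m) A :=
    (continuous_apply m).comp_continuousOn (continuous_subtype_val.comp_continuousOn hB)
  have hp : IsPreconnected ((fun k => (B k : ℕ → Circle) m) '' A) := hA.image _ hc
  have hfin : ((fun k => (B k : ℕ → Circle) m) '' A).Finite := by
    refine (coord_const_finite (2 ^ m) (by positivity)).subset ?_
    rintro _ ⟨j, hj, rfl⟩
    show (B j : ℕ → Circle) m ^ (2 ^ m) = 1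
    rw [coord_const_pow, ← coord_const_pow (B j) n, h1 j hj, one_pow]
  by_contra hne
  exact (hp.infinite_of_nontrivial ⟨_, ⟨k, hk, rfl⟩, _, ⟨l, hl, rfl⟩, hne⟩) hfin


end Pool.Agent.Helper182.Bing
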