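import Mathlib
import Pool.Agent.Helper182.BA3

set_option autoImplicit false

namespace Pool.Agent.Helper182.Bing


theorem path_class_local (g : ℝ → Sol) (hg : Continuous g) (s : ℝ) :
    ∃ ε > 0, ∀ t ∈ Metric.ball s ε, ∃ u : ℝ, g t = g s * phi u := by
  let f : ℝ → Circle := fun t => ((g t * (g s)⁻¹ : Sol) : ℕ → Circle) 0
  have hf : Continuous f := by
    have h1 : Continuous fun t => (g t * (g s)⁻¹ : Sol) := hg.mul continuous_const
    exact (continuous_apply 0).comp (continuous_subtype_val.comp h1)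
  have hfs : f s = 1 := by
    simp only [f, mul_inv_cancel]
    rfl
  have hfc : Continuous fun t => (f t : ℂ) := by fun_prop
  have hopen : IsOpen {t | (f t : ℂ) ∈ Complex.slitPlane} :=
    Complex.isOpen_slitPlane.preimage hfc
  have hs : s ∈ {t | (f t : ℂ) ∈ Complex.slitPlane} := by
    simp [hfs]
  obtain ⟨ε, hε, hball⟩ := Metric.isOpen_iff.1 hopen s hs
  refine ⟨ε, hε, fun t ht => ?_⟩
  let ψ : ℝ → ℝ := fun t => Complex.arg (f t) / (2 * Real.pi)
  have hψ : ContinuousOn ψ (Metric.ball s ε) := by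
    intro x hx
    refine ContinuousAt.continuousWithinAt ?_
    have h1 : ContinuousAt Complex.arg (f x) := Complex.continuousAt_arg (hball hx)
    exact (ContinuousAt.comp (f := fun t => (f t : ℂ)) h1 hfc.continuousAt).div_const _
  let B : ℝ → Sol := fun t => g t * (g s)⁻¹ * (phi (ψ t))⁻¹
  have hB : ContinuousOn B (Metric.ball s ε) := by
    refine ContinuousOn.mul (hg.mul continuous_const).continuousOn ?_
    exact (continuous_phi.comp_continuousOn hψ).inv
  have hB1 : ∀ k ∈ Metric.ball s ε, (B k : ℕ → Circle) 0 = 1 := by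
    intro k _
    have h1 : (B k : ℕ → Circle) 0 = f k * (Circle.exp (2 * Real.pi * (ψ k / 2 ^ 0)))⁻¹ := rfl
    have h2 : 2 * Real.pi * (ψ k / 2 ^ 0) = Complex.arg (f k) := by
      simp only [ψ]
      have := Real.pi_ne_zero
      field_simp
    rw [h1, h2, Circle.exp_arg, mul_inv_cancel]
  have h1 := coord_const (Metric.ball s ε) (convex_ball s ε).isPreconnected B hB 0 hB1 t ht s
    (Metric.mem_ball_self hε)
  have h2 : B s = 1 := by
    have : ψ s = 0 := by simp [ψ, hfs]
    simp [B, this, phi_zero]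
  rw [h2] at h1
  refine ⟨ψ t, ?_⟩
  have h3 : g t * (g s)⁻¹ = phi (ψ t) := mul_inv_eq_one.1 h1
  rw [← h3, mul_comm (g t), mul_inv_cancel_left]

theorem path_class (g : ℝ → Sol) (hg : Continuous g) (s t : ℝ) : ∃ u : ℝ, g t = g s * phi u := by
  have hclopen : IsClopen {t : ℝ | ∃ u : ℝ, g t = g s * phi u} := by
    constructor
    · rw [← isOpen_compl_iff, Metric.isOpen_iff]
      intro x hx
      obtain ⟨ε, hε, h⟩ := path_class_local g hg x
      refine ⟨ε, hε, fun y hy hyS => hx ?_⟩
      obtain ⟨u, hu⟩ := h y hy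
      obtain ⟨v, hv⟩ := hyS
      refine ⟨v + -u, ?_⟩
      rw [phi_add, phi_neg, ← mul_assoc, ← hv, hu, mul_inv_cancel_right]
    · rw [Metric.isOpen_iff]
      rintro x ⟨v, hv⟩
      obtain ⟨ε, hε, h⟩ := path_class_local g hg x
      refine ⟨ε, hε, fun y hy => ?_⟩
      obtain ⟨u, hu⟩ := h y hy
      exact ⟨v + u, by rw [phi_add, ← mul_assoc, ← hv, hu]⟩
  have huniv := hclopen.eq_univ ⟨s, 0, by rw [phi_zero, mul_one]⟩
  have : t ∈ {t : ℝ | ∃ u : ℝ, g t = g s * phi u} := by rw [huniv]; trivial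
  exact this


end Pool.Agent.Helper182.Bing
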