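import Mathlib
import Pool.Agent.Helper182.BA1

set_option autoImplicit false

namespace Pool.Agent.Helper182.Bing

theorem K_ext (k l : K) (h : k.1 = l.1) : k = l := Subtype.ext h

theorem Phi_one (i : Fin 5) (x : Sol) : Phi i x 1 = 0 := by
  unfold Phi
  ext n
  · simp
  · simp

theorem Phi_zero_eq (i j : Fin 5) (x : Sol) : Phi i x 0 = Phi j x 0 := by
  unfold Phi
  simp

theorem cen_val : (cen : K).1 = 0 := by
  unfold cen ray
  simp only [max_self, add_zero, ne_eq, one_ne_zero, not_false_eq_true, div_self]
  exact Phi_one _ _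

theorem ray_nonpos (i : Fin 5) (s : ℝ) (hs : s ≤ 0) : ray i s = cen := by
  apply K_ext
  rw [cen_val]
  unfold ray
  simp only [max_eq_right hs, add_zero, ne_eq, one_ne_zero, not_false_eq_true, div_self]
  exact Phi_one _ _

theorem continuous_Phi1 (i : Fin 5) : Continuous (fun p : Sol × ℝ => Phi i p.1 p.2) := by
  unfold Phi
  apply Continuous.prodMk
  · apply continuous_pi
    intro n
    apply Continuous.mul
    · exact Complex.continuous_ofReal.comp (continuous_const.sub continuous_snd)
    · exact (continuous_subtype_val : Continuous (fun z : Circle => (z : ℂ))).comp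
        ((continuous_apply n).comp (continuous_subtype_val.comp continuous_fst))
  · have h2 : Continuous (fun p : Sol × ℝ => p.2 * (1 - p.2)) :=
      continuous_snd.mul (continuous_const.sub continuous_snd)
    exact (continuous_single i).comp h2

theorem continuous_sig : Continuous sig := by
  unfold sig
  apply Continuous.subtype_mk
  exact (continuous_Phi1 0).comp (continuous_id.prodMk continuous_const)

theorem continuous_ray (i : Fin 5) : Continuous (ray i) := by
  unfold ray
  apply Continuous.subtype_mk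
  have hm : Continuous (fun s : ℝ => max s 0) := continuous_id.max continuous_const
  apply (continuous_Phi1 i).comp (Continuous.prodMk _ _)
  · exact continuous_const.mul (continuous_phi.comp (continuous_const.mul hm))
  · apply Continuous.div continuous_const (continuous_const.add hm)
    intro s
    have h0 : 0 ≤ max s 0 := le_max_right _ _
    have h1 : 0 < 1 + max s 0 := by linarith
    exact h1.ne'

theorem continuous_H : Continuous H := by
  unfold H
  exact continuous_const.sub
    (((continuous_apply 0).comp (continuous_fst.comp continuous_subtype_val)).norm)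

theorem continuous_W (i : Fin 5) : Continuous (W i) := by
  unfold W
  exact (continuous_apply i).comp (continuous_snd.comp continuous_subtype_val)

theorem H_Phi (i : Fin 5) (x : Sol) (h : ℝ) (hh : h ≤ 1) (hk : Phi i x h ∈ Kset) :
    H ⟨Phi i x h, hk⟩ = h := by
  unfold H Phi
  simp only [norm_mul, Circle.norm_coe, mul_one, Complex.norm_real, Real.norm_eq_abs]
  rw [abs_of_nonneg (by linarith)]
  ring

theorem H_sig (x : Sol) : H (sig x) = 0 := H_Phi _ _ _ zero_le_one _

theorem H_ray (i : Fin 5) (s : ℝ) (hs : 0 ≤ s) : H (ray i s) = 1 / (1 + s) := by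
  unfold ray
  simp only [max_eq_left hs]
  apply H_Phi
  rw [div_le_one (by positivity)]
  linarith

theorem W_sig (i : Fin 5) (x : Sol) : W i (sig x) = 0 := by
  unfold W sig Phi
  simp

theorem W_ray (i : Fin 5) (s : ℝ) (hs : 0 ≤ s) : W i (ray i s) = s / (1 + s) ^ 2 := by
  unfold W ray Phi
  simp only [max_eq_left hs, Pi.single_eq_same]
  have : 1 + s ≠ 0 := by positivity
  field_simp
  ring

theorem W_ray_ne (i j : Fin 5) (hij : j ≠ i) (s : ℝ) : W j (ray i s) = 0 := by
  unfold W ray Phi
  simp [hij]

theorem P_sig (x : Sol) : P (sig x) = x := by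
  apply Subtype.ext
  funext n
  exact nz_Phi 0 x 0 zero_lt_one n

theorem P_ray (i : Fin 5) (s : ℝ) (hs : 0 < s) : P (ray i s) = xb i * phi (sg i * s) := by
  apply Subtype.ext
  funext n
  have h : 1 / (1 + max s 0) < 1 := by
    rw [max_eq_left hs.le, div_lt_one (by positivity)]
    linarith
  have := nz_Phi i (xb i * phi (sg i * max s 0)) (1 / (1 + max s 0)) h n
  simp only [P, ray]
  rw [this, max_eq_left hs.le]

theorem K_cases (k : K) : (∃ x : Sol, k = sig x) ∨ ∃ (i : Fin 5) (s : ℝ), 0 ≤ s ∧ k = ray i s := by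
  obtain ⟨k, hk⟩ := k
  obtain ⟨i, ⟨x, h⟩, hx, rfl⟩ := Set.mem_iUnion.1 hk
  rcases hx with h0 | ⟨h0, h1, h2⟩
  · left
    simp only at h0
    subst h0
    exact ⟨x, K_ext _ _ (Phi_zero_eq i 0 x)⟩
  · right
    simp only at h0 h1 h2
    have hs : 0 ≤ 1 / h - 1 := by
      rw [sub_nonneg, le_div_iff₀ h0]
      linarith
    refine ⟨i, 1 / h - 1, hs, ?_⟩
    apply K_ext
    simp only [ray, max_eq_left hs]
    rw [← h2]
    congr 1
    field_simp
    ring

theorem H_mem (k : K) : 0 ≤ H k ∧ H k ≤ 1 := by
  rcases K_cases k with ⟨x, rfl⟩ | ⟨i, s, hs, rfl⟩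
  · rw [H_sig]
    norm_num
  · rw [H_ray i s hs]
    constructor
    · positivity
    · rw [div_le_one (by positivity)]
      linarith

theorem H_eq_zero_iff (k : K) : H k = 0 ↔ ∃ x : Sol, k = sig x := by
  constructor
  · intro h
    rcases K_cases k with h1 | ⟨i, s, hs, rfl⟩
    · exact h1
    · rw [H_ray i s hs] at h
      have : 0 < 1 / (1 + s) := by positivity
      linarith
  · rintro ⟨x, rfl⟩
    exact H_sig x

theorem H_ne_zero_iff (k : K) : H k ≠ 0 ↔ ∃ (i : Fin 5) (s : ℝ), 0 ≤ s ∧ k = ray i s := by
  constructor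
  · intro h
    rcases K_cases k with ⟨x, rfl⟩ | h1
    · exact absurd (H_sig x) h
    · exact h1
  · rintro ⟨i, s, hs, rfl⟩
    rw [H_ray i s hs]
    positivity

theorem H_eq_one_iff (k : K) : H k = 1 ↔ k = cen := by
  constructor
  · intro h
    rcases K_cases k with ⟨x, rfl⟩ | ⟨i, s, hs, rfl⟩
    · rw [H_sig] at h
      norm_num at h
    · rw [H_ray i s hs, div_eq_one_iff_eq (by positivity)] at h
      exact ray_nonpos i s (by linarith)
  · rintro rfl
    unfold cen
    rw [H_ray 0 0 le_rfl]
    norm_num

theorem W_pos_iff (i : Fin 5) (k : K) : 0 < W i k ↔ ∃ s : ℝ, 0 < s ∧ k = ray i s := by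
  constructor
  · intro h
    rcases K_cases k with ⟨x, rfl⟩ | ⟨j, s, hs, rfl⟩
    · rw [W_sig] at h
      exact absurd h (lt_irrefl _)
    · by_cases hij : i = j
      · subst hij
        refine ⟨s, ?_, rfl⟩
        rcases lt_or_eq_of_le hs with h' | h'
        · exact h'
        · rw [← h', W_ray i 0 le_rfl] at h
          norm_num at h
      · rw [W_ray_ne j i hij] at h
        exact absurd h (lt_irrefl _)
  · rintro ⟨s, hs, rfl⟩
    rw [W_ray i s hs.le]
    positivity

theorem ray_inj (i j : Fin 5) (s t : ℝ) (hs : 0 < s) (ht : 0 ≤ t) (h : ray i s = ray j t) :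
    i = j ∧ s = t := by
  have h1 : H (ray i s) = H (ray j t) := by rw [h]
  rw [H_ray i s hs.le, H_ray j t ht] at h1
  have h2 : s = t := by
    have h3 : (1 + s) = (1 + t) := by
      rw [div_eq_div_iff (by positivity) (by positivity)] at h1
      linarith
    linarith
  refine ⟨?_, h2⟩
  by_contra hij
  have h4 : 0 < W i (ray j t) := by
    rw [← h]
    exact (W_pos_iff i _).2 ⟨s, hs, rfl⟩
  rw [W_ray_ne j i hij] at h4
  exact lt_irrefl _ h4

theorem sig_injective : Function.Injective sig := by
  intro x y h
  rw [← P_sig x, ← P_sig y, h]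

end Pool.Agent.Helper182.Bing
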