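import Mathlib
import Pool.Agent.Helper182.BB1

set_option autoImplicit false

namespace Pool.Agent.Helper182.Bing


theorem cK_isClosed_Lset (i : Fin 5) : IsClosed (Lset i) := by
  rw [← isOpen_compl_iff, isOpen_iff_mem_nhds]
  rintro ⟨x, h⟩ hp
  have hp' : ¬ (h = 0 ∨ (0 < h ∧ h ≤ 1 ∧ x = xb i * phi (sg i * (1 / h - 1)))) := hp
  push Not at hp'
  obtain ⟨h0, hg⟩ := hp'
  have hsnd : Filter.Tendsto (fun p : Sol × ℝ => p.2) (nhds (x, h)) (nhds h) :=
    continuous_snd.tendsto (x, h)
  have hfst : Filter.Tendsto (fun p : Sol × ℝ => p.1) (nhds (x, h)) (nhds x) :=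
    continuous_fst.tendsto (x, h)
  rcases lt_or_gt_of_ne h0 with h1 | h1
  · filter_upwards [hsnd.eventually_lt_const h1] with p hp2 hpL
    rcases hpL with h3 | h3
    · linarith
    · linarith [h3.1]
  · by_cases h2 : 1 < h
    · filter_upwards [hsnd.eventually_const_lt h2] with p hp2 hpL
      rcases hpL with h3 | h3
      · linarith
      · linarith [h3.2.1]
    · push Not at h2
      have hne : x ≠ xb i * phi (sg i * (1 / h - 1)) := hg h1 h2
      have hgt : Filter.Tendsto (fun p : Sol × ℝ => xb i * phi (sg i * (1 / p.2 - 1)))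
          (nhds (x, h)) (nhds (xb i * phi (sg i * (1 / h - 1)))) := by
        refine Filter.Tendsto.const_mul _ ?_
        refine (continuous_phi.tendsto _).comp ?_
        refine Filter.Tendsto.const_mul _ ?_
        refine Filter.Tendsto.sub_const ?_ 1
        exact tendsto_const_nhds.div hsnd h1.ne'
      have hev : ∀ᶠ p : Sol × ℝ in nhds (x, h), p.1 ≠ xb i * phi (sg i * (1 / p.2 - 1)) :=
        (ContinuousAt.ne_iff_eventually_ne (x := (x, h)) (f := fun p : Sol × ℝ => p.1)
          (g := fun p : Sol × ℝ => xb i * phi (sg i * (1 / p.2 - 1))) hfst hgt).1 hne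
      filter_upwards [hev, hsnd.eventually_const_lt h1] with p hp1 hp2 hpL
      rcases hpL with h3 | h3
      · linarith
      · exact hp1 h3.2.2

theorem cK_continuous_Phi (i : Fin 5) : Continuous (fun p : Sol × ℝ => Phi i p.1 p.2) := by
  unfold Phi
  refine Continuous.prodMk ?_ ?_
  · refine continuous_pi ?_
    intro n
    refine Continuous.mul ?_ ?_
    · exact Complex.continuous_ofReal.comp (continuous_const.sub continuous_snd)
    · have hcoe : Continuous (fun z : Circle => (z : ℂ)) := continuous_subtype_val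
      exact hcoe.comp ((continuous_apply n).comp
        (continuous_subtype_val.comp continuous_fst))
  · refine continuous_pi ?_
    intro j
    by_cases hj : j = i
    · subst hj
      simp only [Pi.single_eq_same]
      exact continuous_snd.mul (continuous_const.sub continuous_snd)
    · simp only [Pi.single_eq_of_ne hj]
      exact continuous_const

theorem compactSpace_K : CompactSpace K := by
  rw [← isCompact_iff_compactSpace]
  unfold Kset
  refine isCompact_iUnion ?_
  intro i
  refine IsCompact.image ?_ (cK_continuous_Phi i)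
  have := compactSpace_Sol
  have hc : IsCompact ((Set.univ : Set Sol) ×ˢ Set.Icc (0 : ℝ) 1) :=
    isCompact_univ.prod isCompact_Icc
  refine hc.of_isClosed_subset (cK_isClosed_Lset i) ?_
  rintro ⟨x, h⟩ hx
  refine ⟨Set.mem_univ _, ?_⟩
  rcases hx with h3 | h3
  · have h4 : h = 0 := h3
    change h ∈ Set.Icc (0 : ℝ) 1
    rw [h4]
    exact ⟨le_rfl, zero_le_one⟩
  · exact ⟨h3.1.le, h3.2.1⟩


end Pool.Agent.Helper182.Bing
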