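import Mathlib
import Pool.Agent.Helper182.BB1

set_option autoImplicit false

namespace Pool.Agent.Helper182.Bing


theorem coe_nz_aux (z : ℂ) (hz : z ≠ 0) : ((nz z : Circle) : ℂ) = z / (‖z‖ : ℂ) := by
  have h := Complex.norm_mul_exp_arg_mul_I z
  have hn : (‖z‖ : ℂ) ≠ 0 := by
    simpa using hz
  unfold nz
  rw [Circle.coe_exp, eq_div_iff hn, mul_comm]
  exact h

theorem coord_ne_aux (k : K) (hk : k ≠ cen) (n : ℕ) : k.1.1 n ≠ 0 := by
  obtain ⟨i, ⟨x, h⟩, hx, hk2⟩ := Set.mem_iUnion.1 k.2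
  simp only at hk2
  have h1 : h ≤ 1 := by
    rcases hx with h0 | h0
    · simp only at h0
      linarith
    · exact h0.2.1
  rcases lt_or_eq_of_le h1 with h2 | h2
  · rw [← hk2]
    simp only [Phi]
    refine mul_ne_zero ?_ (Circle.coe_ne_zero _)
    exact_mod_cast (by linarith : (0:ℝ) < 1 - h).ne'
  · exfalso
    apply hk
    apply K_ext
    rw [cen_val, ← hk2, h2]
    simp [Phi]
    rfl

theorem continuousOn_P : ContinuousOn P {k : K | k ≠ cen} := by
  have hnz : ContinuousOn nz {z : ℂ | z ≠ 0} := by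
    have hi : @Topology.IsInducing Circle ℂ _ _ (fun z : Circle => (z : ℂ)) := ⟨rfl⟩
    rw [hi.continuousOn_iff]
    have h1 : ContinuousOn (fun z : ℂ => z / (‖z‖ : ℂ)) {z : ℂ | z ≠ 0} := by
      refine ContinuousOn.div continuousOn_id (by fun_prop) ?_
      intro z hz
      simpa using hz
    exact h1.congr fun z hz => coe_nz_aux z hz
  rw [Topology.IsInducing.subtypeVal.continuousOn_iff]
  rw [continuousOn_pi]
  intro n
  have hc : Continuous (fun k : K => k.1.1 n) := by fun_prop
  exact hnz.comp hc.continuousOn (fun k hk => coord_ne_aux k hk n)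


end Pool.Agent.Helper182.Bing
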