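import Mathlib
import Pool.Agent.Helper182.BA2
import Pool.Agent.Helper182.BB2

set_option autoImplicit false

namespace Pool.Agent.Helper182.Bing

theorem sig_mem_closure (i : Fin 5) (a : ℝ) (x : Sol) :
    sig x ∈ closure (ray i '' Set.Ici a) := by
  have h : ∀ n : ℕ, ∃ s : ℝ, max (n : ℝ) a ≤ s ∧ ∀ m ≤ n,
      ((xb i * phi (sg i * s) : Sol) : ℕ → Circle) m = (x : ℕ → Circle) m := by
    intro n
    obtain ⟨N, hN⟩ := exists_nat_ge (max (n : ℝ) a)
    have hnN : n ≤ N := by
      have : (n : ℝ) ≤ N := le_trans (le_max_left _ _) hN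
      exact_mod_cast this
    obtain ⟨s, hs, hs2⟩ := dense_half x (xb i) (sg i) (sg_cases i) N
    exact ⟨s, hN.trans hs, fun m hm => hs2 m (hm.trans hnN)⟩
  choose s hs hs2 using h
  apply mem_closure_of_tendsto (f := fun n => ray i (s n)) (b := Filter.atTop)
  · rw [tendsto_subtype_rng]
    have hsn : ∀ n : ℕ, (n : ℝ) ≤ s n := fun n => le_trans (le_max_left _ _) (hs n)
    have hs0 : ∀ n : ℕ, 0 ≤ s n := fun n => le_trans (Nat.cast_nonneg n) (hsn n)
    have hlim : Filter.Tendsto (fun n => 1 / (1 + max (s n) 0)) Filter.atTop (nhds (0 : ℝ)) := by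
      have h1 : Filter.Tendsto (fun n => 1 + max (s n) 0) Filter.atTop Filter.atTop := by
        apply Filter.tendsto_atTop_mono (f := fun n : ℕ => (n : ℝ)) _ tendsto_natCast_atTop_atTop
        intro n
        rw [max_eq_left (hs0 n)]
        linarith [hsn n]
      simpa using h1.const_div_atTop 1
    have hx : Filter.Tendsto (fun n => xb i * phi (sg i * max (s n) 0)) Filter.atTop (nhds x) := by
      rw [tendsto_subtype_rng, tendsto_pi_nhds]
      intro m
      apply tendsto_const_nhds.congr'
      filter_upwards [Filter.eventually_ge_atTop m] with n hn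
      rw [max_eq_left (hs0 n)]
      exact (hs2 n m hn).symm
    have h3 := ((continuous_Phi1 i).tendsto (x, 0)).comp (hx.prodMk_nhds hlim)
    have h4 : (sig x).1 = Phi i x 0 := Phi_zero_eq 0 i x
    rw [h4]
    exact h3
  · filter_upwards with n
    exact ⟨s n, le_trans (le_max_right _ _) (hs n), rfl⟩

theorem preconn_eta (η : ℝ) (h0 : 0 < η) (h1 : η ≤ 1) : IsPreconnected {k : K | H k ≤ η} := by
  have ha : 0 ≤ 1 / η - 1 := by
    rw [sub_nonneg, le_div_iff₀ h0]
    linarith
  have hT : ∀ i : Fin 5, IsPreconnected (ray i '' Set.Ici (1 / η - 1) ∪ Set.range sig) := by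
    intro i
    apply IsPreconnected.subset_closure
      (isPreconnected_Ici.image (ray i) (continuous_ray i).continuousOn)
    · exact Set.subset_union_left
    · apply Set.union_subset subset_closure
      rintro _ ⟨x, rfl⟩
      exact sig_mem_closure i _ x
  have hU : {k : K | H k ≤ η} = ⋃ i : Fin 5, (ray i '' Set.Ici (1 / η - 1) ∪ Set.range sig) := by
    ext k
    simp only [Set.mem_iUnion, Set.mem_union]
    constructor
    · intro hk
      rcases K_cases k with ⟨x, rfl⟩ | ⟨i, s, hs, rfl⟩
      · exact ⟨0, Or.inr ⟨x, rfl⟩⟩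
      · refine ⟨i, Or.inl ⟨s, ?_, rfl⟩⟩
        have h2 : H (ray i s) ≤ η := hk
        rw [H_ray i s hs, div_le_iff₀ (by positivity)] at h2
        simp only [Set.mem_Ici]
        rw [sub_le_iff_le_add, div_le_iff₀ h0]
        linarith
    · rintro ⟨i, ⟨s, hs, rfl⟩ | ⟨x, rfl⟩⟩
      · simp only [Set.mem_Ici] at hs
        have hs' : 0 ≤ s := ha.trans hs
        show H (ray i s) ≤ η
        rw [H_ray i s hs', div_le_iff₀ (by positivity)]
        rw [sub_le_iff_le_add, div_le_iff₀ h0] at hs
        linarith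
      · show H (sig x) ≤ η
        rw [H_sig]
        exact h0.le
  rw [hU]
  apply isPreconnected_iUnion
  · refine ⟨sig 1, ?_⟩
    simp only [Set.mem_iInter]
    intro i
    exact Or.inr ⟨1, rfl⟩
  · exact hT

theorem connectedSpace_K : ConnectedSpace K := by
  have h : (Set.univ : Set K) = {k : K | H k ≤ 1} := by
    ext k
    simp [(H_mem k).2]
  have h2 : PreconnectedSpace K := ⟨by rw [h]; exact preconn_eta 1 one_pos le_rfl⟩
  exact { toPreconnectedSpace := h2, toNonempty := ⟨cen⟩ }

end Pool.Agent.Helper182.Bing
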