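import Mathlib
import Pool.Agent.Helper182.BB2
import Pool.Agent.Helper182.BB3

set_option autoImplicit false

namespace Pool.Agent.Helper182.Bing



theorem path_local (g : ℝ → K) (hg : Continuous g) (a : ℝ) (h0 : H (g a) = 0) :
    ∃ ε > 0, ∀ t, |t - a| < ε → H (g t) = 0 := by
  obtain ⟨x, hx⟩ := (H_eq_zero_iff (g a)).1 h0
  have hne : g a ≠ cen := by
    intro h
    have := (H_eq_one_iff (g a)).2 h
    rw [h0] at this
    norm_num at this
  set u : Circle := (P (g a) : ℕ → Circle) 0 with hu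
  set v : Circle := Circle.exp Real.pi * u with hv
  have huv : u ≠ v := by
    intro h
    have h1 : Circle.exp Real.pi = 1 := by
      have h2 : (1 : Circle) * u = Circle.exp Real.pi * u := by rw [one_mul]; exact h
      exact (mul_right_cancel h2).symm
    rw [← Circle.exp_zero, Circle.exp_eq_exp] at h1
    obtain ⟨m, hm⟩ := h1
    have hp := Real.pi_pos
    have h3 : (1:ℝ) = 2 * (m:ℝ) := by
      have : Real.pi * 1 = Real.pi * (2 * (m:ℝ)) := by linarith
      exact mul_left_cancel₀ hp.ne' this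
    have h4 : (1:ℤ) = 2 * m := by exact_mod_cast h3
    omega
  have hPc : ContinuousAt P (g a) :=
    continuousOn_P.continuousAt (isOpen_ne.mem_nhds hne)
  have hfc : ContinuousAt (fun t => (P (g t) : ℕ → Circle) 0) a := by
    have h1 : Continuous (fun x : Sol => (x : ℕ → Circle) 0) :=
      (continuous_apply 0).comp continuous_subtype_val
    have h2 : ContinuousAt (fun t => P (g t)) a := ContinuousAt.comp (f := g) (g := P) hPc hg.continuousAt
    exact ContinuousAt.comp (f := fun t => P (g t)) (g := fun x : Sol => (x : ℕ → Circle) 0)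
      h1.continuousAt h2
  have e1 : ∀ᶠ t in nhds a, (P (g t) : ℕ → Circle) 0 ≠ v := hfc.eventually_ne huv
  have hHc : ContinuousAt (fun t => H (g t)) a := (continuous_H.comp hg).continuousAt
  have e2 : ∀ᶠ t in nhds a, H (g t) < 1 / 2 := by
    apply hHc.eventually_lt continuousAt_const
    show H (g a) < 1 / 2
    rw [h0]; norm_num
  obtain ⟨ε, hε, hball⟩ := Metric.eventually_nhds_iff.1 (e1.and e2)
  refine ⟨ε, hε, ?_⟩
  intro t1 ht1
  by_contra hH
  obtain ⟨i, s1, hs1, hgt1⟩ := (H_ne_zero_iff (g t1)).1 hH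
  have gt1 : ∀ s : ℝ, 0 ≤ s → ∀ t : ℝ, |t - a| < ε → g t = ray i s → 1 < s := by
    intro s hs t ht hgt
    have h1 := (hball (y := t) (by rw [Real.dist_eq]; exact ht)).2
    rw [hgt, H_ray i s hs, div_lt_div_iff_of_pos_left one_pos (by linarith) (by norm_num)] at h1
    linarith
  have hs1' : 1 < s1 := gt1 s1 hs1 t1 ht1 hgt1
  have hW1 : W i (g t1) = s1 / (1 + s1) ^ 2 := by rw [hgt1, W_ray i s1 hs1]
  have hWa : W i (g a) = 0 := by rw [hx, W_sig]
  have hsg2 : sg i * sg i = 1 := by
    rcases sg_cases i with h | h <;> rw [h] <;> norm_num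
  -- choice of s2
  obtain ⟨s2, hs2, hs2v⟩ : ∃ s2 : ℝ, s1 ≤ s2 ∧
      (((xb i * phi (sg i * s2) : Sol) : ℕ → Circle) 0) = v := by
    obtain ⟨θ, hθ⟩ : ∃ θ : ℝ, Circle.exp θ = (((xb i : Sol) : ℕ → Circle) 0)⁻¹ * v :=
      ⟨Complex.arg _, Circle.exp_arg _⟩
    obtain ⟨n, hn⟩ := exists_nat_ge (s1 - sg i * (θ / (2 * Real.pi)))
    refine ⟨sg i * (θ / (2 * Real.pi)) + n, by linarith, ?_⟩
    have h1 : ((xb i * phi (sg i * (sg i * (θ / (2 * Real.pi)) + n)) : Sol) : ℕ → Circle) 0 =
        ((xb i : Sol) : ℕ → Circle) 0 *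
          Circle.exp (2 * Real.pi * (sg i * (sg i * (θ / (2 * Real.pi)) + n) / 2 ^ 0)) := rfl
    rw [h1]
    have h2 : Circle.exp (2 * Real.pi * (sg i * (sg i * (θ / (2 * Real.pi)) + n) / 2 ^ 0)) =
        Circle.exp θ := by
      rw [Circle.exp_eq_exp]
      have hp := Real.pi_pos
      rcases sg_cases i with h | h
      · refine ⟨n, ?_⟩
        rw [h]
        push_cast
        field_simp
      · refine ⟨-n, ?_⟩
        rw [h]
        push_cast
        field_simp
        ring
    rw [h2, hθ, mul_inv_cancel_left]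
  have hcont : Continuous (fun t => W i (g t)) := (continuous_W i).comp hg
  have hw2pos : 0 < s2 / (1 + s2) ^ 2 := by
    have : 0 < s2 := by linarith
    positivity
  have hs2pos : 0 < s2 := by linarith
  have hw2le : s2 / (1 + s2) ^ 2 ≤ s1 / (1 + s1) ^ 2 := by
    rw [div_le_div_iff₀ (by positivity) (by positivity)]
    have : (s2 - s1) * (1 - s1 * s2) ≤ 0 := by
      apply mul_nonpos_of_nonneg_of_nonpos (by linarith)
      nlinarith
    nlinarith
  have hivt := intermediate_value_uIcc (a := a) (b := t1) (hcont.continuousOn)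
  have hmem : s2 / (1 + s2) ^ 2 ∈ Set.uIcc (W i (g a)) (W i (g t1)) := by
    rw [hWa, hW1, Set.uIcc_of_le (by linarith)]
    exact ⟨hw2pos.le, hw2le⟩
  obtain ⟨t, ht, htw⟩ := hivt hmem
  have htw' : W i (g t) = s2 / (1 + s2) ^ 2 := htw
  have hta : |t - a| < ε := by
    have h1 := Set.abs_sub_left_of_mem_uIcc ht
    linarith [ht1]
  obtain ⟨s, hs, hgs⟩ := (W_pos_iff i (g t)).1 (by rw [htw']; exact hw2pos)
  have hs' := gt1 s hs.le t hta hgs
  rw [hgs, W_ray i s hs.le] at htw'
  have hss : s = s2 := by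
    have h1 : 0 < (1 + s) ^ 2 := by positivity
    have h2 : 0 < (1 + s2) ^ 2 := by
      have : 0 < s2 := by linarith
      positivity
    rw [div_eq_div_iff h1.ne' h2.ne'] at htw'
    have h3 : (s - s2) * (1 - s * s2) = 0 := by linarith
    rcases mul_eq_zero.1 h3 with h4 | h4
    · linarith
    · have : 1 < s * s2 := by nlinarith
      linarith
  have h5 := (hball (y := t) (by rw [Real.dist_eq]; exact hta)).1
  apply h5
  rw [hgs, P_ray i s hs, hss]
  exact hs2v

theorem path_dichotomy (g : ℝ → K) (hg : Continuous g) (t0 : ℝ) (h0 : H (g t0) = 0) :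
    ∀ t, H (g t) = 0 := by
  have hclosed : IsClosed {t | H (g t) = 0} :=
    isClosed_eq (continuous_H.comp hg) continuous_const
  have hopen : IsOpen {t | H (g t) = 0} := by
    rw [Metric.isOpen_iff]
    intro a ha
    obtain ⟨ε, hε, h⟩ := path_local g hg a ha
    refine ⟨ε, hε, ?_⟩
    intro t ht
    rw [Metric.mem_ball, Real.dist_eq] at ht
    exact h t ht
  have huniv := IsClopen.eq_univ ⟨hclosed, hopen⟩ ⟨t0, h0⟩
  intro t
  have : t ∈ {t | H (g t) = 0} := by rw [huniv]; trivial
  exact this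


end Pool.Agent.Helper182.Bing
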