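import Mathlib
import Pool.Agent.Helper182.BB2

set_option autoImplicit false

namespace Pool.Agent.Helper182.Bing


noncomputable def Vc (i : Fin 5) (k : K) : ℝ := (2 * W i k - ∑ j, W j k) / (H k) ^ 2

theorem sum_W_ray (i : Fin 5) (s : ℝ) (hs : 0 ≤ s) : ∑ j, W j (ray i s) = s / (1 + s) ^ 2 := by
  rw [Finset.sum_eq_single i]
  · exact W_ray i s hs
  · intro j _ hj
    exact W_ray_ne i j hj s
  · intro h
    exact absurd (Finset.mem_univ i) h

theorem Vc_ray (i : Fin 5) (s : ℝ) (hs : 0 ≤ s) : Vc i (ray i s) = s := by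
  unfold Vc
  rw [sum_W_ray i s hs, W_ray i s hs, H_ray i s hs]
  have : (1 + s) ≠ 0 := by positivity
  field_simp
  ring

theorem Vc_ray_ne (i j : Fin 5) (hij : i ≠ j) (s : ℝ) (hs : 0 ≤ s) : Vc i (ray j s) = -s := by
  unfold Vc
  rw [sum_W_ray j s hs, W_ray_ne j i hij s, H_ray j s hs]
  have : (1 + s) ≠ 0 := by positivity
  field_simp
  ring

theorem ray_zero_eq (i : Fin 5) : ray i 0 = cen := ray_nonpos i 0 (le_refl _)

theorem H_ray_ne (i : Fin 5) (s : ℝ) : H (ray i s) ≠ 0 := by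
  rw [H_ne_zero_iff]
  rcases le_total 0 s with h | h
  · exact ⟨i, s, h, rfl⟩
  · exact ⟨i, 0, le_refl _, by rw [ray_nonpos i s h, ray_zero_eq]⟩

theorem tree_lemma (f : K → K) (hf : Continuous f) (hfp : ∀ k, f k ≠ k)
    (hQ : ∀ k, H k ≠ 0 → H (f k) ≠ 0) :
    ∃ j : Fin 5, (∀ s, 0 < s → ∃ t, s < t ∧ f (ray j s) = ray j t) ∧
      ∀ i, i ≠ j → ∀ s t, 0 < s → 0 ≤ t → f (ray i s) = ray i t → t < s := by
  have hcont : ∀ i : Fin 5, Continuous (fun s : ℝ => Vc i (f (ray i s)) - s) := by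
    intro i
    have hfr : Continuous (fun s : ℝ => f (ray i s)) := hf.comp (continuous_ray i)
    have h1 : Continuous (fun s : ℝ => H (f (ray i s))) := continuous_H.comp hfr
    have h2 : ∀ j, Continuous (fun s : ℝ => W j (f (ray i s))) := fun j => (continuous_W j).comp hfr
    have h3 : Continuous (fun s : ℝ => Vc i (f (ray i s))) := by
      unfold Vc
      apply Continuous.div
      · exact (continuous_const.mul (h2 i)).sub (continuous_finset_sum _ (fun j _ => h2 j))
      · exact h1.pow 2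
      · intro s
        exact pow_ne_zero 2 (hQ _ (H_ray_ne i s))
    exact h3.sub continuous_id
  have hcen : ∃ (j : Fin 5) (S : ℝ), 0 < S ∧ f cen = ray j S := by
    have h1 : H (f cen) ≠ 0 := hQ _ (by rw [← ray_zero_eq 0]; exact H_ray_ne 0 0)
    obtain ⟨j, S, hS, hj⟩ := (H_ne_zero_iff _).1 h1
    refine ⟨j, S, lt_of_le_of_ne hS ?_, hj⟩
    intro h0
    apply hfp cen
    rw [hj, ← h0, ray_zero_eq]
  obtain ⟨j, S, hS, hfc⟩ := hcen
  have hnz : ∀ i : Fin 5, ∀ s : ℝ, 0 ≤ s → Vc i (f (ray i s)) - s ≠ 0 := by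
    intro i s hs h0
    rcases lt_or_eq_of_le hs with hpos | hz
    · obtain ⟨k, t, ht, hk⟩ := (H_ne_zero_iff _).1 (hQ _ (H_ray_ne i s))
      by_cases hik : i = k
      · subst hik
        rw [hk, Vc_ray i t ht] at h0
        apply hfp (ray i s)
        rw [hk]
        congr 1
        linarith
      · rw [hk, Vc_ray_ne i k hik t ht] at h0
        linarith
    · subst hz
      rw [ray_zero_eq, hfc] at h0
      by_cases hij : i = j
      · subst hij
        rw [Vc_ray i S hS.le] at h0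
        linarith
      · rw [Vc_ray_ne i j hij S hS.le] at h0
        linarith
  have hpos : ∀ s : ℝ, 0 ≤ s → 0 < Vc j (f (ray j s)) - s := by
    intro s hs
    by_contra hc
    push Not at hc
    have h0 : 0 ≤ Vc j (f (ray j 0)) - 0 := by
      rw [ray_zero_eq, hfc, Vc_ray j S hS.le]; linarith
    obtain ⟨u, hu, hu0⟩ := intermediate_value_Icc' hs ((hcont j).continuousOn) ⟨hc, h0⟩
    exact hnz j u hu.1 hu0
  have hneg : ∀ i : Fin 5, i ≠ j → ∀ s : ℝ, 0 ≤ s → Vc i (f (ray i s)) - s < 0 := by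
    intro i hij s hs
    by_contra hc
    push Not at hc
    have h0 : Vc i (f (ray i 0)) - 0 ≤ 0 := by
      rw [ray_zero_eq, hfc, Vc_ray_ne i j hij S hS.le]; linarith
    obtain ⟨u, hu, hu0⟩ := intermediate_value_Icc hs ((hcont i).continuousOn) ⟨h0, hc⟩
    exact hnz i u hu.1 hu0
  refine ⟨j, ?_, ?_⟩
  · intro s hs
    obtain ⟨k, t, ht, hk⟩ := (H_ne_zero_iff _).1 (hQ _ (H_ray_ne j s))
    have h1 := hpos s hs.le
    rw [hk] at h1
    by_cases hjk : j = k
    · subst hjk
      rw [Vc_ray j t ht] at h1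
      exact ⟨t, by linarith, hk⟩
    · rw [Vc_ray_ne j k hjk t ht] at h1
      linarith
  · intro i hij s t hs ht h
    have h1 := hneg i hij s hs.le
    rw [h, Vc_ray i t ht] at h1
    linarith


end Pool.Agent.Helper182.Bing
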