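import Mathlib
import Pool.Agent.Helper182.BA3
import Pool.Agent.Helper182.BB3
import Pool.Agent.Helper182.BB4

set_option autoImplicit false

namespace Pool.Agent.Helper182.Bing


theorem near_translation (f : K → K) (hf : Continuous f) (hfp : ∀ k, f k ≠ k)
    (hS : ∀ x : Sol, H (f (sig x)) = 0) :
    ∃ (η : ℝ) (b : Sol) (Ψ : K → ℝ), 0 < η ∧ η < 1 ∧ ContinuousOn Ψ {k : K | H k ≤ η} ∧
      ∀ k, H k ≤ η → f k ≠ cen ∧ P (f k) = P k * b * phi (Ψ k) := by
  classical
  have hcomp : CompactSpace K := compactSpace_K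
  have hcompS : CompactSpace Sol := compactSpace_Sol
  have hcenH : H cen = 1 := (H_eq_one_iff cen).2 rfl
  set U : Set K := {k | k ≠ cen ∧ f k ≠ cen} with hU
  have hUo : IsOpen U := by
    have h1 : IsOpen {k : K | k ≠ cen} := isOpen_ne
    have h2 : IsOpen {k : K | f k ≠ cen} := isOpen_ne.preimage hf
    exact h1.inter h2
  set G : K → Sol := fun k => P (f k) / P k with hG
  have hGc : ContinuousOn G U := by
    apply ContinuousOn.div'
    · exact continuousOn_P.comp hf.continuousOn (fun k hk => hk.2)
    · exact continuousOn_P.mono (fun k hk => hk.1)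
  have hcoord : ∀ n : ℕ, Continuous (fun x : Sol => (x : ℕ → Circle) n) := fun n =>
    (continuous_apply n).comp continuous_subtype_val
  set O : ℕ → Set K := fun n => U ∩ (fun k => (G k : ℕ → Circle) n) ⁻¹' {1}ᶜ with hO
  have hOo : ∀ n, IsOpen (O n) := by
    intro n
    have : ContinuousOn (fun k => (G k : ℕ → Circle) n) U := (hcoord n).comp_continuousOn hGc
    exact this.isOpen_inter_preimage hUo isOpen_compl_singleton
  have hOm : Monotone O := by
    apply monotone_nat_of_le_succ
    intro n k hk
    refine ⟨hk.1, ?_⟩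
    have h2 := hk.2
    simp only [Set.mem_preimage, Set.mem_compl_iff, Set.mem_singleton_iff] at h2 ⊢
    intro h3
    apply h2
    have h4 : (G k : ℕ → Circle) (n + 1) ^ 2 = (G k : ℕ → Circle) n := (mem_Sol _).1 (G k).2 n
    rw [← h4, h3, one_pow]
  have hcov : Set.range sig ⊆ ⋃ n, O n := by
    rintro _ ⟨x, rfl⟩
    obtain ⟨y, hy⟩ := (H_eq_zero_iff _).1 (hS x)
    have hyx : y ≠ x := by
      intro h
      apply hfp (sig x)
      rw [hy, h]
    have hx1 : sig x ≠ cen := by
      intro h
      have := H_sig x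
      rw [h, hcenH] at this
      norm_num at this
    have hy1 : f (sig x) ≠ cen := by
      intro h
      have := hS x
      rw [h, hcenH] at this
      norm_num at this
    have hGx : G (sig x) = y / x := by
      simp only [hG]
      rw [hy, P_sig, P_sig]
    have hne : (y / x : Sol) ≠ 1 := by
      intro h
      exact hyx (div_eq_one.1 h)
    have hex : ∃ n, ((y / x : Sol) : ℕ → Circle) n ≠ 1 := by
      by_contra hcon
      push Not at hcon
      apply hne
      apply Subtype.ext
      funext n
      rw [hcon n]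
      rfl
    obtain ⟨n, hn⟩ := hex
    refine Set.mem_iUnion.2 ⟨n, ⟨hx1, hy1⟩, ?_⟩
    simp only [Set.mem_preimage, Set.mem_compl_iff, Set.mem_singleton_iff]
    rw [hGx]
    exact hn
  obtain ⟨n, hn⟩ := (isCompact_range continuous_sig).elim_directed_cover O hOo hcov
    hOm.directed_le
  have hη : ∃ η : ℝ, 0 < η ∧ η < 1 ∧ ∀ k, H k ≤ η → k ∈ O n := by
    by_cases hE : (O n)ᶜ = ∅
    · refine ⟨1/2, by norm_num, by norm_num, fun k _ => ?_⟩
      rw [Set.compl_empty_iff] at hE
      rw [hE]
      trivial
    · have hne : (O n)ᶜ.Nonempty := Set.nonempty_iff_ne_empty.2 hE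
      have hcO : IsCompact (O n)ᶜ := (hOo n).isClosed_compl.isCompact
      obtain ⟨k0, hk0, hmin⟩ := hcO.exists_isMinOn hne continuous_H.continuousOn
      have hpos : 0 < H k0 := by
        rcases lt_or_eq_of_le (H_mem k0).1 with h | h
        · exact h
        · exfalso
          obtain ⟨x, hx⟩ := (H_eq_zero_iff k0).1 h.symm
          exact hk0 (hn ⟨x, hx.symm⟩)
      refine ⟨min (H k0 / 2) (1/2), by positivity, lt_of_le_of_lt (min_le_right _ _) (by norm_num),
        fun k hk => ?_⟩
      by_contra hcon
      have h1 : H k0 ≤ H k := hmin hcon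
      have h2 := hk.trans (min_le_left _ _)
      linarith
  obtain ⟨η, hη0, hη1, hη⟩ := hη
  set lift : Circle → ℝ := fun u => 1/2 + Complex.arg (-(u:ℂ)) / (2 * Real.pi) with hlift
  have hlift_exp : ∀ u : Circle, Circle.exp (2 * Real.pi * lift u) = u := by
    intro u
    have h1 : 2 * Real.pi * lift u = Real.pi + Complex.arg (-(u:ℂ)) := by
      simp only [hlift]
      field_simp
      try ring
    rw [h1, Circle.exp_add]
    apply Circle.ext
    have h2 : (Circle.exp (Complex.arg (-(u:ℂ))) : ℂ) = -(u:ℂ) := by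
      rw [Circle.coe_exp]
      have := Complex.norm_mul_exp_arg_mul_I (-(u:ℂ))
      rw [norm_neg, Circle.norm_coe] at this
      simpa using this
    rw [Circle.coe_mul, h2, Circle.coe_exp, Complex.exp_pi_mul_I]
    ring
  have hlift_cont : ContinuousOn lift {u : Circle | u ≠ 1} := by
    intro u hu
    apply ContinuousAt.continuousWithinAt
    have hsl : -(u:ℂ) ∈ Complex.slitPlane := by
      rw [Complex.mem_slitPlane_iff]
      by_contra hcon
      push Not at hcon
      obtain ⟨hre, him⟩ := hcon
      simp only [Complex.neg_re, Complex.neg_im] at hre him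
      apply hu
      apply Circle.ext
      have hn1 : (u:ℂ).re ^ 2 + (u:ℂ).im ^ 2 = 1 := by
        have := Circle.norm_coe u
        have h3 : Complex.normSq (u:ℂ) = 1 := by
          rw [Complex.normSq_eq_norm_sq, this]; norm_num
        rw [Complex.normSq_apply] at h3
        nlinarith
      have him0 : (u:ℂ).im = 0 := by linarith
      have hre1 : (u:ℂ).re = 1 := by
        rw [him0] at hn1
        nlinarith
      apply Complex.ext
      · simpa using hre1
      · simpa using him0
    have h1 : ContinuousAt (fun v : Circle => Complex.arg (-(v:ℂ))) u := by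
      have h2 : ContinuousAt (fun v : Circle => -(v:ℂ)) u :=
        (Continuous.neg (by fun_prop)).continuousAt
      exact ContinuousAt.comp (f := fun v : Circle => -(v:ℂ)) (Complex.continuousAt_arg hsl) h2
    exact (continuousAt_const.add (h1.div_const _))
  set Ψ : K → ℝ := fun k => 2 ^ n * lift ((G k : ℕ → Circle) n) with hΨ
  have hsub : {k : K | H k ≤ η} ⊆ O n := fun k hk => hη k hk
  have hΨc : ContinuousOn Ψ {k : K | H k ≤ η} := by
    apply ContinuousOn.mul continuousOn_const
    apply hlift_cont.comp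
    · exact ((hcoord n).comp_continuousOn hGc).mono (fun k hk => (hsub hk).1)
    · intro k hk
      exact (hsub hk).2
  have hphi : ∀ k, ((phi (Ψ k) : Sol) : ℕ → Circle) n = (G k : ℕ → Circle) n := by
    intro k
    show Circle.exp (2 * Real.pi * (Ψ k / 2 ^ n)) = _
    have : Ψ k / 2 ^ n = lift ((G k : ℕ → Circle) n) := by
      simp only [hΨ]
      field_simp
    rw [this, hlift_exp]
  set B : K → Sol := fun k => G k / phi (Ψ k) with hB
  have hBc : ContinuousOn B {k : K | H k ≤ η} := by
    apply ContinuousOn.div'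
    · exact hGc.mono (fun k hk => (hsub hk).1)
    · exact continuous_phi.comp_continuousOn hΨc
  have hB1 : ∀ k ∈ {k : K | H k ≤ η}, (B k : ℕ → Circle) n = 1 := by
    intro k _
    have : (B k : ℕ → Circle) n = (G k : ℕ → Circle) n / ((phi (Ψ k) : Sol) : ℕ → Circle) n := by
      simp only [hB]
      rfl
    rw [this, hphi, div_self']
  have hconst := coord_const {k : K | H k ≤ η} (preconn_eta η hη0 hη1.le) B hBc n hB1
  have hs1 : sig 1 ∈ {k : K | H k ≤ η} := by
    show H (sig 1) ≤ η
    rw [H_sig]
    exact hη0.le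
  refine ⟨η, B (sig 1), Ψ, hη0, hη1, hΨc, fun k hk => ?_⟩
  have hkO := hη k hk
  refine ⟨hkO.1.2, ?_⟩
  have h1 : B k = B (sig 1) := hconst k hk _ hs1
  rw [← h1]
  simp only [hB, hG]
  rw [mul_assoc, div_mul_cancel, mul_div_cancel]


end Pool.Agent.Helper182.Bing
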