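import Mathlib
import Pool.Agent.Helper182.BDefs

set_option autoImplicit false

namespace Pool.Agent.Helper182.Bing


def avZ : Fin 5 → Fin 7 → ℤ :=
  ![![1,2,3,3,3,3,3], ![1,1,1,2,3,3,3], ![1,1,1,1,1,2,3], ![0,-1,-2,-3,-3,-3,-3], ![1,1,1,1,0,-1,-2]]

def LvZ : Fin 7 → Fin 5 := ![3,0,3,1,4,2,4]

def cvZ (i : Fin 5) (m : Fin 7) : ℤ := (-1) ^ (m : ℕ) * (if LvZ m = i then -1 else 1)

noncomputable def clZ (k : ℕ) (y : ℝ) : ℝ := max ((k : ℝ) - 1 / 2) (min y ((k : ℝ) + 1 / 2))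

noncomputable def ffZ (i : Fin 5) (y : ℝ) : ℝ :=
  (avZ i 0 : ℝ) + ∑ k : Fin 7, (cvZ i k : ℝ) * (clZ k y - clZ k 0)

theorem clZ_cont (k : ℕ) : Continuous (clZ k) := by
  unfold clZ
  fun_prop

theorem ffZ_cont (i : Fin 5) : Continuous (ffZ i) := by
  unfold ffZ
  have := clZ_cont
  fun_prop

theorem clZ_lt (k : ℕ) (y : ℝ) (h : y ≤ (k : ℝ) - 1 / 2) : clZ k y = (k : ℝ) - 1 / 2 := by
  unfold clZ
  rw [min_eq_left (by linarith), max_eq_left h]

theorem clZ_gt (k : ℕ) (y : ℝ) (h : (k : ℝ) + 1 / 2 ≤ y) : clZ k y = (k : ℝ) + 1 / 2 := by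
  unfold clZ
  rw [min_eq_right h, max_eq_right (by linarith)]

theorem clZ_mid (k : ℕ) (y : ℝ) (h1 : (k : ℝ) - 1 / 2 ≤ y) (h2 : y ≤ (k : ℝ) + 1 / 2) :
    clZ k y = y := by
  unfold clZ
  rw [min_eq_left h2, max_eq_right h1]

/-- twice the increment of the integer part -/
def incZ (m k : Fin 7) : ℤ :=
  (if k < m then (k : ℤ) * 2 + 1 else if k = m then 0 else (k : ℤ) * 2 - 1) -
    (if k = 0 then 0 else (k : ℤ) * 2 - 1)

theorem decZ : ∀ (i : Fin 5) (m : Fin 7),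
    2 * avZ i 0 + ∑ k : Fin 7, cvZ i k * incZ m k = 2 * avZ i m - cvZ i m * (2 * (m : ℤ)) := by
  decide

theorem clZ_diff (m k : Fin 7) (y : ℝ) (h1 : (m : ℝ) - 1 / 2 ≤ y) (h2 : y ≤ (m : ℝ) + 1 / 2) :
    clZ k y - clZ k 0 = (incZ m k : ℝ) / 2 + (if k = m then y else 0) := by
  have h0 : clZ k 0 = ((if k = 0 then 0 else (k : ℤ) * 2 - 1 : ℤ) : ℝ) / 2 := by
    by_cases hk : k = 0
    · subst hk
      rw [clZ_mid _ _ (by norm_num) (by norm_num)]
      simp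
    · have hk1 : 1 ≤ (k : ℕ) := by
        rcases Nat.eq_zero_or_pos (k : ℕ) with h | h
        · exact absurd (Fin.ext h) hk
        · exact h
      have hk2 : (1 : ℝ) ≤ ((k : ℕ) : ℝ) := by exact_mod_cast hk1
      rw [clZ_lt _ _ (by linarith), if_neg hk]
      push_cast
      ring
  rw [h0]
  unfold incZ
  rcases lt_trichotomy k m with h | h | h
  · have h' : ((k : ℕ) : ℝ) + 1 ≤ ((m : ℕ) : ℝ) := by
      have : (k : ℕ) + 1 ≤ (m : ℕ) := h
      exact_mod_cast this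
    rw [clZ_gt _ _ (by linarith), if_pos h, if_neg h.ne]
    push_cast
    ring
  · subst h
    rw [clZ_mid _ _ h1 h2, if_neg (lt_irrefl _), if_pos rfl, if_pos rfl]
    push_cast
    ring
  · have h' : ((m : ℕ) : ℝ) + 1 ≤ ((k : ℕ) : ℝ) := by
      have : (m : ℕ) + 1 ≤ (k : ℕ) := h
      exact_mod_cast this
    rw [clZ_lt _ _ (by linarith), if_neg (not_lt.mpr h.le), if_neg h.ne', if_neg h.ne']
    push_cast
    ring

theorem ffZ_eq (i : Fin 5) (m : Fin 7) (y : ℝ) (h1 : (m : ℝ) - 1 / 2 ≤ y)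
    (h2 : y ≤ (m : ℝ) + 1 / 2) : ffZ i y = avZ i m + cvZ i m * (y - m) := by
  unfold ffZ
  have e1 : ∑ k : Fin 7, (cvZ i k : ℝ) * (clZ k y - clZ k 0) =
      (∑ k : Fin 7, (cvZ i k : ℝ) * (incZ m k : ℝ)) / 2 + cvZ i m * y := by
    rw [Finset.sum_congr rfl (fun k _ => by rw [clZ_diff m k y h1 h2])]
    simp only [mul_add, Finset.sum_add_distrib]
    congr 1
    · rw [Finset.sum_div]
      refine Finset.sum_congr rfl fun k _ => by ring
    · simp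
  rw [e1]
  have e2 := decZ i m
  have e3 : (2 * (avZ i 0 : ℝ) + ∑ k : Fin 7, (cvZ i k : ℝ) * (incZ m k : ℝ)) =
      2 * (avZ i m : ℝ) - cvZ i m * (2 * (m : ℝ)) := by
    exact_mod_cast e2
  linarith

theorem parZ : ∀ (i : Fin 5) (m : Fin 7), (i = LvZ m → avZ i m % 2 = 0) ∧ (i ≠ LvZ m → avZ i m % 2 = 1) := by
  decide

theorem bdZ : ∀ (i : Fin 5) (m : Fin 7), -3 ≤ avZ i m ∧ avZ i m ≤ 3 ∧ (cvZ i m = 1 ∨ cvZ i m = -1) := by
  decide

theorem exm (y : ℝ) (h0 : 0 ≤ y) (h6 : y ≤ 6) : ∃ m : Fin 7, (m : ℝ) - 1 / 2 ≤ y ∧ y ≤ (m : ℝ) + 1 / 2 := by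
  have hr := abs_sub_round y
  rw [abs_le] at hr
  have h1 : 0 ≤ round y := by
    by_contra hc
    push Not at hc
    have : round y ≤ -1 := by omega
    have : (round y : ℝ) ≤ -1 := by exact_mod_cast this
    linarith [hr.2]
  have h2 : round y ≤ 6 := by
    by_contra hc
    push Not at hc
    have : 7 ≤ round y := by omega
    have : (7 : ℝ) ≤ (round y : ℝ) := by exact_mod_cast this
    linarith [hr.1]
  refine ⟨⟨(round y).toNat, by omega⟩, ?_⟩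
  have e : (((⟨(round y).toNat, by omega⟩ : Fin 7) : ℕ) : ℝ) = (round y : ℝ) := by
    simp only
    have : ((round y).toNat : ℤ) = round y := Int.toNat_of_nonneg h1
    exact_mod_cast this
  rw [e]
  constructor <;> linarith [hr.1, hr.2]

theorem cosZ (i : Fin 5) (m : Fin 7) (y : ℝ) (h1 : (m : ℝ) - 1 / 2 ≤ y)
    (h2 : y ≤ (m : ℝ) + 1 / 2) :
    Real.cos (Real.pi * ffZ i y) = (if i = LvZ m then 1 else -1) * |Real.cos (Real.pi * y)| := by
  rw [ffZ_eq i m y h1 h2]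
  have hpos : 0 ≤ Real.cos (Real.pi * (y - m)) := by
    apply Real.cos_nonneg_of_mem_Icc
    constructor <;> nlinarith [Real.pi_pos]
  have hy : Real.cos (Real.pi * y) = (-1) ^ (m : ℕ) * Real.cos (Real.pi * (y - m)) := by
    have : Real.pi * y = Real.pi * (y - m) + (m : ℕ) * Real.pi := by ring
    rw [this, Real.cos_add_nat_mul_pi]
  have habs : |Real.cos (Real.pi * y)| = Real.cos (Real.pi * (y - m)) := by
    rw [hy, abs_mul, abs_pow, abs_neg, abs_one, one_pow, one_mul, abs_of_nonneg hpos]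
  rw [habs]
  have hc : Real.cos (Real.pi * (avZ i m + cvZ i m * (y - m))) =
      (-1) ^ (avZ i m) * Real.cos (Real.pi * (y - m)) := by
    have : Real.pi * ((avZ i m : ℝ) + cvZ i m * (y - m)) =
        (avZ i m : ℝ) * Real.pi + cvZ i m * (Real.pi * (y - m)) := by ring
    rw [this, Real.cos_add, Real.sin_int_mul_pi, Real.cos_int_mul_pi, zero_mul, sub_zero]
    congr 1
    rcases (bdZ i m).2.2 with h | h <;> rw [h] <;> simp
  rw [hc]
  congr 1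
  by_cases h : i = LvZ m
  · rw [if_pos h]
    exact (Int.even_iff.mpr ((parZ i m).1 h)).neg_one_zpow
  · rw [if_neg h]
    exact (Int.odd_iff.mpr ((parZ i m).2 h)).neg_one_zpow

theorem sinZ (i : Fin 5) (m : Fin 7) (y : ℝ) (h1 : (m : ℝ) - 1 / 2 ≤ y)
    (h2 : y ≤ (m : ℝ) + 1 / 2) :
    Real.sin (Real.pi * ffZ i y) = - Real.sin (Real.pi * y) := by
  rw [ffZ_eq i m y h1 h2]
  have hy : Real.sin (Real.pi * y) = (-1) ^ (m : ℕ) * Real.sin (Real.pi * (y - m)) := by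
    have : Real.pi * y = Real.pi * (y - m) + (m : ℕ) * Real.pi := by ring
    rw [this, Real.sin_add_nat_mul_pi]
  rw [hy]
  have hc : Real.sin (Real.pi * (avZ i m + cvZ i m * (y - m))) =
      (-1) ^ (avZ i m) * (cvZ i m * Real.sin (Real.pi * (y - m))) := by
    have : Real.pi * ((avZ i m : ℝ) + cvZ i m * (y - m)) =
        (avZ i m : ℝ) * Real.pi + cvZ i m * (Real.pi * (y - m)) := by ring
    rw [this, Real.sin_add, Real.sin_int_mul_pi, Real.cos_int_mul_pi, zero_mul, zero_add]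
    congr 1
    rcases (bdZ i m).2.2 with h | h <;> rw [h] <;> simp
  rw [hc]
  unfold cvZ
  by_cases h : i = LvZ m
  · rw [if_pos h.symm, (Int.even_iff.mpr ((parZ i m).1 h)).neg_one_zpow]
    push_cast
    ring
  · rw [if_neg (Ne.symm h), (Int.odd_iff.mpr ((parZ i m).2 h)).neg_one_zpow]
    push_cast
    ring

theorem zigzag : ∃ f : Fin 5 → ℝ → ℝ, (∀ i, Continuous (f i)) ∧
    (∀ i y, 0 ≤ y → y ≤ 6 → Real.sin (Real.pi * f i y) = - Real.sin (Real.pi * y)) ∧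
    (∀ y, 0 ≤ y → y ≤ 6 → ∃ i0 : Fin 5,
      Real.cos (Real.pi * f i0 y) = |Real.cos (Real.pi * y)| ∧
      ∀ i, i ≠ i0 → Real.cos (Real.pi * f i y) = - |Real.cos (Real.pi * y)|) ∧
    (f 0 0 = 1 ∧ f 1 0 = 1 ∧ f 2 0 = 1 ∧ f 3 0 = 0 ∧ f 4 0 = 1) ∧
    (f 0 6 = 3 ∧ f 1 6 = 3 ∧ f 2 6 = 3 ∧ f 3 6 = -3 ∧ f 4 6 = -2) ∧
    (∀ i y, 0 ≤ y → y ≤ 6 → |f i y| ≤ 4) := by
  refine ⟨ffZ, ffZ_cont, ?_, ?_, ?_, ?_, ?_⟩
  · intro i y h0 h6
    obtain ⟨m, h1, h2⟩ := exm y h0 h6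
    exact sinZ i m y h1 h2
  · intro y h0 h6
    obtain ⟨m, h1, h2⟩ := exm y h0 h6
    refine ⟨LvZ m, ?_, ?_⟩
    · rw [cosZ _ m y h1 h2, if_pos rfl, one_mul]
    · intro i hi
      rw [cosZ _ m y h1 h2, if_neg hi, neg_one_mul]
  · have h : ∀ i, ffZ i 0 = avZ i 0 := by
      intro i
      rw [ffZ_eq i 0 0 (by norm_num) (by norm_num)]
      simp
    simp only [h]
    simp [avZ]
  · have h : ∀ i, ffZ i 6 = avZ i 6 := by
      intro i
      rw [ffZ_eq i 6 6 (by norm_num [Fin.val]) (by norm_num [Fin.val])]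
      norm_num [Fin.val]
    simp only [h]
    simp [avZ]
  · intro i y h0 h6
    obtain ⟨m, h1, h2⟩ := exm y h0 h6
    rw [ffZ_eq i m y h1 h2]
    obtain ⟨ha, hb, hc⟩ := bdZ i m
    have ha' : (-3 : ℝ) ≤ avZ i m := by exact_mod_cast ha
    have hb' : (avZ i m : ℝ) ≤ 3 := by exact_mod_cast hb
    rw [abs_le]
    rcases hc with h | h <;> rw [h] <;> push_cast <;> constructor <;> linarith


end Pool.Agent.Helper182.Bing
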