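import Mathlib
import Pool.Agent.Helper182.BA1
import Pool.Agent.Helper182.BD1

set_option autoImplicit false

namespace Pool.Agent.Helper182.Bing


noncomputable def lamB (t : ℝ) : ℝ := max 0 (min 1 (3 * t - 1))

noncomputable def sbB (h : ℝ) : ℝ := min 1 ((1 - h) / max h (1 / 2))

noncomputable def AB (i : Fin 5) (t : ℝ) : ℝ :=
  Real.pi * ((1 + sg i) / 2) + 2 * Real.pi * (sg i * lamB t)

noncomputable def alB (f : Fin 5 → ℝ → ℝ) (i : Fin 5) (p : ℝ × ℝ) : ℝ :=
  (1 - sbB p.1) * (Real.pi * f i (6 * lamB p.2)) + sbB p.1 * AB i p.2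

theorem lamB_cont : Continuous lamB := by unfold lamB; fun_prop

theorem sbB_cont : Continuous sbB := by
  unfold sbB
  refine continuous_const.min ((continuous_const.sub continuous_id).div
    (continuous_id.max continuous_const) fun x => ?_)
  have : (1 / 2 : ℝ) ≤ max x (1 / 2) := le_max_right _ _
  linarith

theorem AB_cont (i : Fin 5) : Continuous (AB i) := by
  unfold AB
  exact continuous_const.add (continuous_const.mul (continuous_const.mul lamB_cont))

theorem alB_cont (f : Fin 5 → ℝ → ℝ) (hf : ∀ i, Continuous (f i)) (i : Fin 5) :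
    Continuous (alB f i) := by
  have h1 : Continuous (fun p : ℝ × ℝ => sbB p.1) := sbB_cont.comp continuous_fst
  have h2 : Continuous (fun p : ℝ × ℝ => f i (6 * lamB p.2)) :=
    (hf i).comp (continuous_const.mul (lamB_cont.comp continuous_snd))
  have h3 : Continuous (fun p : ℝ × ℝ => AB i p.2) := (AB_cont i).comp continuous_snd
  exact ((continuous_const.sub h1).mul (continuous_const.mul h2)).add (h1.mul h3)

theorem lamB_mem (t : ℝ) : 0 ≤ lamB t ∧ lamB t ≤ 1 :=
  ⟨le_max_left _ _, max_le zero_le_one (min_le_left _ _)⟩

theorem lamB_lo {t : ℝ} (h : t ≤ 1 / 3) : lamB t = 0 := by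
  unfold lamB
  apply max_eq_left
  exact (min_le_right _ _).trans (by linarith)

theorem lamB_hi {t : ℝ} (h : 2 / 3 ≤ t) : lamB t = 1 := by
  unfold lamB
  rw [min_eq_left (by linarith)]
  norm_num

theorem sbB_mem {h : ℝ} (h1 : h ≤ 1) : 0 ≤ sbB h ∧ sbB h ≤ 1 := by
  refine ⟨le_min zero_le_one (div_nonneg (by linarith) ?_), min_le_left _ _⟩
  exact le_trans (by norm_num) (le_max_right _ _)

theorem sbB_zero : sbB 0 = 1 := by
  unfold sbB
  rw [max_eq_right (by norm_num)]
  norm_num

theorem sbB_one : sbB 1 = 0 := by
  unfold sbB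
  norm_num

theorem sbB_le {h : ℝ} (h0 : 0 < h) (h1 : h ≤ 1) : sbB h ≤ 1 / h - 1 := by
  calc sbB h ≤ (1 - h) / max h (1 / 2) := min_le_right _ _
    _ ≤ (1 - h) / h := div_le_div_of_nonneg_left (by linarith) h0 (le_max_left _ _)
    _ = 1 / h - 1 := by field_simp

theorem sin_nonpos_B {x : ℝ} (h1 : -(3 * Real.pi) ≤ x) (h2 : x ≤ -(2 * Real.pi)) :
    Real.sin x ≤ 0 := by
  have h3 : Real.sin x = - Real.sin (-(x + 2 * Real.pi)) := by
    rw [Real.sin_neg, neg_neg, Real.sin_add_two_pi]
  rw [h3]
  have := Real.sin_nonneg_of_nonneg_of_le_pi (x := -(x + 2 * Real.pi)) (by linarith)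
    (by linarith)
  linarith

theorem cos_lip_B (x y : ℝ) : Real.cos y - |x - y| ≤ Real.cos x := by
  have h := Real.abs_cos_sub_cos_le x y
  have := abs_le.1 h
  linarith [this.1]

theorem real_data : ∃ (d e : Fin 5 → ℝ × ℝ → ℝ) (m : Fin 5 → ℝ → ℝ),
    (∀ i, Continuous (d i)) ∧ (∀ i, Continuous (e i)) ∧ (∀ i, Continuous (m i)) ∧
    (∀ i p, |d i p| ≤ 1 / 2) ∧
    (∀ i p, d i p ≠ 0 ∨ e i p ≠ 0) ∧
    (∀ i h t, 0 ≤ h → h ≤ 1 → 0 ≤ t → t ≤ 1 → 0 ≤ t + e i (h, t) ∧ t + e i (h, t) ≤ 1) ∧
    (∀ i j t, 0 ≤ t → t ≤ 1 → sg i * d i (0, t) = sg j * d j (0, t) ∧ e i (0, t) = e j (0, t)) ∧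
    (∀ i j t, 0 ≤ t → t ≤ 1 → e i (1, t) = e j (1, t)) ∧
    (∀ t, 0 ≤ t → t ≤ 1 → ∃ i0 : Fin 5, 0 ≤ m i0 t ∧ d i0 (1, t) = m i0 t ∧
      (∀ j, j ≠ i0 → m j t = 0 ∧ d j (1, t) = - m i0 t) ∧
      ∀ h, 0 < h → h ≤ 1 → 0 ≤ 1 / h - 1 + d i0 (h, t)) := by
  obtain ⟨f, hf, hsin, hcos, h0, h6, hbd⟩ := zigzag
  have hpi := Real.pi_pos
  have hy : ∀ t, 0 ≤ 6 * lamB t ∧ 6 * lamB t ≤ 6 := fun t => by
    obtain ⟨a, b⟩ := lamB_mem t
    constructor <;> linarith
  refine ⟨fun i p => 1 / 30 * Real.cos (alB f i p), fun i p => 1 / 30 * Real.sin (alB f i p),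
    fun i t => 1 / 30 * max 0 (Real.cos (Real.pi * f i (6 * lamB t))), ?_, ?_, ?_, ?_, ?_, ?_, ?_,
    ?_, ?_⟩
  · intro i
    exact continuous_const.mul (Real.continuous_cos.comp (alB_cont f hf i))
  · intro i
    exact continuous_const.mul (Real.continuous_sin.comp (alB_cont f hf i))
  · intro i
    exact continuous_const.mul (continuous_const.max (Real.continuous_cos.comp
      (continuous_const.mul ((hf i).comp (continuous_const.mul lamB_cont)))))
  · intro i p
    rw [abs_mul]
    have := Real.abs_cos_le_one (alB f i p)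
    rw [abs_of_nonneg (by norm_num : (0 : ℝ) ≤ 1 / 30)]
    linarith
  · intro i p
    by_contra hc
    push Not at hc
    obtain ⟨h1, h2⟩ := hc
    have h1' : Real.cos (alB f i p) = 0 := by
      have : (1 / 30 : ℝ) * Real.cos (alB f i p) = 0 := h1
      linarith
    have h2' : Real.sin (alB f i p) = 0 := by
      have : (1 / 30 : ℝ) * Real.sin (alB f i p) = 0 := h2
      linarith
    have := Real.sin_sq_add_cos_sq (alB f i p)
    rw [h1', h2'] at this
    norm_num at this
  · intro i h t hh0 hh1 ht0 ht1
    obtain ⟨s0, s1⟩ := sbB_mem hh1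
    have hs := Real.abs_sin_le_one (alB f i (h, t))
    obtain ⟨hs1, hs2⟩ := abs_le.1 hs
    simp only
    rcases le_total t (1 / 3) with ht | ht
    · have hsn : 0 ≤ Real.sin (alB f i (h, t)) := by
        have hA : 0 ≤ alB f i (h, t) ∧ alB f i (h, t) ≤ Real.pi := by
          unfold alB AB
          simp only
          rw [lamB_lo ht]
          obtain ⟨e0, e1, e2, e3, e4⟩ := h0
          fin_cases i
          · simp only [sg, mul_zero]
            simp
            rw [e0]
            constructor <;> nlinarith
          · simp only [sg, mul_zero]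
            simp
            rw [e1]
            constructor <;> nlinarith
          · simp only [sg, mul_zero]
            simp
            rw [e2]
            constructor <;> nlinarith
          · simp only [sg, mul_zero]
            simp
            rw [e3]
            constructor <;> nlinarith
          · simp only [sg, mul_zero]
            simp
            rw [e4]
            constructor <;> nlinarith
        exact Real.sin_nonneg_of_nonneg_of_le_pi hA.1 hA.2
      constructor <;> linarith
    · rcases le_total (2 / 3) t with ht' | ht'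
      · have hsn : Real.sin (alB f i (h, t)) ≤ 0 := by
          obtain ⟨e0, e1, e2, e3, e4⟩ := h6
          have h3pi : Real.sin (3 * Real.pi) = 0 := by
            have := Real.sin_nat_mul_pi 3
            simpa using this
          have key : alB f i (h, t) = 3 * Real.pi ∨
              (-(3 * Real.pi) ≤ alB f i (h, t) ∧ alB f i (h, t) ≤ -(2 * Real.pi)) := by
            unfold alB AB
            simp only
            rw [lamB_hi ht']
            fin_cases i
            · left
              simp only [sg, mul_one]
              simp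
              rw [e0]
              ring
            · left
              simp only [sg, mul_one]
              simp
              rw [e1]
              ring
            · left
              simp only [sg, mul_one]
              simp
              rw [e2]
              ring
            · right
              simp only [sg, mul_one]
              simp
              rw [e3]
              constructor <;> nlinarith
            · right
              simp only [sg, mul_one]
              simp
              rw [e4]
              constructor <;> nlinarith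
          rcases key with h | ⟨ha, hb⟩
          · rw [h, h3pi]
          · exact sin_nonpos_B ha hb
        constructor <;> linarith
      · constructor <;> linarith
  · intro i j t _ _
    have hA : ∀ i, alB f i (0, t) = AB i t := by
      intro i
      unfold alB
      simp only
      rw [sbB_zero]
      ring
    have hc : ∀ i, sg i * (1 / 30 * Real.cos (alB f i (0, t))) =
        -(1 / 30 * Real.cos (2 * Real.pi * lamB t)) ∧
        (1 / 30 : ℝ) * Real.sin (alB f i (0, t)) = -(1 / 30 * Real.sin (2 * Real.pi * lamB t)) := by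
      intro i
      rw [hA i]
      unfold AB
      rcases sg_cases i with h | h
      · rw [h]
        have : Real.pi * ((1 + 1) / 2) + 2 * Real.pi * (1 * lamB t) =
            2 * Real.pi * lamB t + Real.pi := by ring
        rw [this, Real.cos_add_pi, Real.sin_add_pi]
        constructor <;> ring
      · rw [h]
        have : Real.pi * ((1 + -1) / 2) + 2 * Real.pi * (-1 * lamB t) =
            -(2 * Real.pi * lamB t) := by ring
        rw [this, Real.cos_neg, Real.sin_neg]
        constructor <;> ring
    exact ⟨by rw [(hc i).1, (hc j).1], by simp only; rw [(hc i).2, (hc j).2]⟩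
  · intro i j t _ _
    have hA : ∀ i, (1 / 30 : ℝ) * Real.sin (alB f i (1, t)) =
        1 / 30 * (-Real.sin (Real.pi * (6 * lamB t))) := by
      intro i
      unfold alB
      simp only
      rw [sbB_one, sub_zero, one_mul, zero_mul, add_zero, hsin i _ (hy t).1 (hy t).2]
    simp only
    rw [hA i, hA j]
  · intro t _ _
    obtain ⟨i0, hi0, hj⟩ := hcos (6 * lamB t) (hy t).1 (hy t).2
    have hA : ∀ i, alB f i (1, t) = Real.pi * f i (6 * lamB t) := by
      intro i
      unfold alB
      simp only
      rw [sbB_one]
      ring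
    have habs := abs_nonneg (Real.cos (Real.pi * (6 * lamB t)))
    refine ⟨i0, ?_, ?_, ?_, ?_⟩
    · exact mul_nonneg (by norm_num) (le_max_left _ _)
    · simp only
      rw [hA i0, hi0, max_eq_right habs]
    · intro j hji
      simp only
      rw [hA j, hj j hji, hi0, max_eq_right habs, max_eq_left (by linarith)]
      constructor <;> ring
    · intro h hh0 hh1
      simp only
      obtain ⟨s0, s1⟩ := sbB_mem hh1
      have hsl := sbB_le hh0 hh1
      have hl := cos_lip_B (alB f i0 (h, t)) (Real.pi * f i0 (6 * lamB t))
      have hd : alB f i0 (h, t) - Real.pi * f i0 (6 * lamB t) =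
          sbB h * (AB i0 t - Real.pi * f i0 (6 * lamB t)) := by
        unfold alB
        simp only
        ring
      have hAb : |AB i0 t| ≤ 3 * Real.pi := by
        obtain ⟨l0, l1⟩ := lamB_mem t
        unfold AB
        rcases sg_cases i0 with h | h
        · rw [h, abs_le]
          constructor <;> nlinarith
        · rw [h, abs_le]
          constructor <;> nlinarith
      have hfb : |Real.pi * f i0 (6 * lamB t)| ≤ Real.pi * 4 := by
        rw [abs_mul, abs_of_pos hpi]
        exact mul_le_mul_of_nonneg_left (hbd i0 _ (hy t).1 (hy t).2) hpi.le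
      have hab : |alB f i0 (h, t) - Real.pi * f i0 (6 * lamB t)| ≤ sbB h * 30 := by
        rw [hd, abs_mul, abs_of_nonneg s0]
        apply mul_le_mul_of_nonneg_left _ s0
        have h7 := abs_sub (AB i0 t) (Real.pi * f i0 (6 * lamB t))
        have h8 := Real.pi_le_four
        linarith
      rw [hi0] at hl
      have h9 : -(sbB h * 30) ≤ Real.cos (alB f i0 (h, t)) := by linarith
      linarith


end Pool.Agent.Helper182.Bing
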