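import Mathlib
import Pool.Agent.Helper182.BB2

set_option autoImplicit false

namespace Pool.Agent.Helper182.Bing


theorem Lset_bd {i : Fin 5} {p : Sol × ℝ} (hp : p ∈ Lset i) : 0 ≤ p.2 ∧ p.2 ≤ 1 := by
  rcases hp with h | ⟨h1, h2, _⟩
  · rw [h]
    exact ⟨le_rfl, zero_le_one⟩
  · exact ⟨h1.le, h2⟩

theorem Phi_eq {i j : Fin 5} {x y : Sol} {h h2 : ℝ} (hh : 0 ≤ h ∧ h ≤ 1) (hh2 : 0 ≤ h2 ∧ h2 ≤ 1)
    (e : Phi i x h = Phi j y h2) :
    h = h2 ∧ (h ≠ 1 → x = y) ∧ (h ≠ 0 → h ≠ 1 → i = j) := by
  have e1 : ∀ n, ((1 - h : ℝ) : ℂ) * ((x : ℕ → Circle) n : ℂ) =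
      ((1 - h2 : ℝ) : ℂ) * ((y : ℕ → Circle) n : ℂ) := fun n => congrFun (congrArg Prod.fst e) n
  have e2 : (Pi.single i (h * (1 - h)) : Fin 5 → ℝ) = Pi.single j (h2 * (1 - h2)) :=
    congrArg Prod.snd e
  have e3 : h = h2 := by
    have := congrArg norm (e1 0)
    rw [norm_mul, norm_mul, Circle.norm_coe, Circle.norm_coe, mul_one, mul_one,
      Complex.norm_real, Complex.norm_real, Real.norm_of_nonneg (by linarith [hh.2]),
      Real.norm_of_nonneg (by linarith [hh2.2])] at this
    linarith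
  subst e3
  refine ⟨rfl, ?_, ?_⟩
  · intro hne
    have hne' : ((1 - h : ℝ) : ℂ) ≠ 0 := by
      rw [Complex.ofReal_ne_zero]
      intro h0
      exact hne (by linarith)
    refine Subtype.ext (funext fun n => ?_)
    exact Circle.ext (mul_left_cancel₀ hne' (e1 n))
  · intro h0 h1
    by_contra hij
    have := congrFun e2 i
    rw [Pi.single_eq_same, Pi.single_eq_of_ne hij] at this
    rcases mul_eq_zero.mp this with h3 | h3
    · exact h0 h3
    · exact h1 (by linarith)

theorem continuous_Phi (i : Fin 5) : Continuous (fun p : Sol × ℝ => Phi i p.1 p.2) := by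
  unfold Phi
  refine Continuous.prodMk ?_ ?_
  · refine continuous_pi fun n => ?_
    refine Continuous.mul ?_ ?_
    · exact Complex.continuous_ofReal.comp (continuous_const.sub continuous_snd)
    · exact continuous_subtype_val.comp
        ((continuous_apply n).comp (continuous_subtype_val.comp continuous_fst))
  · refine continuous_pi fun j => ?_
    by_cases hij : j = i
    · subst hij
      simp only [Pi.single_eq_same]
      exact continuous_snd.mul (continuous_const.sub continuous_snd)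
    · simp only [Pi.single_eq_of_ne hij]
      exact continuous_const

theorem isClosed_Lset (i : Fin 5) : IsClosed (Lset i) := by
  have hc : ContinuousOn (fun p : Sol × ℝ => (p.1, xb i * phi (sg i * (1 / p.2 - 1))))
      {p : Sol × ℝ | 0 < p.2} := by
    refine continuous_fst.continuousOn.prodMk ?_
    refine continuousOn_const.mul (continuous_phi.comp_continuousOn ?_)
    refine continuousOn_const.mul (ContinuousOn.sub ?_ continuousOn_const)
    refine ContinuousOn.div continuousOn_const continuous_snd.continuousOn ?_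
    intro p hp
    exact (ne_of_gt hp)
  have ho : IsOpen {p : Sol × ℝ | 0 < p.2} := isOpen_lt continuous_const continuous_snd
  have hd : IsOpen ((Set.diagonal Sol)ᶜ) := isClosed_diagonal.isOpen_compl
  have h3 := hc.isOpen_inter_preimage ho hd
  have h1 : IsOpen {p : Sol × ℝ | p.2 < 0} := isOpen_lt continuous_snd continuous_const
  have h2 : IsOpen {p : Sol × ℝ | 1 < p.2} := isOpen_lt continuous_const continuous_snd
  rw [← isOpen_compl_iff]
  have he : (Lset i)ᶜ = {p : Sol × ℝ | p.2 < 0} ∪ {p : Sol × ℝ | 1 < p.2} ∪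
      ({p : Sol × ℝ | 0 < p.2} ∩ (fun p : Sol × ℝ =>
        (p.1, xb i * phi (sg i * (1 / p.2 - 1)))) ⁻¹' (Set.diagonal Sol)ᶜ) := by
    ext p
    simp only [Lset, Set.mem_compl_iff, Set.mem_setOf_eq, Set.mem_union, Set.mem_inter_iff,
      Set.mem_preimage, Set.mem_diagonal_iff]
    constructor
    · intro hp
      push Not at hp
      obtain ⟨ha, hb⟩ := hp
      rcases lt_trichotomy p.2 0 with h | h | h
      · exact Or.inl (Or.inl h)
      · exact absurd h ha
      · by_cases h' : p.2 ≤ 1
        · exact Or.inr ⟨h, hb h h'⟩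
        · exact Or.inl (Or.inr (not_le.mp h'))
    · rintro ((h | h) | ⟨h, h'⟩)
      · rintro (h4 | ⟨h4, _, _⟩) <;> linarith
      · rintro (h4 | ⟨_, h4, _⟩) <;> linarith
      · rintro (h4 | ⟨_, _, h4⟩)
        · linarith
        · exact h' h4
  rw [he]
  exact (h1.union h2).union h3

theorem isCompact_Lset (i : Fin 5) : IsCompact (Lset i) := by
  haveI := compactSpace_Sol
  have h1 : IsCompact ((Set.univ : Set Sol) ×ˢ (Set.Icc (0 : ℝ) 1)) :=
    isCompact_univ.prod isCompact_Icc
  refine h1.of_isClosed_subset (isClosed_Lset i) ?_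
  intro p hp
  exact ⟨Set.mem_univ _, Lset_bd hp⟩

theorem descend {Y : Type} [TopologicalSpace Y] (G : Fin 5 → (Sol × ℝ) × unitInterval → Y)
    (hG : ∀ i, ContinuousOn (G i) (Lset i ×ˢ (Set.univ : Set unitInterval)))
    (h0 : ∀ i j (x : Sol) (t : unitInterval), G i ((x, 0), t) = G j ((x, 0), t))
    (h1 : ∀ i j (x y : Sol) (t : unitInterval), (x, (1 : ℝ)) ∈ Lset i → (y, (1 : ℝ)) ∈ Lset j →
      G i ((x, 1), t) = G j ((y, 1), t)) :
    ∃ F : K × unitInterval → Y, Continuous F ∧
      ∀ (i : Fin 5) (x : Sol) (h : ℝ) (hx : (x, h) ∈ Lset i) (t : unitInterval),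
        F (⟨Phi i x h, Phi_mem i x h hx⟩, t) = G i ((x, h), t) := by
  haveI : ∀ i : Fin 5, CompactSpace (Lset i) := fun i =>
    isCompact_iff_compactSpace.mp (isCompact_Lset i)
  let Q : (Σ i : Fin 5, (Lset i) × unitInterval) → K × unitInterval := fun a =>
    (⟨Phi a.1 a.2.1.1.1 a.2.1.1.2, Phi_mem a.1 _ _ a.2.1.2⟩, a.2.2)
  let g : (Σ i : Fin 5, (Lset i) × unitInterval) → Y := fun a => G a.1 (a.2.1.1, a.2.2)
  have hQc : Continuous Q := by
    refine continuous_sigma fun i => ?_
    refine Continuous.prodMk ?_ continuous_snd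
    refine Continuous.subtype_mk ?_ _
    exact (continuous_Phi i).comp (continuous_subtype_val.comp continuous_fst)
  have hQs : Function.Surjective Q := by
    rintro ⟨⟨k, hk⟩, t⟩
    obtain ⟨i, p, hp, rfl⟩ := Set.mem_iUnion.1 hk
    exact ⟨⟨i, (⟨p, hp⟩, t)⟩, rfl⟩
  have hgc : Continuous g := by
    refine continuous_sigma fun i => ?_
    have h2 : Continuous (fun a : (Lset i) × unitInterval =>
        ((⟨(a.1.1, a.2), ⟨a.1.2, Set.mem_univ _⟩⟩ :
          ↥(Lset i ×ˢ (Set.univ : Set unitInterval))))) := by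
      refine Continuous.subtype_mk ?_ _
      exact (continuous_subtype_val.comp continuous_fst).prodMk continuous_snd
    exact (continuousOn_iff_continuous_restrict.mp (hG i)).comp h2
  have hwd : ∀ a b, Q a = Q b → g a = g b := by
    rintro ⟨i, ⟨⟨x, h⟩, hx⟩, t⟩ ⟨j, ⟨⟨y, h2⟩, hy⟩, t'⟩ hab
    have ht : t = t' := congrArg Prod.snd hab
    have hP : Phi i x h = Phi j y h2 := congrArg (fun q => (Prod.fst q).1) hab
    subst ht
    obtain ⟨e1, e2, e3⟩ := Phi_eq (Lset_bd hx) (Lset_bd hy) hP
    subst e1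
    simp only [g]
    by_cases hh0 : h = 0
    · subst hh0
      have := e2 (by norm_num)
      subst this
      exact h0 i j x t
    · by_cases hh1 : h = 1
      · subst hh1
        exact h1 i j x y t hx hy
      · have e4 := e2 hh1
        have e5 := e3 hh0 hh1
        subst e4
        subst e5
        rfl
  have hq : Topology.IsQuotientMap Q := Topology.IsQuotientMap.of_surjective_continuous hQs hQc
  let F : K × unitInterval → Y := fun q => g (Function.surjInv hQs q)
  have hF : F ∘ Q = g := by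
    funext a
    exact hwd _ _ (Function.surjInv_eq hQs (Q a))
  refine ⟨F, ?_, ?_⟩
  · rw [hq.continuous_iff, hF]
    exact hgc
  · intro i x h hx t
    exact congrFun hF ⟨i, (⟨(x, h), hx⟩, t)⟩


end Pool.Agent.Helper182.Bing
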