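import Mathlib
import Pool.Agent.Helper182.BD2
import Pool.Agent.Helper182.BD3

set_option autoImplicit false

namespace Pool.Agent.Helper182.Bing


/-- cut off -/
noncomputable def sb (h : ℝ) : ℝ := min 1 ((1 - h) / max h (1 / 2))

theorem sb_zero : sb 0 = 1 := by
  unfold sb
  rw [max_eq_right (by norm_num)]
  norm_num

theorem sb_pos (h : ℝ) (h0 : 0 < h) (h1 : h ≤ 1) : sb h = min 1 (1 / h - 1) := by
  unfold sb
  rcases le_total (1 / 2) h with h2 | h2
  · rw [max_eq_left h2]
    congr 1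
    field_simp
  · rw [max_eq_right h2, min_eq_left (by linarith), min_eq_left]
    have : 2 ≤ 1 / h := by rw [le_div_iff₀ h0]; linarith
    linarith

theorem continuous_sb : Continuous sb := by
  unfold sb
  apply continuous_const.min
  apply (continuous_const.sub continuous_id).div (continuous_id.max continuous_const)
  intro h
  have : (1 / 2 : ℝ) ≤ max h (1 / 2) := le_max_right _ _
  simp only [id]
  linarith

theorem Phi_h0 (i j : Fin 5) (x : Sol) : Phi i x 0 = Phi j x 0 := by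
  unfold Phi
  simp

theorem Phi_h1 (i : Fin 5) (x : Sol) : Phi i x 1 = 0 := by
  unfold Phi
  simp
  rfl

theorem ray_val (i : Fin 5) (s : ℝ) (hs : 0 ≤ s) :
    (ray i s).1 = Phi i (xb i * phi (sg i * s)) (1 / (1 + s)) := by
  unfold ray
  simp only
  rw [max_eq_left hs]

/-- the glued map -/
noncomputable def GG (d e : Fin 5 → ℝ × ℝ → ℝ) (m : Fin 5 → ℝ → ℝ) (i : Fin 5)
    (q : (Sol × ℝ) × unitInterval) : E × ℝ :=
  (Phi i (q.1.1 * phi (sg i * max (d i (q.1.2, (q.2 : ℝ))) (- sb q.1.2)))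
      (q.1.2 / max (1 + d i (q.1.2, (q.2 : ℝ)) * q.1.2) q.1.2)
    + ∑ j : Fin 5, (if j = i then (0 : E) else
        (ray j (min (max 0 (-(sb q.1.2 + d i (q.1.2, (q.2 : ℝ))))) (m j (q.2 : ℝ)))).1),
    (q.2 : ℝ) + e i (q.1.2, (q.2 : ℝ)))

theorem sum_zero (i : Fin 5) (f : Fin 5 → ℝ) (hf : ∀ j, j ≠ i → f j ≤ 0) :
    ∑ j : Fin 5, (if j = i then (0 : E) else (ray j (f j)).1) = 0 := by
  apply Finset.sum_eq_zero
  intro j _
  by_cases h : j = i
  · rw [if_pos h]
  · rw [if_neg h, ray_nonpos j (f j) (hf j h), cen_val]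

theorem sum_one (i i0 : Fin 5) (hi : i0 ≠ i) (f : Fin 5 → ℝ) (hf : ∀ j, j ≠ i0 → f j ≤ 0) :
    ∑ j : Fin 5, (if j = i then (0 : E) else (ray j (f j)).1) = (ray i0 (f i0)).1 := by
  rw [Finset.sum_eq_single i0]
  · rw [if_neg hi]
  · intro j _ hj
    by_cases h : j = i
    · rw [if_pos h]
    · rw [if_neg h, ray_nonpos j (f j) (hf j hj), cen_val]
  · intro h; exact absurd (Finset.mem_univ _) h

theorem GG_h0 (d e : Fin 5 → ℝ × ℝ → ℝ) (m : Fin 5 → ℝ → ℝ) (hd : ∀ i p, |d i p| ≤ 1 / 2)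
    (i : Fin 5) (x : Sol) (t : unitInterval) :
    (GG d e m i ((x, 0), t)).1 = (sig (x * phi (sg i * d i (0, (t : ℝ))))).1 := by
  have h1 := (abs_le.1 (hd i (0, (t : ℝ)))).1
  unfold GG
  simp only
  rw [sb_zero, max_eq_left (by linarith), sum_zero, add_zero, zero_div]
  · unfold sig
    simp only
    exact Phi_h0 i 0 _
  · intro j _
    apply le_trans (min_le_left _ _)
    apply max_le (le_refl _)
    linarith

theorem GG_pos (d e : Fin 5 → ℝ × ℝ → ℝ) (m : Fin 5 → ℝ → ℝ) (hd : ∀ i p, |d i p| ≤ 1 / 2)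
    (i : Fin 5) (h : ℝ) (h0 : 0 < h) (h1 : h ≤ 1) (t : unitInterval)
    (hs : 0 ≤ 1 / h - 1 + d i (h, (t : ℝ))) :
    (GG d e m i ((xb i * phi (sg i * (1 / h - 1)), h), t)).1
      = (ray i (1 / h - 1 + d i (h, (t : ℝ)))).1 := by
  have hb := (abs_le.1 (hd i (h, (t : ℝ)))).1
  have hh : 1 ≤ 1 / h := by rw [le_div_iff₀ h0]; linarith
  have e1 : max (d i (h, (t : ℝ))) (- sb h) = d i (h, (t : ℝ)) := by
    apply max_eq_left
    rw [sb_pos h h0 h1]
    rcases le_total 1 (1 / h - 1) with h2 | h2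
    · rw [min_eq_left h2]; linarith
    · rw [min_eq_right h2]; linarith
  have e2 : h / max (1 + d i (h, (t : ℝ)) * h) h = 1 / (1 + (1 / h - 1 + d i (h, (t : ℝ)))) := by
    have : (1 + (1 / h - 1 + d i (h, (t : ℝ)))) = (1 + d i (h, (t : ℝ)) * h) / h := by
      field_simp; ring
    have h3 : h ≤ 1 + d i (h, (t : ℝ)) * h := by
      have := mul_nonneg hs h0.le
      have h4 : (1 / h - 1 + d i (h, (t : ℝ))) * h = 1 - h + d i (h, (t : ℝ)) * h := by
        field_simp
      rw [h4] at this; linarith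
    rw [this, max_eq_left h3]
    field_simp
  unfold GG
  simp only
  rw [e1, e2, sum_zero, add_zero, ray_val i _ hs, mul_assoc, ← phi_add, ← mul_add]
  intro j _
  apply le_trans (min_le_left _ _)
  apply max_le (le_refl _)
  rw [sb_pos h h0 h1]
  rcases le_total 1 (1 / h - 1) with h2 | h2
  · rw [min_eq_left h2]; linarith
  · rw [min_eq_right h2]; linarith

theorem GG_neg (d e : Fin 5 → ℝ × ℝ → ℝ) (m : Fin 5 → ℝ → ℝ) (hd : ∀ i p, |d i p| ≤ 1 / 2)
    (i i0 : Fin 5) (hi : i0 ≠ i) (h : ℝ) (h0 : 0 < h) (h1 : h ≤ 1) (x : Sol) (t : unitInterval)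
    (hm : ∀ j, j ≠ i0 → m j (t : ℝ) = 0)
    (hs : 1 / h - 1 + d i (h, (t : ℝ)) < 0) :
    (GG d e m i ((x, h), t)).1
      = (ray i0 (min (-(1 / h - 1 + d i (h, (t : ℝ)))) (m i0 (t : ℝ)))).1 := by
  have hb := (abs_le.1 (hd i (h, (t : ℝ)))).1
  have h2 : 1 / h - 1 ≤ 1 := by linarith
  have e0 : sb h = 1 / h - 1 := by rw [sb_pos h h0 h1, min_eq_right h2]
  have e2 : h / max (1 + d i (h, (t : ℝ)) * h) h = 1 := by
    have h3 : 1 + d i (h, (t : ℝ)) * h ≤ h := by
      have := mul_neg_of_neg_of_pos hs h0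
      have h4 : (1 / h - 1 + d i (h, (t : ℝ))) * h = 1 - h + d i (h, (t : ℝ)) * h := by
        field_simp
      rw [h4] at this; linarith
    rw [max_eq_right h3, div_self h0.ne']
  unfold GG
  simp only
  rw [e2, Phi_h1, zero_add, e0, sum_one i i0 hi, max_eq_right (by linarith)]
  intro j hj
  rw [hm j hj]
  exact min_le_right _ _

theorem continuous_Phi4 (i : Fin 5) : Continuous (fun p : Sol × ℝ => Phi i p.1 p.2) := by
  unfold Phi
  apply Continuous.prodMk
  · apply continuous_pi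
    intro n
    apply Continuous.mul
    · exact Complex.continuous_ofReal.comp (continuous_const.sub continuous_snd)
    · exact continuous_subtype_val.comp ((continuous_apply n).comp (continuous_subtype_val.comp continuous_fst))
  · exact (continuous_single i).comp (continuous_snd.mul (continuous_const.sub continuous_snd))

theorem continuousOn_GG (d e : Fin 5 → ℝ × ℝ → ℝ) (m : Fin 5 → ℝ → ℝ)
    (hdc : ∀ i, Continuous (d i)) (hec : ∀ i, Continuous (e i)) (hmc : ∀ i, Continuous (m i))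
    (hd : ∀ i p, |d i p| ≤ 1 / 2) (i : Fin 5) :
    ContinuousOn (GG d e m i) (Lset i ×ˢ (Set.univ : Set unitInterval)) := by
  have ch : Continuous (fun q : (Sol × ℝ) × unitInterval => q.1.2) := continuous_snd.comp continuous_fst
  have cx : Continuous (fun q : (Sol × ℝ) × unitInterval => q.1.1) := continuous_fst.comp continuous_fst
  have ct : Continuous (fun q : (Sol × ℝ) × unitInterval => (q.2 : ℝ)) := continuous_subtype_val.comp continuous_snd
  have cd : Continuous (fun q : (Sol × ℝ) × unitInterval => d i (q.1.2, (q.2 : ℝ))) :=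
    (hdc i).comp (ch.prodMk ct)
  have cs : Continuous (fun q : (Sol × ℝ) × unitInterval => sb q.1.2) := continuous_sb.comp ch
  unfold GG
  apply ContinuousOn.prodMk
  · apply ContinuousOn.add
    · have c1 : ContinuousOn (fun q : (Sol × ℝ) × unitInterval => q.1.2 / max (1 + d i (q.1.2, (q.2 : ℝ)) * q.1.2) q.1.2)
          (Lset i ×ˢ (Set.univ : Set unitInterval)) := by
        apply ContinuousOn.div ch.continuousOn
        · exact ((continuous_const.add (cd.mul ch)).max ch).continuousOn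
        · rintro ⟨⟨x, h⟩, t⟩ ⟨hx, -⟩
          have hb := (abs_le.1 (hd i (h, (t : ℝ)))).1
          have hh : 0 ≤ h ∧ h ≤ 1 := by
            rcases hx with h0 | h0
            · have : h = 0 := h0
              subst this; exact ⟨le_refl _, zero_le_one⟩
            · exact ⟨le_of_lt h0.1, h0.2.1⟩
          have h2 : 0 < 1 + d i (h, (t : ℝ)) * h := by nlinarith
          exact (lt_of_lt_of_le h2 (le_max_left _ _)).ne'
      have c2 : Continuous (fun q : (Sol × ℝ) × unitInterval => q.1.1 * phi (sg i * max (d i (q.1.2, (q.2 : ℝ))) (- sb q.1.2))) :=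
        cx.mul (continuous_phi.comp (continuous_const.mul (cd.max cs.neg)))
      exact (continuous_Phi4 i).comp_continuousOn (c2.continuousOn.prodMk c1)
    · apply Continuous.continuousOn
      apply continuous_finsetSum
      intro j _
      by_cases h : j = i
      · simp only [if_pos h]; exact continuous_const
      · simp only [if_neg h]
        exact continuous_subtype_val.comp ((continuous_ray j).comp
          ((continuous_const.max (cs.add cd).neg).min ((hmc j).comp ct)))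
  · exact (ct.add ((hec i).comp (ch.prodMk ct))).continuousOn

theorem exists_fpf : ∃ F : K × unitInterval → K × unitInterval, Continuous F ∧ ∀ p, F p ≠ p := by
  obtain ⟨d, e, m, hdc, hec, hmc, hd, hne, he, h00, h11, hsp⟩ := real_data
  have key : ∀ t : unitInterval, ∃ i0 : Fin 5, 0 ≤ m i0 (t : ℝ) ∧ d i0 (1, (t : ℝ)) = m i0 (t : ℝ) ∧
      (∀ j, j ≠ i0 → m j (t : ℝ) = 0 ∧ d j (1, (t : ℝ)) = - m i0 (t : ℝ)) ∧
      ∀ h, 0 < h → h ≤ 1 → 0 ≤ 1 / h - 1 + d i0 (h, (t : ℝ)) := fun t => hsp t t.2.1 t.2.2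
  choose i0 g1 g2 g3 g4 using key
  -- value at the centre
  have val1 : ∀ i (x : Sol) (t : unitInterval), (x, (1 : ℝ)) ∈ Lset i →
      (GG d e m i ((x, 1), t)).1 = (ray (i0 t) (m (i0 t) (t : ℝ))).1 := by
    intro i x t hx
    have hx' : x = xb i * phi (sg i * (1 / 1 - 1)) := by
      rcases hx with h | h
      · exact absurd h one_ne_zero
      · exact h.2.2
    by_cases hi : i = i0 t
    · have hs : 0 ≤ 1 / 1 - 1 + d i (1, (t : ℝ)) := by
        rw [hi]; exact g4 t 1 one_pos le_rfl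
      rw [hx', GG_pos d e m hd i 1 one_pos le_rfl t hs]
      have : (1:ℝ) / 1 - 1 + d i (1, (t : ℝ)) = m (i0 t) (t : ℝ) := by rw [hi, g2 t]; norm_num
      rw [this, hi]
    · have hdi : d i (1, (t : ℝ)) = - m (i0 t) (t : ℝ) := (g3 t i hi).2
      rcases (g1 t).eq_or_lt with hz | hz
      · have hs : 0 ≤ 1 / 1 - 1 + d i (1, (t : ℝ)) := by rw [hdi, ← hz]; norm_num
        rw [hx', GG_pos d e m hd i 1 one_pos le_rfl t hs, ← hz, ray_nonpos, ray_nonpos]
        · exact le_rfl
        · rw [hdi, ← hz]; norm_num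
      · have hs : 1 / 1 - 1 + d i (1, (t : ℝ)) < 0 := by rw [hdi]; norm_num; exact hz
        rw [GG_neg d e m hd i (i0 t) (Ne.symm hi) 1 one_pos le_rfl x t (fun j hj => (g3 t j hj).1) hs]
        have : -((1:ℝ) / 1 - 1 + d i (1, (t : ℝ))) = m (i0 t) (t : ℝ) := by rw [hdi]; norm_num
        rw [this, min_self]
  obtain ⟨F0, hF0, hF1⟩ := descend (GG d e m) (continuousOn_GG d e m hdc hec hmc hd)
    (by
      intro i j x t
      apply Prod.ext
      · rw [GG_h0 d e m hd, GG_h0 d e m hd, (h00 i j t t.2.1 t.2.2).1]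
      · show (t : ℝ) + e i (0, (t : ℝ)) = (t : ℝ) + e j (0, (t : ℝ))
        rw [(h00 i j t t.2.1 t.2.2).2])
    (by
      intro i j x y t hx hy
      apply Prod.ext
      · rw [val1 i x t hx, val1 j y t hy]
      · show (t : ℝ) + e i (1, (t : ℝ)) = (t : ℝ) + e j (1, (t : ℝ))
        rw [h11 i j t t.2.1 t.2.2])
  -- values on the pieces
  have vsig : ∀ (x : Sol) (t : unitInterval), F0 (sig x, t) =
      ((sig (x * phi (sg 0 * d 0 (0, (t : ℝ))))).1, (t : ℝ) + e 0 (0, (t : ℝ))) := by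
    intro x t
    have := hF1 0 x 0 (Or.inl rfl) t
    have h2 : (sig x) = ⟨Phi 0 x 0, Phi_mem 0 x 0 (Or.inl rfl)⟩ := rfl
    rw [h2, this]
    apply Prod.ext
    · exact GG_h0 d e m hd 0 x t
    · rfl
  have hmemL : ∀ (i : Fin 5) (s : ℝ), 0 ≤ s → (xb i * phi (sg i * s), 1 / (1 + s)) ∈ Lset i := by
    intro i s hs
    right
    refine ⟨by positivity, ?_, ?_⟩
    · show 1 / (1 + s) ≤ 1
      rw [div_le_one (by positivity)]; linarith
    · show xb i * phi (sg i * s) = xb i * phi (sg i * (1 / (1 / (1 + s)) - 1))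
      rw [one_div_one_div]; congr 3; ring
  have vray : ∀ (i : Fin 5) (s : ℝ) (t : unitInterval), 0 ≤ s →
      F0 (ray i s, t) = GG d e m i ((xb i * phi (sg i * s), 1 / (1 + s)), t) := by
    intro i s t hs
    have := hF1 i _ _ (hmemL i s hs) t
    rw [← this]
    congr 2
    apply K_ext
    exact ray_val i s hs
  have vray1 : ∀ (i : Fin 5) (s : ℝ) (t : unitInterval), 0 ≤ s →
      0 ≤ s + d i (1 / (1 + s), (t : ℝ)) →
      (F0 (ray i s, t)).1 = (ray i (s + d i (1 / (1 + s), (t : ℝ)))).1 := by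
    intro i s t hs hsd
    rw [vray i s t hs]
    have hinv : 1 / (1 / (1 + s)) - 1 = s := by rw [one_div_one_div]; ring
    have h1 : (1:ℝ) / (1 + s) ≤ 1 := by rw [div_le_one (by positivity)]; linarith
    have := GG_pos d e m hd i (1 / (1 + s)) (by positivity) h1 t (by rw [hinv]; exact hsd)
    rw [hinv] at this
    exact this
  have vray2 : ∀ (i : Fin 5) (s : ℝ) (t : unitInterval), 0 ≤ s →
      s + d i (1 / (1 + s), (t : ℝ)) < 0 →
      i0 t ≠ i ∧ (F0 (ray i s, t)).1 = (ray (i0 t) (min (-(s + d i (1 / (1 + s), (t : ℝ)))) (m (i0 t) (t : ℝ)))).1 := by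
    intro i s t hs hsd
    rw [vray i s t hs]
    have hinv : 1 / (1 / (1 + s)) - 1 = s := by rw [one_div_one_div]; ring
    have h1 : (1:ℝ) / (1 + s) ≤ 1 := by rw [div_le_one (by positivity)]; linarith
    have hi : i0 t ≠ i := by
      intro h
      have := g4 t (1 / (1 + s)) (by positivity) h1
      rw [hinv, h] at this
      linarith
    refine ⟨hi, ?_⟩
    have := GG_neg d e m hd i (i0 t) hi (1 / (1 + s)) (by positivity) h1 (xb i * phi (sg i * s)) t
      (fun j hj => (g3 t j hj).1) (by rw [hinv]; exact hsd)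
    rw [hinv] at this
    exact this
  have vsnd : ∀ (i : Fin 5) (s : ℝ) (t : unitInterval), 0 ≤ s →
      (F0 (ray i s, t)).2 = (t : ℝ) + e i (1 / (1 + s), (t : ℝ)) := by
    intro i s t hs
    rw [vray i s t hs]; rfl
  -- codomain
  have hmem1 : ∀ p : K × unitInterval, (F0 p).1 ∈ Kset := by
    rintro ⟨k, t⟩
    rcases K_cases k with ⟨x, rfl⟩ | ⟨i, s, hs, rfl⟩
    · rw [vsig]; exact (sig _).2
    · rcases le_or_gt 0 (s + d i (1 / (1 + s), (t : ℝ))) with h | h
      · rw [vray1 i s t hs h]; exact (ray _ _).2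
      · rw [(vray2 i s t hs h).2]; exact (ray _ _).2
  have hmem2 : ∀ p : K × unitInterval, (F0 p).2 ∈ unitInterval := by
    rintro ⟨k, t⟩
    rcases K_cases k with ⟨x, rfl⟩ | ⟨i, s, hs, rfl⟩
    · rw [vsig]; exact he 0 0 t le_rfl zero_le_one t.2.1 t.2.2
    · rw [vsnd i s t hs]
      exact he i _ t (by positivity) (by rw [div_le_one (by positivity)]; linarith) t.2.1 t.2.2
  refine ⟨fun p => (⟨(F0 p).1, hmem1 p⟩, ⟨(F0 p).2, hmem2 p⟩), ?_, ?_⟩
  · exact ((continuous_fst.comp hF0).subtype_mk hmem1).prodMk ((continuous_snd.comp hF0).subtype_mk hmem2)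
  · rintro ⟨k, t⟩ hfix
    have hf1 : (F0 (k, t)).1 = k.1 := congrArg (fun z : K × unitInterval => z.1.1) hfix
    have hf2 : (F0 (k, t)).2 = (t : ℝ) := congrArg (fun z : K × unitInterval => (z.2 : ℝ)) hfix
    rcases K_cases k with ⟨x, rfl⟩ | ⟨i, s, hs, rfl⟩
    · rw [vsig] at hf1 hf2
      simp only at hf1 hf2
      have he0 : e 0 (0, (t : ℝ)) = 0 := by linarith
      have hd0 : d 0 (0, (t : ℝ)) ≠ 0 := (hne 0 (0, (t : ℝ))).resolve_right (fun h => h he0)
      have h1 := sig_injective (K_ext _ _ hf1)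
      have h2 : phi (sg 0 * d 0 (0, (t : ℝ))) = phi 0 := by
        rw [phi_zero]; exact mul_eq_left.1 h1
      have h3 := phi_injective h2
      rcases sg_cases 0 with h4 | h4
      · rw [h4, one_mul] at h3; exact hd0 h3
      · rw [h4] at h3; apply hd0; linarith
    · rcases hs.eq_or_lt with hz | hz
      · -- centre
        subst hz
        have hc : ray i 0 = ray (i0 t) 0 := by
          rw [ray_nonpos i 0 le_rfl, ray_nonpos (i0 t) 0 le_rfl]
        rw [hc] at hf1 hf2
        rw [vsnd (i0 t) 0 t le_rfl] at hf2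
        have hone : (1:ℝ) / (1 + 0) = 1 := by norm_num
        rw [hone] at hf2
        have he0 : e (i0 t) (1, (t : ℝ)) = 0 := by linarith
        have hd0 : d (i0 t) (1, (t : ℝ)) ≠ 0 := (hne (i0 t) (1, (t : ℝ))).resolve_right (fun h => h he0)
        rw [g2 t] at hd0
        have hmp : 0 < m (i0 t) (t : ℝ) := lt_of_le_of_ne (g1 t) (Ne.symm hd0)
        have hsd : 0 ≤ (0:ℝ) + d (i0 t) (1 / (1 + 0), (t : ℝ)) := by
          rw [hone, g2 t]; linarith
        rw [vray1 (i0 t) 0 t le_rfl hsd, hone, g2 t, zero_add] at hf1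
        have h5 := K_ext _ _ hf1
        have h6 := (ray_inj (i0 t) (i0 t) _ _ hmp le_rfl h5).2
        exact hd0 h6
      · rw [vsnd i s t hs] at hf2
        have he0 : e i (1 / (1 + s), (t : ℝ)) = 0 := by linarith
        have hd0 : d i (1 / (1 + s), (t : ℝ)) ≠ 0 :=
          (hne i (1 / (1 + s), (t : ℝ))).resolve_right (fun h => h he0)
        rcases le_or_gt 0 (s + d i (1 / (1 + s), (t : ℝ))) with h | h
        · rw [vray1 i s t hs h] at hf1
          have h5 := K_ext _ _ hf1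
          have h6 := (ray_inj i i s _ hz h h5.symm).2
          apply hd0; linarith
        · obtain ⟨hi, h7⟩ := vray2 i s t hs h
          rw [h7] at hf1
          have h5 := K_ext _ _ hf1
          have h8 := W_ray_ne (i0 t) i (Ne.symm hi) (min (-(s + d i (1 / (1 + s), (t : ℝ)))) (m (i0 t) (t : ℝ)))
          rw [h5, W_ray i s hs] at h8
          have : 0 < s / (1 + s) ^ 2 := by positivity
          linarith


end Pool.Agent.Helper182.Bing
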