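import Mathlib
import Pool.Agent.Helper182.BB2

set_option autoImplicit false

namespace Pool.Agent.Helper182.Bing


theorem near_small_coord (k : K) (j : ℕ) :
    k.1.1 j = ((1 - H k : ℝ) : ℂ) * (((P k : Sol) : ℕ → Circle) j : ℂ) := by
  have h1 : ‖k.1.1 j‖ = ‖k.1.1 0‖ := by
    obtain ⟨k, hk⟩ := k
    obtain ⟨i, ⟨x, h⟩, hx, rfl⟩ := Set.mem_iUnion.1 hk
    simp only [Phi, norm_mul, Circle.norm_coe]
  have h2 : (1 - H k : ℝ) = ‖k.1.1 j‖ := by
    unfold H; rw [h1]; ring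
  have h3 : (((P k : Sol) : ℕ → Circle) j) = nz (k.1.1 j) := rfl
  rw [h2, h3]
  unfold nz
  rw [Circle.coe_exp]
  exact (Complex.norm_mul_exp_arg_mul_I _).symm

theorem near_small_sq (x y : Sol) (j r : ℕ) :
    ‖((x : ℕ → Circle) j : ℂ) - ((y : ℕ → Circle) j : ℂ)‖ ≤
      2 ^ r * ‖((x : ℕ → Circle) (j + r) : ℂ) - ((y : ℕ → Circle) (j + r) : ℂ)‖ := by
  induction r with
  | zero => simp
  | succ r ih =>
    refine ih.trans ?_
    have hx : ((x : ℕ → Circle) (j + r) : ℂ) = ((x : ℕ → Circle) (j + (r + 1)) : ℂ) ^ 2 := by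
      have := x.2 (j + r)
      rw [← this]
      push_cast
      rfl
    have hy : ((y : ℕ → Circle) (j + r) : ℂ) = ((y : ℕ → Circle) (j + (r + 1)) : ℂ) ^ 2 := by
      have := y.2 (j + r)
      rw [← this]
      push_cast
      rfl
    rw [hx, hy]
    set a := ((x : ℕ → Circle) (j + (r + 1)) : ℂ) with ha
    set b := ((y : ℕ → Circle) (j + (r + 1)) : ℂ) with hb
    have hna : ‖a‖ = 1 := Circle.norm_coe _
    have hnb : ‖b‖ = 1 := Circle.norm_coe _
    have h1 : a ^ 2 - b ^ 2 = (a + b) * (a - b) := by ring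
    rw [h1, norm_mul]
    have h2 : ‖a + b‖ ≤ 2 := (norm_add_le _ _).trans (by rw [hna, hnb]; norm_num)
    have h3 : ‖a + b‖ * ‖a - b‖ ≤ 2 * ‖a - b‖ := mul_le_mul_of_nonneg_right h2 (norm_nonneg _)
    calc (2 : ℝ) ^ r * (‖a + b‖ * ‖a - b‖) ≤ 2 ^ r * (2 * ‖a - b‖) :=
          mul_le_mul_of_nonneg_left h3 (by positivity)
      _ = 2 ^ (r + 1) * ‖a - b‖ := by ring

theorem near_small (n : ℕ) (U : Fin n → Set K) (hU : ∀ i, IsOpen (U i))
    (hcov : (⋃ i, U i) = Set.univ) :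
    ∃ (m : ℕ) (δ : ℝ), 0 < δ ∧ ∀ A : Set Circle,
      (∀ u ∈ A, ∀ v ∈ A, ‖(u : ℂ) - (v : ℂ)‖ < δ) →
      ∃ l : Fin n, ∀ k : K, H k < δ → (P k : ℕ → Circle) m ∈ A → k ∈ U l := by
  by_contra hcon
  push Not at hcon
  haveI := compactSpace_K
  have hne : Nonempty (Fin n) := by
    have : cen ∈ (⋃ i, U i) := by rw [hcov]; trivial
    obtain ⟨i, _⟩ := Set.mem_iUnion.1 this
    exact ⟨i⟩
  have h4 : ∀ N : ℕ, ∃ A : Set Circle,
      (∀ u ∈ A, ∀ v ∈ A, ‖(u : ℂ) - (v : ℂ)‖ < (1 / 4 : ℝ) ^ N) ∧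
      ∀ l : Fin n, ∃ k : K, H k < (1 / 4 : ℝ) ^ N ∧ (P k : ℕ → Circle) N ∈ A ∧ k ∉ U l :=
    fun N => hcon N ((1 / 4 : ℝ) ^ N) (by positivity)
  choose A hA k hk1 hk2 hk3 using h4
  let 𝒰 : Ultrafilter ℕ := Filter.hyperfilter ℕ
  have h𝒰 : (𝒰 : Filter ℕ) ≤ Filter.atTop := Nat.hyperfilter_le_atTop
  have hlim : ∀ l, ∃ κ : K, Filter.Tendsto (fun N => k N l) 𝒰 (nhds κ) := by
    intro l
    exact ⟨(𝒰.map (fun N => k N l)).lim, (𝒰.map (fun N => k N l)).le_nhds_lim⟩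
  choose κ hκ using hlim
  have hpow : Filter.Tendsto (fun N : ℕ => (1 / 4 : ℝ) ^ N) Filter.atTop (nhds 0) :=
    tendsto_pow_atTop_nhds_zero_of_lt_one (by norm_num) (by norm_num)
  have hpow2 : Filter.Tendsto (fun N : ℕ => (1 / 2 : ℝ) ^ N) Filter.atTop (nhds 0) :=
    tendsto_pow_atTop_nhds_zero_of_lt_one (by norm_num) (by norm_num)
  have hHκ : ∀ l, H (κ l) = 0 := by
    intro l
    have t1 : Filter.Tendsto (fun N => H (k N l)) 𝒰 (nhds (H (κ l))) :=
      (continuous_H.tendsto (κ l)).comp (hκ l)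
    have t2 : Filter.Tendsto (fun N => H (k N l)) 𝒰 (nhds 0) := by
      apply squeeze_zero (fun N => (H_mem (k N l)).1) (fun N => (hk1 N l).le) (hpow.mono_left h𝒰)
    exact tendsto_nhds_unique t1 t2
  have hcoord : ∀ l l' j, (κ l).1.1 j = (κ l').1.1 j := by
    intro l l' j
    have hc : Continuous (fun q : K => q.1.1 j) :=
      (continuous_apply j).comp (continuous_fst.comp continuous_subtype_val)
    have t1 : Filter.Tendsto (fun N => (k N l).1.1 j - (k N l').1.1 j) 𝒰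
        (nhds ((κ l).1.1 j - (κ l').1.1 j)) :=
      ((hc.tendsto (κ l)).comp (hκ l)).sub ((hc.tendsto (κ l')).comp (hκ l'))
    have hb : ∀ᶠ N in Filter.atTop, ‖(k N l).1.1 j - (k N l').1.1 j‖ ≤
        2 * (1 / 4 : ℝ) ^ N + (1 / 2 : ℝ) ^ N := by
      filter_upwards [Filter.eventually_ge_atTop j] with N hN
      obtain ⟨r, rfl⟩ := Nat.exists_eq_add_of_le hN
      rw [near_small_coord (k (j + r) l) j, near_small_coord (k (j + r) l') j]
      have s1 := near_small_sq (P (k (j + r) l)) (P (k (j + r) l')) j r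
      have s2 := hA (j + r) _ (hk2 (j + r) l) _ (hk2 (j + r) l')
      set a := (((P (k (j + r) l) : Sol) : ℕ → Circle) j : ℂ) with ha
      set b := (((P (k (j + r) l') : Sol) : ℕ → Circle) j : ℂ) with hb
      have hna : ‖a‖ = 1 := Circle.norm_coe _
      have hnb : ‖b‖ = 1 := Circle.norm_coe _
      set h := H (k (j + r) l) with hh
      set h' := H (k (j + r) l') with hh'
      have e1 : ((1 - h : ℝ) : ℂ) * a - ((1 - h' : ℝ) : ℂ) * b =
          (a - b) - (h : ℂ) * a + (h' : ℂ) * b := by push_cast; ring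
      rw [e1]
      have g1 : 0 ≤ h := (H_mem _).1
      have g2 : 0 ≤ h' := (H_mem _).1
      have g3 : h < (1 / 4 : ℝ) ^ (j + r) := hk1 (j + r) l
      have g4 : h' < (1 / 4 : ℝ) ^ (j + r) := hk1 (j + r) l'
      have n1 : ‖(a - b) - (h : ℂ) * a + (h' : ℂ) * b‖ ≤ ‖a - b‖ + h + h' := by
        refine (norm_add_le _ _).trans ?_
        refine add_le_add ((norm_sub_le _ _).trans ?_) ?_
        · rw [norm_mul, hna, Complex.norm_real, Real.norm_eq_abs, abs_of_nonneg g1, mul_one]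
        · rw [norm_mul, hnb, Complex.norm_real, Real.norm_eq_abs, abs_of_nonneg g2, mul_one]
      have n2 : ‖a - b‖ ≤ (1 / 2 : ℝ) ^ (j + r) := by
        refine s1.trans ?_
        have n3 : (2 : ℝ) ^ r * ‖(((P (k (j + r) l) : Sol) : ℕ → Circle) (j + r) : ℂ) -
            (((P (k (j + r) l') : Sol) : ℕ → Circle) (j + r) : ℂ)‖ ≤
            2 ^ r * (1 / 4 : ℝ) ^ (j + r) := mul_le_mul_of_nonneg_left s2.le (by positivity)
        refine n3.trans ?_
        have n4 : (1 / 4 : ℝ) ^ (j + r) = (1 / 2) ^ (j + r) * (1 / 2) ^ (j + r) := by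
          rw [← mul_pow]; norm_num
        rw [n4]
        have n5 : (2 : ℝ) ^ r * (1 / 2 : ℝ) ^ (j + r) ≤ 1 := by
          rw [pow_add, mul_comm ((1 / 2 : ℝ) ^ j), ← mul_assoc, ← mul_pow]
          norm_num
          exact pow_le_one₀ (by norm_num) (by norm_num)
        calc (2 : ℝ) ^ r * ((1 / 2) ^ (j + r) * (1 / 2) ^ (j + r))
            = (2 ^ r * (1 / 2) ^ (j + r)) * (1 / 2) ^ (j + r) := by ring
          _ ≤ 1 * (1 / 2) ^ (j + r) := mul_le_mul_of_nonneg_right n5 (by positivity)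
          _ = (1 / 2) ^ (j + r) := one_mul _
      linarith
    have t2 : Filter.Tendsto (fun N => (k N l).1.1 j - (k N l').1.1 j) Filter.atTop (nhds 0) := by
      apply squeeze_zero_norm' hb
      have := (hpow.const_mul 2).add hpow2
      simpa using this
    have := tendsto_nhds_unique t1 (t2.mono_left h𝒰)
    exact sub_eq_zero.1 this
  have hW : ∀ l i, (κ l).1.2 i = 0 := by
    intro l i
    obtain ⟨x, hx⟩ := (H_eq_zero_iff (κ l)).1 (hHκ l)
    have := W_sig i x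
    rw [← hx] at this
    exact this
  have heq : ∀ l l', κ l = κ l' := by
    intro l l'
    apply K_ext
    apply Prod.ext
    · funext j; exact hcoord l l' j
    · funext i; rw [hW, hW]
  obtain ⟨l0⟩ := hne
  have hmem : κ l0 ∈ (⋃ i, U i) := by rw [hcov]; trivial
  obtain ⟨l, hl⟩ := Set.mem_iUnion.1 hmem
  rw [heq l0 l] at hl
  have hev := (hκ l) ((hU l).mem_nhds hl)
  have hev' : ∀ᶠ N in (𝒰 : Filter ℕ), k N l ∈ U l := hev
  obtain ⟨N, hN⟩ := hev'.exists
  exact hk3 N l hN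


end Pool.Agent.Helper182.Bing
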