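import Mathlib
import Pool.Agent.Helper182.BB2

set_option autoImplicit false

namespace Pool.Agent.Helper182.Bing


theorem star_small_min (d : Fin 5 → ℝ) (hd : ∀ i, 0 < d i) : ∃ δ : ℝ, 0 < δ ∧ ∀ i, δ ≤ d i := by
  obtain ⟨i, _, hi⟩ := Finset.exists_min_image (Finset.univ : Finset (Fin 5)) d ⟨0, Finset.mem_univ _⟩
  exact ⟨d i, hd i, fun j => hi j (Finset.mem_univ j)⟩

theorem star_small (n : ℕ) (U : Fin n → Set K) (hU : ∀ i, IsOpen (U i))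
    (hcov : (⋃ i, U i) = Set.univ) (N : ℝ) :
    ∃ δ : ℝ, 0 < δ ∧
      (∀ (i : Fin 5) (a : ℝ), 0 ≤ a → a ≤ N →
        ∃ l : Fin n, ∀ s, a ≤ s → s ≤ a + δ → ray i s ∈ U l) ∧
      (∃ l : Fin n, ∀ (i : Fin 5) (s : ℝ), 0 ≤ s → s ≤ δ → ray i s ∈ U l) := by
  have h1 : ∀ i : Fin 5, ∃ δ : ℝ, 0 < δ ∧ ∀ x ∈ Set.Icc 0 N, ∃ l : Fin n,
      Metric.ball x δ ⊆ (ray i) ⁻¹' (U l) := by
    intro i
    have hc : (⋃ l, (ray i) ⁻¹' (U l)) = Set.univ := by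
      rw [← Set.preimage_iUnion, hcov, Set.preimage_univ]
    obtain ⟨δ, hδ, h⟩ := lebesgue_number_lemma_of_metric (isCompact_Icc (a := (0 : ℝ)) (b := N))
      (c := fun l => (ray i) ⁻¹' (U l)) (fun l => (hU l).preimage (continuous_ray i))
      (by rw [hc]; exact Set.subset_univ _)
    exact ⟨δ, hδ, h⟩
  choose d hd hd2 using h1
  obtain ⟨δ1, hδ1, hδ1'⟩ := star_small_min d hd
  obtain ⟨l0, hl0⟩ : ∃ l0, cen ∈ U l0 := by
    have : cen ∈ ⋃ i, U i := by rw [hcov]; exact Set.mem_univ _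
    exact Set.mem_iUnion.1 this
  have h2 : ∀ i : Fin 5, ∃ ε : ℝ, 0 < ε ∧ Metric.ball (0 : ℝ) ε ⊆ (ray i) ⁻¹' (U l0) := by
    intro i
    have ho : IsOpen ((ray i) ⁻¹' (U l0)) := (hU l0).preimage (continuous_ray i)
    have hm : (0 : ℝ) ∈ (ray i) ⁻¹' (U l0) := by
      rw [Set.mem_preimage, ray_nonpos i 0 le_rfl]
      exact hl0
    obtain ⟨ε, hε, h⟩ := Metric.isOpen_iff.1 ho 0 hm
    exact ⟨ε, hε, h⟩
  choose e he he2 using h2
  obtain ⟨δ2, hδ2, hδ2'⟩ := star_small_min e he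
  have hmin : 0 < min δ1 δ2 := lt_min hδ1 hδ2
  refine ⟨min δ1 δ2 / 2, by linarith, ?_, l0, ?_⟩
  · intro i a ha haN
    obtain ⟨l, hl⟩ := hd2 i a ⟨ha, haN⟩
    refine ⟨l, fun s hs1 hs2 => hl ?_⟩
    rw [Metric.mem_ball, Real.dist_eq, abs_lt]
    have h3 := hδ1' i
    have h4 : min δ1 δ2 ≤ δ1 := min_le_left _ _
    constructor <;> linarith
  · intro i s hs1 hs2
    refine he2 i ?_
    rw [Metric.mem_ball, Real.dist_eq, abs_lt]
    have h3 := hδ2' i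
    have h4 : min δ1 δ2 ≤ δ2 := min_le_right _ _
    constructor <;> linarith


end Pool.Agent.Helper182.Bing
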