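import Mathlib
import Pool.Agent.Helper182.BDefs

set_option autoImplicit false

namespace Pool.Agent.Helper182.Bing


theorem arcs_dist (s t : ℝ) : ‖(Circle.exp s : ℂ) - (Circle.exp t : ℂ)‖ ≤ |s - t| := by
  have h1 : (Circle.exp s : ℂ) - (Circle.exp t : ℂ) =
      (Circle.exp t : ℂ) * (Complex.exp (Complex.I * ((s - t : ℝ) : ℂ)) - 1) := by
    rw [Circle.coe_exp, Circle.coe_exp, mul_sub, mul_one, ← Complex.exp_add]
    congr 2
    push_cast; ring
  rw [h1, norm_mul, Circle.norm_coe, one_mul]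
  exact Real.norm_exp_I_mul_ofReal_sub_one_le

theorem arcs (M : ℕ) (hM : 1 ≤ M) : ∃ A : Fin M → Set Circle,
    (∀ j, IsOpen (A j)) ∧ (∀ i j, i ≠ j → Disjoint (A i) (A j)) ∧
    (∀ j, ∀ u ∈ A j, ∀ v ∈ A j, ‖(u : ℂ) - (v : ℂ)‖ < 7 / M) ∧
    (∀ u : Circle, u ^ M ≠ 1 → ∃ j, u ∈ A j) := by
  have hM0 : (0 : ℝ) < M := by exact_mod_cast hM
  have hpi := Real.pi_pos
  have h2pi : 0 < 2 * Real.pi := by positivity
  refine ⟨fun j => Circle.exp '' Set.Ioo (2 * Real.pi * (j / M)) (2 * Real.pi * ((j + 1) / M)),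
    ?_, ?_, ?_, ?_⟩
  · intro j
    exact isLocalHomeomorph_circleExp.isOpenMap _ isOpen_Ioo
  · have key : ∀ i j : Fin M, i < j → Disjoint
        (Circle.exp '' Set.Ioo (2 * Real.pi * (i / M)) (2 * Real.pi * ((i + 1) / M)))
        (Circle.exp '' Set.Ioo (2 * Real.pi * (j / M)) (2 * Real.pi * ((j + 1) / M))) := by
      intro i j hij
      rw [Set.disjoint_left]
      rintro u ⟨s, hs, rfl⟩ ⟨t, ht, he⟩
      rw [Circle.exp_eq_exp] at he
      obtain ⟨m, hm⟩ := he
      have hi0 : (0 : ℝ) ≤ 2 * Real.pi * (i / M) := by positivity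
      have hj0 : (0 : ℝ) ≤ 2 * Real.pi * (j / M) := by positivity
      have hj1 : 2 * Real.pi * (((j : ℕ) + 1) / M) ≤ 2 * Real.pi := by
        have : (((j : ℕ) : ℝ) + 1) / M ≤ 1 := by
          rw [div_le_one hM0]; exact_mod_cast j.2
        nlinarith
      have hi1 : 2 * Real.pi * (((i : ℕ) + 1) / M) ≤ 2 * Real.pi * ((j : ℕ) / M) := by
        apply mul_le_mul_of_nonneg_left _ h2pi.le
        apply div_le_div_of_nonneg_right _ hM0.le
        exact_mod_cast hij
      have h1 : s < t := by linarith [hs.2, ht.1]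
      have h2 : t - s < 2 * Real.pi := by linarith [hs.1, ht.2]
      have h3 : 0 < (m : ℝ) * (2 * Real.pi) := by linarith
      have h4 : (m : ℝ) * (2 * Real.pi) < 1 * (2 * Real.pi) := by linarith
      have h5 : (0 : ℝ) < m := by
        by_contra hc
        push Not at hc
        nlinarith
      have h6 : (m : ℝ) < 1 := lt_of_mul_lt_mul_right h4 h2pi.le
      have h7 : (0 : ℤ) < m := by exact_mod_cast h5
      have h8 : m < 1 := by exact_mod_cast h6
      omega
    intro i j hij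
    rcases lt_or_gt_of_ne hij with h | h
    · exact key i j h
    · exact (key j i h).symm
  · rintro j u ⟨s, hs, rfl⟩ v ⟨t, ht, rfl⟩
    have h1 := arcs_dist s t
    have h2 : 2 * Real.pi * (((j : ℕ) + 1) / M) = 2 * Real.pi * ((j : ℕ) / M) + 2 * Real.pi / M := by
      field_simp
    have h3 : |s - t| < 2 * Real.pi / M := by
      rw [abs_lt]
      constructor
      · linarith [hs.1, ht.2]
      · linarith [hs.2, ht.1]
    have h4 : 2 * Real.pi / M < 7 / M := by
      apply div_lt_div_of_pos_right _ hM0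
      linarith [Real.pi_lt_d2]
    linarith
  · intro u hu
    set v : ℝ := Int.fract (Complex.arg u / (2 * Real.pi)) with hv
    have hv0 : 0 ≤ v := Int.fract_nonneg _
    have hv1 : v < 1 := Int.fract_lt_one _
    have hexp : Circle.exp (2 * Real.pi * v) = u := by
      rw [← Circle.exp_arg u]
      rw [Circle.exp_eq_exp]
      refine ⟨-⌊Complex.arg u / (2 * Real.pi)⌋, ?_⟩
      rw [hv, Int.fract]
      push_cast
      field_simp
      ring
    have hf0 : 0 ≤ (M : ℝ) * v := by positivity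
    have hf1 : (M : ℝ) * v < M := by nlinarith
    have hfl : ⌊(M : ℝ) * v⌋₊ < M := by rwa [Nat.floor_lt hf0]
    refine ⟨⟨⌊(M : ℝ) * v⌋₊, hfl⟩, 2 * Real.pi * v, ⟨?_, ?_⟩, hexp⟩
    · have h1 := Nat.floor_le hf0
      have h2 : ((⌊(M : ℝ) * v⌋₊ : ℕ) : ℝ) ≠ M * v := by
        intro he
        apply hu
        rw [← hexp, ← Circle.exp_nsmul, nsmul_eq_mul]
        have : (M : ℝ) * (2 * Real.pi * v) = 2 * Real.pi * ((⌊(M : ℝ) * v⌋₊ : ℤ) : ℝ) := by
          push_cast
          rw [he]; ring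
        rw [this, Circle.exp_two_pi_mul_int]
      have h3 : ((⌊(M : ℝ) * v⌋₊ : ℕ) : ℝ) < M * v := lt_of_le_of_ne h1 h2
      apply mul_lt_mul_of_pos_left _ h2pi
      rw [div_lt_iff₀ hM0]
      simp only
      linarith
    · have h1 := Nat.lt_floor_add_one ((M : ℝ) * v)
      apply mul_lt_mul_of_pos_left _ h2pi
      rw [lt_div_iff₀ hM0]
      simp only
      linarith


end Pool.Agent.Helper182.Bing
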