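import Mathlib
import Pool.Agent.Helper182.BDefs

set_option autoImplicit false

namespace Pool.Agent.Helper182.Bing


theorem two_families {X : Type} [TopologicalSpace X] [CompactSpace X] (n : ℕ) (U : Fin n → Set X)
    (ι κ : Type) (A : ι → Set X) (B : κ → Set X)
    (hA : ∀ i, IsOpen (A i)) (hB : ∀ i, IsOpen (B i))
    (hA2 : ∀ i, ∃ l, A i ⊆ U l) (hB2 : ∀ i, ∃ l, B i ⊆ U l)
    (hA3 : ∀ i j, i ≠ j → Disjoint (A i) (A j)) (hB3 : ∀ i j, i ≠ j → Disjoint (B i) (B j))
    (hcov : ∀ x, (∃ i, x ∈ A i) ∨ ∃ i, x ∈ B i) :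
    ∃ (m : ℕ) (V : Fin m → Set X), (∀ j, IsOpen (V j)) ∧ (⋃ j, V j) = Set.univ ∧
      (∀ j, ∃ i, V j ⊆ U i) ∧
      (∀ (x : X) (a b c : Fin m), x ∈ V a → x ∈ V b → x ∈ V c → a = b ∨ a = c ∨ b = c) := by
  classical
  obtain ⟨T, hT⟩ := isCompact_univ.elim_finite_subcover (X := X) (Sum.elim A B)
    (by
      rintro (i | i)
      · exact hA i
      · exact hB i)
    (by
      intro x _
      rcases hcov x with ⟨i, hi⟩ | ⟨i, hi⟩
      · exact Set.mem_iUnion.2 ⟨Sum.inl i, hi⟩
      · exact Set.mem_iUnion.2 ⟨Sum.inr i, hi⟩)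
  refine ⟨T.card, fun j => Sum.elim A B ((T.equivFin.symm j : T) : ι ⊕ κ), ?_, ?_, ?_, ?_⟩
  · intro j
    beta_reduce
    generalize ((T.equivFin.symm j : T) : ι ⊕ κ) = t
    rcases t with i | i
    · exact hA i
    · exact hB i
  · apply Set.eq_univ_of_forall
    intro x
    have hx := hT (Set.mem_univ x)
    simp only [Set.mem_iUnion] at hx
    obtain ⟨t, ht, hx⟩ := hx
    refine Set.mem_iUnion.2 ⟨T.equivFin ⟨t, ht⟩, ?_⟩
    simpa using hx
  · intro j
    beta_reduce
    generalize ((T.equivFin.symm j : T) : ι ⊕ κ) = t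
    rcases t with i | i
    · exact hA2 i
    · exact hB2 i
  · intro x a b c ha hb hc
    have hAe : ∀ i j, x ∈ A i → x ∈ A j → i = j := by
      intro i j h1 h2
      by_contra hne
      exact (Set.disjoint_left.1 (hA3 i j hne)) h1 h2
    have hBe : ∀ i j, x ∈ B i → x ∈ B j → i = j := by
      intro i j h1 h2
      by_contra hne
      exact (Set.disjoint_left.1 (hB3 i j hne)) h1 h2
    have hinj : ∀ p q : Fin T.card, ((T.equivFin.symm p : T) : ι ⊕ κ) = ((T.equivFin.symm q : T) : ι ⊕ κ) → p = q := by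
      intro p q h
      exact T.equivFin.symm.injective (Subtype.ext h)
    simp only at ha hb hc
    rcases hpa : ((T.equivFin.symm a : T) : ι ⊕ κ) with i | i <;>
    rcases hpb : ((T.equivFin.symm b : T) : ι ⊕ κ) with j | j <;>
    rcases hpc : ((T.equivFin.symm c : T) : ι ⊕ κ) with k | k <;>
    rw [hpa] at ha <;> rw [hpb] at hb <;> rw [hpc] at hc <;>
    simp only [Sum.elim_inl, Sum.elim_inr] at ha hb hc
    · left; exact hinj a b (by rw [hpa, hpb, hAe i j ha hb])
    · left; exact hinj a b (by rw [hpa, hpb, hAe i j ha hb])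
    · right; left; exact hinj a c (by rw [hpa, hpc, hAe i k ha hc])
    · right; right; exact hinj b c (by rw [hpb, hpc, hBe j k hb hc])
    · right; right; exact hinj b c (by rw [hpb, hpc, hAe j k hb hc])
    · right; left; exact hinj a c (by rw [hpa, hpc, hBe i k ha hc])
    · left; exact hinj a b (by rw [hpa, hpb, hBe i j ha hb])
    · left; exact hinj a b (by rw [hpa, hpb, hBe i j ha hb])


end Pool.Agent.Helper182.Bing
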