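import Mathlib
import Pool.Agent.Helper182.BE1
import Pool.Agent.Helper182.BE2
import Pool.Agent.Helper182.BE3
import Pool.Agent.Helper182.BE4
import Pool.Agent.Helper182.BB3

set_option autoImplicit false

namespace Pool.Agent.Helper182.Bing


theorem ray_lt (i : Fin 5) (s c : ℝ) (hs : 0 ≤ s) : H (ray i s) * (1 + c) < 1 ↔ c < s := by
  rw [H_ray i s hs, one_div_mul_eq_div, div_lt_one (by linarith)]
  constructor <;> intro h <;> linarith

theorem lt_ray (i : Fin 5) (s c : ℝ) (hs : 0 ≤ s) : 1 < H (ray i s) * (1 + c) ↔ s < c := by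
  rw [H_ray i s hs, one_div_mul_eq_div, one_lt_div (by linarith)]
  constructor <;> intro h <;> linarith

/-- sets near the solenoid -/
def nearSet (c : ℝ) (m : ℕ) (ζ : Circle) (A : Set Circle) : Set K :=
  {k | H k * (1 + c) < 1 ∧ (P k : ℕ → Circle) m * ζ ∈ A}

/-- open arcs in the rays -/
def starSet (i : Fin 5) (a b : ℝ) : Set K :=
  {k | 0 < W i k ∧ H k * (1 + a) < 1 ∧ 1 < H k * (1 + b)}

/-- neighbourhood of the centre -/
def cenSet (b : ℝ) : Set K := {k | 1 < H k * (1 + b)}

theorem nearSet_open (c : ℝ) (hc : 0 ≤ c) (m : ℕ) (ζ : Circle) (A : Set Circle)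
    (hA : IsOpen A) : IsOpen (nearSet c m ζ A) := by
  have h1 : ContinuousOn (fun k : K => (P k : ℕ → Circle) m * ζ) {k : K | k ≠ cen} := by
    apply ContinuousOn.mul _ continuousOn_const
    have h2 : Continuous (fun x : Sol => (x : ℕ → Circle) m) :=
      (continuous_apply m).comp continuous_subtype_val
    exact h2.comp_continuousOn continuousOn_P
  haveI : T1Space K := inferInstance
  have h3 : IsOpen {k : K | k ≠ cen} := isOpen_ne
  have h4 := h1.isOpen_inter_preimage h3 hA
  have h5 : IsOpen {k : K | H k * (1 + c) < 1} :=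
    isOpen_lt (continuous_H.mul continuous_const) continuous_const
  have h6 : nearSet c m ζ A = ({k : K | k ≠ cen} ∩ (fun k : K => (P k : ℕ → Circle) m * ζ) ⁻¹' A) ∩
      {k : K | H k * (1 + c) < 1} := by
    ext k
    simp only [nearSet, Set.mem_setOf_eq, Set.mem_inter_iff, Set.mem_preimage]
    constructor
    · rintro ⟨h, h'⟩
      refine ⟨⟨?_, h'⟩, h⟩
      rintro rfl
      rw [(H_eq_one_iff cen).2 rfl] at h
      linarith
    · rintro ⟨⟨_, h'⟩, h⟩
      exact ⟨h, h'⟩
  rw [h6]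
  exact h4.inter h5

theorem starSet_open (i : Fin 5) (a b : ℝ) : IsOpen (starSet i a b) := by
  have h1 : IsOpen {k : K | 0 < W i k} := isOpen_lt continuous_const (continuous_W i)
  have h2 : IsOpen {k : K | H k * (1 + a) < 1} :=
    isOpen_lt (continuous_H.mul continuous_const) continuous_const
  have h3 : IsOpen {k : K | 1 < H k * (1 + b)} :=
    isOpen_lt continuous_const (continuous_H.mul continuous_const)
  exact h1.inter (h2.inter h3)

theorem cenSet_open (b : ℝ) : IsOpen (cenSet b) :=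
  isOpen_lt continuous_const (continuous_H.mul continuous_const)

theorem mem_starSet (i : Fin 5) (a b : ℝ) (k : K) :
    k ∈ starSet i a b ↔ ∃ s : ℝ, 0 < s ∧ a < s ∧ s < b ∧ k = ray i s := by
  constructor
  · rintro ⟨h1, h2, h3⟩
    obtain ⟨s, hs, rfl⟩ := (W_pos_iff i k).1 h1
    exact ⟨s, hs, (ray_lt i s a hs.le).1 h2, (lt_ray i s b hs.le).1 h3, rfl⟩
  · rintro ⟨s, hs, h1, h2, rfl⟩
    exact ⟨(W_pos_iff i _).2 ⟨s, hs, rfl⟩, (ray_lt i s a hs.le).2 h1, (lt_ray i s b hs.le).2 h2⟩

theorem mem_cenSet (b : ℝ) (k : K) :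
    k ∈ cenSet b ↔ ∃ (i : Fin 5) (s : ℝ), 0 ≤ s ∧ s < b ∧ k = ray i s := by
  constructor
  · intro h
    rcases K_cases k with ⟨x, rfl⟩ | ⟨i, s, hs, rfl⟩
    · simp only [cenSet, Set.mem_setOf_eq, H_sig] at h
      linarith
    · exact ⟨i, s, hs, (lt_ray i s b hs).1 h, rfl⟩
  · rintro ⟨i, s, hs, h, rfl⟩
    exact (lt_ray i s b hs).2 h

theorem near_disj_near (c : ℝ) (m : ℕ) (ζ : Circle) (A B : Set Circle) (h : Disjoint A B) :
    Disjoint (nearSet c m ζ A) (nearSet c m ζ B) := by
  rw [Set.disjoint_left] at h ⊢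
  intro k hk hk'
  exact h hk.2 hk'.2

theorem near_disj_star (c : ℝ) (m : ℕ) (ζ : Circle) (A : Set Circle) (i : Fin 5) (a b : ℝ)
    (h : b ≤ c) : Disjoint (nearSet c m ζ A) (starSet i a b) := by
  rw [Set.disjoint_left]
  intro k hk hk'
  obtain ⟨s, hs, h1, h2, rfl⟩ := (mem_starSet i a b k).1 hk'
  have := (ray_lt i s c hs.le).1 hk.1
  linarith

theorem near_disj_cen (c : ℝ) (m : ℕ) (ζ : Circle) (A : Set Circle) (b : ℝ)
    (h : b ≤ c) : Disjoint (nearSet c m ζ A) (cenSet b) := by
  rw [Set.disjoint_left]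
  intro k hk hk'
  obtain ⟨i, s, hs, h2, rfl⟩ := (mem_cenSet b k).1 hk'
  have := (ray_lt i s c hs).1 hk.1
  linarith

theorem star_disj_cen (i : Fin 5) (a b c : ℝ) (h : c ≤ a) :
    Disjoint (starSet i a b) (cenSet c) := by
  rw [Set.disjoint_left]
  intro k hk hk'
  obtain ⟨s, hs, h1, h2, rfl⟩ := (mem_starSet i a b k).1 hk
  obtain ⟨j, t, ht, h3, h4⟩ := (mem_cenSet c _).1 hk'
  have := (ray_inj i j s t hs ht h4).2
  linarith

theorem star_disj_star (i j : Fin 5) (a b c d : ℝ) (h : i ≠ j ∨ b ≤ c ∨ d ≤ a) :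
    Disjoint (starSet i a b) (starSet j c d) := by
  rw [Set.disjoint_left]
  intro k hk hk'
  obtain ⟨s, hs, h1, h2, rfl⟩ := (mem_starSet i a b k).1 hk
  obtain ⟨t, ht, h3, h4, h5⟩ := (mem_starSet j c d _).1 hk'
  obtain ⟨h6, h7⟩ := ray_inj i j s t hs ht.le h5
  rcases h with h | h | h
  · exact h h6
  · linarith
  · linarith

theorem coe_pow_Sol (x : Sol) (M : ℕ) (m : ℕ) :
    ((x ^ M : Sol) : ℕ → Circle) m = ((x : ℕ → Circle) m) ^ M := by
  simp

theorem coe_mul_Sol (x y : Sol) (m : ℕ) :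
    ((x * y : Sol) : ℕ → Circle) m = (x : ℕ → Circle) m * (y : ℕ → Circle) m := by
  simp

theorem P_ray_pow (i : Fin 5) (N q0 m : ℕ) (hN : 1 ≤ N) :
    ((P (ray i (N : ℝ)) : ℕ → Circle) m) ^ (2 ^ m * (11 * q0)) = 1 := by
  have hN0 : (0 : ℝ) < N := by exact_mod_cast hN
  rw [P_ray i N hN0, coe_mul_Sol, mul_pow]
  have h1 : ((xb i : ℕ → Circle) m) ^ (2 ^ m * (11 * q0)) = 1 := by
    rw [← coe_pow_Sol]
    have : (xb i) ^ (2 ^ m * (11 * q0)) = (1 : Sol) := by
      unfold xb
      rw [← pow_mul, show (i : ℕ) * (2 ^ m * (11 * q0)) = 11 * ((i : ℕ) * (2 ^ m * q0)) by ring,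
        pow_mul, omega_pow_11, one_pow]
    rw [this]
    simp
  rw [h1, one_mul]
  show (Circle.exp (2 * Real.pi * (sg i * N / 2 ^ m))) ^ (2 ^ m * (11 * q0)) = 1
  rw [← Circle.exp_nsmul, nsmul_eq_mul]
  have h2 : (((2 ^ m * (11 * q0) : ℕ) : ℝ) * (2 * Real.pi * (sg i * N / 2 ^ m))) =
      sg i * ((11 * q0 * N : ℕ) : ℝ) * (2 * Real.pi) := by
    push_cast
    field_simp
  rw [h2]
  have h3 : ∀ n : ℤ, Circle.exp ((n : ℝ) * (2 * Real.pi)) = 1 := by
    intro n
    have := Circle.exp_int_mul_two_pi n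
    exact this
  rcases sg_cases i with h | h
  · rw [h, one_mul]
    exact_mod_cast h3 ((11 * q0 * N : ℕ) : ℤ)
  · rw [h]
    have := h3 (-((11 * q0 * N : ℕ) : ℤ))
    rw [← this]
    congr 1
    push_cast
    ring

theorem dim_K (n : ℕ) (U : Fin n → Set K) (hU : ∀ i, IsOpen (U i))
    (hcov : (⋃ i, U i) = Set.univ) :
    ∃ (m : ℕ) (V : Fin m → Set K), (∀ j, IsOpen (V j)) ∧ (⋃ j, V j) = Set.univ ∧
      (∀ j, ∃ i, V j ⊆ U i) ∧
      (∀ (x : K) (a b c : Fin m), x ∈ V a → x ∈ V b → x ∈ V c → a = b ∨ a = c ∨ b = c) := by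
  haveI := compactSpace_K
  obtain ⟨m, δ, hδ, hnear⟩ := near_small n U hU hcov
  obtain ⟨N, hN⟩ : ∃ N : ℕ, 1 / δ < N := exists_nat_gt _
  have hN0 : (0 : ℝ) < N := lt_trans (by positivity) hN
  have hN1 : 1 ≤ N := by exact_mod_cast hN0
  have hN2 : 1 / (N : ℝ) < δ := by
    rw [div_lt_iff₀ hN0]
    rw [div_lt_iff₀ hδ] at hN
    linarith
  obtain ⟨δ2, hδ2, hstar, hcen⟩ := star_small n U hU hcov N
  obtain ⟨q0, hq0⟩ : ∃ q0 : ℕ, 1 / δ2 + 7 / δ + 1 < q0 := exists_nat_gt _
  have hq0' : (1 : ℝ) < q0 := lt_of_le_of_lt (by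
    have : 0 < 1 / δ2 := by positivity
    have : 0 < 7 / δ := by positivity
    linarith) hq0
  set q : ℕ := 11 * q0 with hq
  have hqr : (q : ℝ) = 11 * q0 := by rw [hq]; push_cast; ring
  have hq1 : (1 : ℝ) < q := by rw [hqr]; linarith
  have hqpos : (0 : ℝ) < q := by linarith
  have hqδ2 : 1 / (q : ℝ) < δ2 := by
    rw [div_lt_iff₀ hqpos]
    have h1 : 1 / δ2 < q := by
      have : 0 < 7 / δ := by positivity
      rw [hqr]; linarith
    rw [div_lt_iff₀ hδ2] at h1
    linarith
  set M : ℕ := 2 ^ m * q with hM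
  have hMq : (q : ℝ) ≤ M := by
    have : q ≤ M := by
      rw [hM]
      exact Nat.le_mul_of_pos_left _ (by positivity)
    exact_mod_cast this
  have hMpos : (0 : ℝ) < M := by linarith
  have hM1 : 1 ≤ M := by exact_mod_cast hMpos
  have hMδ : 7 / (M : ℝ) < δ := by
    rw [div_lt_iff₀ hMpos]
    have h1 : 7 / δ < M := by
      have : 0 < 1 / δ2 := by positivity
      have h2 : (q0 : ℝ) ≤ q := by rw [hqr]; linarith
      linarith
    rw [div_lt_iff₀ hδ] at h1
    linarith
  obtain ⟨A, hAo, hAd, hAs, hAc⟩ := arcs M hM1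
  let ζ : Circle := Circle.exp (Real.pi / M)
  have hζ : ζ ^ M ≠ 1 := by
    show (Circle.exp (Real.pi / M)) ^ M ≠ 1
    rw [← Circle.exp_nsmul, nsmul_eq_mul, mul_div_cancel₀ _ hMpos.ne']
    intro h
    have h1 := congrArg (fun z : Circle => (z : ℂ)) h
    simp only [Circle.coe_exp, Circle.coe_one, Complex.exp_pi_mul_I] at h1
    norm_num at h1
  -- the two families
  let FA : Fin M ⊕ (Fin 5 × Fin (N * q)) → Set K := fun z => match z with
    | Sum.inl j => nearSet N m 1 (A j)
    | Sum.inr p => starSet p.1 (((p.2 : ℕ) : ℝ) / q) ((((p.2 : ℕ) : ℝ) + 1) / q)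
  let FB : (Fin M ⊕ (Fin 5 × Fin (N * q - 1))) ⊕ Unit → Set K := fun z => match z with
    | Sum.inl (Sum.inl j) => nearSet (N - 1 / (2 * q)) m ζ (A j)
    | Sum.inl (Sum.inr p) =>
        starSet p.1 ((((p.2 : ℕ) : ℝ) + 1 / 2) / q) ((((p.2 : ℕ) : ℝ) + 3 / 2) / q)
    | Sum.inr _ => cenSet (1 / (2 * q))
  have hNh : (0 : ℝ) ≤ 1 / (2 * (q : ℝ)) := by positivity
  have hNh2 : 1 / (2 * (q : ℝ)) ≤ 1 / 2 := by
    rw [div_le_div_iff₀ (by positivity) (by norm_num)]
    linarith
  have hN1r : (1 : ℝ) ≤ N := by exact_mod_cast hN1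
  have hNc : (0 : ℝ) ≤ N - 1 / (2 * q) := by linarith
  refine two_families n U _ _ FA FB ?_ ?_ ?_ ?_ ?_ ?_ ?_
  · rintro (j | p)
    · exact nearSet_open _ (by positivity) _ _ _ (hAo j)
    · exact starSet_open _ _ _
  · rintro ((j | p) | _)
    · exact nearSet_open _ hNc _ _ _ (hAo j)
    · exact starSet_open _ _ _
    · exact cenSet_open _
  · rintro (j | p)
    · obtain ⟨l, hl⟩ := hnear (A j) (fun u hu v hv => lt_trans (hAs j u hu v hv) hMδ)
      refine ⟨l, fun k hk => hl k ?_ ?_⟩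
      · have h1 : H k * (1 + N) < 1 := hk.1
        have h2 := (H_mem k).1
        have h3 : H k * N < 1 := by nlinarith
        have h4 : H k < 1 / N := by rw [lt_div_iff₀ hN0]; exact h3
        linarith
      · have := hk.2
        rwa [mul_one] at this
    · have hp : (p.2 : ℕ) < N * q := p.2.2
      have hp' : (((p.2 : ℕ) : ℝ)) ≤ N * q := by exact_mod_cast hp.le
      obtain ⟨l, hl⟩ := hstar p.1 (((p.2 : ℕ) : ℝ) / q) (by positivity)
        (by rw [div_le_iff₀ hqpos]; exact hp')
      refine ⟨l, fun k hk => ?_⟩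
      obtain ⟨s, hs, h1, h2, rfl⟩ := (mem_starSet _ _ _ k).1 hk
      refine hl s h1.le ?_
      rw [add_div] at h2
      linarith
  · rintro ((j | p) | _)
    · obtain ⟨l, hl⟩ := hnear {u | u * ζ ∈ A j} (by
        intro u hu v hv
        refine lt_trans ?_ hMδ
        have h1 := hAs j _ hu _ hv
        have h2 : ‖((u * ζ : Circle) : ℂ) - ((v * ζ : Circle) : ℂ)‖ = ‖(u : ℂ) - (v : ℂ)‖ := by
          rw [Circle.coe_mul, Circle.coe_mul, ← sub_mul, norm_mul, Circle.norm_coe, mul_one]
        rw [h2] at h1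
        exact h1)
      refine ⟨l, fun k hk => hl k ?_ ?_⟩
      · have h1 : H k * (1 + (N - 1 / (2 * q))) < 1 := hk.1
        have h2 := (H_mem k).1
        have h3 : H k * N < 1 := by
          have : H k * N ≤ H k * (1 + (N - 1 / (2 * q))) :=
            mul_le_mul_of_nonneg_left (by linarith) h2
          linarith
        have h4 : H k < 1 / N := by rw [lt_div_iff₀ hN0]; exact h3
        linarith
      · exact hk.2
    · have hp : (p.2 : ℕ) < N * q - 1 := p.2.2
      have hp2 : (p.2 : ℕ) + 1 ≤ N * q := by omega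
      have hp' : (((p.2 : ℕ) : ℝ)) + 1 ≤ N * q := by exact_mod_cast hp2
      obtain ⟨l, hl⟩ := hstar p.1 ((((p.2 : ℕ) : ℝ) + 1 / 2) / q) (by positivity)
        (by rw [div_le_iff₀ hqpos]; linarith)
      refine ⟨l, fun k hk => ?_⟩
      obtain ⟨s, hs, h1, h2, rfl⟩ := (mem_starSet _ _ _ k).1 hk
      refine hl s h1.le ?_
      have h3 : (((p.2 : ℕ) : ℝ) + 3 / 2) / q = (((p.2 : ℕ) : ℝ) + 1 / 2) / q + 1 / q := by
        rw [← add_div]; ring
      rw [h3] at h2
      linarith
    · obtain ⟨l, hl⟩ := hcen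
      refine ⟨l, fun k hk => ?_⟩
      obtain ⟨i, s, hs, h1, rfl⟩ := (mem_cenSet _ k).1 hk
      refine hl i s hs ?_
      have h2 : 1 / (2 * (q : ℝ)) ≤ 1 / q := by
        apply div_le_div_of_nonneg_left (by norm_num) hqpos (by linarith)
      linarith
  · have hstarN : ∀ p : Fin 5 × Fin (N * q), (((p.2 : ℕ) : ℝ) + 1) / q ≤ N := by
      intro p
      have hp : (p.2 : ℕ) + 1 ≤ N * q := p.2.2
      rw [div_le_iff₀ hqpos]
      exact_mod_cast hp
    rintro (j | p) (j' | p') hne
    · refine near_disj_near _ _ _ _ _ (hAd j j' ?_)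
      rintro rfl
      exact hne rfl
    · exact near_disj_star _ _ _ _ _ _ _ (hstarN p')
    · exact (near_disj_star _ _ _ _ _ _ _ (hstarN p)).symm
    · apply star_disj_star
      by_cases h : p.1 = p'.1
      · right
        have h2 : (p.2 : ℕ) ≠ (p'.2 : ℕ) := by
          intro h3
          apply hne
          rw [Prod.ext h (Fin.ext h3)]
        rcases lt_or_gt_of_ne h2 with h3 | h3
        · left
          apply div_le_div_of_nonneg_right _ hqpos.le
          exact_mod_cast h3
        · right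
          apply div_le_div_of_nonneg_right _ hqpos.le
          exact_mod_cast h3
      · left
        exact h
  · have hstarN : ∀ p : Fin 5 × Fin (N * q - 1), (((p.2 : ℕ) : ℝ) + 3 / 2) / q ≤ N - 1 / (2 * q) := by
      intro p
      have hp : (p.2 : ℕ) < N * q - 1 := p.2.2
      have hp2 : (p.2 : ℕ) + 2 ≤ N * q := by omega
      have hp' : (((p.2 : ℕ) : ℝ)) + 2 ≤ N * q := by exact_mod_cast hp2
      have h1 : (N : ℝ) - 1 / (2 * q) = (N * q - 1 / 2) / q := by
        field_simp
      rw [h1]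
      apply div_le_div_of_nonneg_right _ hqpos.le
      linarith
    have hstarC : ∀ p : Fin 5 × Fin (N * q - 1), 1 / (2 * (q : ℝ)) ≤ (((p.2 : ℕ) : ℝ) + 1 / 2) / q := by
      intro p
      rw [← div_div]
      apply div_le_div_of_nonneg_right _ hqpos.le
      have : (0 : ℝ) ≤ ((p.2 : ℕ) : ℝ) := by positivity
      linarith
    have hNC : 1 / (2 * (q : ℝ)) ≤ N - 1 / (2 * q) := by linarith
    rintro ((j | p) | _) ((j' | p') | _) hne
    · refine near_disj_near _ _ _ _ _ (hAd j j' ?_)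
      rintro rfl
      exact hne rfl
    · exact near_disj_star _ _ _ _ _ _ _ (hstarN p')
    · exact near_disj_cen _ _ _ _ _ hNC
    · exact (near_disj_star _ _ _ _ _ _ _ (hstarN p)).symm
    · apply star_disj_star
      by_cases h : p.1 = p'.1
      · right
        have h2 : (p.2 : ℕ) ≠ (p'.2 : ℕ) := by
          intro h3
          apply hne
          rw [Prod.ext h (Fin.ext h3)]
        rcases lt_or_gt_of_ne h2 with h3 | h3
        · left
          apply div_le_div_of_nonneg_right _ hqpos.le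
          have : (((p.2 : ℕ) : ℝ)) + 1 ≤ ((p'.2 : ℕ) : ℝ) := by exact_mod_cast h3
          linarith
        · right
          apply div_le_div_of_nonneg_right _ hqpos.le
          have : (((p'.2 : ℕ) : ℝ)) + 1 ≤ ((p.2 : ℕ) : ℝ) := by exact_mod_cast h3
          linarith
      · left
        exact h
    · exact star_disj_cen _ _ _ _ (hstarC p)
    · exact (near_disj_cen _ _ _ _ _ hNC).symm
    · exact (star_disj_cen _ _ _ _ (hstarC p')).symm
    · exact absurd rfl hne
  · intro k
    -- the near part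
    have hgen : ∀ k : K, H k * (1 + N) < 1 → (∃ i, k ∈ FA i) ∨ ∃ i, k ∈ FB i := by
      intro k hk
      by_cases hu : ((P k : ℕ → Circle) m) ^ M = 1
      · right
        obtain ⟨j, hj⟩ := hAc ((P k : ℕ → Circle) m * ζ) (by
          rw [mul_pow, hu, one_mul]; exact hζ)
        refine ⟨Sum.inl (Sum.inl j), ?_, hj⟩
        have h2 := (H_mem k).1
        have : H k * (1 + (N - 1 / (2 * q))) ≤ H k * (1 + N) :=
          mul_le_mul_of_nonneg_left (by linarith) h2
        linarith
      · left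
        obtain ⟨j, hj⟩ := hAc _ hu
        refine ⟨Sum.inl j, hk, ?_⟩
        rw [mul_one]
        exact hj
    rcases K_cases k with ⟨x, rfl⟩ | ⟨i, s, hs, rfl⟩
    · apply hgen
      rw [H_sig]
      linarith
    · rcases lt_trichotomy s (N : ℝ) with hsN | hsN | hsN
      · -- s < N
        have hx0 : (0 : ℝ) ≤ q * s := by positivity
        have hj1 : ((⌊(q : ℝ) * s⌋₊ : ℕ) : ℝ) ≤ q * s := Nat.floor_le hx0
        have hj2 : (q : ℝ) * s < ⌊(q : ℝ) * s⌋₊ + 1 := Nat.lt_floor_add_one _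
        set j : ℕ := ⌊(q : ℝ) * s⌋₊ with hj
        have hjN : j < N * q := by
          have h1 : (j : ℝ) < N * q := by nlinarith
          exact_mod_cast h1
        rcases eq_or_lt_of_le hj1 with h1 | h1
        · rcases Nat.eq_zero_or_pos j with h0 | h0
          · -- centre
            right
            refine ⟨Sum.inr (), ?_⟩
            refine (mem_cenSet _ _).2 ⟨i, s, hs, ?_, rfl⟩
            have : s = 0 := by
              rw [h0, Nat.cast_zero] at h1
              rcases mul_eq_zero.1 h1.symm with h2 | h2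
              · linarith
              · exact h2
            rw [this]
            positivity
          · right
            refine ⟨Sum.inl (Sum.inr (i, ⟨j - 1, by omega⟩)), ?_⟩
            have hjr : ((j - 1 : ℕ) : ℝ) = j - 1 := by
              rw [Nat.cast_sub h0, Nat.cast_one]
            have hj0 : (1 : ℝ) ≤ j := by exact_mod_cast h0
            have hspos : 0 < s := by
              rcases eq_or_lt_of_le hs with h2 | h2
              · rw [← h2, mul_zero] at h1
                linarith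
              · exact h2
            refine (mem_starSet _ _ _ _).2 ⟨s, hspos, ?_, ?_, rfl⟩
            · show (((j - 1 : ℕ) : ℝ) + 1 / 2) / q < s
              rw [hjr, div_lt_iff₀ hqpos]
              linarith
            · show s < (((j - 1 : ℕ) : ℝ) + 3 / 2) / q
              rw [hjr, lt_div_iff₀ hqpos]
              linarith
        · left
          refine ⟨Sum.inr (i, ⟨j, hjN⟩), ?_⟩
          have hspos : 0 < s := by
            rcases eq_or_lt_of_le hs with h2 | h2
            · rw [← h2, mul_zero] at h1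
              have : (0 : ℝ) ≤ j := by positivity
              linarith
            · exact h2
          refine (mem_starSet _ _ _ _).2 ⟨s, hspos, ?_, ?_, rfl⟩
          · show (j : ℝ) / q < s
            rw [div_lt_iff₀ hqpos]
            linarith
          · show s < ((j : ℝ) + 1) / q
            rw [lt_div_iff₀ hqpos]
            linarith
      · -- s = N
        subst hsN
        right
        have hu : ((P (ray i (N : ℝ)) : ℕ → Circle) m) ^ M = 1 := P_ray_pow i N q0 m hN1
        obtain ⟨j, hj⟩ := hAc ((P (ray i (N : ℝ)) : ℕ → Circle) m * ζ) (by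
          rw [mul_pow, hu, one_mul]; exact hζ)
        refine ⟨Sum.inl (Sum.inl j), ?_, hj⟩
        refine (ray_lt i N _ hs).2 ?_
        have : (0 : ℝ) < 1 / (2 * (q : ℝ)) := by positivity
        linarith
      · apply hgen
        exact (ray_lt i s _ hs).2 hsN


end Pool.Agent.Helper182.Bing
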