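import Mathlib
import Pool.Agent.Helper182.BA4
import Pool.Agent.Helper182.BC1
import Pool.Agent.Helper182.BC2
import Pool.Agent.Helper182.BC3

set_option autoImplicit false

namespace Pool.Agent.Helper182.Bing

theorem sol_dense (x y : Sol) :
    ∃ s : ℕ → ℝ, Filter.Tendsto (fun n => y * phi (s n)) Filter.atTop (nhds x) := by
  have h := fun n => dense_half x y 1 (Or.inl rfl) n
  choose s hs using h
  refine ⟨fun n => 1 * s n, ?_⟩
  rw [tendsto_subtype_rng, tendsto_pi_nhds]
  intro m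
  apply tendsto_const_nhds.congr'
  filter_upwards [Filter.eventually_ge_atTop m] with n hn
  exact ((hs n).2 m hn).symm

theorem sol_dichotomy (f : K → K) (hf : Continuous f) :
    (∀ x : Sol, H (f (sig x)) = 0) ∨ (∀ x : Sol, H (f (sig x)) ≠ 0) := by
  by_cases h : ∃ x0 : Sol, H (f (sig x0)) = 0
  · left
    obtain ⟨x0, hx0⟩ := h
    have h1 : ∀ t, H (f (sig (x0 * phi t))) = 0 := by
      apply path_dichotomy (fun t => f (sig (x0 * phi t)))
        (hf.comp (continuous_sig.comp (continuous_const.mul continuous_phi))) 0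
      simp only [phi_zero, mul_one]
      exact hx0
    intro x
    obtain ⟨s, hs⟩ := sol_dense x x0
    have h2 : Filter.Tendsto (fun n => H (f (sig (x0 * phi (s n))))) Filter.atTop
        (nhds (H (f (sig x)))) :=
      ((continuous_H.comp (hf.comp continuous_sig)).tendsto x).comp hs
    simp only [h1] at h2
    exact (tendsto_nhds_unique h2 tendsto_const_nhds)
  · right
    push Not at h
    exact h

theorem ray_dichotomy (f : K → K) (hf : Continuous f) :
    (∀ k, H k ≠ 0 → H (f k) = 0) ∨ (∀ k, H k ≠ 0 → H (f k) ≠ 0) := by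
  by_cases h : H (f cen) = 0
  · left
    intro k hk
    obtain ⟨i, s, hs, rfl⟩ := (H_ne_zero_iff k).1 hk
    apply path_dichotomy (fun t => f (ray i t)) (hf.comp (continuous_ray i)) 0
    rw [ray_nonpos i 0 le_rfl]
    exact h
  · right
    intro k hk h0
    obtain ⟨i, s, hs, rfl⟩ := (H_ne_zero_iff k).1 hk
    apply h
    have := path_dichotomy (fun t => f (ray i t)) (hf.comp (continuous_ray i)) s h0 0
    rwa [ray_nonpos i 0 le_rfl] at this

theorem cen_eq_ray (i : Fin 5) : ray i 0 = cen := ray_nonpos i 0 le_rfl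

theorem H_cen : H cen = 1 := (H_eq_one_iff cen).2 rfl

theorem ne_cen_of_H (k : K) (h : H k = 0) : k ≠ cen := by
  rintro rfl
  rw [H_cen] at h
  exact one_ne_zero h

theorem cont_P_comp {X : Type*} [TopologicalSpace X] (g : X → K) (hg : Continuous g)
    (h : ∀ x, g x ≠ cen) : Continuous (fun x => P (g x)) :=
  continuousOn_P.comp_continuous hg h

/-- Case: the solenoid goes to the rays. -/
theorem case_B (f : K → K) (hf : Continuous f) (hne : ∀ k, f k ≠ k)
    (hS : ∀ x : Sol, H (f (sig x)) ≠ 0) : False := by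
  have := connectedSpace_K
  have := compactSpace_K
  rcases ray_dichotomy f hf with hR | hR
  · have hA : {k : K | H (f k) = 0} = {k : K | H k ≠ 0} := by
      ext k
      constructor
      · intro h1 h2
        obtain ⟨x, rfl⟩ := (H_eq_zero_iff k).1 h2
        exact hS x h1
      · intro h
        exact hR k h
    have hcl : IsClosed {k : K | H (f k) = 0} :=
      isClosed_eq (continuous_H.comp hf) continuous_const
    have hop : IsOpen {k : K | H (f k) = 0} := by
      rw [hA]
      exact isOpen_ne_fun continuous_H continuous_const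
    have hclo : IsClopen {k : K | H (f k) = 0} := ⟨hcl, hop⟩
    rcases isClopen_iff.1 hclo with h | h
    · have : (cen : K) ∈ {k : K | H (f k) = 0} := by
        rw [hA]
        simp only [Set.mem_ofPred_eq, H_cen]
        exact one_ne_zero
      rw [h] at this
      exact this
    · have : sig 1 ∈ {k : K | H (f k) = 0} := by rw [h]; trivial
      exact hS 1 this
  · obtain ⟨j, hj, -⟩ := tree_lemma f hf hne hR
    have : Nonempty K := ⟨cen⟩
    obtain ⟨k0, -, hk0⟩ := isCompact_univ.exists_isMinOn (Set.univ_nonempty)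
      (continuous_H.comp hf).continuousOn
    have hpos : 0 < H (f k0) := by
      have h1 : H (f k0) ≠ 0 := by
        by_cases h : H k0 = 0
        · obtain ⟨x, rfl⟩ := (H_eq_zero_iff k0).1 h
          exact hS x
        · exact hR k0 h
      exact lt_of_le_of_ne (H_mem _).1 (Ne.symm h1)
    obtain ⟨t, ht, hft⟩ := hj (1 / H (f k0)) (by positivity)
    have h2 : H (f k0) ≤ H (f (ray j (1 / H (f k0)))) := hk0 (Set.mem_univ _)
    have h3 : 0 < 1 / H (f k0) := by positivity
    rw [hft, H_ray j t (by linarith)] at h2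
    have h4 : 1 / (1 + t) < 1 / (1 / H (f k0)) := by
      apply one_div_lt_one_div_of_lt h3
      linarith
    rw [one_div_one_div] at h4
    linarith

/-- Case: the solenoid and the rays go to the solenoid. -/
theorem case_A1 (f : K → K) (hf : Continuous f) (hne : ∀ k, f k ≠ k)
    (hS : ∀ x : Sol, H (f (sig x)) = 0) (hR : ∀ k, H k ≠ 0 → H (f k) = 0) : False := by
  obtain ⟨η, b, Ψ, h0, h1, hΨ, hk⟩ := near_translation f hf hne hS
  have hall : ∀ k, H (f k) = 0 := by
    intro k
    by_cases h : H k = 0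
    · obtain ⟨x, rfl⟩ := (H_eq_zero_iff k).1 h
      exact hS x
    · exact hR k h
  have hs0 : 0 < 1 / η := by positivity
  have hH : ∀ i, H (ray i (1 / η)) ≤ η := by
    intro i
    rw [H_ray i _ hs0.le, div_le_iff₀ (by positivity)]
    have : η * (1 + 1 / η) = η + 1 := by field_simp
    rw [this]
    linarith
  have hcl : ∀ i, ∃ u : ℝ, P (f (ray i (1 / η))) = P (f cen) * phi u := by
    intro i
    have hc : Continuous (fun s => P (f (ray i s))) :=
      cont_P_comp _ (hf.comp (continuous_ray i)) (fun s => ne_cen_of_H _ (hall _))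
    obtain ⟨u, hu⟩ := path_class _ hc 0 (1 / η)
    simp only [cen_eq_ray] at hu
    exact ⟨u, hu⟩
  obtain ⟨u0, hu0⟩ := hcl 0
  obtain ⟨u1, hu1⟩ := hcl 1
  rw [(hk _ (hH 0)).2, P_ray 0 _ hs0] at hu0
  rw [(hk _ (hH 1)).2, P_ray 1 _ hs0] at hu1
  set p0 := Ψ (ray 0 (1 / η)) with hp0
  set p1 := Ψ (ray 1 (1 / η)) with hp1
  have h2 : xb 0 = xb 1 * phi (sg 1 * (1 / η) + p1 - u1 + u0 - sg 0 * (1 / η) - p0) := by
    have e0 : P (f cen) = xb 0 * phi (sg 0 * (1 / η)) * b * phi p0 * (phi u0)⁻¹ := by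
      rw [hu0]; group
    have e1 : P (f cen) = xb 1 * phi (sg 1 * (1 / η)) * b * phi p1 * (phi u1)⁻¹ := by
      rw [hu1]; group
    have e2 : xb 0 * phi (sg 0 * (1 / η)) * b * phi p0 * (phi u0)⁻¹ =
        xb 1 * phi (sg 1 * (1 / η)) * b * phi p1 * (phi u1)⁻¹ := by rw [← e0, ← e1]
    simp only [sub_eq_add_neg, phi_add, phi_neg]
    have e3 : xb 0 = (xb 0 * phi (sg 0 * (1 / η)) * b * phi p0 * (phi u0)⁻¹) *
        (b⁻¹ * phi u0 * (phi (sg 0 * (1 / η)))⁻¹ * (phi p0)⁻¹) := by
      rw [show xb 0 * phi (sg 0 * (1 / η)) * b * phi p0 * (phi u0)⁻¹ *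
        (b⁻¹ * phi u0 * (phi (sg 0 * (1 / η)))⁻¹ * (phi p0)⁻¹) =
        xb 0 * (phi (sg 0 * (1 / η)) * (phi (sg 0 * (1 / η)))⁻¹) * (b * b⁻¹) *
          (phi p0 * (phi p0)⁻¹) * ((phi u0)⁻¹ * phi u0) by
          simp only [mul_assoc, mul_comm, mul_left_comm]]
      simp
    rw [e2] at e3
    rw [e3]
    rw [show xb 1 * phi (sg 1 * (1 / η)) * b * phi p1 * (phi u1)⁻¹ *
        (b⁻¹ * phi u0 * (phi (sg 0 * (1 / η)))⁻¹ * (phi p0)⁻¹) =
        xb 1 * (phi (sg 1 * (1 / η)) * phi p1 * (phi u1)⁻¹ * phi u0 *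
          (phi (sg 0 * (1 / η)))⁻¹ * (phi p0)⁻¹) * (b * b⁻¹) by
          simp only [mul_assoc, mul_comm, mul_left_comm]]
    simp
  have h3 := (xb_mul_phi 0 1 _ h2).1
  exact absurd h3 (by decide)

theorem sg0 : sg 0 = 1 := rfl
theorem sg1 : sg 1 = 1 := rfl
theorem sg3 : sg 3 = -1 := rfl
theorem sg4 : sg 4 = -1 := rfl

theorem sign_const (η : ℝ) (h0 : 0 < η) (h1 : η ≤ 1) (Θ : K → ℝ)
    (hc : ContinuousOn Θ {k : K | H k ≤ η}) (hz : ∀ k, H k ≤ η → Θ k ≠ 0) :
    (∀ k, H k ≤ η → 0 < Θ k) ∨ (∀ k, H k ≤ η → Θ k < 0) := by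
  by_contra hcon
  push Not at hcon
  obtain ⟨⟨k, hk, hk2⟩, l, hl, hl2⟩ := hcon
  have := (preconn_eta η h0 h1).intermediate_value hk hl hc
  obtain ⟨m, hm, hm2⟩ := this ⟨hk2, hl2⟩
  exact hz m hm hm2

/-- Case: the solenoid goes to the solenoid, the rays to the rays. -/
theorem case_A2 (f : K → K) (hf : Continuous f) (hne : ∀ k, f k ≠ k)
    (hS : ∀ x : Sol, H (f (sig x)) = 0) (hR : ∀ k, H k ≠ 0 → H (f k) ≠ 0) : False := by
  obtain ⟨η, b, Ψ, h0, h1, hΨ, hk⟩ := near_translation f hf hne hS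
  obtain ⟨j, -, hj⟩ := tree_lemma f hf hne hR
  have key : ∀ i s, 0 < s → H (ray i s) ≤ η → ∃ (j' : Fin 5) (t : ℝ), 0 < t ∧
      f (ray i s) = ray j' t ∧
      xb j' * phi (sg j' * t) = xb i * phi (sg i * s) * b * phi (Ψ (ray i s)) := by
    intro i s hs hH
    have hn : H (ray i s) ≠ 0 := by
      rw [H_ray i s hs.le]
      positivity
    obtain ⟨j', t, ht, hft⟩ := (H_ne_zero_iff _).1 (hR _ hn)
    have ht' : 0 < t := by
      rcases lt_or_eq_of_le ht with h | h
      · exact h
      · exfalso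
        apply (hk _ hH).1
        rw [hft, ← h, cen_eq_ray]
    refine ⟨j', t, ht', hft, ?_⟩
    rw [← P_ray j' t ht', ← hft, (hk _ hH).2, P_ray i s hs]
  have hs0 : 0 < 1 / η := by positivity
  have hH : ∀ i, H (ray i (1 / η)) ≤ η := by
    intro i
    rw [H_ray i _ hs0.le, div_le_iff₀ (by positivity)]
    have : η * (1 + 1 / η) = η + 1 := by field_simp
    rw [this]
    linarith
  obtain ⟨β, hβ⟩ : ∃ β : ℝ, b = phi β := by
    obtain ⟨j0, t0, ht0, -, e0⟩ := key 0 _ hs0 (hH 0)
    obtain ⟨j4, t4, ht4, -, e4⟩ := key 4 _ hs0 (hH 4)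
    set p0 := Ψ (ray 0 (1 / η)) with hp0
    set p4 := Ψ (ray 4 (1 / η)) with hp4
    have hb0 : b = omega ^ (j0 : ℕ) * phi (sg j0 * t0 - sg 0 * (1 / η) - p0) := by
      have : xb 0 = 1 := by simp [xb]
      rw [this, one_mul] at e0
      have e1 : b = (phi (sg 0 * (1 / η)) * b * phi p0) * ((phi (sg 0 * (1 / η)))⁻¹ *
          (phi p0)⁻¹) := by
        rw [show (phi (sg 0 * (1 / η)) * b * phi p0) * ((phi (sg 0 * (1 / η)))⁻¹ *
          (phi p0)⁻¹) = b * (phi (sg 0 * (1 / η)) * (phi (sg 0 * (1 / η)))⁻¹) *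
            (phi p0 * (phi p0)⁻¹) by simp only [mul_assoc, mul_comm, mul_left_comm]]
        simp
      rw [← e0] at e1
      rw [e1]
      simp only [sub_eq_add_neg, phi_add, phi_neg, xb]
      simp only [mul_assoc]
    have hb4 : omega ^ 4 * b = omega ^ (j4 : ℕ) * phi (sg j4 * t4 - sg 4 * (1 / η) - p4) := by
      have : xb 4 = omega ^ 4 := rfl
      rw [this] at e4
      have e1 : omega ^ 4 * b = (omega ^ 4 * phi (sg 4 * (1 / η)) * b * phi p4) *
          ((phi (sg 4 * (1 / η)))⁻¹ * (phi p4)⁻¹) := by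
        rw [show (omega ^ 4 * phi (sg 4 * (1 / η)) * b * phi p4) *
          ((phi (sg 4 * (1 / η)))⁻¹ * (phi p4)⁻¹) = omega ^ 4 * b *
            (phi (sg 4 * (1 / η)) * (phi (sg 4 * (1 / η)))⁻¹) *
            (phi p4 * (phi p4)⁻¹) by simp only [mul_assoc, mul_comm, mul_left_comm]]
        simp
      rw [← e4] at e1
      rw [e1]
      simp only [sub_eq_add_neg, phi_add, phi_neg, xb]
      simp only [mul_assoc]
    rw [hb0, ← mul_assoc, ← pow_add] at hb4
    set a0 := sg j0 * t0 - sg 0 * (1 / η) - p0 with ha0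
    set a4 := sg j4 * t4 - sg 4 * (1 / η) - p4 with ha4
    have hj4 : (j4 : ℕ) ≤ 4 := by omega
    have hj0 : (j0 : ℕ) ≤ 4 := by omega
    have e5 : omega ^ (4 + (j0 : ℕ) - (j4 : ℕ)) = phi (a4 - a0) := by
      have e6 : omega ^ (4 + (j0 : ℕ)) = omega ^ (j4 : ℕ) * omega ^ (4 + (j0 : ℕ) - (j4 : ℕ)) := by
        rw [← pow_add]
        congr 1
        omega
      rw [e6, mul_assoc] at hb4
      have e7 := mul_left_cancel hb4
      rw [sub_eq_add_neg, phi_add, phi_neg, ← e7]
      simp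
    have e8 : ¬ (1 ≤ 4 + (j0 : ℕ) - (j4 : ℕ)) := by
      intro h
      exact omega_pow_not _ h (by omega) _ e5
    have e9 : (j0 : ℕ) = 0 := by omega
    refine ⟨a0, ?_⟩
    rw [hb0, e9]
    simp
  subst hβ
  have key2 : ∀ i s, 0 < s → H (ray i s) ≤ η → ∃ t : ℝ, 0 < t ∧ f (ray i s) = ray i t ∧
      sg i * t = sg i * s + (β + Ψ (ray i s)) := by
    intro i s hs hH
    obtain ⟨j', t, ht, hft, e⟩ := key i s hs hH
    have e1 : xb j' = xb i * phi (sg i * s + β + Ψ (ray i s) - sg j' * t) := by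
      simp only [sub_eq_add_neg, phi_add, phi_neg]
      rw [← mul_assoc, ← mul_assoc, ← mul_assoc, ← e]
      simp
    obtain ⟨h2, h3⟩ := xb_mul_phi j' i _ e1
    subst h2
    exact ⟨t, ht, hft, by linarith⟩
  have hzero : ∀ k, H k ≤ η → β + Ψ k ≠ 0 := by
    intro k hkη hz
    by_cases h : H k = 0
    · obtain ⟨x, rfl⟩ := (H_eq_zero_iff k).1 h
      obtain ⟨y, hy⟩ := (H_eq_zero_iff _).1 (hS x)
      have e := (hk _ hkη).2
      rw [hy, P_sig, P_sig, mul_assoc, ← phi_add, hz, phi_zero, mul_one] at e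
      apply hne (sig x)
      rw [hy, e]
    · obtain ⟨i, s, hs, rfl⟩ := (H_ne_zero_iff k).1 h
      have hs' : 0 < s := by
        rcases lt_or_eq_of_le hs with h' | h'
        · exact h'
        · exfalso
          rw [← h', cen_eq_ray, H_cen] at hkη
          linarith
      obtain ⟨t, ht, hft, e⟩ := key2 i s hs' hkη
      rw [hz, add_zero] at e
      have : t = s := by
        rcases sg_cases i with h' | h' <;> rw [h'] at e <;> linarith
      apply hne (ray i s)
      rw [hft, this]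
  have hc : ContinuousOn (fun k => β + Ψ k) {k : K | H k ≤ η} := continuousOn_const.add hΨ
  rcases sign_const η h0 h1.le _ hc hzero with hpos | hneg
  · have : ∀ i, sg i = 1 → i = j := by
      intro i hi
      by_contra hij
      obtain ⟨t, ht, hft, e⟩ := key2 i _ hs0 (hH i)
      have h2 := hj i hij _ t hs0 ht.le hft
      have h3 := hpos _ (hH i)
      rw [hi] at e
      linarith
    have h2 := this 0 sg0
    have h3 := this 1 sg1
    rw [← h2] at h3
    exact absurd h3 (by decide)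
  · have : ∀ i, sg i = -1 → i = j := by
      intro i hi
      by_contra hij
      obtain ⟨t, ht, hft, e⟩ := key2 i _ hs0 (hH i)
      have h2 := hj i hij _ t hs0 ht.le hft
      have h3 := hneg _ (hH i)
      rw [hi] at e
      linarith
    have h2 := this 3 sg3
    have h3 := this 4 sg4
    rw [← h2] at h3
    exact absurd h3 (by decide)

/-- The continuum has the fixed point property. -/
theorem fpp (f : K → K) (hf : Continuous f) : ∃ k, f k = k := by
  by_contra hne
  push Not at hne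
  rcases sol_dichotomy f hf with hS | hS
  · rcases ray_dichotomy f hf with hR | hR
    · exact case_A1 f hf hne hS hR
    · exact case_A2 f hf hne hS hR
  · exact case_B f hf hne hS

end Pool.Agent.Helper182.Bing
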