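import Mathlib

set_option autoImplicit false

namespace Pool.Agent.Helper182.Dr

/-- binary trees with natural number keys -/
inductive T
  | E : T
  | N : T → ℕ → T → T

open T

/-- number of nodes on the left spine -/
def sp : T → ℕ
  | E => 0
  | N l _ _ => sp l + 1

/-- graft `s` at the left end of a tree -/
def gr (s : T) : T → T
  | E => s
  | N l k r => N (gr s l) k r

/-- the keys of the search tree are exactly `a, ..., b - 1` -/
def Bs : ℕ → ℕ → T → Prop
  | a, b, E => a = b
  | a, b, N l k r => Bs a k l ∧ Bs (k + 1) b r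

/-- total weight -/
def wt (p : ℕ → ℝ) : T → ℝ
  | E => 0
  | N l k r => wt p l + p k + wt p r

/-- sum of weight times depth -/
def co (p : ℕ → ℝ) : T → ℝ
  | E => 0
  | N l _ r => co p l + wt p l + (co p r + wt p r)

/-- depth of a key (the root has depth `0`) -/
def dep : T → ℕ → ℕ
  | E, _ => 0
  | N l k r, h => if h < k then dep l h + 1 else if k < h then dep r h + 1 else 0

@[simp] lemma sp_E : sp E = 0 := rfl
@[simp] lemma sp_N (l : T) (k : ℕ) (r : T) : sp (N l k r) = sp l + 1 := rfl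
@[simp] lemma gr_E (s : T) : gr s E = s := rfl
@[simp] lemma gr_N (s l : T) (k : ℕ) (r : T) : gr s (N l k r) = N (gr s l) k r := rfl
@[simp] lemma Bs_E (a b : ℕ) : Bs a b E ↔ a = b := Iff.rfl
@[simp] lemma Bs_N (a b : ℕ) (l : T) (k : ℕ) (r : T) :
    Bs a b (N l k r) ↔ Bs a k l ∧ Bs (k + 1) b r := Iff.rfl
@[simp] lemma wt_E (p : ℕ → ℝ) : wt p E = 0 := rfl
@[simp] lemma wt_N (p : ℕ → ℝ) (l : T) (k : ℕ) (r : T) :
    wt p (N l k r) = wt p l + p k + wt p r := rfl
@[simp] lemma co_E (p : ℕ → ℝ) : co p E = 0 := rfl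
@[simp] lemma co_N (p : ℕ → ℝ) (l : T) (k : ℕ) (r : T) :
    co p (N l k r) = co p l + wt p l + (co p r + wt p r) := rfl
@[simp] lemma dep_E (h : ℕ) : dep E h = 0 := rfl
lemma dep_N (l : T) (k : ℕ) (r : T) (h : ℕ) :
    dep (N l k r) h = if h < k then dep l h + 1 else if k < h then dep r h + 1 else 0 := rfl

lemma Bs_le {t : T} : ∀ {a b : ℕ}, Bs a b t → a ≤ b := by
  induction t with
  | E => intro a b h; exact le_of_eq h
  | N l k r ihl ihr =>
    intro a b h
    have h1 := ihl h.1
    have h2 := ihr h.2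
    omega

lemma Bs_gr {s : T} {a m : ℕ} (hs : Bs a m s) {U : T} : ∀ {b : ℕ}, Bs m b U → Bs a b (gr s U) := by
  induction U with
  | E => intro b h; rw [Bs_E] at h; subst h; exact hs
  | N l k r ihl _ => intro b h; exact ⟨ihl h.1, h.2⟩

@[simp] lemma sp_gr (s U : T) : sp (gr s U) = sp U + sp s := by
  induction U with
  | E => simp
  | N l k r ihl _ => simp [ihl]; ring

@[simp] lemma wt_gr (p : ℕ → ℝ) (s U : T) : wt p (gr s U) = wt p U + wt p s := by
  induction U with
  | E => simp
  | N l k r ihl _ => simp [ihl]; ring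

@[simp] lemma co_gr (p : ℕ → ℝ) (s U : T) : co p (gr s U) = co p U + co p s + sp U * wt p s := by
  induction U with
  | E => simp
  | N l k r ihl _ => simp [ihl]; ring

lemma gr_gr (s t U : T) : gr s (gr t U) = gr (gr s t) U := by
  induction U with
  | E => rfl
  | N l k r ihl _ => simp [ihl]

@[simp] lemma gr_gr_leaf (s : T) (k : ℕ) (Z U : T) : gr s (gr (N E k Z) U) = gr (N s k Z) U := by
  rw [gr_gr]; simp

lemma wt_eq {p : ℕ → ℝ} {t : T} : ∀ {a b : ℕ}, Bs a b t → wt p t = ∑ i ∈ Finset.Ico a b, p i := by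
  induction t with
  | E => intro a b h; rw [Bs_E] at h; subst h; simp
  | N l k r ihl ihr =>
    intro a b h
    have h1 := Bs_le h.1
    have h2 := Bs_le h.2
    rw [wt_N, ihl h.1, ihr h.2, ← Finset.sum_Ico_consecutive _ h1 (by omega : k ≤ b),
      Finset.sum_eq_sum_Ico_succ_bot (by omega : k < b)]
    ring

lemma wt_congr {p : ℕ → ℝ} {t t' : T} {a b : ℕ} (h : Bs a b t) (h' : Bs a b t') :
    wt p t = wt p t' := by rw [wt_eq h, wt_eq h']

lemma wt_nonneg {p : ℕ → ℝ} (hp : ∀ i, 0 ≤ p i) (t : T) : 0 ≤ wt p t := by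
  induction t with
  | E => simp
  | N l k r ihl ihr => have := hp k; simp; linarith

lemma co_nonneg {p : ℕ → ℝ} (hp : ∀ i, 0 ≤ p i) (t : T) : 0 ≤ co p t := by
  induction t with
  | E => simp
  | N l k r ihl ihr =>
    have h1 := wt_nonneg hp l
    have h2 := wt_nonneg hp r
    simp; linarith

/-- the weight of a tree is at least the weight of any of its keys -/
lemma le_wt {p : ℕ → ℝ} (hp : ∀ i, 0 ≤ p i) {t : T} {a b : ℕ} (h : Bs a b t) {i : ℕ} (h1 : a ≤ i)
    (h2 : i < b) : p i ≤ wt p t := by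
  rw [wt_eq h]
  exact Finset.single_le_sum (f := p) (fun j _ => hp j) (Finset.mem_Ico.2 ⟨h1, h2⟩)

lemma le_wt2 {p : ℕ → ℝ} (hp : ∀ i, 0 ≤ p i) {t : T} {a b : ℕ} (h : Bs a b t) {i j : ℕ}
    (h1 : a ≤ i) (h2 : i < j) (h3 : j < b) : p i + p j ≤ wt p t := by
  rw [wt_eq h]
  have : ({i, j} : Finset ℕ) ⊆ Finset.Ico a b := by
    intro x hx
    simp only [Finset.mem_insert, Finset.mem_singleton] at hx
    rw [Finset.mem_Ico]
    omega
  calc p i + p j = ∑ x ∈ ({i, j} : Finset ℕ), p x := by rw [Finset.sum_pair (by omega)]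
    _ ≤ _ := Finset.sum_le_sum_of_subset_of_nonneg this (fun x _ _ => hp x)

/-- decomposition at the minimum -/
lemma dec {U : T} : ∀ {m b : ℕ}, Bs m b U → m < b →
    ∃ (m' : ℕ) (Z U' : T), Bs (m + 1) m' Z ∧ Bs m' b U' ∧ U = gr (N E m Z) U' := by
  induction U with
  | E => intro m b h hlt; rw [Bs_E] at h; omega
  | N l k r ihl _ =>
    intro m b h hlt
    cases l with
    | E =>
      have h1 : m = k := h.1
      subst h1
      exact ⟨b, r, E, h.2, rfl, rfl⟩
    | N l1 k1 r1 =>
      have h1 := h.1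
      have h2 := Bs_le h1.2
      have h3 := Bs_le h1.1
      obtain ⟨m', Z, U', hZ, hU', e⟩ := ihl h.1 (by omega)
      exact ⟨m', Z, N U' k r, hZ, ⟨hU', h.2⟩, by rw [e]; rfl⟩

lemma Bs_ne {t : T} {a b : ℕ} (h : Bs a b t) (hlt : a < b) : t ≠ E := by
  rintro rfl; rw [Bs_E] at h; omega

lemma Bs_lt {t : T} {a b : ℕ} (h : Bs a b t) (hne : t ≠ E) : a < b := by
  cases t with
  | E => exact absurd rfl hne
  | N l k r => have := Bs_le h.1; have := Bs_le h.2; omega

lemma Bs_eq {t : T} {a b : ℕ} (h : Bs a b t) (hab : b ≤ a) : t = E := by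
  by_contra hne
  have := Bs_lt h hne
  omega

lemma dep_gr_low {s U : T} {m b h : ℕ} (hU : Bs m b U) (hh : h < m) :
    dep (gr s U) h = sp U + dep s h := by
  induction U generalizing b with
  | E => simp
  | N l k r ihl _ =>
    have h1 := Bs_le hU.1
    rw [gr_N, dep_N, if_pos (by omega), ihl hU.1, sp_N]
    ring

lemma dep_N_lt {l : T} {k : ℕ} {r : T} {h : ℕ} (hk : h < k) : dep (N l k r) h = dep l h + 1 := by
  rw [dep_N, if_pos hk]

lemma dep_N_gt {l : T} {k : ℕ} {r : T} {h : ℕ} (hk : k < h) : dep (N l k r) h = dep r h + 1 := by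
  rw [dep_N, if_neg (by omega), if_pos hk]

@[simp] lemma dep_N_self {l : T} {k : ℕ} {r : T} : dep (N l k r) k = 0 := by
  rw [dep_N, if_neg (by omega), if_neg (by omega)]

/-- depth of the minimum -/
lemma dep_min {t : T} {a b : ℕ} (h : Bs a b t) (hlt : a < b) : dep t a + 1 = sp t := by
  induction t generalizing b with
  | E => rw [Bs_E] at h; omega
  | N l k r ihl _ =>
    by_cases hl : l = E
    · subst hl
      have : a = k := h.1
      subst this
      simp
    · have h1 := Bs_lt h.1 hl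
      rw [dep_N_lt h1, ihl h.1 h1, sp_N]

lemma sp_le {t : T} : ∀ {a b : ℕ}, Bs a b t → a + sp t ≤ b := by
  induction t with
  | E => intro a b h; rw [Bs_E] at h; simp; omega
  | N l k r ihl _ =>
    intro a b h
    have h1 := ihl h.1
    have h2 := Bs_le h.2
    rw [sp_N]; omega

lemma dep_lt {t : T} : ∀ {a b h : ℕ}, Bs a b t → a ≤ h → h < b → a + dep t h < b := by
  induction t with
  | E => intro a b h hB h1 h2; rw [Bs_E] at hB; omega
  | N l k r ihl ihr =>
    intro a b h hB h1 h2
    have e1 := Bs_le hB.1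
    have e2 := Bs_le hB.2
    rcases lt_trichotomy h k with hk | hk | hk
    · rw [dep_N_lt hk]; have := ihl hB.1 h1 hk; omega
    · subst hk; simp; omega
    · rw [dep_N_gt hk]; have := ihr hB.2 (by omega) h2; omega

/-- consecutive keys: the depth of `k` exceeds that of `k + 1` by at most `k + 1 - a` -/
lemma dep_succ {t : T} : ∀ {a b k : ℕ}, Bs a b t → a ≤ k → k + 1 < b →
    dep t k + a ≤ dep t (k + 1) + (k + 1) := by
  induction t with
  | E => intro a b k hB h1 h2; rw [Bs_E] at hB; omega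
  | N l j r ihl ihr =>
    intro a b k hB h1 h2
    have e1 := Bs_le hB.1
    have e2 := Bs_le hB.2
    rcases lt_trichotomy (k + 1) j with hk | hk | hk
    · rw [dep_N_lt (by omega : k < j), dep_N_lt hk]; have := ihl hB.1 h1 hk; omega
    · subst hk
      rw [dep_N_lt (by omega : k < k + 1), dep_N_self]
      have := dep_lt hB.1 h1 (by omega : k < k + 1)
      omega
    · rcases Nat.lt_or_ge j k with hj | hj
      · rw [dep_N_gt hj, dep_N_gt hk]; have := ihr hB.2 (by omega) h2; omega
      · have : j = k := by omega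
        subst this
        rw [dep_N_self]; omega

/-- `co` is the sum of weight times depth -/
lemma co_eq {p : ℕ → ℝ} {t : T} : ∀ {a b : ℕ}, Bs a b t →
    co p t = ∑ i ∈ Finset.Ico a b, p i * (dep t i : ℝ) := by
  induction t with
  | E => intro a b h; rw [Bs_E] at h; subst h; simp
  | N l k r ihl ihr =>
    intro a b h
    have h1 := Bs_le h.1
    have h2 := Bs_le h.2
    rw [co_N, ← Finset.sum_Ico_consecutive _ h1 (by omega : k ≤ b),
      Finset.sum_eq_sum_Ico_succ_bot (by omega : k < b), ihl h.1, ihr h.2, wt_eq h.1, wt_eq h.2]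
    have s1 : ∑ i ∈ Finset.Ico a k, p i * (dep (N l k r) i : ℝ) =
        ∑ i ∈ Finset.Ico a k, p i * (dep l i : ℝ) + ∑ i ∈ Finset.Ico a k, p i := by
      rw [← Finset.sum_add_distrib]
      refine Finset.sum_congr rfl fun i hi => ?_
      rw [dep_N_lt (Finset.mem_Ico.1 hi).2]; push_cast; ring
    have s2 : ∑ i ∈ Finset.Ico (k + 1) b, p i * (dep (N l k r) i : ℝ) =
        ∑ i ∈ Finset.Ico (k + 1) b, p i * (dep r i : ℝ) + ∑ i ∈ Finset.Ico (k + 1) b, p i := by
      rw [← Finset.sum_add_distrib]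
      refine Finset.sum_congr rfl fun i hi => ?_
      rw [dep_N_gt (by have := (Finset.mem_Ico.1 hi).1; omega)]; push_cast; ring
    rw [s1, s2, dep_N_self]
    push_cast
    ring

/-- the smaller keys -/
def lo (k : ℕ) : T → T
  | E => E
  | N l j r => if j < k then N l j (lo k r) else if j = k then l else lo k l

/-- the larger keys -/
def hi (k : ℕ) : T → T
  | E => E
  | N l j r => if k < j then N (hi k l) j r else if j = k then r else hi k r

lemma Bs_lo {k : ℕ} {t : T} : ∀ {a b : ℕ}, Bs a b t → a ≤ k → k < b → Bs a k (lo k t) := by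
  induction t with
  | E => intro a b h h1 h2; rw [Bs_E] at h; omega
  | N l j r ihl ihr =>
    intro a b h h1 h2
    rw [lo]
    by_cases hj : j < k
    · rw [if_pos hj]; exact ⟨h.1, ihr h.2 (by omega) h2⟩
    · rw [if_neg hj]
      by_cases hk : j = k
      · rw [if_pos hk]; rw [← hk]; exact h.1
      · rw [if_neg hk]; exact ihl h.1 h1 (by omega)

lemma Bs_hi {k : ℕ} {t : T} : ∀ {a b : ℕ}, Bs a b t → a ≤ k → k < b → Bs (k + 1) b (hi k t) := by
  induction t with
  | E => intro a b h h1 h2; rw [Bs_E] at h; omega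
  | N l j r ihl ihr =>
    intro a b h h1 h2
    rw [hi]
    by_cases hj : k < j
    · rw [if_pos hj]; exact ⟨ihl h.1 h1 hj, h.2⟩
    · rw [if_neg hj]
      by_cases hk : j = k
      · rw [if_pos hk]; rw [← hk]; exact h.2
      · rw [if_neg hk]; exact ihr h.2 (by omega) h2

lemma wt_lo_hi {p : ℕ → ℝ} {k : ℕ} {t : T} : ∀ {a b : ℕ}, Bs a b t → a ≤ k → k < b →
    wt p (lo k t) + p k + wt p (hi k t) = wt p t := by
  induction t with
  | E => intro a b h h1 h2; rw [Bs_E] at h; omega
  | N l j r ihl ihr =>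
    intro a b h h1 h2
    rcases lt_trichotomy j k with hj | hj | hj
    · have := ihr h.2 (by omega) h2
      rw [lo, hi, if_pos hj, if_neg (by omega), if_neg (by omega)]
      simp only [wt_N]; linarith
    · subst hj
      rw [lo, hi]; simp
    · have := ihl h.1 h1 hj
      rw [lo, hi, if_neg (by omega), if_neg (by omega), if_pos hj]
      simp only [wt_N]; linarith

lemma co_lo_hi {p : ℕ → ℝ} (hp : ∀ i, 0 ≤ p i) {k : ℕ} {t : T} : ∀ {a b : ℕ}, Bs a b t → a ≤ k →
    k < b → co p (lo k t) + co p (hi k t) + p k * (dep t k : ℝ) ≤ co p t := by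
  induction t with
  | E => intro a b h h1 h2; rw [Bs_E] at h; omega
  | N l j r ihl ihr =>
    intro a b h h1 h2
    rcases lt_trichotomy j k with hj | hj | hj
    · have i1 := ihr h.2 (by omega) h2
      have i2 := wt_lo_hi (p := p) h.2 (by omega) h2
      have i3 := wt_nonneg hp (hi k r)
      rw [lo, hi, if_pos hj, if_neg (by omega), if_neg (by omega), dep_N_gt hj]
      simp only [co_N]; push_cast; linarith
    · subst hj
      have i1 := wt_nonneg hp l
      have i2 := wt_nonneg hp r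
      rw [lo, hi]; simp; linarith
    · have i1 := ihl h.1 h1 hj
      have i2 := wt_lo_hi (p := p) h.1 h1 hj
      have i3 := wt_nonneg hp (lo k l)
      rw [lo, hi, if_neg (by omega), if_neg (by omega), if_pos hj, dep_N_lt hj]
      simp only [co_N]; push_cast; linarith

/-- optimal search trees -/
def Opt (p : ℕ → ℝ) (a b : ℕ) (t : T) : Prop := Bs a b t ∧ ∀ t', Bs a b t' → co p t ≤ co p t'

lemma Opt_gr {p : ℕ → ℝ} {s U : T} {a m b : ℕ} (h : Opt p a b (gr s U)) (hs : Bs a m s)
    (hU : Bs m b U) : Opt p a m s := by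
  refine ⟨hs, fun t' ht' => ?_⟩
  have h1 := h.2 (gr t' U) (Bs_gr ht' hU)
  have h2 := wt_congr (p := p) hs ht'
  rw [co_gr, co_gr, h2] at h1
  linarith

lemma finite_Bs (a b : ℕ) : Set.Finite {t : T | Bs a b t} := by
  induction hd : b - a using Nat.strong_induction_on generalizing a b with
  | _ d ih =>
    have hsub : {t : T | Bs a b t} ⊆ {E} ∪ ⋃ k ∈ Finset.Ico a b,
        Set.image2 (fun l r => N l k r) {t | Bs a k t} {t | Bs (k + 1) b t} := by
      intro t ht
      cases t with
      | E => left; rfl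
      | N l k r =>
        right
        have h1 := Bs_le ht.1
        have h2 := Bs_le ht.2
        rw [Set.mem_iUnion₂]
        exact ⟨k, Finset.mem_Ico.2 ⟨h1, by omega⟩, l, ht.1, r, ht.2, rfl⟩
    refine Set.Finite.subset ?_ hsub
    refine (Set.finite_singleton E).union ?_
    refine Set.Finite.biUnion (Finset.finite_toSet _) ?_
    intro k hk
    have hk' := Finset.mem_Ico.1 (Finset.mem_coe.1 hk)
    exact Set.Finite.image2 _ (ih (k - a) (by omega) a k rfl) (ih (b - (k + 1)) (by omega) (k + 1) b rfl)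

lemma exists_Bs (a b : ℕ) (h : a ≤ b) : ∃ t, Bs a b t := by
  obtain ⟨d, rfl⟩ := Nat.exists_eq_add_of_le h
  clear h
  induction d generalizing a with
  | zero => exact ⟨E, rfl⟩
  | succ d ih =>
    obtain ⟨t, ht⟩ := ih (a + 1)
    exact ⟨N E a t, rfl, by rwa [show a + (d + 1) = a + 1 + d by ring]⟩

lemma exists_Opt (p : ℕ → ℝ) (a b : ℕ) (h : a ≤ b) : ∃ t, Opt p a b t := by
  obtain ⟨t0, h0⟩ := exists_Bs a b h
  obtain ⟨t, ht, hmin⟩ := Set.exists_min_image _ (co p) (finite_Bs a b) ⟨t0, h0⟩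
  exact ⟨t, ht, hmin⟩

end Pool.Agent.Helper182.Dr
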