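import Mathlib
import Pool.Agent.Helper182.DrBase

set_option autoImplicit false

open Filter Topology

namespace Pool.Agent.Helper182.Dr

open T

/-- the maximin property in terms of search trees -/
def Mx (n : ℕ) (p : ℕ → ℝ) : Prop :=
  ∀ q : ℕ → ℝ, (∀ h, 0 ≤ q h) → ∑ h ∈ Finset.Icc 1 n, q h = 1 →
    ∀ t : T, Bs 1 (n + 1) t → ∃ t' : T, Bs 1 (n + 1) t' ∧ co q t' ≤ co p t

/-- admissible directions -/
def Vd (n : ℕ) (p w : ℕ → ℝ) : Prop :=
  (∀ i, i ∉ Finset.Icc 1 n → w i = 0) ∧ ∑ i ∈ Finset.Icc 1 n, w i = 0 ∧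
    ∀ i ∈ Finset.Icc 1 n, 0 < p i ∨ 0 ≤ w i

/-- derivative of the cost in the direction `w` -/
noncomputable def vl (n : ℕ) (w : ℕ → ℝ) (t : T) : ℝ := ∑ i ∈ Finset.Icc 1 n, w i * (dep t i : ℝ)

/-- every admissible direction has an optimal tree with property `P` that does not improve -/
def Good (n : ℕ) (p : ℕ → ℝ) (P : T → Prop) : Prop :=
  ∀ w, Vd n p w → ∃ t, Opt p 1 (n + 1) t ∧ P t ∧ vl n w t ≤ 0

lemma co_add {n : ℕ} {p w : ℕ → ℝ} {ε : ℝ} {t : T} (ht : Bs 1 (n + 1) t) :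
    co (fun i => p i + ε * w i) t = co p t + ε * vl n w t := by
  have e : Finset.Ico 1 (n + 1) = Finset.Icc 1 n := by
    ext x; simp only [Finset.mem_Ico, Finset.mem_Icc]; omega
  rw [co_eq ht, co_eq ht, vl, e, Finset.mul_sum, ← Finset.sum_add_distrib]
  refine Finset.sum_congr rfl fun i _ => ?_
  ring

lemma Good_base {n : ℕ} {p : ℕ → ℝ} (hp : ∀ i, 0 ≤ p i) (hp1 : ∑ h ∈ Finset.Icc 1 n, p h = 1)
    (hM : Mx n p) : Good n p (fun _ => True) := by
  intro w hw
  by_contra hcon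
  push Not at hcon
  obtain ⟨t0, ht0⟩ := exists_Opt p 1 (n + 1) (by omega)
  have h1 : ∀ᶠ ε in 𝓝[>] (0 : ℝ), ∀ t ∈ {t : T | Bs 1 (n + 1) t},
      co p t0 < co p t + ε * vl n w t := by
    rw [eventually_all_finite (finite_Bs 1 (n + 1))]
    intro t ht
    by_cases hopt : Opt p 1 (n + 1) t
    · have hv := hcon t hopt trivial
      filter_upwards [self_mem_nhdsWithin] with ε hε
      have e1 := ht0.2 t ht
      have : 0 < ε * vl n w t := mul_pos hε hv
      linarith
    · have hlt : co p t0 < co p t := by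
        by_contra hle
        exact hopt ⟨ht, fun t' ht' => (not_lt.1 hle).trans (ht0.2 t' ht')⟩
      have ht2 : Tendsto (fun ε : ℝ => co p t + ε * vl n w t) (𝓝[>] 0) (𝓝 (co p t + 0 * vl n w t)) :=
        ((continuous_const.add (continuous_id.mul continuous_const)).tendsto 0).mono_left
          nhdsWithin_le_nhds
      rw [zero_mul, add_zero] at ht2
      exact ht2.eventually_const_lt hlt
  have h2 : ∀ᶠ ε in 𝓝[>] (0 : ℝ), ∀ i ∈ ((Finset.Icc 1 n : Finset ℕ) : Set ℕ), 0 ≤ p i + ε * w i := by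
    rw [eventually_all_finite (Finset.finite_toSet _)]
    intro i hi
    rcases hw.2.2 i (Finset.mem_coe.1 hi) with h | h
    · have ht2 : Tendsto (fun ε : ℝ => p i + ε * w i) (𝓝[>] 0) (𝓝 (p i + 0 * w i)) :=
        ((continuous_const.add (continuous_id.mul continuous_const)).tendsto 0).mono_left
          nhdsWithin_le_nhds
      rw [zero_mul, add_zero] at ht2
      filter_upwards [ht2.eventually_const_lt h] with ε hε using hε.le
    · filter_upwards [self_mem_nhdsWithin] with ε hε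
      have : 0 ≤ ε * w i := mul_nonneg (le_of_lt hε) h
      linarith [hp i]
  obtain ⟨ε, he1, he2⟩ := (h1.and h2).exists
  obtain ⟨t', ht', hle⟩ := hM (fun i => p i + ε * w i) (fun i => by
      by_cases hi : i ∈ Finset.Icc 1 n
      · exact he2 i (Finset.mem_coe.2 hi)
      · simp only [hw.1 i hi, mul_zero, add_zero]; exact hp i)
    (by rw [Finset.sum_add_distrib, ← Finset.mul_sum, hw.2.1, hp1]; ring) t0 ht0.1
  rw [co_add ht'] at hle
  have := he1 t' ht'
  linarith

lemma Good_step {n : ℕ} {p : ℕ → ℝ} {P : T → Prop} (hG : Good n p P) (w : ℕ → ℝ) (hw : Vd n p w)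
    (hpos : ∀ t, Opt p 1 (n + 1) t → P t → 0 ≤ vl n w t) :
    Good n p (fun t => P t ∧ vl n w t = 0) := by
  intro w2 hw2
  by_contra hcon
  push Not at hcon
  have h1 : ∀ᶠ ε in 𝓝[>] (0 : ℝ), ∀ t ∈ {t : T | Bs 1 (n + 1) t}, Opt p 1 (n + 1) t → P t →
      0 < vl n w t + ε * vl n w2 t := by
    rw [eventually_all_finite (finite_Bs 1 (n + 1))]
    intro t ht
    by_cases h0 : vl n w t = 0
    · filter_upwards [self_mem_nhdsWithin] with ε hε hopt hP
      have := hcon t hopt ⟨hP, h0⟩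
      rw [h0, zero_add]
      exact mul_pos hε this
    · by_cases h3 : Opt p 1 (n + 1) t ∧ P t
      · have hlt : 0 < vl n w t := lt_of_le_of_ne (hpos t h3.1 h3.2) (Ne.symm h0)
        have ht2 : Tendsto (fun ε : ℝ => vl n w t + ε * vl n w2 t) (𝓝[>] 0)
            (𝓝 (vl n w t + 0 * vl n w2 t)) :=
          ((continuous_const.add (continuous_id.mul continuous_const)).tendsto 0).mono_left
            nhdsWithin_le_nhds
        rw [zero_mul, add_zero] at ht2
        filter_upwards [ht2.eventually_const_lt hlt] with ε hε _ _ using hε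
      · exact Eventually.of_forall fun ε hopt hP => absurd ⟨hopt, hP⟩ h3
  obtain ⟨ε, he1, he2⟩ := (h1.and self_mem_nhdsWithin).exists
  have he2' : 0 < ε := he2
  have hv : Vd n p (fun i => w i + ε * w2 i) := by
    refine ⟨fun i hi => by simp [hw.1 i hi, hw2.1 i hi], ?_, fun i hi => ?_⟩
    · rw [Finset.sum_add_distrib, ← Finset.mul_sum, hw.2.1, hw2.2.1]; ring
    · rcases hw.2.2 i hi with h | h
      · exact Or.inl h
      · rcases hw2.2.2 i hi with h' | h'
        · exact Or.inl h'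
        · right
          have := mul_nonneg he2'.le h'
          linarith
  obtain ⟨t, hopt, hP, hle⟩ := hG _ hv
  have e : vl n (fun i => w i + ε * w2 i) t = vl n w t + ε * vl n w2 t := by
    unfold vl
    rw [Finset.mul_sum, ← Finset.sum_add_distrib]
    refine Finset.sum_congr rfl fun i _ => ?_
    ring
  rw [e] at hle
  have := he1 t hopt.1 hopt hP
  linarith

/-- a direction supported on the first eight keys -/
def w8 (a b c d e f g h : ℝ) (i : ℕ) : ℝ :=
  if i = 1 then a else if i = 2 then b else if i = 3 then c else if i = 4 then d else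
    if i = 5 then e else if i = 6 then f else if i = 7 then g else if i = 8 then h else 0

/-- validity conditions for the coefficients -/
def V8 (n : ℕ) (p : ℕ → ℝ) (a b c d e f g h : ℝ) : Prop :=
  a + b + c + d + e + f + g + h = 0 ∧ (0 < p 1 ∨ 0 ≤ a) ∧ (0 < p 2 ∨ 0 ≤ b) ∧
    (0 < p 3 ∨ 0 ≤ c) ∧ (0 < p 4 ∨ 0 ≤ d) ∧ (0 < p 5 ∨ 0 ≤ e) ∧ (0 < p 6 ∨ 0 ≤ f) ∧
    (0 < p 7 ∨ 0 ≤ g) ∧ (0 < p 8 ∨ 0 ≤ h) ∧ (6 ≤ n ∨ f = 0) ∧ (7 ≤ n ∨ g = 0) ∧ (8 ≤ n ∨ h = 0)

lemma sum_w8 {n : ℕ} (hn : 5 ≤ n) (a b c d e f g h : ℝ) (hf : 6 ≤ n ∨ f = 0) (hg : 7 ≤ n ∨ g = 0)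
    (hh : 8 ≤ n ∨ h = 0) (x : ℕ → ℝ) :
    ∑ i ∈ Finset.Icc 1 n, w8 a b c d e f g h i * x i =
      a * x 1 + b * x 2 + c * x 3 + d * x 4 + e * x 5 + f * x 6 + g * x 7 + h * x 8 := by
  have h8 : ∑ i ∈ Finset.Icc 1 (max n 8), w8 a b c d e f g h i * x i =
      ∑ i ∈ Finset.Icc 1 8, w8 a b c d e f g h i * x i := by
    symm
    refine Finset.sum_subset (Finset.Icc_subset_Icc le_rfl (le_max_right _ _)) ?_
    intro i hi hi2
    have : 8 < i := by
      by_contra hc
      exact hi2 (Finset.mem_Icc.2 ⟨(Finset.mem_Icc.1 hi).1, by omega⟩)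
    have : w8 a b c d e f g h i = 0 := by
      unfold w8
      rw [if_neg (by omega), if_neg (by omega), if_neg (by omega), if_neg (by omega),
        if_neg (by omega), if_neg (by omega), if_neg (by omega), if_neg (by omega)]
    rw [this, zero_mul]
  have hn8 : ∑ i ∈ Finset.Icc 1 n, w8 a b c d e f g h i * x i =
      ∑ i ∈ Finset.Icc 1 (max n 8), w8 a b c d e f g h i * x i := by
    refine Finset.sum_subset (Finset.Icc_subset_Icc le_rfl (le_max_left _ _)) ?_
    intro i hi hi2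
    have hi' := Finset.mem_Icc.1 hi
    have hni : n < i := by
      by_contra hc
      exact hi2 (Finset.mem_Icc.2 ⟨hi'.1, by omega⟩)
    have : w8 a b c d e f g h i = 0 := by
      unfold w8
      rw [if_neg (by omega), if_neg (by omega), if_neg (by omega), if_neg (by omega),
        if_neg (by omega)]
      split_ifs with h6 h7 h8'
      · rcases hf with hf | hf
        · omega
        · exact hf
      · rcases hg with hg | hg
        · omega
        · exact hg
      · rcases hh with hh | hh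
        · omega
        · exact hh
      · rfl
    rw [this, zero_mul]
  rw [hn8, h8]
  have e8 : Finset.Icc 1 8 = {1, 2, 3, 4, 5, 6, 7, 8} := by decide
  rw [e8]
  simp [w8]
  ring

lemma Vd_w8 {n : ℕ} (hn : 5 ≤ n) {p : ℕ → ℝ} {a b c d e f g h : ℝ} (hv : V8 n p a b c d e f g h) :
    Vd n p (w8 a b c d e f g h) := by
  obtain ⟨hs, h1, h2, h3, h4, h5, h6, h7, h8, k6, k7, k8⟩ := hv
  refine ⟨fun i hi => ?_, ?_, fun i hi => ?_⟩
  · have hi' : i = 0 ∨ n < i := by
      by_contra hc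
      push Not at hc
      exact hi (Finset.mem_Icc.2 ⟨by omega, by omega⟩)
    unfold w8
    split_ifs with j1 j2 j3 j4 j5 j6 j7 j8
    · omega
    · omega
    · omega
    · omega
    · omega
    · rcases k6 with k | k
      · omega
      · exact k
    · rcases k7 with k | k
      · omega
      · exact k
    · rcases k8 with k | k
      · omega
      · exact k
    · rfl
  · have := sum_w8 hn a b c d e f g h k6 k7 k8 (fun _ => 1)
    simp only [mul_one] at this
    rw [this]; exact hs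
  · unfold w8
    split_ifs with j1 j2 j3 j4 j5 j6 j7 j8
    · subst j1; exact h1
    · subst j2; exact h2
    · subst j3; exact h3
    · subst j4; exact h4
    · subst j5; exact h5
    · subst j6; exact h6
    · subst j7; exact h7
    · subst j8; exact h8
    · exact Or.inr le_rfl

/-- value of a direction on the first eight keys -/
noncomputable def v8 (a b c d e f g h : ℝ) (t : T) : ℝ :=
  a * (dep t 1 : ℝ) + b * (dep t 2 : ℝ) + c * (dep t 3 : ℝ) + d * (dep t 4 : ℝ) +
    e * (dep t 5 : ℝ) + f * (dep t 6 : ℝ) + g * (dep t 7 : ℝ) + h * (dep t 8 : ℝ)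

lemma vl_w8 {n : ℕ} (hn : 5 ≤ n) {p : ℕ → ℝ} {a b c d e f g h : ℝ} (hv : V8 n p a b c d e f g h)
    (t : T) : vl n (w8 a b c d e f g h) t = v8 a b c d e f g h t := by
  obtain ⟨-, -, -, -, -, -, -, -, -, k6, k7, k8⟩ := hv
  exact sum_w8 hn a b c d e f g h k6 k7 k8 (fun i => (dep t i : ℝ))

lemma Good_use {n : ℕ} (hn : 5 ≤ n) {p : ℕ → ℝ} {P : T → Prop} (hG : Good n p P)
    (a b c d e f g h : ℝ) (hv : V8 n p a b c d e f g h) :
    ∃ t, Opt p 1 (n + 1) t ∧ P t ∧ v8 a b c d e f g h t ≤ 0 := by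
  obtain ⟨t, h1, h2, h3⟩ := hG _ (Vd_w8 hn hv)
  rw [vl_w8 hn hv] at h3
  exact ⟨t, h1, h2, h3⟩

lemma Good_lex {n : ℕ} (hn : 5 ≤ n) {p : ℕ → ℝ} {P : T → Prop} (hG : Good n p P)
    (a b c d e f g h : ℝ) (hv : V8 n p a b c d e f g h)
    (hpos : ∀ t, Opt p 1 (n + 1) t → P t → 0 ≤ v8 a b c d e f g h t) :
    Good n p (fun t => P t ∧ v8 a b c d e f g h t = 0) := by
  have := Good_step hG _ (Vd_w8 hn hv) (fun t h1 h2 => by rw [vl_w8 hn hv]; exact hpos t h1 h2)
  simpa only [vl_w8 hn hv] using this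

lemma Good_mono {n : ℕ} {p : ℕ → ℝ} {P Q : T → Prop} (hG : Good n p P)
    (h : ∀ t, Opt p 1 (n + 1) t → P t → Q t) : Good n p Q := by
  intro w hw
  obtain ⟨t, h1, h2, h3⟩ := hG w hw
  exact ⟨t, h1, h t h1 h2, h3⟩

end Pool.Agent.Helper182.Dr
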