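import Mathlib
import Pool.Agent.Helper182.DrBase

set_option autoImplicit false

namespace Pool.Agent.Helper182.Dr

open T

lemma dep_gr_high {s U : T} : ∀ {m b h : ℕ}, Bs m b U → m ≤ h → h < b →
    dep (gr s U) h = dep U h := by
  induction U with
  | E => intro m b h hU h1 h2; rw [Bs_E] at hU; omega
  | N l k r ihl _ =>
    intro m b h hU h1 h2
    rcases lt_trichotomy h k with hk | hk | hk
    · rw [gr_N, dep_N_lt hk, dep_N_lt hk, ihl hU.1 h1 hk]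
    · subst hk; rw [gr_N, dep_N_self, dep_N_self]
    · rw [gr_N, dep_N_gt hk, dep_N_gt hk]

/-- the shapes of the block of the first three keys -/
lemma cls3 {t : T} {b : ℕ} (ht : Bs 1 b t) (hb : 4 ≤ b) :
    ∃ (m : ℕ) (U s : T), t = gr s U ∧ Bs 1 m s ∧ Bs m b U ∧ 4 ≤ m ∧ (
      (∃ (m1 : ℕ) (X R : T), s = N E 1 (gr (N E 2 X) R) ∧ Bs 3 m1 X ∧ Bs m1 m R ∧ X ≠ E) ∨
      (∃ (m1 : ℕ) (Z R : T), s = N E 1 (gr (N (N E 2 E) 3 Z) R) ∧ Bs 4 m1 Z ∧ Bs m1 m R) ∨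
      (∃ (m1 : ℕ) (Z R : T), s = N (N E 1 E) 2 (gr (N E 3 Z) R) ∧ Bs 4 m1 Z ∧ Bs m1 m R) ∨
      (∃ W : T, s = N (N E 1 (N E 2 E)) 3 W ∧ Bs 4 m W) ∨
      (∃ W : T, s = N (N (N E 1 E) 2 E) 3 W ∧ Bs 4 m W)) := by
  obtain ⟨m1, Z, U1, hZ, hU1, rfl⟩ := dec ht (by omega)
  by_cases hZE : Z = E
  · subst hZE
    have e1 : m1 = 2 := by rw [Bs_E] at hZ; omega
    subst e1
    obtain ⟨m2, Z2, U2, hZ2, hU2, rfl⟩ := dec hU1 (by omega)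
    rw [gr_gr_leaf]
    by_cases hZ2E : Z2 = E
    · subst hZ2E
      have e2 : m2 = 3 := by rw [Bs_E] at hZ2; omega
      subst e2
      obtain ⟨m3, W, U3, hW, hU3, rfl⟩ := dec hU2 (by omega)
      rw [gr_gr_leaf]
      have hm3 := Bs_le hW
      exact ⟨m3, U3, _, rfl, ⟨⟨⟨rfl, rfl⟩, rfl⟩, hW⟩, hU3, hm3,
        Or.inr (Or.inr (Or.inr (Or.inr ⟨W, rfl, hW⟩)))⟩
    · obtain ⟨m3, Z3, R, hZ3, hR, rfl⟩ := dec hZ2 (Bs_lt hZ2 hZ2E)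
      have i1 := Bs_le hZ3
      have i2 := Bs_le hR
      exact ⟨m2, U2, _, rfl, ⟨⟨rfl, rfl⟩, hZ2⟩, hU2, by omega,
        Or.inr (Or.inr (Or.inl ⟨m3, Z3, R, rfl, hZ3, hR⟩))⟩
  · obtain ⟨m2, X, R, hX, hR, rfl⟩ := dec hZ (Bs_lt hZ hZE)
    by_cases hXE : X = E
    · subst hXE
      have e2 : m2 = 3 := by rw [Bs_E] at hX; omega
      subst e2
      by_cases hRE : R = E
      · subst hRE
        have e3 : m1 = 3 := by rw [Bs_E] at hR; omega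
        subst e3
        obtain ⟨m3, W, U3, hW, hU3, rfl⟩ := dec hU1 (by omega)
        rw [gr_gr_leaf, gr_E]
        have hm3 := Bs_le hW
        exact ⟨m3, U3, _, rfl, ⟨⟨rfl, ⟨rfl, rfl⟩⟩, hW⟩, hU3, hm3,
          Or.inr (Or.inr (Or.inr (Or.inl ⟨W, rfl, hW⟩)))⟩
      · obtain ⟨m3, Z3, R', hZ3, hR', rfl⟩ := dec hR (Bs_lt hR hRE)
        rw [gr_gr_leaf] at hZ ⊢
        have i1 := Bs_le hZ3
        have i2 := Bs_le hR'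
        exact ⟨m1, U1, _, rfl, ⟨rfl, hZ⟩, hU1, by omega,
          Or.inr (Or.inl ⟨m3, Z3, R', rfl, hZ3, hR'⟩)⟩
    · have i1 := Bs_lt hX hXE
      have i2 := Bs_le hR
      exact ⟨m1, U1, _, rfl, ⟨rfl, hZ⟩, hU1, by omega, Or.inl ⟨m2, X, R, rfl, hX, hR, hXE⟩⟩

variable {p : ℕ → ℝ}

lemma iA1 {m m1 : ℕ} {X R : T} (h : Opt p 1 m (N E 1 (gr (N E 2 X) R))) (hX : Bs 3 m1 X)
    (hR : Bs m1 m R) : ((sp R : ℝ) + 1) * p 2 + wt p X ≤ p 1 := by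
  have := h.2 (N (N E 1 E) 2 (gr X R)) ⟨⟨rfl, rfl⟩, Bs_gr hX hR⟩
  simp at this
  linarith

lemma iA2a {m m1 : ℕ} {Z R : T} (h : Opt p 1 m (N E 1 (gr (N (N E 2 E) 3 Z) R))) (hZ : Bs 4 m1 Z)
    (hR : Bs m1 m R) : ((sp R : ℝ) + 2) * p 2 ≤ p 1 := by
  have := h.2 (N (N E 1 E) 2 (gr (N E 3 Z) R)) ⟨⟨rfl, rfl⟩, Bs_gr (by exact ⟨rfl, hZ⟩) hR⟩
  simp at this
  linarith

lemma iA2b {m m1 : ℕ} {Z R : T} (h : Opt p 1 m (N E 1 (gr (N (N E 2 E) 3 Z) R))) (hZ : Bs 4 m1 Z)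
    (hR : Bs m1 m R) : (sp R : ℝ) * p 2 + ((sp R : ℝ) + 1) * p 3 + wt p Z ≤ p 1 := by
  have := h.2 (N (N E 1 (N E 2 E)) 3 (gr Z R)) ⟨⟨rfl, rfl, rfl⟩, Bs_gr hZ hR⟩
  simp at this
  linarith

lemma iBa {m m1 : ℕ} {Z R : T} (h : Opt p 1 m (N (N E 1 E) 2 (gr (N E 3 Z) R))) (hZ : Bs 4 m1 Z)
    (hR : Bs m1 m R) : p 1 ≤ ((sp R : ℝ) + 2) * p 2 := by
  have := h.2 (N E 1 (gr (N (N E 2 E) 3 Z) R)) ⟨rfl, Bs_gr (by exact ⟨⟨rfl, rfl⟩, hZ⟩) hR⟩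
  simp at this
  linarith

lemma iBb {m m1 : ℕ} {Z R : T} (h : Opt p 1 m (N (N E 1 E) 2 (gr (N E 3 Z) R))) (hZ : Bs 4 m1 Z)
    (hR : Bs m1 m R) : ((sp R : ℝ) + 1) * p 3 + wt p Z ≤ 2 * p 2 := by
  have := h.2 (N (N E 1 (N E 2 E)) 3 (gr Z R)) ⟨⟨rfl, rfl, rfl⟩, Bs_gr hZ hR⟩
  simp at this
  linarith

lemma iBd {m m1 : ℕ} {Z R : T} (h : Opt p 1 m (N (N E 1 E) 2 (gr (N E 3 Z) R))) (hZ : Bs 4 m1 Z)
    (hR : Bs m1 m R) : p 1 ≤ p 2 + (wt p R + p 3 + wt p Z) := by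
  have := h.2 (N E 1 (N E 2 (gr (N E 3 Z) R))) ⟨rfl, rfl, Bs_gr (by exact ⟨rfl, hZ⟩) hR⟩
  simp at this
  linarith

lemma iC1a {m : ℕ} {W : T} (h : Opt p 1 m (N (N E 1 (N E 2 E)) 3 W)) (hW : Bs 4 m W) :
    p 2 ≤ p 1 := by
  have := h.2 (N (N (N E 1 E) 2 E) 3 W) ⟨⟨⟨rfl, rfl⟩, rfl⟩, hW⟩
  simp at this
  linarith

lemma iC1c {m : ℕ} {W : T} (h : Opt p 1 m (N (N E 1 (N E 2 E)) 3 W)) (hW : Bs 4 m W) :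
    2 * p 2 ≤ p 3 + wt p W := by
  have := h.2 (N (N E 1 E) 2 (N E 3 W)) ⟨⟨rfl, rfl⟩, rfl, hW⟩
  simp at this
  linarith

lemma iC1d {m : ℕ} {W : T} (h : Opt p 1 m (N (N E 1 (N E 2 E)) 3 W)) (hW : Bs 4 m W) :
    2 * p 2 ≤ ((sp W : ℝ) + 1) * p 3 := by
  have := h.2 (N (N E 1 E) 2 (gr (N E 3 E) W)) ⟨⟨rfl, rfl⟩, Bs_gr (by exact ⟨rfl, rfl⟩) hW⟩
  simp at this
  linarith

lemma iC2a {m : ℕ} {W : T} (h : Opt p 1 m (N (N (N E 1 E) 2 E) 3 W)) (hW : Bs 4 m W) :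
    p 1 ≤ p 2 := by
  have := h.2 (N (N E 1 (N E 2 E)) 3 W) ⟨⟨rfl, rfl, rfl⟩, hW⟩
  simp at this
  linarith

lemma iC2d {m : ℕ} {W : T} (h : Opt p 1 m (N (N (N E 1 E) 2 E) 3 W)) (hW : Bs 4 m W) :
    p 1 + p 2 ≤ ((sp W : ℝ) + 1) * p 3 := by
  have := h.2 (N (N E 1 E) 2 (gr (N E 3 E) W)) ⟨⟨rfl, rfl⟩, Bs_gr (by exact ⟨rfl, rfl⟩) hW⟩
  simp at this
  linarith

end Pool.Agent.Helper182.Dr
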