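import Mathlib
import Pool.Agent.Helper182.DrIneq
import Pool.Agent.Helper182.DrCert

set_option autoImplicit false

namespace Pool.Agent.Helper182.Dr

open T

/-- the tight trees -/
def Ts (n : ℕ) (t : T) : Prop :=
  ∃ (m : ℕ) (U U0 : T), Bs 5 m U ∧ Bs m (n + 1) U0 ∧
    (t = gr (N (N E 1 E) 2 (N (N E 3 E) 4 U)) U0 ∨ t = gr (N (N E 1 (N E 2 E)) 3 (N E 4 U)) U0)

/-- numerical description of the position of the first four keys in an optimal tree -/
inductive K3 (n : ℕ) (p : ℕ → ℝ) (t : T) : Prop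
  | A (r : ℕ) (h1 : dep t 1 = r) (h2 : r + 1 ≤ dep t 2) (h3 : r + 1 ≤ dep t 3)
      (h23 : 2 * r + 3 ≤ dep t 2 + dep t 3) (h4 : r ≤ dep t 4 + 1)
      (hp : p 2 + p 3 ≤ p 1 ∨ 2 * p 2 ≤ p 1)
  | B3 (r : ℕ) (h1 : dep t 1 = r + 1) (h2 : dep t 2 = r) (h3 : dep t 3 = r + 1)
      (h4 : dep t 4 + 1 = r) (q1 : p 1 ≤ 2 * p 2) (q2 : p 3 ≤ 2 * p 2) (q3 : p 1 ≤ p 2 + p 3)
  | B4 (r k : ℕ) (h1 : dep t 1 = r + 1) (h2 : dep t 2 = r) (h3 : dep t 3 = r + k)
      (h4 : r + k + 1 ≤ dep t 4) (hk : 1 ≤ k) (q1 : p 1 ≤ (k + 1) * p 2) (q2 : k * p 3 ≤ 2 * p 2)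
  | B2 (r k : ℕ) (h1 : dep t 1 = r + 1) (h2 : dep t 2 = r) (h3 : dep t 3 = r + k)
      (h4 : dep t 4 + 1 = r + k) (hk : 2 ≤ k) (q1 : p 1 ≤ (k + 1) * p 2) (q2 : k * p 3 ≤ 2 * p 2)
      (hT : k = 2 → Ts n t)
  | C3 (r : ℕ) (h1 : dep t 1 = r + 1) (h2 : dep t 2 = r + 2) (h3 : dep t 3 = r)
      (h4 : dep t 4 + 1 = r) (q1 : p 2 ≤ p 1) (q2 : 2 * p 2 ≤ p 3)
  | C1 (r w : ℕ) (h1 : dep t 1 = r + 1) (h2 : dep t 2 = r + 2) (h3 : dep t 3 = r)
      (h4 : dep t 4 = r + w) (hw : 1 ≤ w) (q1 : p 2 ≤ p 1) (q2 : 2 * p 2 ≤ (w + 1) * p 3)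
      (hT : w = 1 → Ts n t)
  | C2 (r w : ℕ) (h1 : dep t 1 = r + 2) (h2 : dep t 2 = r + 1) (h3 : dep t 3 = r)
      (h4 : r ≤ dep t 4 + 1) (h4' : 1 ≤ w → dep t 4 = r + w) (q1 : p 1 ≤ p 2)
      (q2 : p 1 + p 2 ≤ (w + 1) * p 3)

lemma dep_next {s U : T} {m b : ℕ} (hU : Bs m b U) (hlt : m < b) : dep (gr s U) m + 1 = sp U := by
  rw [dep_gr_high hU le_rfl hlt, dep_min hU hlt]

lemma k3 {n : ℕ} (hn : 5 ≤ n) {p : ℕ → ℝ} (hp : ∀ i, 0 ≤ p i) {t : T} (ht : Opt p 1 (n + 1) t) :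
    K3 n p t := by
  obtain ⟨m, U, s, rfl, hs, hU, hm, hc⟩ := cls3 ht.1 (by omega)
  have hO := Opt_gr ht hs hU
  have low : ∀ i, i < m → dep (gr s U) i = sp U + dep s i := fun i hi => dep_gr_low hU hi
  have par : m = 4 → dep (gr s U) 4 + 1 = sp U := by
    intro h; subst h; exact dep_next hU (by omega)
  have d1 := low 1 (by omega)
  have d2 := low 2 (by omega)
  have d3 := low 3 (by omega)
  have hm4 : m = 4 ∨ 4 < m := by omega
  rcases hc with ⟨m1, X, R, rfl, hX, hR, hXE⟩ | ⟨m1, Z, R, rfl, hZ, hR⟩ | ⟨m1, Z, R, rfl, hZ, hR⟩ |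
    ⟨W, rfl, hW⟩ | ⟨W, rfl, hW⟩
  · -- A1
    have i1 := Bs_lt hX hXE
    have e2 := dep_gr_low (s := N E 2 X) hR (show 2 < m1 by omega)
    have e3 := dep_gr_low (s := N E 2 X) hR (show 3 < m1 by omega)
    have e3' : dep (N E 2 X) 3 = dep X 3 + 1 := dep_N_gt (by omega)
    rw [dep_N_self] at e2
    rw [e3'] at e3
    have f1 : dep (N E 1 (gr (N E 2 X) R)) 1 = 0 := dep_N_self
    have f2 : dep (N E 1 (gr (N E 2 X) R)) 2 = dep (gr (N E 2 X) R) 2 + 1 := dep_N_gt (by omega)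
    have f3 : dep (N E 1 (gr (N E 2 X) R)) 3 = dep (gr (N E 2 X) R) 3 + 1 := dep_N_gt (by omega)
    have hx4 : sp U ≤ dep (gr (N E 1 (gr (N E 2 X) R)) U) 4 + 1 := by
      rcases hm4 with h | h
      · have := par h; omega
      · have := low 4 h; omega
    have q := iA1 hO hX hR
    have q2 := le_wt hp hX (i := 3) le_rfl i1
    refine K3.A (sp U) (by omega) (by omega) (by omega) (by omega) hx4 (Or.inl ?_)
    have : (0:ℝ) ≤ (sp R : ℝ) * p 2 := mul_nonneg (Nat.cast_nonneg _) (hp 2)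
    linarith
  · -- A2
    have i1 := Bs_le hZ
    have e2 := dep_gr_low (s := N (N E 2 E) 3 Z) hR (show 2 < m1 by omega)
    have e3 := dep_gr_low (s := N (N E 2 E) 3 Z) hR (show 3 < m1 by omega)
    have e2' : dep (N (N E 2 E) 3 Z) 2 = 1 := by rw [dep_N_lt (by omega), dep_N_self]
    rw [dep_N_self] at e3
    rw [e2'] at e2
    have f1 : dep (N E 1 (gr (N (N E 2 E) 3 Z) R)) 1 = 0 := dep_N_self
    have f2 : dep (N E 1 (gr (N (N E 2 E) 3 Z) R)) 2 = dep (gr (N (N E 2 E) 3 Z) R) 2 + 1 :=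
      dep_N_gt (by omega)
    have f3 : dep (N E 1 (gr (N (N E 2 E) 3 Z) R)) 3 = dep (gr (N (N E 2 E) 3 Z) R) 3 + 1 :=
      dep_N_gt (by omega)
    have hx4 : sp U ≤ dep (gr (N E 1 (gr (N (N E 2 E) 3 Z) R)) U) 4 + 1 := by
      rcases hm4 with h | h
      · have := par h; omega
      · have := low 4 h; omega
    have q := iA2a hO hZ hR
    refine K3.A (sp U) (by omega) (by omega) (by omega) (by omega) hx4 (Or.inr ?_)
    have : (0:ℝ) ≤ (sp R : ℝ) * p 2 := mul_nonneg (Nat.cast_nonneg _) (hp 2)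
    linarith
  · -- B
    have i1 := Bs_le hZ
    have i2 := Bs_le hR
    have e3 := dep_gr_low (s := N E 3 Z) hR (show 3 < m1 by omega)
    rw [dep_N_self] at e3
    have f1 : dep (N (N E 1 E) 2 (gr (N E 3 Z) R)) 1 = 1 := by
      rw [dep_N_lt (by omega), dep_N_self]
    have f2 : dep (N (N E 1 E) 2 (gr (N E 3 Z) R)) 2 = 0 := dep_N_self
    have f3 : dep (N (N E 1 E) 2 (gr (N E 3 Z) R)) 3 = dep (gr (N E 3 Z) R) 3 + 1 :=
      dep_N_gt (by omega)
    have q1 := iBa hO hZ hR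
    have q2 := iBb hO hZ hR
    have q3 := iBd hO hZ hR
    have hwZ := wt_nonneg hp Z
    by_cases hZE : Z = E
    · subst hZE
      have em : m1 = 4 := by rw [Bs_E] at hZ; omega
      subst em
      by_cases hRE : R = E
      · subst hRE
        have em : m = 4 := by rw [Bs_E] at hR; omega
        subst em
        have hx4 := par rfl
        simp at q1 q2 q3
        exact K3.B3 (sp U) (by omega) (by omega) (by rw [sp_E] at e3; omega) hx4 (by linarith)
          (by linarith) (by linarith)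
      · have hlt := Bs_lt hR hRE
        have hR1 : 1 ≤ sp R := by
          have := dep_min hR hlt; omega
        have h4 := low 4 hlt
        have f4 : dep (N (N E 1 E) 2 (gr (N E 3 E) R)) 4 = dep (gr (N E 3 E) R) 4 + 1 :=
          dep_N_gt (by omega)
        have e4 := dep_next (s := N E 3 E) hR hlt
        refine K3.B2 (sp U) (sp R + 1) (by omega) (by omega) (by omega) (by omega) (by omega)
          (by push_cast; linarith) (by push_cast; linarith) ?_
        intro hk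
        have hsp : sp R = 1 := by omega
        cases R with
        | E => exact absurd rfl hRE
        | N l j r =>
          cases l with
          | E =>
            have hj : (4:ℕ) = j := hR.1
            subst hj
            exact ⟨m, r, U, hR.2, hU, Or.inl rfl⟩
          | N l1 j1 r1 => simp at hsp
    · have hlt := Bs_lt hZ hZE
      have h4 := low 4 (by omega)
      have f4 : dep (N (N E 1 E) 2 (gr (N E 3 Z) R)) 4 = dep (gr (N E 3 Z) R) 4 + 1 :=
        dep_N_gt (by omega)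
      have e4 := dep_gr_low (s := N E 3 Z) hR (show 4 < m1 by omega)
      have e4' : dep (N E 3 Z) 4 = dep Z 4 + 1 := dep_N_gt (by omega)
      exact K3.B4 (sp U) (sp R + 1) (by omega) (by omega) (by omega) (by omega) (by omega)
        (by push_cast; linarith) (by push_cast; linarith)
  · -- C1
    have f1 : dep (N (N E 1 (N E 2 E)) 3 W) 1 = 1 := by
      rw [dep_N_lt (by omega), dep_N_self]
    have f2 : dep (N (N E 1 (N E 2 E)) 3 W) 2 = 2 := by
      rw [dep_N_lt (by omega), dep_N_gt (by omega), dep_N_self]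
    have f3 : dep (N (N E 1 (N E 2 E)) 3 W) 3 = 0 := dep_N_self
    have q1 := iC1a hO hW
    have q2 := iC1d hO hW
    by_cases hWE : W = E
    · subst hWE
      have em : m = 4 := by rw [Bs_E] at hW; omega
      have hx4 := par em
      simp at q2
      exact K3.C3 (sp U) (by omega) (by omega) (by omega) hx4 q1 q2
    · have hlt := Bs_lt hW hWE
      have hW1 := dep_min hW hlt
      have h4 := low 4 hlt
      have f4 : dep (N (N E 1 (N E 2 E)) 3 W) 4 = dep W 4 + 1 := dep_N_gt (by omega)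
      refine K3.C1 (sp U) (sp W) (by omega) (by omega) (by omega) (by omega) (by omega) q1 q2 ?_
      intro hw
      cases W with
      | E => exact absurd rfl hWE
      | N l j r =>
        cases l with
        | E =>
          have hj : (4:ℕ) = j := hW.1
          subst hj
          exact ⟨m, r, U, hW.2, hU, Or.inr rfl⟩
        | N l1 j1 r1 => simp at hw
  · -- C2
    have f1 : dep (N (N (N E 1 E) 2 E) 3 W) 1 = 2 := by
      rw [dep_N_lt (by omega), dep_N_lt (by omega), dep_N_self]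
    have f2 : dep (N (N (N E 1 E) 2 E) 3 W) 2 = 1 := by
      rw [dep_N_lt (by omega), dep_N_self]
    have f3 : dep (N (N (N E 1 E) 2 E) 3 W) 3 = 0 := dep_N_self
    have q1 := iC2a hO hW
    have q2 := iC2d hO hW
    have hx4 : sp U ≤ dep (gr (N (N (N E 1 E) 2 E) 3 W) U) 4 + 1 := by
      rcases hm4 with h | h
      · have := par h; omega
      · have := low 4 h; omega
    refine K3.C2 (sp U) (sp W) (by omega) (by omega) (by omega) hx4 ?_ q1 q2
    intro hw
    have hWE : W ≠ E := by rintro rfl; simp at hw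
    have hlt := Bs_lt hW hWE
    have hW1 := dep_min hW hlt
    have h4 := low 4 hlt
    have f4 : dep (N (N (N E 1 E) 2 E) 3 W) 4 = dep W 4 + 1 := dep_N_gt (by omega)
    omega

end Pool.Agent.Helper182.Dr
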