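import Mathlib
import Pool.Agent.Helper182.DrK3

set_option autoImplicit false

namespace Pool.Agent.Helper182.Dr

open T

variable {n : ℕ} {p : ℕ → ℝ}

/-- no certificate with coefficients `a ... h` on trees satisfying `P` -/
lemma Good_contra (hn : 5 ≤ n) {P : T → Prop} (hG : Good n p P)
    (a b c d e f g h : ℝ) (hv : V8 n p a b c d e f g h)
    (hpos : ∀ t, Opt p 1 (n + 1) t → P t → 0 < v8 a b c d e f g h t) : False := by
  obtain ⟨t, h1, h2, h3⟩ := Good_use hn hG a b c d e f g h hv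
  have := hpos t h1 h2
  linarith

lemma V8_4 {a b c d : ℝ} (hs : a + b + c + d = 0) (h1 : 0 < p 1 ∨ 0 ≤ a) (h2 : 0 < p 2 ∨ 0 ≤ b)
    (h3 : 0 < p 3 ∨ 0 ≤ c) (h4 : 0 < p 4 ∨ 0 ≤ d) : V8 n p a b c d 0 0 0 0 :=
  ⟨by linarith, h1, h2, h3, h4, Or.inr le_rfl, Or.inr le_rfl, Or.inr le_rfl, Or.inr le_rfl,
    Or.inr rfl, Or.inr rfl, Or.inr rfl⟩

/-- first case: `p 2 + p 3 < p 1` -/
lemma red1 (hn : 5 ≤ n) (hp : ∀ i, 0 ≤ p i) (hG : Good n p (fun _ => True))
    (hlt : p 2 + p 3 < p 1) : 0 < p 1 ∧ 0 < p 2 ∧ 0 < p 3 ∧ Good n p (Ts n) := by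
  have p1 : 0 < p 1 := by linarith [hp 2, hp 3]
  have p2 : 0 < p 2 := by
    by_contra hc
    have h0 : p 2 = 0 := le_antisymm (not_lt.1 hc) (hp 2)
    refine Good_contra hn hG (-1) 1 0 0 0 0 0 0 (V8_4 (by norm_num) (Or.inl p1)
      (Or.inr (by norm_num)) (Or.inr le_rfl) (Or.inr le_rfl)) ?_
    intro t ht _
    simp only [v8]
    rcases k3 hn hp ht with ⟨r, h1, h2, h3, h23, h4, hq⟩ | ⟨r, h1, h2, h3, h4, q1, q2, q3⟩ |
      ⟨r, k, h1, h2, h3, h4, hk, q1, q2⟩ | ⟨r, k, h1, h2, h3, h4, hk, q1, q2, hT⟩ |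
      ⟨r, h1, h2, h3, h4, q1, q2⟩ | ⟨r, w, h1, h2, h3, h4, hw, q1, q2, hT⟩ |
      ⟨r, w, h1, h2, h3, h4, h4', q1, q2⟩
    · rify at h1 h2; linarith
    · rw [h0] at q1; linarith
    · rw [h0] at q1; linarith
    · rw [h0] at q1; linarith
    · rify at h1 h2; linarith
    · rify at h1 h2; linarith
    · linarith
  have p3 : 0 < p 3 := by
    by_contra hc
    have h0 : p 3 = 0 := le_antisymm (not_lt.1 hc) (hp 3)
    have hG2 := Good_lex hn hG (-1) 0 1 0 0 0 0 0 (V8_4 (by norm_num) (Or.inl p1)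
      (Or.inr le_rfl) (Or.inr (by norm_num)) (Or.inr le_rfl)) (by
        intro t ht _
        simp only [v8]
        rcases k3 hn hp ht with ⟨r, h1, h2, h3, h23, h4, hq⟩ | ⟨r, h1, h2, h3, h4, q1, q2, q3⟩ |
          ⟨r, k, h1, h2, h3, h4, hk, q1, q2⟩ | ⟨r, k, h1, h2, h3, h4, hk, q1, q2, hT⟩ |
          ⟨r, h1, h2, h3, h4, q1, q2⟩ | ⟨r, w, h1, h2, h3, h4, hw, q1, q2, hT⟩ |
          ⟨r, w, h1, h2, h3, h4, h4', q1, q2⟩
        · rify at h1 h3; linarith
        · linarith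
        · rify at h1 h3 hk; linarith
        · rify at h1 h3 hk; linarith
        · rw [h0] at q2; linarith
        · rw [h0] at q2; linarith
        · linarith)
    refine Good_contra hn hG2 1 (-1) 0 0 0 0 0 0 (V8_4 (by norm_num) (Or.inl p1)
      (Or.inl p2) (Or.inr le_rfl) (Or.inr le_rfl)) ?_
    rintro t ht ⟨-, hz⟩
    simp only [v8] at hz ⊢
    rcases k3 hn hp ht with ⟨r, h1, h2, h3, h23, h4, hq⟩ | ⟨r, h1, h2, h3, h4, q1, q2, q3⟩ |
      ⟨r, k, h1, h2, h3, h4, hk, q1, q2⟩ | ⟨r, k, h1, h2, h3, h4, hk, q1, q2, hT⟩ |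
      ⟨r, h1, h2, h3, h4, q1, q2⟩ | ⟨r, w, h1, h2, h3, h4, hw, q1, q2, hT⟩ |
      ⟨r, w, h1, h2, h3, h4, h4', q1, q2⟩
    · rify at h1 h3; linarith
    · linarith
    · rify at h1 h2; linarith
    · rify at h1 h2; linarith
    · rw [h0] at q2; linarith
    · rw [h0] at q2; linarith
    · linarith
  have hlt2 : p 3 < 2 * p 2 := by
    by_contra hc
    push Not at hc
    refine Good_contra hn hG (-1) 1 0 0 0 0 0 0 (V8_4 (by norm_num) (Or.inl p1)
      (Or.inr (by norm_num)) (Or.inr le_rfl) (Or.inr le_rfl)) ?_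
    intro t ht _
    simp only [v8]
    rcases k3 hn hp ht with ⟨r, h1, h2, h3, h23, h4, hq⟩ | ⟨r, h1, h2, h3, h4, q1, q2, q3⟩ |
      ⟨r, k, h1, h2, h3, h4, hk, q1, q2⟩ | ⟨r, k, h1, h2, h3, h4, hk, q1, q2, hT⟩ |
      ⟨r, h1, h2, h3, h4, q1, q2⟩ | ⟨r, w, h1, h2, h3, h4, hw, q1, q2, hT⟩ |
      ⟨r, w, h1, h2, h3, h4, h4', q1, q2⟩
    · rify at h1 h2; linarith
    · linarith
    · exfalso
      have hk' : (1:ℝ) ≤ k := by exact_mod_cast hk
      rcases Nat.eq_or_lt_of_le hk with h | h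
      · rw [← h] at q1; push_cast at q1; linarith
      · have : (2:ℝ) ≤ k := by exact_mod_cast h
        nlinarith
    · exfalso
      have : (2:ℝ) ≤ k := by exact_mod_cast hk
      nlinarith
    · rify at h1 h2; linarith
    · rify at h1 h2; linarith
    · linarith
  refine ⟨p1, p2, p3, ?_⟩
  have key : ∀ t, Opt p 1 (n + 1) t → 0 ≤ v8 (-7) 2 2 3 0 0 0 0 t ∧
      (v8 (-7) 2 2 3 0 0 0 0 t = 0 → Ts n t) := by
    intro t ht
    simp only [v8]
    rcases k3 hn hp ht with ⟨r, h1, h2, h3, h23, h4, hq⟩ | ⟨r, h1, h2, h3, h4, q1, q2, q3⟩ |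
      ⟨r, k, h1, h2, h3, h4, hk, q1, q2⟩ | ⟨r, k, h1, h2, h3, h4, hk, q1, q2, hT⟩ |
      ⟨r, h1, h2, h3, h4, q1, q2⟩ | ⟨r, w, h1, h2, h3, h4, hw, q1, q2, hT⟩ |
      ⟨r, w, h1, h2, h3, h4, h4', q1, q2⟩
    · rify at h1 h2 h3 h23 h4
      exact ⟨by linarith, fun h => by exfalso; linarith⟩
    · exfalso; linarith
    · rify at h1 h2 h3 h4 hk
      exact ⟨by linarith, fun h => by exfalso; linarith⟩
    · rify at h1 h2 h3 h4
      have hk' : (2:ℝ) ≤ k := by exact_mod_cast hk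
      refine ⟨by linarith, fun h => hT ?_⟩
      have : (k : ℝ) = 2 := by linarith
      exact_mod_cast this
    · exfalso; linarith
    · rify at h1 h2 h3 h4
      have hw' : (1:ℝ) ≤ w := by exact_mod_cast hw
      refine ⟨by linarith, fun h => hT ?_⟩
      have : (w : ℝ) = 1 := by linarith
      exact_mod_cast this
    · exfalso; linarith
  have hG2 := Good_lex hn hG (-7) 2 2 3 0 0 0 0 (V8_4 (by norm_num) (Or.inl p1)
      (Or.inr (by norm_num)) (Or.inr (by norm_num)) (Or.inr (by norm_num)))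
      (fun t ht _ => (key t ht).1)
  exact Good_mono hG2 (fun t ht h => (key t ht).2 h.2)

/-- the case `2 * p 2 < p 1 < p 2 + p 3` is impossible -/
lemma red3 (hn : 5 ≤ n) (hp : ∀ i, 0 ≤ p i) (hG : Good n p (fun _ => True))
    (hlt : p 1 < p 2 + p 3) (h2p : 2 * p 2 < p 1) : False := by
  have p1 : 0 < p 1 := by linarith [hp 2, hp 3]
  refine Good_contra hn hG (-1) 1 0 0 0 0 0 0 (V8_4 (by norm_num) (Or.inl p1)
      (Or.inr (by norm_num)) (Or.inr le_rfl) (Or.inr le_rfl)) ?_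
  intro t ht _
  simp only [v8]
  rcases k3 hn hp ht with ⟨r, h1, h2, h3, h23, h4, hq⟩ | ⟨r, h1, h2, h3, h4, q1, q2, q3⟩ |
    ⟨r, k, h1, h2, h3, h4, hk, q1, q2⟩ | ⟨r, k, h1, h2, h3, h4, hk, q1, q2, hT⟩ |
    ⟨r, h1, h2, h3, h4, q1, q2⟩ | ⟨r, w, h1, h2, h3, h4, hw, q1, q2, hT⟩ |
    ⟨r, w, h1, h2, h3, h4, h4', q1, q2⟩
  · rify at h1 h2; linarith
  · linarith
  · exfalso
    have hk' : (1:ℝ) ≤ k := by exact_mod_cast hk
    rcases Nat.eq_or_lt_of_le hk with h | h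
    · rw [← h] at q1; push_cast at q1; linarith
    · have : (2:ℝ) ≤ k := by exact_mod_cast h
      nlinarith [hp 3, hp 2]
  · exfalso
    have : (2:ℝ) ≤ k := by exact_mod_cast hk
    nlinarith [hp 3, hp 2]
  · rify at h1 h2; linarith
  · rify at h1 h2; linarith
  · linarith [hp 2]

/-- the case `p 1 < p 2 + p 3`, `p 1 < 2 * p 2` -/
lemma red2 (hn : 5 ≤ n) (hp : ∀ i, 0 ≤ p i) (hG : Good n p (fun _ => True))
    (hlt : p 1 < p 2 + p 3) (h2p : p 1 < 2 * p 2) :
    0 < p 1 ∧ 0 < p 2 ∧ 0 < p 3 ∧ Good n p (Ts n) := by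
  have p2 : 0 < p 2 := by linarith [hp 1]
  have h21 : p 2 ≤ p 1 := by
    by_contra hc
    push Not at hc
    refine Good_contra hn hG 1 (-1) 0 0 0 0 0 0 (V8_4 (by norm_num) (Or.inr (by norm_num))
      (Or.inl p2) (Or.inr le_rfl) (Or.inr le_rfl)) ?_
    intro t ht _
    simp only [v8]
    rcases k3 hn hp ht with ⟨r, h1, h2, h3, h23, h4, hq⟩ | ⟨r, h1, h2, h3, h4, q1, q2, q3⟩ |
      ⟨r, k, h1, h2, h3, h4, hk, q1, q2⟩ | ⟨r, k, h1, h2, h3, h4, hk, q1, q2, hT⟩ |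
      ⟨r, h1, h2, h3, h4, q1, q2⟩ | ⟨r, w, h1, h2, h3, h4, hw, q1, q2, hT⟩ |
      ⟨r, w, h1, h2, h3, h4, h4', q1, q2⟩
    · rcases hq with hq | hq <;> linarith
    · rify at h1 h2; linarith
    · rify at h1 h2; linarith
    · rify at h1 h2; linarith
    · linarith
    · linarith
    · rify at h1 h2; linarith
  have p1 : 0 < p 1 := by linarith
  have p3 : 0 < p 3 := by linarith
  have h32 : p 3 < 2 * p 2 := by
    by_contra hc
    push Not at hc
    have hB : ∀ t, Opt p 1 (n + 1) t → 0 ≤ v8 1 0 (-1) 0 0 0 0 0 t ∧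
        (v8 1 0 (-1) 0 0 0 0 0 t = 0 → 0 < v8 1 (-1) 0 0 0 0 0 0 t) := by
      intro t ht
      simp only [v8]
      rcases k3 hn hp ht with ⟨r, h1, h2, h3, h23, h4, hq⟩ | ⟨r, h1, h2, h3, h4, q1, q2, q3⟩ |
        ⟨r, k, h1, h2, h3, h4, hk, q1, q2⟩ | ⟨r, k, h1, h2, h3, h4, hk, q1, q2, hT⟩ |
        ⟨r, h1, h2, h3, h4, q1, q2⟩ | ⟨r, w, h1, h2, h3, h4, hw, q1, q2, hT⟩ |
        ⟨r, w, h1, h2, h3, h4, h4', q1, q2⟩
      · exfalso; rcases hq with hq | hq <;> linarith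
      · rify at h1 h2 h3; exact ⟨by linarith, fun _ => by linarith⟩
      · have hk1 : k = 1 := by
          by_contra hne
          have : (2:ℝ) ≤ k := by exact_mod_cast (by omega : 2 ≤ k)
          nlinarith
        subst hk1
        rify at h1 h2 h3; exact ⟨by linarith, fun _ => by linarith⟩
      · exfalso
        have : (2:ℝ) ≤ k := by exact_mod_cast hk
        nlinarith
      · rify at h1 h2 h3; exact ⟨by linarith, fun h => by exfalso; linarith⟩
      · rify at h1 h2 h3; exact ⟨by linarith, fun h => by exfalso; linarith⟩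
      · rify at h1 h2 h3; exact ⟨by linarith, fun h => by exfalso; linarith⟩
    have hG2 := Good_lex hn hG 1 0 (-1) 0 0 0 0 0 (V8_4 (by norm_num) (Or.inl p1)
      (Or.inr le_rfl) (Or.inl p3) (Or.inr le_rfl)) (fun t ht _ => (hB t ht).1)
    exact Good_contra hn hG2 1 (-1) 0 0 0 0 0 0 (V8_4 (by norm_num) (Or.inl p1)
      (Or.inl p2) (Or.inr le_rfl) (Or.inr le_rfl)) (fun t ht h => (hB t ht).2 h.2)
  refine ⟨p1, p2, p3, ?_⟩
  by_cases hK : 2 * p 2 < 3 * p 3
  · have key : ∀ t, Opt p 1 (n + 1) t → 0 ≤ v8 5 (-3) (-3) 1 0 0 0 0 t ∧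
      (v8 5 (-3) (-3) 1 0 0 0 0 t = 0 → Ts n t) := by
      intro t ht
      simp only [v8]
      rcases k3 hn hp ht with ⟨r, h1, h2, h3, h23, h4, hq⟩ | ⟨r, h1, h2, h3, h4, q1, q2, q3⟩ |
        ⟨r, k, h1, h2, h3, h4, hk, q1, q2⟩ | ⟨r, k, h1, h2, h3, h4, hk, q1, q2, hT⟩ |
        ⟨r, h1, h2, h3, h4, q1, q2⟩ | ⟨r, w, h1, h2, h3, h4, hw, q1, q2, hT⟩ |
        ⟨r, w, h1, h2, h3, h4, h4', q1, q2⟩
      · exfalso; rcases hq with hq | hq <;> linarith
      · rify at h1 h2 h3 h4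
        exact ⟨by linarith, fun h => by exfalso; linarith⟩
      · have hk2 : k ≤ 2 := by
          by_contra hne
          have : (3:ℝ) ≤ k := by exact_mod_cast (by omega : 3 ≤ k)
          nlinarith
        rify at h1 h2 h3 h4 hk2
        exact ⟨by linarith, fun h => by exfalso; linarith⟩
      · have hk2 : k = 2 := by
          by_contra hne
          have : (3:ℝ) ≤ k := by exact_mod_cast (by omega : 3 ≤ k)
          nlinarith
        have hTs := hT hk2
        subst hk2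
        rify at h1 h2 h3 h4
        exact ⟨by linarith, fun _ => hTs⟩
      · exfalso; linarith
      · rify at h1 h2 h3 h4
        have hw' : (1:ℝ) ≤ w := by exact_mod_cast hw
        refine ⟨by linarith, fun h => hT ?_⟩
        have : (w : ℝ) = 1 := by linarith
        exact_mod_cast this
      · have hw : 1 ≤ w := by
          by_contra hne
          have : w = 0 := by omega
          subst this
          push_cast at q2
          linarith
        have h4'' := h4' hw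
        rify at h1 h2 h3 h4'' hw
        exact ⟨by linarith, fun h => by exfalso; linarith⟩
    have hG2 := Good_lex hn hG 5 (-3) (-3) 1 0 0 0 0 (V8_4 (by norm_num) (Or.inl p1)
      (Or.inl p2) (Or.inl p3) (Or.inr (by norm_num))) (fun t ht _ => (key t ht).1)
    exact Good_mono hG2 (fun t ht h => (key t ht).2 h.2)
  · exfalso
    push Not at hK
    have key : ∀ t, Opt p 1 (n + 1) t → 0 ≤ v8 2 (-2) (-1) 1 0 0 0 0 t ∧
      (v8 2 (-2) (-1) 1 0 0 0 0 t = 0 → 0 < v8 3 (-1) (-2) 0 0 0 0 0 t) := by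
      intro t ht
      simp only [v8]
      rcases k3 hn hp ht with ⟨r, h1, h2, h3, h23, h4, hq⟩ | ⟨r, h1, h2, h3, h4, q1, q2, q3⟩ |
        ⟨r, k, h1, h2, h3, h4, hk, q1, q2⟩ | ⟨r, k, h1, h2, h3, h4, hk, q1, q2, hT⟩ |
        ⟨r, h1, h2, h3, h4, q1, q2⟩ | ⟨r, w, h1, h2, h3, h4, hw, q1, q2, hT⟩ |
        ⟨r, w, h1, h2, h3, h4, h4', q1, q2⟩
      · exfalso; rcases hq with hq | hq <;> linarith
      · rify at h1 h2 h3 h4
        exact ⟨by linarith, fun h => by linarith⟩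
      · rify at h1 h2 h3 h4 hk
        exact ⟨by linarith, fun h => by exfalso; linarith⟩
      · rify at h1 h2 h3 h4 hk
        exact ⟨by linarith, fun h => by exfalso; linarith⟩
      · exfalso; linarith
      · have hw2 : 2 ≤ w := by
          by_contra hne
          have : w = 1 := by omega
          subst this
          push_cast at q2
          linarith
        rify at h1 h2 h3 h4 hw2
        exact ⟨by linarith, fun h => by linarith⟩
      · have hw : 1 ≤ w := by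
          by_contra hne
          have : w = 0 := by omega
          subst this
          push_cast at q2
          linarith
        have h4'' := h4' hw
        rify at h1 h2 h3 h4'' hw
        exact ⟨by linarith, fun h => by exfalso; linarith⟩
    have hG2 := Good_lex hn hG 2 (-2) (-1) 1 0 0 0 0 (V8_4 (by norm_num) (Or.inl p1)
      (Or.inl p2) (Or.inl p3) (Or.inr (by norm_num))) (fun t ht _ => (key t ht).1)
    exact Good_contra hn hG2 3 (-1) (-2) 0 0 0 0 0 (V8_4 (by norm_num) (Or.inl p1)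
      (Or.inl p2) (Or.inl p3) (Or.inr le_rfl)) (fun t ht h => (key t ht).2 h.2)

end Pool.Agent.Helper182.Dr
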