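import Mathlib
import Pool.Agent.Helper182.DrRed

set_option autoImplicit false

namespace Pool.Agent.Helper182.Dr

open T

variable {n : ℕ} {p : ℕ → ℝ}

/-- first tight block -/
def PB (U : T) : T := N (N E 1 E) 2 (N (N E 3 E) 4 U)
/-- second tight block -/
def QB (U : T) : T := N (N E 1 (N E 2 E)) 3 (N E 4 U)

/-- `B` is one of the two tight blocks -/
def PQ (B : T → T) : Prop := B = PB ∨ B = QB

lemma PQ_Bs {B : T → T} (hB : PQ B) {m : ℕ} {U : T} (hU : Bs 5 m U) : Bs 1 m (B U) := by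
  rcases hB with rfl | rfl
  · exact ⟨⟨rfl, rfl⟩, ⟨rfl, rfl⟩, hU⟩
  · exact ⟨⟨rfl, rfl, rfl⟩, rfl, hU⟩

lemma PQ_dep1 {B : T → T} (hB : PQ B) (U : T) : dep (B U) 1 = 1 := by
  rcases hB with rfl | rfl
  · unfold PB; rw [dep_N_lt (by omega), dep_N_self]
  · unfold QB; rw [dep_N_lt (by omega), dep_N_self]

lemma PQ_dep {B : T → T} (hB : PQ B) (U : T) {h : ℕ} (hh : 5 ≤ h) : dep (B U) h = dep U h + 2 := by
  rcases hB with rfl | rfl
  · unfold PB; rw [dep_N_gt (by omega), dep_N_gt (by omega)]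
  · unfold QB; rw [dep_N_gt (by omega), dep_N_gt (by omega)]

lemma PQ_co {B : T → T} (hB : PQ B) (h23 : p 2 = p 3) (U : T) :
    co p (B U) = p 1 + 2 * p 2 + p 4 + co p U + 2 * wt p U := by
  rcases hB with rfl | rfl
  · unfold PB; simp; linarith
  · unfold QB; simp; linarith

lemma PQ_wt {B : T → T} (hB : PQ B) (U : T) :
    wt p (B U) = p 1 + p 2 + p 3 + p 4 + wt p U := by
  rcases hB with rfl | rfl
  · unfold PB; simp; ring
  · unfold QB; simp; ring

lemma tight_eq (hn : 5 ≤ n) (h2 : 0 < p 2) (h3 : 0 < p 3) (hG : Good n p (Ts n)) : p 2 = p 3 := by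
  apply le_antisymm
  · -- a tree with second block
    obtain ⟨t, ht, ⟨m, U, U0, hU, hU0, hs⟩, hv⟩ := Good_use hn hG 0 (-1) 1 0 0 0 0 0
      (V8_4 (by norm_num) (Or.inr le_rfl) (Or.inl h2) (Or.inl h3) (Or.inr le_rfl))
    have hm := Bs_le hU
    simp only [v8] at hv
    rcases hs with rfl | rfl
    · exfalso
      have hs1 : Bs 1 m (N (N E 1 E) 2 (N (N E 3 E) 4 U)) := ⟨⟨rfl, rfl⟩, ⟨rfl, rfl⟩, hU⟩
      have d2 : dep (gr (N (N E 1 E) 2 (N (N E 3 E) 4 U)) U0) 2 = sp U0 + 0 := by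
        rw [dep_gr_low hU0 (by omega), dep_N_self]
      have d3 : dep (gr (N (N E 1 E) 2 (N (N E 3 E) 4 U)) U0) 3 = sp U0 + 2 := by
        rw [dep_gr_low hU0 (by omega), dep_N_gt (by omega), dep_N_lt (by omega), dep_N_self]
      rw [d2, d3] at hv
      push_cast at hv
      linarith
    · have hW : Bs 4 m (N E 4 U) := ⟨rfl, hU⟩
      have hs1 : Bs 1 m (N (N E 1 (N E 2 E)) 3 (N E 4 U)) := ⟨⟨rfl, rfl, rfl⟩, hW⟩
      have hO := Opt_gr ht hs1 hU0
      have := iC1d hO hW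
      simp at this
      linarith
  · obtain ⟨t, ht, ⟨m, U, U0, hU, hU0, hs⟩, hv⟩ := Good_use hn hG 0 1 (-1) 0 0 0 0 0
      (V8_4 (by norm_num) (Or.inr le_rfl) (Or.inl h2) (Or.inl h3) (Or.inr le_rfl))
    have hm := Bs_le hU
    simp only [v8] at hv
    rcases hs with rfl | rfl
    · have hR : Bs 4 m (N E 4 U) := ⟨rfl, hU⟩
      have hs1 : Bs 1 m (N (N E 1 E) 2 (gr (N E 3 E) (N E 4 U))) := ⟨⟨rfl, rfl⟩, ⟨rfl, rfl⟩, hU⟩
      have hO := Opt_gr ht hs1 hU0
      have := iBb hO (by rfl : Bs 4 4 E) hR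
      simp at this
      linarith
    · exfalso
      have d2 : dep (gr (N (N E 1 (N E 2 E)) 3 (N E 4 U)) U0) 2 = sp U0 + 2 := by
        rw [dep_gr_low hU0 (by omega), dep_N_lt (by omega), dep_N_gt (by omega), dep_N_self]
      have d3 : dep (gr (N (N E 1 (N E 2 E)) 3 (N E 4 U)) U0) 3 = sp U0 + 0 := by
        rw [dep_gr_low hU0 (by omega), dep_N_self]
      rw [d2, d3] at hv
      push_cast at hv
      linarith

/-- numerical description of the tight trees -/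
inductive KT (n : ℕ) (p : ℕ → ℝ) (t : T) : Prop
  | b4 (r z : ℕ) (h1 : dep t 1 = r + 2) (h5 : dep t 5 = r)
      (q1 : 2 * p 4 + p 2 ≤ (z + 1) * p 5)
      (hz1 : 1 ≤ z → 6 ≤ n ∧ dep t 6 = r + z ∧ z * p 6 ≤ 3 * p 5)
      (hz2 : 2 ≤ z → 7 ≤ n ∧ r + z ≤ dep t 7 + 1)
  | b5 (r : ℕ) (h1 : dep t 1 = r + 1) (h5 : dep t 5 = r + 2) (q1 : p 5 ≤ p 4)
      (q2 : p 4 + p 5 ≤ 3 * p 2)
      (h6 : 6 ≤ n → dep t 6 + 1 = r ∧ ∃ v : ℕ, 3 * p 5 ≤ (v + 1) * p 6 ∧
        (1 ≤ v → 7 ≤ n ∧ dep t 7 + 1 = r + v))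
  | b6 (r u : ℕ) (h1 : dep t 1 = r + 1) (h5 : dep t 5 = r + 1 + u) (hu : 1 ≤ u) (hn6 : 6 ≤ n)
      (q1 : u * p 5 ≤ p 4) (q2 : p 4 + p 5 + p 6 ≤ 3 * p 2)
      (h6 : (r + u + 2 ≤ dep t 6 ∧ u * p 5 + p 6 ≤ p 4) ∨ (dep t 6 = r + u ∧ 2 ≤ u))
      (h7 : 7 ≤ n → r ≤ dep t 7 + 1)

lemma kT (hn : 5 ≤ n) (hp : ∀ i, 0 ≤ p i) (h23 : p 2 = p 3) {t : T} (ht : Opt p 1 (n + 1) t)
    (hTs : Ts n t) : KT n p t := by
  obtain ⟨m, U, U0, hU, hU0, hs⟩ := hTs
  obtain ⟨B, hB, rfl⟩ : ∃ B, PQ B ∧ t = gr (B U) U0 := by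
    rcases hs with h | h
    · exact ⟨PB, Or.inl rfl, h⟩
    · exact ⟨QB, Or.inr rfl, h⟩
  clear hs
  have hm := Bs_le hU
  have hs1 := PQ_Bs hB hU
  have hO := Opt_gr ht hs1 hU0
  have low : ∀ i, i < m → dep (gr (B U) U0) i = sp U0 + dep (B U) i :=
    fun i hi => dep_gr_low hU0 hi
  have d1 := low 1 (by omega)
  rw [PQ_dep1 hB] at d1
  by_cases hUE : U = E
  · -- block of four keys
    subst hUE
    have em : m = 5 := by rw [Bs_E] at hU; omega
    subst em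
    obtain ⟨m1, R, U1, hR, hU1, rfl⟩ := dec hU0 (by omega)
    replace hR : Bs 6 m1 R := hR
    rw [gr_gr_leaf] at ht ⊢
    have hs2 : Bs 1 m1 (N (B E) 5 R) := ⟨hs1, hR⟩
    have hO2 := Opt_gr ht hs2 hU1
    have low2 : ∀ i, i < m1 → dep (gr (N (B E) 5 R) U1) i = sp U1 + dep (N (B E) 5 R) i :=
      fun i hi => dep_gr_low hU1 hi
    have hm1 := Bs_le hR
    have e1 := low2 1 (by omega)
    have e5 := low2 5 (by omega)
    rw [dep_N_lt (by omega), PQ_dep1 hB] at e1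
    rw [dep_N_self] at e5
    have q1 : 2 * p 4 + p 2 ≤ ((sp R : ℝ) + 1) * p 5 := by
      have := hO2.2 (N (N (N E 1 E) 2 (N E 3 E)) 4 (gr (N E 5 E) R))
        ⟨⟨⟨rfl, rfl⟩, rfl, rfl⟩, Bs_gr (by exact ⟨rfl, rfl⟩) hR⟩
      rw [co_N, PQ_co hB h23, PQ_wt hB] at this
      simp at this
      linarith
    refine KT.b4 (sp U1) (sp R) (by omega) (by omega) q1 ?_ ?_
    · intro hz
      have hRne : R ≠ E := by rintro rfl; simp at hz
      have hlt := Bs_lt hR hRne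
      have hb := Bs_le hU1
      obtain ⟨m2, Z6, R', hZ6, hR', rfl⟩ := dec hR hlt
      replace hZ6 : Bs 7 m2 Z6 := hZ6
      have e6 := low2 6 hlt
      rw [dep_N_gt (by omega)] at e6
      have e6' := dep_min hR hlt
      have q2 : ((sp (gr (N E 6 Z6) R') : ℕ) : ℝ) * p 6 + wt p Z6 ≤ 3 * p 5 := by
        rcases hB with rfl | rfl
        · have := hO2.2 (N (N (N E 1 E) 2 (N (N E 3 E) 4 (N E 5 E))) 6 (gr Z6 R'))
            ⟨⟨⟨rfl, rfl⟩, ⟨rfl, rfl⟩, rfl, rfl⟩, Bs_gr hZ6 hR'⟩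
          simp [PB] at this ⊢
          linarith
        · have := hO2.2 (N (N (N E 1 (N E 2 E)) 3 (N E 4 (N E 5 E))) 6 (gr Z6 R'))
            ⟨⟨⟨rfl, rfl, rfl⟩, rfl, rfl, rfl⟩, Bs_gr hZ6 hR'⟩
          simp [QB] at this ⊢
          linarith
      have := wt_nonneg hp Z6
      exact ⟨by omega, by omega, by linarith⟩
    · intro hz
      have hRne : R ≠ E := by rintro rfl; simp at hz
      have hlt := Bs_lt hR hRne
      have hb := Bs_le hU1
      obtain ⟨m2, Z6, R', hZ6, hR', rfl⟩ := dec hR hlt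
      replace hZ6 : Bs 7 m2 Z6 := hZ6
      rw [sp_gr] at hz ⊢
      simp only [sp_N, sp_E] at hz ⊢
      have hR'ne : R' ≠ E := by rintro rfl; simp at hz
      have hlt2 := Bs_lt hR' hR'ne
      have hm2 := Bs_le hZ6
      have e7 := low2 7 (by omega)
      rw [dep_N_gt (by omega)] at e7
      refine ⟨by omega, ?_⟩
      by_cases hZE : Z6 = E
      · subst hZE
        have : m2 = 7 := by rw [Bs_E] at hZ6; omega
        subst this
        have := dep_next (s := N E 6 E) hR' hlt2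
        omega
      · have hlt3 := Bs_lt hZ6 hZE
        have f7 := dep_gr_low (s := N E 6 Z6) hR' (show 7 < m2 by omega)
        rw [dep_N_gt (by omega)] at f7
        omega
  · have hlt := Bs_lt hU hUE
    obtain ⟨m1, Z5, U', hZ5, hU', rfl⟩ := dec hU hlt
    replace hZ5 : Bs 6 m1 Z5 := hZ5
    have hm1 := Bs_le hZ5
    have hm1' := Bs_le hU'
    have e5 := low 5 hlt
    rw [PQ_dep hB _ le_rfl, dep_gr_low hU' (by omega), dep_N_self] at e5
    have hwZ := wt_nonneg hp Z5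
    have hwU := wt_nonneg hp U'
    have q1 : ((sp U' : ℝ) + 1) * p 5 + wt p Z5 ≤ p 4 := by
      have := hO.2 (N (N E 1 (N E 2 E)) 3 (N (N E 4 E) 5 (gr Z5 U')))
        ⟨⟨rfl, rfl, rfl⟩, ⟨rfl, rfl⟩, Bs_gr hZ5 hU'⟩
      rw [PQ_co hB h23] at this
      simp at this
      linarith
    have q2 : p 4 + (wt p U' + (p 5 + wt p Z5)) ≤ 3 * p 2 := by
      have := hO.2 (N (N E 1 (N E 2 (N E 3 E))) 4 (gr (N E 5 Z5) U'))
        ⟨⟨rfl, rfl, rfl, rfl⟩, Bs_gr (by exact ⟨rfl, hZ5⟩) hU'⟩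
      rw [PQ_co hB h23] at this
      simp at this
      linarith
    by_cases h5 : Z5 = E ∧ U' = E
    · obtain ⟨rfl, rfl⟩ := h5
      have em : m1 = 6 := by rw [Bs_E] at hZ5; omega
      subst em
      have em : m = 6 := by rw [Bs_E] at hU'; omega
      subst em
      simp at q1 q2 e5
      refine KT.b5 (sp U0) (by omega) (by rw [gr_E]; omega) q1 q2 ?_
      intro hn6
      obtain ⟨m2, V, U1, hV, hU1, rfl⟩ := dec hU0 (by omega)
      replace hV : Bs 7 m2 V := hV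
      rw [gr_gr_leaf] at ht ⊢
      have hs2 : Bs 1 m2 (N (B (gr (N E 5 E) E)) 6 V) := ⟨hs1, hV⟩
      have hO2 := Opt_gr ht hs2 hU1
      have hm2 := Bs_le hV
      have hb := Bs_le hU1
      have e6 := dep_gr_low (s := N (B (gr (N E 5 E) E)) 6 V) hU1 (show 6 < m2 by omega)
      rw [dep_N_self] at e6
      rw [sp_gr]
      simp only [sp_N, sp_E]
      refine ⟨by omega, sp V, ?_, ?_⟩
      · rcases hB with rfl | rfl
        · have := hO2.2 (N (N (N E 1 E) 2 (N (N E 3 E) 4 E)) 5 (gr (N E 6 E) V))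
            ⟨⟨⟨rfl, rfl⟩, ⟨rfl, rfl⟩, rfl⟩, Bs_gr (by exact ⟨rfl, rfl⟩) hV⟩
          simp [PB] at this ⊢
          linarith
        · have := hO2.2 (N (N (N E 1 (N E 2 E)) 3 (N E 4 E)) 5 (gr (N E 6 E) V))
            ⟨⟨⟨rfl, rfl, rfl⟩, rfl, rfl⟩, Bs_gr (by exact ⟨rfl, rfl⟩) hV⟩
          simp [QB] at this ⊢
          linarith
      · intro hv
        have hVne : V ≠ E := by rintro rfl; simp at hv
        have hlt2 := Bs_lt hV hVne
        have e7 := dep_gr_low (s := N (B (gr (N E 5 E) E)) 6 V) hU1 (show 7 < m2 by omega)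
        rw [dep_N_gt (by omega)] at e7
        have e7' := dep_min hV hlt2
        omega
    · have h6m : 6 < m := by
        by_contra hc
        have i1 : m1 = 6 := by omega
        have i2 : m = 6 := by omega
        subst i1; subst i2
        exact h5 ⟨Bs_eq hZ5 le_rfl, Bs_eq hU' le_rfl⟩
      have hb := Bs_le hU0
      have e6 := low 6 h6m
      rw [PQ_dep hB _ (by omega)] at e6
      have h7 : 7 ≤ n → sp U0 ≤ dep (gr (B (gr (N E 5 Z5) U')) U0) 7 + 1 := by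
        intro h7n
        rcases Nat.lt_or_ge 7 m with h | h
        · have := low 7 h; omega
        · have hm7 : m = 7 := by omega
          subst hm7
          have := dep_next (s := B (gr (N E 5 Z5) U')) hU0 (by omega)
          omega
      have q2' : p 4 + p 5 + p 6 ≤ 3 * p 2 := by
        have := le_wt2 hp hU (i := 5) (j := 6) le_rfl (by omega) h6m
        simp at this
        linarith
      by_cases hZE : Z5 = E
      · subst hZE
        have em : m1 = 6 := by rw [Bs_E] at hZ5; omega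
        subst em
        have hU'ne : U' ≠ E := fun h => h5 ⟨rfl, h⟩
        have e6' := dep_next (s := N E 5 E) hU' h6m
        refine KT.b6 (sp U0) (sp U' + 1) (by omega) (by omega) (by omega) (by omega)
          (by push_cast; linarith) q2' (Or.inr ⟨by omega, by omega⟩) h7
      · have hlt2 := Bs_lt hZ5 hZE
        have e6' := dep_gr_low (s := N E 5 Z5) hU' (show 6 < m1 by omega)
        rw [dep_N_gt (by omega)] at e6'
        have := le_wt hp hZ5 (i := 6) le_rfl hlt2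
        refine KT.b6 (sp U0) (sp U' + 1) (by omega) (by omega) (by omega) (by omega)
          (by push_cast; linarith) q2' (Or.inl ⟨by omega, by push_cast; linarith⟩) h7

end Pool.Agent.Helper182.Dr
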