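import Mathlib
import Pool.Agent.Helper182.DrTs

set_option autoImplicit false

namespace Pool.Agent.Helper182.Dr

open T

variable {n : ℕ} {p : ℕ → ℝ}

lemma useT (hn : 5 ≤ n) (hG : Good n p (Ts n)) (h1 : 0 < p 1) (α β γ : ℝ)
    (h5 : 0 < p 5 ∨ 0 ≤ α) (h6 : 0 < p 6 ∨ 0 ≤ β) (h7 : 0 < p 7 ∨ 0 ≤ γ)
    (n6 : 6 ≤ n ∨ β = 0) (n7 : 7 ≤ n ∨ γ = 0) :
    ∃ t, Opt p 1 (n + 1) t ∧ Ts n t ∧ α * ((dep t 5 : ℝ) - dep t 1) +
      β * ((dep t 6 : ℝ) - dep t 1) + γ * ((dep t 7 : ℝ) - dep t 1) ≤ 0 := by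
  obtain ⟨t, ht, hTs, hv⟩ := Good_use hn hG (-(α + β + γ)) 0 0 0 α β γ 0
    ⟨by ring, Or.inl h1, Or.inr le_rfl, Or.inr le_rfl, Or.inr le_rfl, h5, h6, h7, Or.inr le_rfl,
      n6, n7, Or.inr rfl⟩
  refine ⟨t, ht, hTs, ?_⟩
  simp only [v8] at hv
  linarith

/-- the tight case is impossible -/
lemma noTs (hn : 5 ≤ n) (hp : ∀ i, 0 ≤ p i) (h1 : 0 < p 1) (h2 : 0 < p 2) (h23 : p 2 = p 3)
    (hG : Good n p (Ts n)) : False := by
  -- a tree of the first kind
  obtain ⟨z0, hz0, hz1, hz2⟩ : ∃ z : ℕ, 2 * p 4 + p 2 ≤ (z + 1) * p 5 ∧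
      (1 ≤ z → 6 ≤ n ∧ z * p 6 ≤ 3 * p 5) ∧ (2 ≤ z → 7 ≤ n) := by
    obtain ⟨t, ht, hTs, hv⟩ := useT hn hG h1 1 0 0 (Or.inr (by norm_num)) (Or.inr le_rfl)
      (Or.inr le_rfl) (Or.inr rfl) (Or.inr rfl)
    rcases kT hn hp h23 ht hTs with ⟨r, z, e1, e5, q1, hz1, hz2⟩ | ⟨r, e1, e5, q1, q2, h6⟩ |
      ⟨r, u, e1, e5, hu, hn6, q1, q2, h6, h7⟩
    · exact ⟨z, q1, fun h => ⟨(hz1 h).1, (hz1 h).2.2⟩, fun h => (hz2 h).1⟩
    · exfalso; rify at e1 e5; linarith
    · exfalso; rify at e1 e5 hu; linarith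
  have h5 : 0 < p 5 := by
    by_contra hc
    have h0 : p 5 = 0 := le_antisymm (not_lt.1 hc) (hp 5)
    rw [h0, mul_zero] at hz0
    linarith [hp 4]
  have h54 : p 5 ≤ p 4 := by
    obtain ⟨t, ht, hTs, hv⟩ := useT hn hG h1 (-1) 0 0 (Or.inl h5) (Or.inr le_rfl)
      (Or.inr le_rfl) (Or.inr rfl) (Or.inr rfl)
    rcases kT hn hp h23 ht hTs with ⟨r, z, e1, e5, q1, hz1, hz2⟩ | ⟨r, e1, e5, q1, q2, h6⟩ |
      ⟨r, u, e1, e5, hu, hn6, q1, q2, h6, h7⟩
    · exfalso; rify at e1 e5; linarith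
    · exact q1
    · have : (1:ℝ) ≤ u := by exact_mod_cast hu
      nlinarith
  have h4 : 0 < p 4 := by linarith
  have zge2 : ∀ z : ℕ, 2 * p 4 + p 2 ≤ (z + 1) * p 5 → 2 ≤ z := by
    intro z hz
    by_contra hc
    have : (z : ℝ) ≤ 1 := by exact_mod_cast (by omega : z ≤ 1)
    nlinarith
  have hz0' := zge2 z0 hz0
  have n7 : 7 ≤ n := hz2 hz0'
  have n6 : 6 ≤ n := by omega
  have hzf := (hz1 (by omega)).2
  by_cases hU2 : ∃ t, Opt p 1 (n + 1) t ∧ Ts n t ∧ dep t 1 + 2 ≤ dep t 5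
  · obtain ⟨t, ht, hTs, hd⟩ := hU2
    obtain ⟨f1, f2⟩ : 2 * p 5 ≤ p 4 ∧ p 4 + p 5 + p 6 ≤ 3 * p 2 := by
      rcases kT hn hp h23 ht hTs with ⟨r, z, e1, e5, q1, hz1, hz2⟩ | ⟨r, e1, e5, q1, q2, h6⟩ |
        ⟨r, u, e1, e5, hu, hn6, q1, q2, h6, h7⟩
      · omega
      · omega
      · have : (2:ℝ) ≤ u := by exact_mod_cast (by omega : 2 ≤ u)
        exact ⟨by nlinarith, q2⟩
    clear hd ht hTs t
    have zge4 : ∀ z : ℕ, 2 * p 4 + p 2 ≤ (z + 1) * p 5 → 4 ≤ z := by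
      intro z hz
      by_contra hc
      have : (z : ℝ) ≤ 3 := by exact_mod_cast (by omega : z ≤ 3)
      nlinarith [hp 6]
    have zge5 : 0 < p 6 → ∀ z : ℕ, 2 * p 4 + p 2 ≤ (z + 1) * p 5 → 5 ≤ z := by
      intro h6 z hz
      by_contra hc
      have : (z : ℝ) ≤ 4 := by exact_mod_cast (by omega : z ≤ 4)
      nlinarith
    obtain ⟨t, ht, hTs, hv⟩ := useT hn hG h1 1 1 1 (Or.inl h5) (Or.inr (by norm_num))
      (Or.inr (by norm_num)) (Or.inl n6) (Or.inl n7)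
    rcases kT hn hp h23 ht hTs with ⟨r, z, e1, e5, q1, hz1, hz2⟩ | ⟨r, e1, e5, q1, q2, h6⟩ |
      ⟨r, u, e1, e5, hu, hn6, q1, q2, h6, h7⟩
    · have hz := zge4 z q1
      have e6 := (hz1 (by omega)).2.1
      have e7 := (hz2 (by omega)).2
      rify at e1 e5 e6 e7 hz
      linarith
    · obtain ⟨e6, v, hv1, hv2⟩ := h6 n6
      have h6p : 0 < p 6 := by
        by_contra hc
        have h0 : p 6 = 0 := le_antisymm (not_lt.1 hc) (hp 6)
        rw [h0, mul_zero] at hv1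
        linarith
      have hz5 := zge5 h6p z0 hz0
      have hv4 : 4 ≤ v := by
        by_contra hc
        have i1 : (v : ℝ) ≤ 3 := by exact_mod_cast (by omega : v ≤ 3)
        have i2 : (5 : ℝ) ≤ z0 := by exact_mod_cast hz5
        nlinarith
      have e7 := (hv2 (by omega)).2
      rify at e1 e5 e6 e7 hv4
      linarith
    · have e7 := h7 n7
      rcases h6 with ⟨e6, -⟩ | ⟨e6, hu2⟩
      · rify at e1 e5 e6 e7 hu
        linarith
      · rify at e1 e5 e6 e7 hu2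
        linarith
  · push Not at hU2
    -- trees of the second kind
    have hb6 : ∀ t, Opt p 1 (n + 1) t → Ts n t → ∀ r u : ℕ, dep t 1 = r + 1 →
        dep t 5 = r + 1 + u → u ≤ 1 := by
      intro t ht hTs r u e1 e5
      have := hU2 t ht hTs
      omega
    clear hU2
    obtain ⟨v0, hv0⟩ : ∃ v : ℕ, 3 * p 5 ≤ (v + 1) * p 6 := by
      obtain ⟨t, ht, hTs, hv⟩ := useT hn hG h1 (-1) 1 0 (Or.inl h5) (Or.inr (by norm_num))
        (Or.inr le_rfl) (Or.inl n6) (Or.inr rfl)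
      rcases kT hn hp h23 ht hTs with ⟨r, z, e1, e5, q1, hz1, hz2⟩ | ⟨r, e1, e5, q1, q2, h6⟩ |
        ⟨r, u, e1, e5, hu, hn6, q1, q2, h6, h7⟩
      · exfalso
        have hz := zge2 z q1
        have e6 := (hz1 (by omega)).2.1
        rify at e1 e5 e6 hz
        linarith
      · obtain ⟨e6, v, hv1, hv2⟩ := h6 n6
        exact ⟨v, hv1⟩
      · exfalso
        have hu1 := hb6 t ht hTs r u e1 e5
        rcases h6 with ⟨e6, -⟩ | ⟨e6, hu2⟩
        · rify at e1 e5 e6 hu hu1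
          linarith
        · omega
    have h6 : 0 < p 6 := by
      by_contra hc
      have h0 : p 6 = 0 := le_antisymm (not_lt.1 hc) (hp 6)
      rw [h0, mul_zero] at hv0
      linarith
    have vge : ∀ v : ℕ, 3 * p 5 ≤ (v + 1) * p 6 → z0 ≤ v + 1 := by
      intro v hv
      by_contra hc
      have : (v : ℝ) + 2 ≤ z0 := by exact_mod_cast (by omega : v + 2 ≤ z0)
      nlinarith
    obtain ⟨f1, f2⟩ : p 5 + p 6 ≤ p 4 ∧ p 4 + p 5 + p 6 ≤ 3 * p 2 := by
      obtain ⟨t, ht, hTs, hv⟩ := useT hn hG h1 (-3) (-4) 4 (Or.inl h5) (Or.inl h6)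
        (Or.inr (by norm_num)) (Or.inl n6) (Or.inl n7)
      rcases kT hn hp h23 ht hTs with ⟨r, z, e1, e5, q1, hz1, hz2⟩ | ⟨r, e1, e5, q1, q2, h6'⟩ |
        ⟨r, u, e1, e5, hu, hn6, q1, q2, h6', h7⟩
      · exfalso
        have hz := zge2 z q1
        have e6 := (hz1 (by omega)).2.1
        have e7 := (hz2 (by omega)).2
        rify at e1 e5 e6 e7 hz
        linarith
      · exfalso
        obtain ⟨e6, v, hv1, hv2⟩ := h6' n6
        have hv3 := vge v hv1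
        have hv4 : 1 ≤ v := by omega
        have e7 := (hv2 hv4).2
        rify at e1 e5 e6 e7 hv4
        linarith
      · have hu1 := hb6 t ht hTs r u e1 e5
        have hu' : u = 1 := by omega
        subst hu'
        rcases h6' with ⟨e6, q3⟩ | ⟨e6, hu2⟩
        · push_cast at q3
          exact ⟨by linarith, q2⟩
        · omega
    have hz3 : 8 * (p 5 + p 6) ≤ 3 * ((z0 + 1) * p 5) := by linarith
    have keyz : ∀ z : ℕ, 2 * p 4 + p 2 ≤ (z + 1) * p 5 → 8 * (p 5 + p 6) ≤ 3 * ((z + 1) * p 5) := by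
      intro z hz; linarith
    have hv5 : 3 * p 5 ≤ 6 * p 6 := by
      obtain ⟨t, ht, hTs, hv⟩ := useT hn hG h1 (-6) 15 10 (Or.inl h5) (Or.inl h6)
        (Or.inr (by norm_num)) (Or.inl n6) (Or.inl n7)
      rcases kT hn hp h23 ht hTs with ⟨r, z, e1, e5, q1, hz1, hz2⟩ | ⟨r, e1, e5, q1, q2, h6'⟩ |
        ⟨r, u, e1, e5, hu, hn6, q1, q2, h6', h7⟩
      · exfalso
        have hz := zge2 z q1
        have e6 := (hz1 (by omega)).2.1
        have e7 := (hz2 (by omega)).2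
        rify at e1 e5 e6 e7 hz
        linarith
      · obtain ⟨e6, v, hv1, hv2⟩ := h6' n6
        have hv3 := vge v hv1
        have e7 := (hv2 (by omega)).2
        have hv5 : v ≤ 5 := by
          by_contra hc
          have i1 : 6 ≤ v := by omega
          rify at e1 e5 e6 e7 i1
          linarith
        have : (v : ℝ) ≤ 5 := by exact_mod_cast hv5
        nlinarith
      · exfalso
        have e7 := h7 n7
        have hu1 := hb6 t ht hTs r u e1 e5
        rcases h6' with ⟨e6, -⟩ | ⟨e6, hu2⟩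
        · rify at e1 e5 e6 e7 hu hu1
          linarith
        · omega
    have zge3 : ∀ z : ℕ, 2 * p 4 + p 2 ≤ (z + 1) * p 5 → 3 ≤ z := by
      intro z hz
      have := keyz z hz
      by_contra hc
      have : (z : ℝ) ≤ 2 := by exact_mod_cast (by omega : z ≤ 2)
      nlinarith
    have hv3 : 3 * p 5 ≤ 4 * p 6 := by
      obtain ⟨t, ht, hTs, hv⟩ := useT hn hG h1 2 5 5 (Or.inl h5) (Or.inl h6)
        (Or.inr (by norm_num)) (Or.inl n6) (Or.inl n7)
      rcases kT hn hp h23 ht hTs with ⟨r, z, e1, e5, q1, hz1, hz2⟩ | ⟨r, e1, e5, q1, q2, h6'⟩ |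
        ⟨r, u, e1, e5, hu, hn6, q1, q2, h6', h7⟩
      · exfalso
        have hz := zge3 z q1
        have e6 := (hz1 (by omega)).2.1
        have e7 := (hz2 (by omega)).2
        rify at e1 e5 e6 e7 hz
        linarith
      · obtain ⟨e6, v, hv1, hv2⟩ := h6' n6
        have hv3 := vge v hv1
        have e7 := (hv2 (by omega)).2
        have hv5 : v ≤ 3 := by
          by_contra hc
          have i1 : 4 ≤ v := by omega
          rify at e1 e5 e6 e7 i1
          linarith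
        have : (v : ℝ) ≤ 3 := by exact_mod_cast hv5
        nlinarith
      · exfalso
        have e7 := h7 n7
        have hu1 := hb6 t ht hTs r u e1 e5
        rcases h6' with ⟨e6, -⟩ | ⟨e6, hu2⟩
        · rify at e1 e5 e6 e7 hu hu1
          linarith
        · omega
    have zge4 : ∀ z : ℕ, 2 * p 4 + p 2 ≤ (z + 1) * p 5 → 4 ≤ z := by
      intro z hz
      have := keyz z hz
      by_contra hc
      have : (z : ℝ) ≤ 3 := by exact_mod_cast (by omega : z ≤ 3)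
      nlinarith
    have hv2' : 3 * p 5 ≤ 3 * p 6 := by
      obtain ⟨t, ht, hTs, hv⟩ := useT hn hG h1 4 3 4 (Or.inl h5) (Or.inl h6)
        (Or.inr (by norm_num)) (Or.inl n6) (Or.inl n7)
      rcases kT hn hp h23 ht hTs with ⟨r, z, e1, e5, q1, hz1, hz2⟩ | ⟨r, e1, e5, q1, q2, h6'⟩ |
        ⟨r, u, e1, e5, hu, hn6, q1, q2, h6', h7⟩
      · exfalso
        have hz := zge4 z q1
        have e6 := (hz1 (by omega)).2.1
        have e7 := (hz2 (by omega)).2
        rify at e1 e5 e6 e7 hz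
        linarith
      · obtain ⟨e6, v, hv1, hv2⟩ := h6' n6
        have hv3 := vge v hv1
        have e7 := (hv2 (by omega)).2
        have hv5 : v ≤ 2 := by
          by_contra hc
          have i1 : 3 ≤ v := by omega
          rify at e1 e5 e6 e7 i1
          linarith
        have : (v : ℝ) ≤ 2 := by exact_mod_cast hv5
        nlinarith
      · exfalso
        have e7 := h7 n7
        have hu1 := hb6 t ht hTs r u e1 e5
        rcases h6' with ⟨e6, -⟩ | ⟨e6, hu2⟩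
        · rify at e1 e5 e6 e7 hu hu1
          linarith
        · omega
    have h4z : (4 : ℝ) ≤ z0 := by exact_mod_cast zge4 z0 hz0
    nlinarith

/-- `p 2 + p 3 < p 1` is impossible -/
lemma no_gt (hn : 5 ≤ n) (hp : ∀ i, 0 ≤ p i) (hG : Good n p (fun _ => True))
    (hlt : p 2 + p 3 < p 1) : False := by
  obtain ⟨h1, h2, h3, hT⟩ := red1 hn hp hG hlt
  exact noTs hn hp h1 h2 (tight_eq hn h2 h3 hT) hT

/-- `p 1 < p 2 + p 3` forces `p 1 = 2 * p 2` -/
lemma eq_of_lt (hn : 5 ≤ n) (hp : ∀ i, 0 ≤ p i) (hG : Good n p (fun _ => True))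
    (hlt : p 1 < p 2 + p 3) : p 1 = 2 * p 2 := by
  rcases lt_trichotomy (p 1) (2 * p 2) with h | h | h
  · exfalso
    obtain ⟨h1, h2, h3, hT⟩ := red2 hn hp hG hlt h
    exact noTs hn hp h1 h2 (tight_eq hn h2 h3 hT) hT
  · exact h
  · exact (red3 hn hp hG hlt h).elim

end Pool.Agent.Helper182.Dr
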