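import Mathlib
import Pool.Agent.Helper182.DrNo

set_option autoImplicit false

namespace Pool.Agent.Helper182.Dr

open T

variable {n : ℕ} {p : ℕ → ℝ}

/-- block with root 1 -/
def LA (Z : T) : T := N E 1 (N (N E 2 E) 3 Z)
/-- block with root 2 -/
def LB (Z : T) : T := N (N E 1 E) 2 (N E 3 Z)
/-- block with root 3 -/
def CB (W : T) : T := N (N E 1 (N E 2 E)) 3 W

/-- one of the first two blocks -/
def isL (B : T → T) : Prop := B = LA ∨ B = LB

lemma isL_Bs {B : T → T} (hB : isL B) {m : ℕ} {Z : T} (hZ : Bs 4 m Z) : Bs 1 m (B Z) := by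
  rcases hB with rfl | rfl
  · exact ⟨rfl, ⟨rfl, rfl⟩, hZ⟩
  · exact ⟨⟨rfl, rfl⟩, rfl, hZ⟩

lemma CB_Bs {m : ℕ} {W : T} (hW : Bs 4 m W) : Bs 1 m (CB W) := ⟨⟨rfl, rfl, rfl⟩, hW⟩

lemma isL_dep3 {B : T → T} (hB : isL B) (Z : T) : dep (B Z) 3 = 1 := by
  rcases hB with rfl | rfl
  · unfold LA; rw [dep_N_gt (by omega), dep_N_self]
  · unfold LB; rw [dep_N_gt (by omega), dep_N_self]

lemma isL_F {B : T → T} (hB : isL B) (Z : T) : 2 * dep (B Z) 1 + dep (B Z) 2 = 2 := by
  rcases hB with rfl | rfl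
  · unfold LA; rw [dep_N_self, dep_N_gt (by omega), dep_N_lt (by omega), dep_N_self]
  · unfold LB; rw [dep_N_self, dep_N_lt (by omega), dep_N_self]

lemma isL_dep {B : T → T} (hB : isL B) (Z : T) {h : ℕ} (hh : 4 ≤ h) :
    dep (B Z) h = dep Z h + 2 := by
  rcases hB with rfl | rfl
  · unfold LA; rw [dep_N_gt (by omega), dep_N_gt (by omega)]
  · unfold LB; rw [dep_N_gt (by omega), dep_N_gt (by omega)]

lemma isL_co {B : T → T} (hB : isL B) (ha : p 1 = 2 * p 2) (Z : T) :
    co p (B Z) = 2 * p 2 + p 3 + co p Z + 2 * wt p Z := by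
  rcases hB with rfl | rfl
  · unfold LA; simp; linarith
  · unfold LB; simp; linarith

lemma isL_wt {B : T → T} (hB : isL B) (ha : p 1 = 2 * p 2) (Z : T) :
    wt p (B Z) = 3 * p 2 + p 3 + wt p Z := by
  rcases hB with rfl | rfl
  · unfold LA; simp; linarith
  · unfold LB; simp; linarith

lemma CB_dep3 (W : T) : dep (CB W) 3 = 0 := dep_N_self

lemma CB_F (W : T) : 2 * dep (CB W) 1 + dep (CB W) 2 = 4 := by
  unfold CB
  rw [dep_N_lt (by omega), dep_N_self, dep_N_lt (by omega), dep_N_gt (by omega), dep_N_self]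

lemma CB_dep (W : T) {h : ℕ} (hh : 4 ≤ h) : dep (CB W) h = dep W h + 1 := dep_N_gt (by omega)

lemma CB_co (ha : p 1 = 2 * p 2) (W : T) : co p (CB W) = 4 * p 2 + co p W + wt p W := by
  unfold CB; simp; linarith

lemma CB_wt (ha : p 1 = 2 * p 2) (W : T) : wt p (CB W) = 3 * p 2 + p 3 + wt p W := by
  unfold CB; simp; linarith

/-- only these blocks occur -/
lemma clsS (hn : 5 ≤ n) (hp : ∀ i, 0 ≤ p i) (ha : p 1 = 2 * p 2) (hbc : p 2 < p 3) (hb : 0 < p 2)
    {t : T} (ht : Opt p 1 (n + 1) t) :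
    (∃ (m : ℕ) (Z U0 : T) (B : T → T), isL B ∧ t = gr (B Z) U0 ∧ Bs 4 m Z ∧ Bs m (n + 1) U0 ∧
      p 3 + wt p Z ≤ 2 * p 2) ∨
    (∃ (m : ℕ) (W U0 : T), t = gr (CB W) U0 ∧ Bs 4 m W ∧ Bs m (n + 1) U0 ∧
      2 * p 2 ≤ p 3 + wt p W) := by
  obtain ⟨m, U, s, rfl, hs, hU, hm, hc⟩ := cls3 ht.1 (by omega)
  have hO := Opt_gr ht hs hU
  rcases hc with ⟨m1, X, R, rfl, hX, hR, hXE⟩ | ⟨m1, Z, R, rfl, hZ, hR⟩ | ⟨m1, Z, R, rfl, hZ, hR⟩ |
    ⟨W, rfl, hW⟩ | ⟨W, rfl, hW⟩
  · exfalso
    have i1 := Bs_lt hX hXE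
    have q := iA1 hO hX hR
    have q2 := le_wt hp hX (i := 3) le_rfl i1
    have : (0:ℝ) ≤ (sp R : ℝ) * p 2 := mul_nonneg (Nat.cast_nonneg _) (hp 2)
    linarith
  · have q := iA2b hO hZ hR
    have hw := wt_nonneg hp Z
    have hR0 : sp R = 0 := by
      by_contra hne
      have : (1:ℝ) ≤ sp R := by exact_mod_cast (by omega : 1 ≤ sp R)
      nlinarith
    have hRE : R = E := by
      cases R with
      | E => rfl
      | N l k r => simp at hR0
    subst hRE
    have em : m1 = m := hR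
    subst em
    simp at q
    exact Or.inl ⟨m1, Z, U, LA, Or.inl rfl, rfl, hZ, hU, by linarith⟩
  · have q := iBb hO hZ hR
    have hw := wt_nonneg hp Z
    have hR0 : sp R = 0 := by
      by_contra hne
      have : (1:ℝ) ≤ sp R := by exact_mod_cast (by omega : 1 ≤ sp R)
      nlinarith
    have hRE : R = E := by
      cases R with
      | E => rfl
      | N l k r => simp at hR0
    subst hRE
    have em : m1 = m := hR
    subst em
    simp at q
    exact Or.inl ⟨m1, Z, U, LB, Or.inr rfl, rfl, hZ, hU, by linarith⟩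
  · exact Or.inr ⟨m, W, U, rfl, hW, hU, iC1c hO hW⟩
  · have := iC2a hO hW
    linarith

/-- first numerical description -/
inductive K5 (n : ℕ) (p : ℕ → ℝ) (t : T) : Prop
  | L3 (r y : ℕ) (hF : 2 * dep t 1 + dep t 2 + 1 = 3 * dep t 3) (h3 : dep t 3 = r + 2)
      (h4 : dep t 4 = r) (hc : p 3 ≤ 2 * p 2) (qy : p 2 + 2 * p 3 ≤ (y + 1) * p 4)
      (h5 : 1 ≤ y → dep t 5 = r + y ∧ y * p 5 ≤ 3 * p 4)
      (h6 : 2 ≤ y → y + 4 ≤ n ∧ r + y ≤ dep t 6 + 1)
  | L4 (r z : ℕ) (hF : 2 * dep t 1 + dep t 2 + 1 = 3 * dep t 3) (h3 : dep t 3 = r + 2)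
      (h4 : dep t 4 = r + 3) (h5 : dep t 5 = r) (qd : p 3 + p 4 ≤ 2 * p 2)
      (qz : 3 * p 4 ≤ (z + 1) * p 5) (h6 : 1 ≤ z → 6 ≤ n ∧ dep t 6 = r + z)
  | L5 (r : ℕ) (hF : 2 * dep t 1 + dep t 2 + 1 = 3 * dep t 3) (h3 : dep t 3 = r + 1)
      (h4 : r + 2 ≤ dep t 4) (h5 : r + 2 ≤ dep t 5) (h45 : 2 * r + 5 ≤ dep t 4 + dep t 5)
      (qd : p 3 + p 4 + p 5 ≤ 2 * p 2) (h6 : 6 ≤ n → r ≤ dep t 6 + 1)
  | C3 (r : ℕ) (hF : 2 * dep t 1 + dep t 2 = 3 * dep t 3 + 4) (h3 : dep t 3 = r)
      (h4 : dep t 4 + 1 = r) (h5 : r ≤ dep t 5 + 2) (hc : 2 * p 2 ≤ p 3)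
  | C4 (r z : ℕ) (hF : 2 * dep t 1 + dep t 2 = 3 * dep t 3 + 4) (h3 : dep t 3 = r + 1)
      (h4 : dep t 4 = r + 2) (h5 : dep t 5 = r) (qd : 2 * p 2 ≤ p 3 + p 4)
      (qz : 2 * p 4 + 2 * p 2 - p 3 ≤ (z + 1) * p 5) (h6 : 1 ≤ z → 6 ≤ n ∧ dep t 6 = r + z)
  | C5 (r w : ℕ) (hF : 2 * dep t 1 + dep t 2 = 3 * dep t 3 + 4) (h3 : dep t 3 = r)
      (h4 : dep t 4 = r + w) (hw : 1 ≤ w) (h5 : r + 1 ≤ dep t 5)
      (h45 : 2 * r + 3 ≤ dep t 4 + dep t 5) (qw : w * p 4 ≤ p 2 + 2 * p 3)
      (h6 : 6 ≤ n → (dep t 6 + 1 = r ∧ (∃ v : ℕ, 3 * p 5 - p 4 + 2 * p 2 - p 3 ≤ (v + 1) * p 6 ∨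
        2 * p 5 + 2 * p 2 - p 3 ≤ (v + 1) * p 6)) ∨ r + 1 ≤ dep t 6)

/-- in a tree on at least two keys, the depths of the first two keys differ -/
lemma dep_two {t : T} : ∀ {a b : ℕ}, Bs a b t → a + 1 < b → 1 ≤ dep t a + dep t (a + 1) := by
  induction t with
  | E => intro a b h hlt; rw [Bs_E] at h; omega
  | N l k r ihl ihr =>
    intro a b h hlt
    have h1 := Bs_le h.1
    rcases Nat.eq_or_lt_of_le h1 with h | h
    · subst h; rw [dep_N_self, dep_N_gt (by omega)]; omega
    · rw [dep_N_lt h]; omega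

lemma k5 (hn : 5 ≤ n) (hp : ∀ i, 0 ≤ p i) (ha : p 1 = 2 * p 2) (hbc : p 2 < p 3) (hb : 0 < p 2)
    {t : T} (ht : Opt p 1 (n + 1) t) : K5 n p t := by
  rcases clsS hn hp ha hbc hb ht with ⟨m, Z, U0, B, hB, rfl, hZ, hU0, hcZ⟩ |
    ⟨m, W, U0, rfl, hW, hU0, hcW⟩
  · have hm := Bs_le hZ
    have hb0 := Bs_le hU0
    have hs := isL_Bs hB hZ
    have hwZ := wt_nonneg hp Z
    have low : ∀ i, i < m → dep (gr (B Z) U0) i = sp U0 + dep (B Z) i :=
      fun i hi => dep_gr_low hU0 hi
    have d1 := low 1 (by omega)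
    have d2 := low 2 (by omega)
    have d3 := low 3 (by omega)
    rw [isL_dep3 hB] at d3
    have dF := isL_F hB Z
    have hF : 2 * dep (gr (B Z) U0) 1 + dep (gr (B Z) U0) 2 + 1 = 3 * dep (gr (B Z) U0) 3 := by
      omega
    by_cases hZE : Z = E
    · subst hZE
      have em : m = 4 := by rw [Bs_E] at hZ; omega
      subst em
      obtain ⟨m1, U, U1, hU, hU1, rfl⟩ := dec hU0 (by omega)
      replace hU : Bs 5 m1 U := hU
      have hsp : sp (gr (N E 4 U) U1) = sp U1 + 1 := by simp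
      rw [gr_gr_leaf] at ht hF d3 ⊢
      have hs2 : Bs 1 m1 (N (B E) 4 U) := ⟨hs, hU⟩
      have hO2 := Opt_gr ht hs2 hU1
      have hm1 := Bs_le hU
      have hb1 := Bs_le hU1
      have low2 : ∀ i, i < m1 → dep (gr (N (B E) 4 U) U1) i = sp U1 + dep (N (B E) 4 U) i :=
        fun i hi => dep_gr_low hU1 hi
      have e4 := low2 4 (by omega)
      rw [dep_N_self] at e4
      have qy : p 2 + 2 * p 3 ≤ ((sp U : ℝ) + 1) * p 4 := by
        have := hO2.2 (CB (gr (N E 4 E) U)) (CB_Bs (Bs_gr (by exact ⟨rfl, rfl⟩) hU))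
        rw [co_N, isL_co hB ha, isL_wt hB ha, CB_co ha] at this
        simp at this
        linarith
      simp at hcZ
      refine K5.L3 (sp U1) (sp U) hF (by omega) (by omega) (by linarith) qy ?_ ?_
      · intro hy
        have hUne : U ≠ E := by rintro rfl; simp at hy
        have hlt := Bs_lt hU hUne
        obtain ⟨m2, Z5, U', hZ5, hU', rfl⟩ := dec hU hlt
        have e5 := low2 5 hlt
        rw [dep_N_gt (by omega)] at e5
        have e5' := dep_min hU hlt
        have hwZ5 := wt_nonneg hp Z5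
        refine ⟨by omega, ?_⟩
        have := hO2.2 (N (B (N E 4 E)) 5 (gr Z5 U'))
          ⟨isL_Bs hB (by exact ⟨rfl, rfl⟩), Bs_gr hZ5 hU'⟩
        rw [co_N, co_N, isL_co hB ha, isL_wt hB ha, isL_co hB ha, isL_wt hB ha] at this
        simp at this ⊢
        linarith
      · intro hy
        have hUne : U ≠ E := by rintro rfl; simp at hy
        have hlt := Bs_lt hU hUne
        have hsz := sp_le hU
        refine ⟨by omega, ?_⟩
        obtain ⟨m2, Z5, U', hZ5, hU', rfl⟩ := dec hU hlt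
        replace hZ5 : Bs 6 m2 Z5 := hZ5
        rw [sp_gr] at hy ⊢
        simp only [sp_N, sp_E] at hy ⊢
        have hU'ne : U' ≠ E := by rintro rfl; simp at hy
        have hlt2 := Bs_lt hU' hU'ne
        have hm2 := Bs_le hZ5
        have e6 := low2 6 (by omega)
        rw [dep_N_gt (by omega)] at e6
        by_cases hZ5E : Z5 = E
        · subst hZ5E
          have em : m2 = 6 := by rw [Bs_E] at hZ5; omega
          subst em
          have := dep_next (s := N E 5 E) hU' hlt2
          omega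
        · have hlt3 := Bs_lt hZ5 hZ5E
          have f6 := dep_gr_low (s := N E 5 Z5) hU' (show 6 < m2 by omega)
          rw [dep_N_gt (by omega)] at f6
          omega
    · have hlt := Bs_lt hZ hZE
      have e4 := low 4 hlt
      rw [isL_dep hB _ le_rfl] at e4
      by_cases hm5 : m = 5
      · subst hm5
        have hZ4 : Z = N E 4 E := by
          obtain ⟨m2, Z', Z'', h1, h2, rfl⟩ := dec hZ hlt
          have i1 := Bs_le h1
          have i2 := Bs_le h2
          rw [Bs_eq h1 (by omega), Bs_eq h2 (by omega), gr_E]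
        subst hZ4
        obtain ⟨m1, R, U1, hR, hU1, rfl⟩ := dec hU0 (by omega)
        replace hR : Bs 6 m1 R := hR
        have hsp : sp (gr (N E 5 R) U1) = sp U1 + 1 := by simp
        rw [gr_gr_leaf] at ht hF d3 e4 ⊢
        have hs2 : Bs 1 m1 (N (B (N E 4 E)) 5 R) := ⟨hs, hR⟩
        have hO2 := Opt_gr ht hs2 hU1
        have hm1 := Bs_le hR
        have hb1 := Bs_le hU1
        have low2 : ∀ i, i < m1 → dep (gr (N (B (N E 4 E)) 5 R) U1) i =
            sp U1 + dep (N (B (N E 4 E)) 5 R) i := fun i hi => dep_gr_low hU1 hi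
        have e5 := low2 5 (by omega)
        rw [dep_N_self] at e5
        rw [dep_N_self] at e4
        have qz : 3 * p 4 ≤ ((sp R : ℝ) + 1) * p 5 := by
          have := hO2.2 (N (B E) 4 (gr (N E 5 E) R))
            ⟨isL_Bs hB rfl, Bs_gr (by exact ⟨rfl, rfl⟩) hR⟩
          rw [co_N, co_N, isL_co hB ha, isL_wt hB ha, isL_co hB ha, isL_wt hB ha] at this
          simp at this
          linarith
        simp at hcZ
        refine K5.L4 (sp U1) (sp R) hF (by omega) (by omega) (by omega) (by linarith) qz ?_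
        intro hz
        have hRne : R ≠ E := by rintro rfl; simp at hz
        have hlt2 := Bs_lt hR hRne
        have e6 := low2 6 hlt2
        rw [dep_N_gt (by omega)] at e6
        have := dep_min hR hlt2
        exact ⟨by omega, by omega⟩
      · have e5 := low 5 (by omega)
        rw [isL_dep hB _ (by omega)] at e5
        have h2 : 1 ≤ dep Z 4 + dep Z 5 := dep_two hZ (by omega)
        have q := le_wt2 hp hZ (i := 4) (j := 5) le_rfl (by omega) (by omega)
        refine K5.L5 (sp U0) hF (by omega) (by omega) (by omega) (by omega) (by linarith) ?_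
        intro hn6
        rcases Nat.lt_or_ge 6 m with h | h
        · have := low 6 h; omega
        · have hm6 : m = 6 := by omega
          subst hm6
          have := dep_next (s := B Z) hU0 (by omega)
          omega
  · have hm := Bs_le hW
    have hb0 := Bs_le hU0
    have hs := CB_Bs hW
    have hwW := wt_nonneg hp W
    have low : ∀ i, i < m → dep (gr (CB W) U0) i = sp U0 + dep (CB W) i :=
      fun i hi => dep_gr_low hU0 hi
    have d1 := low 1 (by omega)
    have d2 := low 2 (by omega)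
    have d3 := low 3 (by omega)
    rw [CB_dep3] at d3
    have dF := CB_F W
    have hF : 2 * dep (gr (CB W) U0) 1 + dep (gr (CB W) U0) 2 = 3 * dep (gr (CB W) U0) 3 + 4 := by
      omega
    by_cases hWE : W = E
    · subst hWE
      have em : m = 4 := by rw [Bs_E] at hW; omega
      subst em
      have e4 := dep_next (s := CB E) hU0 (by omega)
      simp at hcW
      refine K5.C3 (sp U0) hF (by omega) (by omega) ?_ hcW
      have := dep_gr_high (s := CB E) hU0 (show 4 ≤ 5 by omega) (by omega)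
      rw [this]
      obtain ⟨m1, U, U1, hU, hU1, rfl⟩ := dec hU0 (by omega)
      replace hU : Bs 5 m1 U := hU
      have hm1 := Bs_le hU
      rw [sp_gr]
      simp only [sp_N, sp_E]
      rcases Nat.lt_or_ge 5 m1 with h | h
      · have := dep_gr_low (s := N E 4 U) hU1 h; omega
      · have hm5 : m1 = 5 := by omega
        subst hm5
        have := dep_next (s := N E 4 U) hU1 (by omega)
        omega
    · have hlt := Bs_lt hW hWE
      have e4 := low 4 hlt
      rw [CB_dep _ le_rfl] at e4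
      by_cases hm5 : m = 5
      · subst hm5
        have hW4 : W = N E 4 E := by
          obtain ⟨m2, Z', Z'', h1, h2, rfl⟩ := dec hW hlt
          have i1 := Bs_le h1
          have i2 := Bs_le h2
          rw [Bs_eq h1 (by omega), Bs_eq h2 (by omega), gr_E]
        subst hW4
        obtain ⟨m1, R, U1, hR, hU1, rfl⟩ := dec hU0 (by omega)
        replace hR : Bs 6 m1 R := hR
        have hsp : sp (gr (N E 5 R) U1) = sp U1 + 1 := by simp
        rw [gr_gr_leaf] at ht hF d3 e4 ⊢
        have hs2 : Bs 1 m1 (N (CB (N E 4 E)) 5 R) := ⟨hs, hR⟩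
        have hO2 := Opt_gr ht hs2 hU1
        have hm1 := Bs_le hR
        have hb1 := Bs_le hU1
        have low2 : ∀ i, i < m1 → dep (gr (N (CB (N E 4 E)) 5 R) U1) i =
            sp U1 + dep (N (CB (N E 4 E)) 5 R) i := fun i hi => dep_gr_low hU1 hi
        have e5 := low2 5 (by omega)
        rw [dep_N_self] at e5
        rw [dep_N_self] at e4
        have qz : 2 * p 4 + 2 * p 2 - p 3 ≤ ((sp R : ℝ) + 1) * p 5 := by
          have := hO2.2 (N (LB E) 4 (gr (N E 5 E) R))
            ⟨isL_Bs (Or.inr rfl) rfl, Bs_gr (by exact ⟨rfl, rfl⟩) hR⟩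
          rw [co_N, co_N, CB_co ha, CB_wt ha, isL_co (Or.inr rfl) ha, isL_wt (Or.inr rfl) ha] at this
          simp at this
          linarith
        simp at hcW
        refine K5.C4 (sp U1) (sp R) hF (by omega) (by omega) (by omega) (by linarith) qz ?_
        intro hz
        have hRne : R ≠ E := by rintro rfl; simp at hz
        have hlt2 := Bs_lt hR hRne
        have e6 := low2 6 hlt2
        rw [dep_N_gt (by omega)] at e6
        have := dep_min hR hlt2
        exact ⟨by omega, by omega⟩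
      · have e5 := low 5 (by omega)
        rw [CB_dep _ (by omega)] at e5
        have h2 : 1 ≤ dep W 4 + dep W 5 := dep_two hW (by omega)
        have e4' := dep_min hW hlt
        have qw : (sp W : ℝ) * p 4 ≤ p 2 + 2 * p 3 := by
          obtain ⟨m2, Z4, W', hZ4, hW', rfl⟩ := dec hW hlt
          have hO := Opt_gr ht hs hU0
          have := hO.2 (N (LB E) 4 (gr Z4 W')) ⟨isL_Bs (Or.inr rfl) rfl, Bs_gr hZ4 hW'⟩
          rw [co_N, CB_co ha, isL_co (Or.inr rfl) ha, isL_wt (Or.inr rfl) ha] at this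
          have hw4 := wt_nonneg hp Z4
          simp at this ⊢
          linarith
        refine K5.C5 (sp U0) (sp W) hF (by omega) (by omega) (by omega) (by omega) (by omega) qw ?_
        intro hn6
        rcases Nat.lt_or_ge 6 m with h | h
        · right
          have := low 6 h
          rw [CB_dep _ (by omega)] at this
          omega
        · left
          have hm6 : m = 6 := by omega
          subst hm6
          have e6 := dep_next (s := CB W) hU0 (by omega)
          refine ⟨by omega, ?_⟩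
          obtain ⟨m1, V, U1, hV, hU1, rfl⟩ := dec hU0 (by omega)
          replace hV : Bs 7 m1 V := hV
          rw [gr_gr_leaf] at ht
          have hs2 : Bs 1 m1 (N (CB W) 6 V) := ⟨hs, hV⟩
          have hO2 := Opt_gr ht hs2 hU1
          refine ⟨sp V, ?_⟩
          have := hO2.2 (N (LB (N E 4 E)) 5 (gr (N E 6 E) V))
            ⟨isL_Bs (Or.inr rfl) (by exact ⟨rfl, rfl⟩), Bs_gr (by exact ⟨rfl, rfl⟩) hV⟩
          rw [co_N, co_N, CB_co ha, CB_wt ha, isL_co (Or.inr rfl) ha, isL_wt (Or.inr rfl) ha] at this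
          -- the two shapes of `W`
          obtain ⟨m2, Z4, W', hZ4, hW', rfl⟩ := dec hW hlt
          replace hZ4 : Bs 5 m2 Z4 := hZ4
          have i1 := Bs_le hZ4
          have i2 := Bs_le hW'
          rcases Nat.eq_or_lt_of_le i1 with h5 | h5
          · subst h5
            have hZE : Z4 = E := Bs_eq hZ4 le_rfl
            subst hZE
            obtain ⟨m3, A, A', hA, hA', rfl⟩ := dec hW' (by omega)
            have j1 := Bs_le hA
            have j2 := Bs_le hA'
            have hAE : A = E := Bs_eq hA (by omega)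
            have hAE' : A' = E := Bs_eq hA' (by omega)
            subst hAE; subst hAE'
            right
            simp at this
            linarith
          · have hW'E : W' = E := Bs_eq hW' (by omega)
            subst hW'E
            obtain ⟨m3, A, A', hA, hA', rfl⟩ := dec hZ4 h5
            have j1 := Bs_le hA
            have j2 := Bs_le hA'
            have hAE : A = E := Bs_eq hA (by omega)
            have hAE' : A' = E := Bs_eq hA' (by omega)
            subst hAE; subst hAE'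
            left
            simp at this
            linarith

end Pool.Agent.Helper182.Dr
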