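import Mathlib
import Pool.Agent.Helper182.DrS5

set_option autoImplicit false

namespace Pool.Agent.Helper182.Dr

open T

variable {n : ℕ} {p : ℕ → ℝ}

lemma useS (hn : 5 ≤ n) (hG : Good n p (fun _ => True)) (h1 : 0 < p 1) (h2 : 0 < p 2)
    (h3 : 0 < p 3) (κ a4 a5 a6 a7 a8 : ℝ)
    (h4 : 0 < p 4 ∨ 0 ≤ a4) (h5 : 0 < p 5 ∨ 0 ≤ a5) (h6 : 0 < p 6 ∨ 0 ≤ a6)
    (h7 : 0 < p 7 ∨ 0 ≤ a7) (h8 : 0 < p 8 ∨ 0 ≤ a8)
    (n6 : 6 ≤ n ∨ a6 = 0) (n7 : 7 ≤ n ∨ a7 = 0) (n8 : 8 ≤ n ∨ a8 = 0) :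
    ∃ t, Opt p 1 (n + 1) t ∧ κ * (2 * (dep t 1 : ℝ) + dep t 2 - 3 * dep t 3) +
      a4 * ((dep t 4 : ℝ) - dep t 3) + a5 * ((dep t 5 : ℝ) - dep t 3) +
      a6 * ((dep t 6 : ℝ) - dep t 3) + a7 * ((dep t 7 : ℝ) - dep t 3) +
      a8 * ((dep t 8 : ℝ) - dep t 3) ≤ 0 := by
  obtain ⟨t, ht, -, hv⟩ := Good_use hn hG (2 * κ) κ (-(3 * κ + a4 + a5 + a6 + a7 + a8)) a4 a5 a6 a7
    a8 ⟨by ring, Or.inl h1, Or.inl h2, Or.inl h3, h4, h5, h6, h7, h8, n6, n7, n8⟩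
  refine ⟨t, ht, ?_⟩
  simp only [v8] at hv
  linarith

lemma stage1 (hn : 5 ≤ n) (hp : ∀ i, 0 ≤ p i) (ha : p 1 = 2 * p 2) (hbc : p 2 < p 3)
    (hb : 0 < p 2) (hG : Good n p (fun _ => True)) :
    p 5 = p 4 ∧ p 2 + 2 * p 3 ≤ 4 * p 4 ∧ p 3 + p 4 ≤ 2 * p 2 ∧ 0 < p 6 ∧ 7 ≤ n ∧ 0 < p 4 := by
  have h1 : 0 < p 1 := by linarith
  have h3 : 0 < p 3 := by linarith
  have z6 : 6 ≤ n ∨ (0:ℝ) = 0 := Or.inr rfl
  have hd : p 3 + p 4 ≤ 2 * p 2 := by
    by_contra hc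
    push Not at hc
    -- only the first kind of left trees
    obtain ⟨hc2, h4⟩ : p 3 ≤ 2 * p 2 ∧ 0 < p 4 := by
      obtain ⟨t, ht, hv⟩ := useS hn hG h1 hb h3 1 0 0 0 0 0 (Or.inr le_rfl) (Or.inr le_rfl)
        (Or.inr le_rfl) (Or.inr le_rfl) (Or.inr le_rfl) (Or.inr rfl) (Or.inr rfl) (Or.inr rfl)
      rcases k5 hn hp ha hbc hb ht with ⟨r, y, hF, e3, e4, hc, qy, h5, h6⟩ |
        ⟨r, z, hF, e3, e4, e5, qd, qz, h6⟩ | ⟨r, hF, e3, e4, e5, h45, qd, h6⟩ |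
        ⟨r, hF, e3, e4, e5, hc⟩ | ⟨r, z, hF, e3, e4, e5, qd, qz, h6⟩ |
        ⟨r, w, hF, e3, e4, hw, e5, h45, qw, h6⟩
      · refine ⟨hc, ?_⟩
        by_contra hd
        have h0 : p 4 = 0 := le_antisymm (not_lt.1 hd) (hp 4)
        rw [h0, mul_zero] at qy
        linarith
      · exfalso; linarith
      · exfalso; linarith [hp 5]
      · exfalso; rify at hF; linarith
      · exfalso; rify at hF; linarith
      · exfalso; rify at hF; linarith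
    by_cases h8 : 8 * p 4 ≤ p 2 + 2 * p 3
    · obtain ⟨t, ht, hv⟩ := useS hn hG h1 hb h3 1 0 1 0 0 0 (Or.inr le_rfl)
        (Or.inr (by norm_num)) (Or.inr le_rfl) (Or.inr le_rfl) (Or.inr le_rfl) (Or.inr rfl)
        (Or.inr rfl) (Or.inr rfl)
      rcases k5 hn hp ha hbc hb ht with ⟨r, y, hF, e3, e4, hc, qy, h5, h6⟩ |
        ⟨r, z, hF, e3, e4, e5, qd, qz, h6⟩ | ⟨r, hF, e3, e4, e5, h45, qd, h6⟩ |
        ⟨r, hF, e3, e4, e5, hc⟩ | ⟨r, z, hF, e3, e4, e5, qd, qz, h6⟩ |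
        ⟨r, w, hF, e3, e4, hw, e5, h45, qw, h6⟩
      · have hy : 7 ≤ y := by
          by_contra hne
          have : (y : ℝ) ≤ 6 := by exact_mod_cast (by omega : y ≤ 6)
          nlinarith
        have e5 := (h5 (by omega)).1
        rify at hF e3 e4 e5 hy
        linarith
      · linarith
      · linarith [hp 5]
      · rify at hF e3 e5; linarith
      · rify at hF e3 e5; linarith
      · rify at hF e3 e5; linarith
    · push Not at h8
      obtain ⟨t, ht, hv⟩ := useS hn hG h1 hb h3 19 (-10) 0 0 0 0 (Or.inl h4)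
        (Or.inr le_rfl) (Or.inr le_rfl) (Or.inr le_rfl) (Or.inr le_rfl) (Or.inr rfl)
        (Or.inr rfl) (Or.inr rfl)
      rcases k5 hn hp ha hbc hb ht with ⟨r, y, hF, e3, e4, hc, qy, h5, h6⟩ |
        ⟨r, z, hF, e3, e4, e5, qd, qz, h6⟩ | ⟨r, hF, e3, e4, e5, h45, qd, h6⟩ |
        ⟨r, hF, e3, e4, e5, hc⟩ | ⟨r, z, hF, e3, e4, e5, qd, qz, h6⟩ |
        ⟨r, w, hF, e3, e4, hw, e5, h45, qw, h6⟩
      · rify at hF e3 e4; linarith
      · linarith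
      · linarith [hp 5]
      · rify at hF e3 e4; linarith
      · rify at hF e3 e4; linarith
      · have hw7 : w ≤ 7 := by
          by_contra hne
          have : (8 : ℝ) ≤ w := by exact_mod_cast (by omega : 8 ≤ w)
          nlinarith
        rify at hF e3 e4 hw7; linarith
  -- the second half
  have h4 : 0 < p 4 := by
    obtain ⟨t, ht, hv⟩ := useS hn hG h1 hb h3 1 2 0 0 0 0 (Or.inr (by norm_num))
      (Or.inr le_rfl) (Or.inr le_rfl) (Or.inr le_rfl) (Or.inr le_rfl) (Or.inr rfl)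
      (Or.inr rfl) (Or.inr rfl)
    rcases k5 hn hp ha hbc hb ht with ⟨r, y, hF, e3, e4, hc, qy, h5, h6⟩ |
      ⟨r, z, hF, e3, e4, e5, qd, qz, h6⟩ | ⟨r, hF, e3, e4, e5, h45, qd, h6⟩ |
      ⟨r, hF, e3, e4, e5, hc⟩ | ⟨r, z, hF, e3, e4, e5, qd, qz, h6⟩ |
      ⟨r, w, hF, e3, e4, hw, e5, h45, qw, h6⟩
    · by_contra hd
      have h0 : p 4 = 0 := le_antisymm (not_lt.1 hd) (hp 4)
      rw [h0, mul_zero] at qy
      linarith
    · exfalso; rify at hF e3 e4; linarith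
    · exfalso; rify at hF e3 e4; linarith
    · exfalso; rify at hF e3 e4; linarith
    · exfalso; rify at hF e3 e4; linarith
    · exfalso; rify at hF e3 e4 hw; linarith
  have hc2 : p 3 < 2 * p 2 := by linarith
  have yge : ∀ y : ℕ, p 2 + 2 * p 3 ≤ (y + 1) * p 4 → 3 ≤ y := by
    intro y hy
    by_contra hne
    have : (y : ℝ) ≤ 2 := by exact_mod_cast (by omega : y ≤ 2)
    nlinarith
  obtain ⟨z0, hz0⟩ : ∃ z : ℕ, 3 * p 4 ≤ (z + 1) * p 5 := by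
    obtain ⟨t, ht, hv⟩ := useS hn hG h1 hb h3 0 0 1 0 0 0 (Or.inr le_rfl)
      (Or.inr (by norm_num)) (Or.inr le_rfl) (Or.inr le_rfl) (Or.inr le_rfl) (Or.inr rfl)
      (Or.inr rfl) (Or.inr rfl)
    rcases k5 hn hp ha hbc hb ht with ⟨r, y, hF, e3, e4, hc, qy, h5, h6⟩ |
      ⟨r, z, hF, e3, e4, e5, qd, qz, h6⟩ | ⟨r, hF, e3, e4, e5, h45, qd, h6⟩ |
      ⟨r, hF, e3, e4, e5, hc⟩ | ⟨r, z, hF, e3, e4, e5, qd, qz, h6⟩ |
      ⟨r, w, hF, e3, e4, hw, e5, h45, qw, h6⟩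
    · exfalso
      have hy := yge y qy
      have e5 := (h5 (by omega)).1
      rify at hF e3 e4 e5 hy
      linarith
    · exact ⟨z, qz⟩
    · exfalso; rify at hF e3 e5; linarith
    · linarith
    · exact ⟨z, by linarith⟩
    · exfalso; rify at hF e3 e5; linarith
  have h5p : 0 < p 5 := by
    by_contra hd
    have h0 : p 5 = 0 := le_antisymm (not_lt.1 hd) (hp 5)
    rw [h0, mul_zero] at hz0
    linarith
  -- a tree of the first kind
  obtain ⟨y0, hy0, hy0', hyn⟩ : ∃ y : ℕ, p 2 + 2 * p 3 ≤ (y + 1) * p 4 ∧ y * p 5 ≤ 3 * p 4 ∧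
      y + 4 ≤ n := by
    obtain ⟨t, ht, hv⟩ := useS hn hG h1 hb h3 1 2 0 0 0 0 (Or.inr (by norm_num))
      (Or.inr le_rfl) (Or.inr le_rfl) (Or.inr le_rfl) (Or.inr le_rfl) (Or.inr rfl)
      (Or.inr rfl) (Or.inr rfl)
    rcases k5 hn hp ha hbc hb ht with ⟨r, y, hF, e3, e4, hc, qy, h5, h6⟩ |
      ⟨r, z, hF, e3, e4, e5, qd, qz, h6⟩ | ⟨r, hF, e3, e4, e5, h45, qd, h6⟩ |
      ⟨r, hF, e3, e4, e5, hc⟩ | ⟨r, z, hF, e3, e4, e5, qd, qz, h6⟩ |
      ⟨r, w, hF, e3, e4, hw, e5, h45, qw, h6⟩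
    · have hy := yge y qy
      exact ⟨y, qy, (h5 (by omega)).2, (h6 (by omega)).1⟩
    · exfalso; rify at hF e3 e4; linarith
    · exfalso; rify at hF e3 e4; linarith
    · exfalso; rify at hF e3 e4; linarith
    · exfalso; rify at hF e3 e4; linarith
    · exfalso; rify at hF e3 e4 hw; linarith
  have hy3 := yge y0 hy0
  have n7 : 7 ≤ n := by omega
  have n6 : 6 ≤ n := by omega
  have h54 : p 5 ≤ p 4 := by
    have : (3 : ℝ) ≤ y0 := by exact_mod_cast hy3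
    nlinarith
  have zge : ∀ z : ℕ, 3 * p 4 ≤ (z + 1) * p 5 → 2 ≤ z := by
    intro z hz
    by_contra hne
    have : (z : ℝ) ≤ 1 := by exact_mod_cast (by omega : z ≤ 1)
    nlinarith
  have h45e : p 4 ≤ p 5 := by
    obtain ⟨t, ht, hv⟩ := useS hn hG h1 hb h3 (-10) 25 41 50 0 0 (Or.inl h4)
      (Or.inl h5p) (Or.inr (by norm_num)) (Or.inr le_rfl) (Or.inr le_rfl) (Or.inl n6)
      (Or.inr rfl) (Or.inr rfl)
    rcases k5 hn hp ha hbc hb ht with ⟨r, y, hF, e3, e4, hc, qy, h5, h6⟩ |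
      ⟨r, z, hF, e3, e4, e5, qd, qz, h6⟩ | ⟨r, hF, e3, e4, e5, h45, qd, h6⟩ |
      ⟨r, hF, e3, e4, e5, hc⟩ | ⟨r, z, hF, e3, e4, e5, qd, qz, h6⟩ |
      ⟨r, w, hF, e3, e4, hw, e5, h45, qw, h6⟩
    · exfalso
      have hy := yge y qy
      have e5 := (h5 (by omega)).1
      have e6 := (h6 (by omega)).2
      rify at hF e3 e4 e5 e6 hy
      linarith
    · have hz := zge z qz
      have e6 := (h6 (by omega)).2
      have hz2 : z ≤ 2 := by
        by_contra hne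
        have hz3 : 3 ≤ z := by omega
        rify at hF e3 e4 e5 e6 hz3
        linarith
      have : (z : ℝ) ≤ 2 := by exact_mod_cast hz2
      nlinarith
    · exfalso
      have e6 := h6 n6
      rify at hF e3 e4 e5 h45 e6
      linarith
    · linarith
    · have hz := zge z (by linarith)
      have e6 := (h6 (by omega)).2
      have hz2 : z ≤ 2 := by
        by_contra hne
        have hz3 : 3 ≤ z := by omega
        rify at hF e3 e4 e5 e6 hz3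
        linarith
      have : (z : ℝ) ≤ 2 := by exact_mod_cast hz2
      nlinarith
    · exfalso
      rcases h6 n6 with ⟨e6, -⟩ | e6
      · rify at hF e3 e4 e5 h45 e6 hw
        linarith
      · rify at hF e3 e4 e5 h45 e6 hw
        linarith
  have he : p 5 = p 4 := le_antisymm h54 h45e
  have hy3' : y0 ≤ 3 := by
    by_contra hne
    have : (4 : ℝ) ≤ y0 := by exact_mod_cast (by omega : 4 ≤ y0)
    rw [he] at hy0'
    nlinarith
  have h4d : p 2 + 2 * p 3 ≤ 4 * p 4 := by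
    have : (y0 : ℝ) ≤ 3 := by exact_mod_cast hy3'
    nlinarith
  refine ⟨he, h4d, hd, ?_, n7, h4⟩
  -- the sixth weight is positive
  obtain ⟨t, ht, hv⟩ := useS hn hG h1 hb h3 (-1) 0 0 10 0 0 (Or.inr le_rfl)
    (Or.inr le_rfl) (Or.inr (by norm_num)) (Or.inr le_rfl) (Or.inr le_rfl) (Or.inl n6)
    (Or.inr rfl) (Or.inr rfl)
  rcases k5 hn hp ha hbc hb ht with ⟨r, y, hF, e3, e4, hc, qy, h5, h6⟩ |
    ⟨r, z, hF, e3, e4, e5, qd, qz, h6⟩ | ⟨r, hF, e3, e4, e5, h45, qd, h6⟩ |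
    ⟨r, hF, e3, e4, e5, hc⟩ | ⟨r, z, hF, e3, e4, e5, qd, qz, h6⟩ |
    ⟨r, w, hF, e3, e4, hw, e5, h45, qw, h6⟩
  · exfalso
    have hy := yge y qy
    have e6 := (h6 (by omega)).2
    rify at hF e3 e4 e6 hy
    linarith
  · exfalso
    have hz := zge z qz
    have e6 := (h6 (by omega)).2
    rify at hF e3 e4 e5 e6 hz
    linarith
  · exfalso; linarith
  · exfalso; linarith
  · exfalso
    have hz := zge z (by linarith)
    have e6 := (h6 (by omega)).2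
    rify at hF e3 e4 e5 e6 hz
    linarith
  · rcases h6 n6 with ⟨e6, v, hv⟩ | e6
    · by_contra hd
      have h0 : p 6 = 0 := le_antisymm (not_lt.1 hd) (hp 6)
      rw [h0, mul_zero] at hv
      rcases hv with hv | hv <;> linarith
    · exfalso
      rify at hF e3 e4 e5 e6
      linarith

end Pool.Agent.Helper182.Dr
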