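import Mathlib
import Pool.Agent.Helper182.DrSt1

set_option autoImplicit false

namespace Pool.Agent.Helper182.Dr

open T

variable {n : ℕ} {p : ℕ → ℝ}

/-- what the first stage provides -/
structure H8 (n : ℕ) (p : ℕ → ℝ) : Prop where
  hp : ∀ i, 0 ≤ p i
  ha : p 1 = 2 * p 2
  hbc : p 2 < p 3
  hb : 0 < p 2
  he : p 5 = p 4
  h4d : p 2 + 2 * p 3 ≤ 4 * p 4
  hd : p 3 + p 4 ≤ 2 * p 2
  h6 : 0 < p 6
  n7 : 7 ≤ n
  h4 : 0 < p 4

/-- second numerical description -/
inductive K8 (n : ℕ) (p : ℕ → ℝ) (t : T) : Prop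
  | Lh (r s : ℕ) (hF : 2 * dep t 1 + dep t 2 + 1 = 3 * dep t 3) (h3 : dep t 3 = r + 2)
      (h6 : dep t 6 = r + 2) (h7 : dep t 7 = r + 1) (q2 : 2 * p 6 ≤ 2 * p 4 + 2 * p 2 - p 3)
      (q1 : p 2 + 2 * p 3 ≤ 2 * p 4 + p 6) (q3 : p 6 + p 4 ≤ (s + 1) * p 7)
      (h8 : 1 ≤ s → 8 ≤ n ∧ dep t 8 = r + 1 + s)
  | Ll (r : ℕ) (hF : 2 * dep t 1 + dep t 2 + 1 = 3 * dep t 3) (h3 : dep t 3 = r + 2)
      (h6 : dep t 6 = r + 2) (h7 : r + 3 ≤ dep t 7)
      (q2 : 2 * p 6 + p 7 ≤ 2 * p 4 + 2 * p 2 - p 3) (h8 : 8 ≤ n ∧ r + 1 ≤ dep t 8)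
  | Lz (r z : ℕ) (hF : 2 * dep t 1 + dep t 2 + 1 = 3 * dep t 3) (h3 : dep t 3 = r + 2)
      (h6 : dep t 6 = r + z) (hz : 3 ≤ z) (h7 : r + z ≤ dep t 7 + 1)
      (q2 : z * p 6 ≤ 2 * p 4 + 2 * p 2 - p 3)
  | Ch (r s : ℕ) (hF : 2 * dep t 1 + dep t 2 = 3 * dep t 3 + 4) (h3 : dep t 3 = r + 1)
      (h6 : dep t 6 = r + 2) (h7 : dep t 7 = r + 1)
      (q1 : p 2 + 2 * p 3 ≤ 2 * p 4 + p 6) (q3 : p 6 + p 4 ≤ (s + 1) * p 7)
      (h8 : 1 ≤ s → 8 ≤ n ∧ dep t 8 = r + 1 + s)
  | Cl (r : ℕ) (hF : 2 * dep t 1 + dep t 2 = 3 * dep t 3 + 4) (h3 : dep t 3 = r + 1)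
      (h6 : dep t 6 = r + 2) (h7 : r + 3 ≤ dep t 7)
      (q2 : 2 * p 6 + p 7 ≤ 2 * p 4 + 2 * p 2 - p 3) (h8 : 8 ≤ n ∧ r + 1 ≤ dep t 8)
  | Cz (r z : ℕ) (hF : 2 * dep t 1 + dep t 2 = 3 * dep t 3 + 4) (h3 : dep t 3 = r + 1)
      (h6 : dep t 6 = r + z) (hz : 3 ≤ z) (h7 : r + z ≤ dep t 7 + 1)
      (q2 : z * p 6 ≤ 2 * p 4 + 2 * p 2 - p 3)
  | C5 (r v : ℕ) (hF : 2 * dep t 1 + dep t 2 = 3 * dep t 3 + 4) (h3 : dep t 3 = r + 1)
      (h6 : dep t 6 = r) (q : 2 * p 4 + 2 * p 2 - p 3 ≤ (v + 1) * p 6)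
      (h7 : 1 ≤ v → dep t 7 = r + v ∧ v * p 7 ≤ 3 * p 6)
      (h8 : 8 ≤ n → 2 ≤ v → r + v ≤ dep t 8 + 1)
      (h8' : 8 ≤ n → 1 ≤ v → r + v ≤ dep t 8 + 2)
  | C6 (r u : ℕ) (hF : 2 * dep t 1 + dep t 2 = 3 * dep t 3 + 4) (h3 : dep t 3 = r)
      (h6 : r + 1 ≤ dep t 6) (h7 : dep t 7 + 1 = r) (q : 2 * p 6 ≤ (u + 1) * p 7)
      (h8 : 8 ≤ n → 1 ≤ u → dep t 8 + 1 = r + u) (h8' : 8 ≤ n → r ≤ dep t 8 + 2)
  | C7 (r j : ℕ) (hF : 2 * dep t 1 + dep t 2 = 3 * dep t 3 + 4) (h3 : dep t 3 = r)
      (h6 : r + 1 ≤ dep t 6) (h7 : dep t 7 = r + j) (hj : 1 ≤ j)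
      (q : j * p 7 ≤ p 3 + 3 * p 2 + (p 4 + p 5 + p 6))
      (h8 : 8 ≤ n → r ≤ dep t 8 + 1) (h8' : 8 ≤ n → dep t 7 ≤ dep t 8 + 5)

lemma wt_three {W : T} {p : ℕ → ℝ} (h : Bs 4 7 W) : wt p W = p 4 + p 5 + p 6 := by
  rw [wt_eq h]
  have : Finset.Ico 4 7 = {4, 5, 6} := by decide
  rw [this]
  simp
  ring

lemma wt_two {W : T} {p : ℕ → ℝ} (h : Bs 4 6 W) : wt p W = p 4 + p 5 := by
  rw [wt_eq h]
  have : Finset.Ico 4 6 = {4, 5} := by decide
  rw [this]
  simp

lemma co_two {W : T} {p : ℕ → ℝ} (h : Bs 4 6 W) (he : p 5 = p 4) : co p W = p 4 := by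
  obtain ⟨m2, Z4, W', hZ4, hW', rfl⟩ := dec h (by omega)
  replace hZ4 : Bs 5 m2 Z4 := hZ4
  have i1 := Bs_le hZ4
  have i2 := Bs_le hW'
  rcases Nat.eq_or_lt_of_le i1 with h5 | h5
  · subst h5
    have hZE : Z4 = E := Bs_eq hZ4 le_rfl
    subst hZE
    obtain ⟨m3, A, A', hA, hA', rfl⟩ := dec hW' (by omega)
    have j1 := Bs_le hA
    have j2 := Bs_le hA'
    have hAE : A = E := Bs_eq hA (by omega)
    have hAE' : A' = E := Bs_eq hA' (by omega)
    subst hAE; subst hAE'
    simp
  · have hW'E : W' = E := Bs_eq hW' (by omega)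
    subst hW'E
    obtain ⟨m3, A, A', hA, hA', rfl⟩ := dec hZ4 h5
    have j1 := Bs_le hA
    have j2 := Bs_le hA'
    have hAE : A = E := Bs_eq hA (by omega)
    have hAE' : A' = E := Bs_eq hA' (by omega)
    subst hAE; subst hAE'
    simp [he]

/-- a tree whose left spine has length one -/
lemma sp_one {U : T} {a b : ℕ} (hU : Bs a b U) (h : sp U = 1) : ∃ V, U = N E a V ∧ Bs (a + 1) b V := by
  cases U with
  | E => simp at h
  | N l k r =>
    cases l with
    | E =>
      have hk : a = k := hU.1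
      subst hk
      exact ⟨r, rfl, hU.2⟩
    | N l1 j1 r1 => simp at h

lemma k8 (H : H8 n p) {t : T} (ht : Opt p 1 (n + 1) t) : K8 n p t := by
  obtain ⟨hp, ha, hbc, hb, he, h4d, hd, h6p, n7, h4p⟩ := H
  rcases clsS (by omega) hp ha hbc hb ht with ⟨m, Z, U0, B, hB, rfl, hZ, hU0, hcZ⟩ |
    ⟨m, W, U0, rfl, hW, hU0, hcW⟩
  · have hm := Bs_le hZ
    have hb0 := Bs_le hU0
    have hs := isL_Bs hB hZ
    have low : ∀ i, i < m → dep (gr (B Z) U0) i = sp U0 + dep (B Z) i :=
      fun i hi => dep_gr_low hU0 hi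
    have d1 := low 1 (by omega)
    have d2 := low 2 (by omega)
    have d3 := low 3 (by omega)
    rw [isL_dep3 hB] at d3
    have dF := isL_F hB Z
    have hF : 2 * dep (gr (B Z) U0) 1 + dep (gr (B Z) U0) 2 + 1 = 3 * dep (gr (B Z) U0) 3 := by
      omega
    by_cases hZE : Z = E
    · subst hZE
      have em : m = 4 := by rw [Bs_E] at hZ; omega
      subst em
      obtain ⟨m1, U, U1, hU, hU1, rfl⟩ := dec hU0 (by omega)
      replace hU : Bs 5 m1 U := hU
      have hsp : sp (gr (N E 4 U) U1) = sp U1 + 1 := by simp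
      rw [gr_gr_leaf] at ht hF d3 ⊢
      have hs2 : Bs 1 m1 (N (B E) 4 U) := ⟨hs, hU⟩
      have hO2 := Opt_gr ht hs2 hU1
      have hm1 := Bs_le hU
      have hb1 := Bs_le hU1
      have qy : p 2 + 2 * p 3 ≤ ((sp U : ℝ) + 1) * p 4 := by
        have := hO2.2 (CB (gr (N E 4 E) U)) (CB_Bs (Bs_gr (by exact ⟨rfl, rfl⟩) hU))
        rw [co_N, isL_co hB ha, isL_wt hB ha, CB_co ha] at this
        simp at this
        linarith
      have hy3 : 3 ≤ sp U := by
        by_contra hne
        have : (sp U : ℝ) ≤ 2 := by exact_mod_cast (by omega : sp U ≤ 2)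
        nlinarith
      have hUne : U ≠ E := by rintro rfl; simp at hy3
      have hlt := Bs_lt hU hUne
      obtain ⟨m2, Z5, U', hZ5, hU', rfl⟩ := dec hU hlt
      replace hZ5 : Bs 6 m2 Z5 := hZ5
      have qu : ((sp U' : ℝ) + 1) * p 5 + wt p Z5 ≤ 3 * p 4 := by
        have := hO2.2 (N (B (N E 4 E)) 5 (gr Z5 U'))
          ⟨isL_Bs hB (by exact ⟨rfl, rfl⟩), Bs_gr hZ5 hU'⟩
        rw [co_N, co_N, isL_co hB ha, isL_wt hB ha, isL_co hB ha, isL_wt hB ha] at this
        simp at this ⊢
        linarith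
      rw [sp_gr] at hy3
      simp only [sp_N, sp_E] at hy3
      have hwZ5 := wt_nonneg hp Z5
      rw [he] at qu
      have hU'2 : sp U' = 2 := by
        by_contra hne
        have : (3:ℝ) ≤ sp U' := by exact_mod_cast (by omega : 3 ≤ sp U')
        nlinarith
      have hU'2r : (sp U' : ℝ) = 2 := by exact_mod_cast hU'2
      have hZ5E : Z5 = E := by
        by_contra hne
        have := le_wt hp hZ5 (i := 6) le_rfl (Bs_lt hZ5 hne)
        rw [hU'2r] at qu
        linarith
      subst hZ5E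
      have em : m2 = 6 := by rw [Bs_E] at hZ5; omega
      subst em
      have hU'ne : U' ≠ E := by rintro rfl; simp at hU'2
      obtain ⟨m3, Z6, U'', hZ6, hU'', rfl⟩ := dec hU' (Bs_lt hU' hU'ne)
      replace hZ6 : Bs 7 m3 Z6 := hZ6
      rw [sp_gr] at hU'2
      simp only [sp_N, sp_E] at hU'2
      obtain ⟨Ut, rfl, hUt⟩ := sp_one hU'' (by omega)
      clear qu hU'2 hU'2r hy3 qy
      simp only [gr_gr_leaf, gr_N, gr_E] at hO2 ht hF d3 hU ⊢
      have hm3 := Bs_le hZ6
      have hmt := Bs_le hUt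
      have low2 : ∀ i, i < m1 → dep (gr (N (B E) 4 (N (N (N E 5 E) 6 Z6) m3 Ut)) U1) i =
          sp U1 + dep (N (B E) 4 (N (N (N E 5 E) 6 Z6) m3 Ut)) i := fun i hi => dep_gr_low hU1 hi
      have e6 := low2 6 (by omega)
      rw [dep_N_gt (by omega), dep_N_lt (by omega), dep_N_self] at e6
      have q2 : 2 * p 6 + wt p Z6 ≤ 2 * p 4 + 2 * p 2 - p 3 := by
        have := hO2.2 (N (CB (N E 4 (N E 5 E))) 6 (N Z6 m3 Ut))
          ⟨CB_Bs (by exact ⟨rfl, rfl, rfl⟩), hZ6, hUt⟩
        simp only [co_N, wt_N, co_E, wt_E, isL_co hB ha, isL_wt hB ha, CB_co ha, CB_wt ha] at this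
        linarith
      have hsp1 : sp U1 + 2 = dep (gr (N (B E) 4 (N (N (N E 5 E) 6 Z6) m3 Ut)) U1) 3 := by
        rw [d3]; simp
      by_cases hZ6E : Z6 = E
      · subst hZ6E
        have em : m3 = 7 := by rw [Bs_E] at hZ6; omega
        subst em
        have e7 := low2 7 (by omega)
        rw [dep_N_gt (by omega), dep_N_self] at e7
        have q1 : p 2 + 2 * p 3 ≤ 2 * p 4 + p 6 := by
          have := hO2.2 (CB (N (N (N E 4 E) 5 (N E 6 E)) 7 Ut))
            (CB_Bs (by exact ⟨⟨⟨rfl, rfl⟩, rfl, rfl⟩, hUt⟩))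
          rw [co_N, isL_co hB ha, isL_wt hB ha, CB_co ha] at this
          simp at this
          linarith
        have q3 : p 6 + p 4 ≤ ((sp Ut : ℝ) + 1) * p 7 := by
          have := hO2.2 (N (B E) 4 (N (N E 5 E) 6 (gr (N E 7 E) Ut)))
            ⟨hs, ⟨rfl, rfl⟩, Bs_gr (by exact ⟨rfl, rfl⟩) hUt⟩
          simp at this
          linarith
        simp at q2
        refine K8.Lh (sp U1) (sp Ut) hF (by omega) (by omega) (by omega) (by linarith) q1 q3 ?_
        intro hs1
        have hUtne : Ut ≠ E := by rintro rfl; simp at hs1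
        have hlt8 := Bs_lt hUt hUtne
        have e8 := low2 8 (by omega)
        rw [dep_N_gt (by omega), dep_N_gt (by omega)] at e8
        replace hUt : Bs 8 m1 Ut := hUt
        have := dep_min hUt hlt8
        exact ⟨by omega, by omega⟩
      · have hlt7 := Bs_lt hZ6 hZ6E
        have hg := le_wt hp hZ6 (i := 7) le_rfl hlt7
        have e7 := low2 7 (by omega)
        rw [dep_N_gt (by omega), dep_N_lt (by omega), dep_N_gt (by omega)] at e7
        have e8 := low2 8 (by omega)
        rw [dep_N_gt (by omega)] at e8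
        exact K8.Ll (sp U1) hF (by omega) (by omega) (by omega) (by linarith) ⟨by omega, by omega⟩
    · have hlt := Bs_lt hZ hZE
      have hm5 : m = 5 := by
        by_contra hne
        have q := le_wt2 hp hZ (i := 4) (j := 5) le_rfl (by omega) (by omega)
        rw [he] at q
        linarith
      subst hm5
      have hZ4 : Z = N E 4 E := by
        obtain ⟨m2, Z', Z'', h1, h2, rfl⟩ := dec hZ hlt
        have i1 := Bs_le h1
        have i2 := Bs_le h2
        rw [Bs_eq h1 (by omega), Bs_eq h2 (by omega), gr_E]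
      subst hZ4
      obtain ⟨m1, R, U1, hR, hU1, rfl⟩ := dec hU0 (by omega)
      replace hR : Bs 6 m1 R := hR
      have hsp : sp (gr (N E 5 R) U1) = sp U1 + 1 := by simp
      rw [gr_gr_leaf] at ht hF d3 ⊢
      have hs2 : Bs 1 m1 (N (B (N E 4 E)) 5 R) := ⟨hs, hR⟩
      have hO2 := Opt_gr ht hs2 hU1
      have hm1 := Bs_le hR
      have hb1 := Bs_le hU1
      have qz : 3 * p 4 ≤ ((sp R : ℝ) + 1) * p 5 := by
        have := hO2.2 (N (B E) 4 (gr (N E 5 E) R))
          ⟨isL_Bs hB rfl, Bs_gr (by exact ⟨rfl, rfl⟩) hR⟩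
        rw [co_N, co_N, isL_co hB ha, isL_wt hB ha, isL_co hB ha, isL_wt hB ha] at this
        simp at this
        linarith
      have hz2 : 2 ≤ sp R := by
        by_contra hne
        have : (sp R : ℝ) ≤ 1 := by exact_mod_cast (by omega : sp R ≤ 1)
        rw [he] at qz
        nlinarith
      have hRne : R ≠ E := by rintro rfl; simp at hz2
      obtain ⟨m3, Z6, R', hZ6, hR', rfl⟩ := dec hR (Bs_lt hR hRne)
      replace hZ6 : Bs 7 m3 Z6 := hZ6
      rw [sp_gr] at hz2
      simp only [sp_N, sp_E] at hz2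
      have hR'ne : R' ≠ E := by rintro rfl; simp at hz2
      have hlt3 := Bs_lt hR' hR'ne
      have hm3 := Bs_le hZ6
      have low2 : ∀ i, i < m1 → dep (gr (N (B (N E 4 E)) 5 (gr (N E 6 Z6) R')) U1) i =
          sp U1 + dep (N (B (N E 4 E)) 5 (gr (N E 6 Z6) R')) i := fun i hi => dep_gr_low hU1 hi
      have e6 := low2 6 (by omega)
      rw [dep_N_gt (by omega), dep_gr_low hR' (by omega), dep_N_self] at e6
      have q2 : ((sp R' : ℝ) + 1) * p 6 + wt p Z6 ≤ 2 * p 4 + 2 * p 2 - p 3 := by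
        have := hO2.2 (N (CB (N E 4 (N E 5 E))) 6 (gr Z6 R'))
          ⟨CB_Bs (by exact ⟨rfl, rfl, rfl⟩), Bs_gr hZ6 hR'⟩
        rw [co_N, co_N, isL_co hB ha, isL_wt hB ha, CB_co ha, CB_wt ha] at this
        simp at this
        linarith
      have hwZ6 := wt_nonneg hp Z6
      have hsp1 : sp U1 + 2 = dep (gr (N (B (N E 4 E)) 5 (gr (N E 6 Z6) R')) U1) 3 := by
        rw [d3]; simp
      have e7 := low2 7 (by omega)
      rw [dep_N_gt (by omega)] at e7
      have h76 : sp R' ≤ dep (gr (N E 6 Z6) R') 7 + 1 := by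
        by_cases hZ6E : Z6 = E
        · subst hZ6E
          have em : m3 = 7 := by rw [Bs_E] at hZ6; omega
          subst em
          have := dep_next (s := N E 6 E) hR' hlt3
          omega
        · have := dep_gr_low (s := N E 6 Z6) hR' (show 7 < m3 from Bs_lt hZ6 hZ6E)
          omega
      by_cases hz3 : 3 ≤ sp R' + 1
      · exact K8.Lz (sp U1) (sp R' + 1) hF (by omega) (by omega) hz3 (by omega)
          (by push_cast; linarith)
      · obtain ⟨Ut, rfl, hUt⟩ := sp_one hR' (by omega)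
        have hmt := Bs_le hUt
        simp only [gr_N, gr_E] at hO2 ht hF d3 e6 e7 low2 q2 hsp1 ⊢
        by_cases hZ6E : Z6 = E
        · subst hZ6E
          have em : m3 = 7 := by rw [Bs_E] at hZ6; omega
          subst em
          rw [dep_N_self] at e7
          have q1 : p 2 + 2 * p 3 ≤ 2 * p 4 + p 6 := by
            have := hO2.2 (CB (N (N (N E 4 E) 5 (N E 6 E)) 7 Ut))
              (CB_Bs (by exact ⟨⟨⟨rfl, rfl⟩, rfl, rfl⟩, hUt⟩))
            rw [co_N, isL_co hB ha, isL_wt hB ha, CB_co ha] at this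
            simp at this
            linarith
          have q3 : p 6 + p 4 ≤ ((sp Ut : ℝ) + 1) * p 7 := by
            have := hO2.2 (N (B E) 4 (N (N E 5 E) 6 (gr (N E 7 E) Ut)))
              ⟨isL_Bs hB rfl, ⟨rfl, rfl⟩, Bs_gr (by exact ⟨rfl, rfl⟩) hUt⟩
            simp only [co_N, wt_N, co_E, wt_E, isL_co hB ha, isL_wt hB ha, co_gr, wt_gr] at this
            linarith
          simp at q2
          refine K8.Lh (sp U1) (sp Ut) hF (by omega) (by simp at e6; omega) (by omega)
            (by linarith) q1 q3 ?_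
          intro hs1
          have hUtne : Ut ≠ E := by rintro rfl; simp at hs1
          have hlt8 := Bs_lt hUt hUtne
          have e8 := low2 8 (by omega)
          rw [dep_N_gt (by omega), dep_N_gt (by omega)] at e8
          replace hUt : Bs 8 m1 Ut := hUt
          have := dep_min hUt hlt8
          exact ⟨by omega, by omega⟩
        · have hlt7 := Bs_lt hZ6 hZ6E
          have hg := le_wt hp hZ6 (i := 7) le_rfl hlt7
          rw [dep_N_lt (by omega), dep_N_gt (by omega)] at e7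
          have e8 := low2 8 (by omega)
          rw [dep_N_gt (by omega)] at e8
          simp at q2
          exact K8.Ll (sp U1) hF (by omega) (by simp at e6; omega) (by omega) (by linarith)
            ⟨by omega, by omega⟩
  · have hm := Bs_le hW
    have hb0 := Bs_le hU0
    have hs := CB_Bs hW
    have low : ∀ i, i < m → dep (gr (CB W) U0) i = sp U0 + dep (CB W) i :=
      fun i hi => dep_gr_low hU0 hi
    have d1 := low 1 (by omega)
    have d2 := low 2 (by omega)
    have d3 := low 3 (by omega)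
    rw [CB_dep3] at d3
    have dF := CB_F W
    have hF : 2 * dep (gr (CB W) U0) 1 + dep (gr (CB W) U0) 2 = 3 * dep (gr (CB W) U0) 3 + 4 := by
      omega
    have hWE : W ≠ E := by
      rintro rfl
      simp at hcW
      linarith
    have hlt := Bs_lt hW hWE
    have hm4 : m = 5 ∨ m = 6 ∨ m = 7 ∨ 8 ≤ m := by omega
    rcases hm4 with rfl | rfl | rfl | hm8
    · have hW4 : W = N E 4 E := by
        obtain ⟨m2, Z', Z'', h1, h2, rfl⟩ := dec hW hlt
        have i1 := Bs_le h1
        have i2 := Bs_le h2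
        rw [Bs_eq h1 (by omega), Bs_eq h2 (by omega), gr_E]
      subst hW4
      obtain ⟨m1, R, U1, hR, hU1, rfl⟩ := dec hU0 (by omega)
      replace hR : Bs 6 m1 R := hR
      have hsp : sp (gr (N E 5 R) U1) = sp U1 + 1 := by simp
      rw [gr_gr_leaf] at ht hF d3 ⊢
      have hs2 : Bs 1 m1 (N (CB (N E 4 E)) 5 R) := ⟨hs, hR⟩
      have hO2 := Opt_gr ht hs2 hU1
      have hm1 := Bs_le hR
      have hb1 := Bs_le hU1
      simp at hcW
      have hde : p 4 = 2 * p 2 - p 3 := by linarith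
      have qz : 2 * p 4 + 2 * p 2 - p 3 ≤ ((sp R : ℝ) + 1) * p 5 := by
        have := hO2.2 (N (LB E) 4 (gr (N E 5 E) R))
          ⟨isL_Bs (Or.inr rfl) rfl, Bs_gr (by exact ⟨rfl, rfl⟩) hR⟩
        rw [co_N, co_N, CB_co ha, CB_wt ha, isL_co (Or.inr rfl) ha, isL_wt (Or.inr rfl) ha] at this
        simp at this
        linarith
      have hz2 : 2 ≤ sp R := by
        by_contra hne
        have : (sp R : ℝ) ≤ 1 := by exact_mod_cast (by omega : sp R ≤ 1)
        rw [he] at qz
        nlinarith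
      have hRne : R ≠ E := by rintro rfl; simp at hz2
      obtain ⟨m3, Z6, R', hZ6, hR', rfl⟩ := dec hR (Bs_lt hR hRne)
      replace hZ6 : Bs 7 m3 Z6 := hZ6
      rw [sp_gr] at hz2
      simp only [sp_N, sp_E] at hz2
      have hR'ne : R' ≠ E := by rintro rfl; simp at hz2
      have hlt3 := Bs_lt hR' hR'ne
      have hm3 := Bs_le hZ6
      have low2 : ∀ i, i < m1 → dep (gr (N (CB (N E 4 E)) 5 (gr (N E 6 Z6) R')) U1) i =
          sp U1 + dep (N (CB (N E 4 E)) 5 (gr (N E 6 Z6) R')) i := fun i hi => dep_gr_low hU1 hi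
      have e6 := low2 6 (by omega)
      rw [dep_N_gt (by omega), dep_gr_low hR' (by omega), dep_N_self] at e6
      have q2 : ((sp R' : ℝ) + 1) * p 6 + wt p Z6 ≤ 2 * p 4 + 2 * p 2 - p 3 := by
        have := hO2.2 (N (CB (N E 4 (N E 5 E))) 6 (gr Z6 R'))
          ⟨CB_Bs (by exact ⟨rfl, rfl, rfl⟩), Bs_gr hZ6 hR'⟩
        rw [co_N, co_N, CB_co ha, CB_wt ha, CB_co ha, CB_wt ha] at this
        simp at this
        linarith
      have hwZ6 := wt_nonneg hp Z6
      have hsp1 : sp U1 + 1 = dep (gr (N (CB (N E 4 E)) 5 (gr (N E 6 Z6) R')) U1) 3 := by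
        rw [d3]; simp
      have e7 := low2 7 (by omega)
      rw [dep_N_gt (by omega)] at e7
      have h76 : sp R' ≤ dep (gr (N E 6 Z6) R') 7 + 1 := by
        by_cases hZ6E : Z6 = E
        · subst hZ6E
          have em : m3 = 7 := by rw [Bs_E] at hZ6; omega
          subst em
          have := dep_next (s := N E 6 E) hR' hlt3
          omega
        · have := dep_gr_low (s := N E 6 Z6) hR' (show 7 < m3 from Bs_lt hZ6 hZ6E)
          omega
      by_cases hz3 : 3 ≤ sp R' + 1
      · exact K8.Cz (sp U1) (sp R' + 1) hF (by omega) (by omega) hz3 (by omega)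
          (by push_cast; linarith)
      · obtain ⟨Ut, rfl, hUt⟩ := sp_one hR' (by omega)
        have hmt := Bs_le hUt
        simp only [gr_N, gr_E] at hO2 ht hF d3 e6 e7 low2 q2 hsp1 ⊢
        by_cases hZ6E : Z6 = E
        · subst hZ6E
          have em : m3 = 7 := by rw [Bs_E] at hZ6; omega
          subst em
          rw [dep_N_self] at e7
          have q1 : p 2 + 2 * p 3 ≤ 2 * p 4 + p 6 := by
            have := hO2.2 (CB (N (N (N E 4 E) 5 (N E 6 E)) 7 Ut))
              (CB_Bs (by exact ⟨⟨⟨rfl, rfl⟩, rfl, rfl⟩, hUt⟩))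
            rw [co_N, CB_co ha, CB_wt ha, CB_co ha] at this
            simp at this
            linarith
          have q3 : p 6 + p 4 ≤ ((sp Ut : ℝ) + 1) * p 7 := by
            have := hO2.2 (N (LB E) 4 (N (N E 5 E) 6 (gr (N E 7 E) Ut)))
              ⟨isL_Bs (Or.inr rfl) rfl, ⟨rfl, rfl⟩, Bs_gr (by exact ⟨rfl, rfl⟩) hUt⟩
            simp only [co_N, wt_N, co_E, wt_E, CB_co ha, CB_wt ha, isL_co (B := LB) (Or.inr rfl) ha,
              isL_wt (B := LB) (Or.inr rfl) ha, co_gr, wt_gr] at this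
            linarith
          refine K8.Ch (sp U1) (sp Ut) hF (by omega) (by simp at e6; omega) (by omega) q1 q3 ?_
          intro hs1
          have hUtne : Ut ≠ E := by rintro rfl; simp at hs1
          have hlt8 := Bs_lt hUt hUtne
          have e8 := low2 8 (by omega)
          rw [dep_N_gt (by omega), dep_N_gt (by omega)] at e8
          replace hUt : Bs 8 m1 Ut := hUt
          have := dep_min hUt hlt8
          exact ⟨by omega, by omega⟩
        · have hlt7 := Bs_lt hZ6 hZ6E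
          have hg := le_wt hp hZ6 (i := 7) le_rfl hlt7
          rw [dep_N_lt (by omega), dep_N_gt (by omega)] at e7
          have e8 := low2 8 (by omega)
          rw [dep_N_gt (by omega)] at e8
          simp at q2
          exact K8.Cl (sp U1) hF (by omega) (by simp at e6; omega) (by omega) (by linarith)
            ⟨by omega, by omega⟩
    · -- block of five keys
      obtain ⟨m1, V, U1, hV, hU1, rfl⟩ := dec hU0 (by omega)
      replace hV : Bs 7 m1 V := hV
      have hsp : sp (gr (N E 6 V) U1) = sp U1 + 1 := by simp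
      rw [gr_gr_leaf] at ht hF d3 ⊢
      have hs2 : Bs 1 m1 (N (CB W) 6 V) := ⟨hs, hV⟩
      have hO2 := Opt_gr ht hs2 hU1
      have hm1 := Bs_le hV
      have hb1 := Bs_le hU1
      have hw2 := wt_two (p := p) hW
      have hc2 := co_two (p := p) hW he
      have low2 : ∀ i, i < m1 → dep (gr (N (CB W) 6 V) U1) i =
          sp U1 + dep (N (CB W) 6 V) i := fun i hi => dep_gr_low hU1 hi
      have e6 := low2 6 (by omega)
      rw [dep_N_self] at e6
      have q : 2 * p 4 + 2 * p 2 - p 3 ≤ ((sp V : ℝ) + 1) * p 6 := by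
        have := hO2.2 (N (LB (N E 4 E)) 5 (gr (N E 6 E) V))
          ⟨isL_Bs (Or.inr rfl) (by exact ⟨rfl, rfl⟩), Bs_gr (by exact ⟨rfl, rfl⟩) hV⟩
        rw [co_N, co_N, CB_co ha, CB_wt ha, isL_co (Or.inr rfl) ha, isL_wt (Or.inr rfl) ha,
          hw2, hc2] at this
        simp at this
        linarith
      have h7 : 1 ≤ sp V → dep (gr (N (CB W) 6 V) U1) 7 = sp U1 + sp V ∧ sp V * p 7 ≤ 3 * p 6 := by
        intro hv
        have hVne : V ≠ E := by rintro rfl; simp at hv
        have hlt7 := Bs_lt hV hVne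
        have e7 := low2 7 hlt7
        rw [dep_N_gt (by omega)] at e7
        have := dep_min hV hlt7
        refine ⟨by omega, ?_⟩
        obtain ⟨m2, Z7, V', hZ7, hV', rfl⟩ := dec hV hlt7
        have hwZ7 := wt_nonneg hp Z7
        have := hO2.2 (N (CB (N (N E 4 E) 5 (N E 6 E))) 7 (gr Z7 V'))
          ⟨CB_Bs (by exact ⟨⟨rfl, rfl⟩, rfl, rfl⟩), Bs_gr hZ7 hV'⟩
        rw [co_N, co_N, CB_co ha, CB_wt ha, CB_co ha, CB_wt ha, hw2, hc2] at this
        simp at this ⊢
        linarith
      have h8g : 8 ≤ n → 1 ≤ sp V → sp U1 + sp V ≤ dep (gr (N (CB W) 6 V) U1) 8 + 1 ∨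
          (sp V = 1 ∧ sp U1 ≤ dep (gr (N (CB W) 6 V) U1) 8 + 1) := by
        intro hn8 hv
        have hVne : V ≠ E := by rintro rfl; simp at hv
        have hlt7 := Bs_lt hV hVne
        obtain ⟨m2, Z7, V', hZ7, hV', rfl⟩ := dec hV hlt7
        replace hZ7 : Bs 8 m2 Z7 := hZ7
        have hm2 := Bs_le hZ7
        have hm2' := Bs_le hV'
        rcases Nat.lt_or_ge 8 m1 with h81 | h81
        · left
          have e8 := low2 8 h81
          rw [dep_N_gt (by omega)] at e8
          rw [sp_gr]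
          simp only [sp_N, sp_E]
          by_cases hZ7E : Z7 = E
          · subst hZ7E
            have em : m2 = 8 := by rw [Bs_E] at hZ7; omega
            subst em
            have := dep_next (s := N E 7 E) hV' h81
            omega
          · have := dep_gr_low (s := N E 7 Z7) hV' (show 8 < m2 from Bs_lt hZ7 hZ7E)
            rw [dep_N_gt (by omega)] at this
            omega
        · right
          have em1 : m1 = 8 := by omega
          subst em1
          have hV'E : V' = E := Bs_eq hV' (by omega)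
          subst hV'E
          have := dep_next (s := N (CB W) 6 (gr (N E 7 Z7) E)) hU1 (by omega)
          have e1 : sp (gr (N E 7 Z7) E) = 1 := by simp
          exact ⟨e1, by omega⟩
      refine K8.C5 (sp U1) (sp V) hF (by omega) (by omega) q h7 ?_ ?_
      · intro hn8 hv
        rcases h8g hn8 (by omega) with h | h <;> omega
      · intro hn8 hv
        rcases h8g hn8 hv with h | h <;> omega
    · -- block of six keys
      have e7 := dep_next (s := CB W) hU0 (by omega)
      have e6 := low 6 (by omega)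
      rw [CB_dep _ (by omega)] at e6
      have hh8 : 8 ≤ n → dep (gr (CB W) U0) 8 = dep U0 8 := fun h8 =>
        dep_gr_high hU0 (by omega) (by omega)
      obtain ⟨m1, V, U1, hV, hU1, rfl⟩ := dec hU0 (by omega)
      replace hV : Bs 8 m1 V := hV
      have hsp : sp (gr (N E 7 V) U1) = sp U1 + 1 := by simp
      rw [gr_gr_leaf] at ht hF d3 e7 e6 hh8 ⊢
      have hs2 : Bs 1 m1 (N (CB W) 7 V) := ⟨hs, hV⟩
      have hO2 := Opt_gr ht hs2 hU1
      have hm1 := Bs_le hV
      have hb1 := Bs_le hU1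
      have hlo := Bs_lo (k := 6) hW (by omega) (by omega)
      have hhi := Bs_hi (k := 6) hW (by omega) (by omega)
      have hhiE : hi 6 W = E := Bs_eq hhi (by omega)
      have c1 := wt_lo_hi (p := p) (k := 6) hW (by omega) (by omega)
      have c2 := co_lo_hi (p := p) hp (k := 6) hW (by omega) (by omega)
      rw [hhiE] at c1 c2
      simp at c1 c2
      have c3 : 0 ≤ p 6 * (dep W 6 : ℝ) := mul_nonneg (hp 6) (Nat.cast_nonneg _)
      have q : 2 * p 6 ≤ ((sp V : ℝ) + 1) * p 7 := by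
        have := hO2.2 (N (CB (lo 6 W)) 6 (gr (N E 7 E) V))
          ⟨CB_Bs hlo, Bs_gr (by exact ⟨rfl, rfl⟩) hV⟩
        rw [co_N, co_N, CB_co ha, CB_wt ha, CB_co ha, CB_wt ha] at this
        simp at this
        linarith
      refine K8.C6 (sp (gr (N E 7 V) U1)) (sp V) hF (by omega) (by omega) (by omega) q ?_ ?_
      · intro hn8 hv
        have hVne : V ≠ E := by rintro rfl; simp at hv
        have hlt8 := Bs_lt hV hVne
        have := dep_gr_low (s := N (CB W) 7 V) hU1 (show 8 < m1 from hlt8)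
        rw [dep_N_gt (by omega)] at this
        have := dep_min hV hlt8
        omega
      · intro hn8
        rcases Nat.lt_or_ge 8 m1 with h81 | h81
        · have := dep_gr_low (s := N (CB W) 7 V) hU1 h81
          omega
        · have em1 : m1 = 8 := by omega
          subst em1
          have := dep_next (s := N (CB W) 7 V) hU1 (by omega)
          omega
    · -- seven keys or more
      have e6 := low 6 (by omega)
      rw [CB_dep _ (by omega)] at e6
      have e7 := low 7 (by omega)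
      rw [CB_dep _ (by omega)] at e7
      have hO := Opt_gr ht hs hU0
      have hlo := Bs_lo (k := 7) hW (by omega) (by omega)
      have hhi := Bs_hi (k := 7) hW (by omega) (by omega)
      have c1 := wt_lo_hi (p := p) (k := 7) hW (by omega) (by omega)
      have c2 := co_lo_hi (p := p) hp (k := 7) hW (by omega) (by omega)
      have c3 := wt_three (p := p) hlo
      have q : ((dep W 7 : ℝ) + 1) * p 7 ≤ p 3 + 3 * p 2 + (p 4 + p 5 + p 6) := by
        have := hO.2 (N (CB (lo 7 W)) 7 (hi 7 W)) ⟨CB_Bs hlo, hhi⟩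
        rw [co_N, CB_co ha, CB_co ha, CB_wt ha] at this
        linarith
      refine K8.C7 (sp U0) (dep W 7 + 1) hF (by omega) (by omega) (by omega) (by omega)
        (by push_cast; linarith) ?_ ?_
      · intro hn8
        rcases Nat.lt_or_ge 8 m with h81 | h81
        · have := low 8 h81; omega
        · have em1 : m = 8 := by omega
          subst em1
          have := dep_next (s := CB W) hU0 (by omega)
          omega
      · intro hn8
        rcases Nat.lt_or_ge 8 m with h81 | h81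
        · have := low 8 h81
          rw [CB_dep _ (by omega)] at this
          have := dep_succ hW (k := 7) (by omega) h81
          have h78 : dep W 7 + 4 ≤ dep W 8 + 8 := this
          omega
        · have em1 : m = 8 := by omega
          subst em1
          have := dep_next (s := CB W) hU0 (by omega)
          have := dep_lt hW (h := 7) (by omega) (by omega)
          omega

end Pool.Agent.Helper182.Dr
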