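import Mathlib
import Pool.Agent.Helper182.DrS8

set_option autoImplicit false

namespace Pool.Agent.Helper182.Dr

open T

variable {n : ℕ} {p : ℕ → ℝ}

lemma noH8 (H : H8 n p) (hG : Good n p (fun _ => True)) : False := by
  have k : ∀ t, Opt p 1 (n + 1) t → K8 n p t := fun t ht => k8 H ht
  obtain ⟨hp, ha, hbc, hb, he, h4d, hd, h6p, n7, h4p⟩ := H
  have h1 : 0 < p 1 := by linarith
  have h3 : 0 < p 3 := by linarith
  have hn : 5 ≤ n := by omega
  have n6 : 6 ≤ n := by omega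
  -- step one
  have s1 : 2 * p 6 ≤ 2 * p 4 + 2 * p 2 - p 3 := by
    obtain ⟨t, ht, hv⟩ := useS hn hG h1 hb h3 1 0 0 0 0 0 (Or.inr le_rfl) (Or.inr le_rfl)
      (Or.inr le_rfl) (Or.inr le_rfl) (Or.inr le_rfl) (Or.inr rfl) (Or.inr rfl) (Or.inr rfl)
    rcases k t ht with ⟨r, s, hF, e3, e6, e7, q2, q1, q3, e8⟩ | ⟨r, hF, e3, e6, e7, q2, n8, e8⟩ |
      ⟨r, z, hF, e3, e6, hz, e7, q2⟩ | ⟨r, s, hF, e3, e6, e7, q1, q3, e8⟩ |
      ⟨r, hF, e3, e6, e7, q2, n8, e8⟩ | ⟨r, z, hF, e3, e6, hz, e7, q2⟩ |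
      ⟨r, v, hF, e3, e6, q, e7, e8, e8'⟩ | ⟨r, u, hF, e3, e6, e7, q, e8, e8'⟩ |
      ⟨r, j, hF, e3, e6, e7, hj, q, e8, e8'⟩
    · exact q2
    · linarith [hp 7]
    · have : (3 : ℝ) ≤ z := by exact_mod_cast hz
      nlinarith
    all_goals exfalso; rify at hF; linarith
  have vge1 : ∀ v : ℕ, 2 * p 4 + 2 * p 2 - p 3 ≤ (v + 1) * p 6 → 1 ≤ v := by
    intro v hv
    by_contra hc
    have : v = 0 := by omega
    subst this
    simp at hv
    linarith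
  -- step two
  obtain ⟨s0, q1, q3, hs0⟩ : ∃ s : ℕ, p 2 + 2 * p 3 ≤ 2 * p 4 + p 6 ∧ p 6 + p 4 ≤ (s + 1) * p 7 ∧
      (1 ≤ s → 8 ≤ n) := by
    obtain ⟨t, ht, hv⟩ := useS hn hG h1 hb h3 4 0 0 5 10 0 (Or.inr le_rfl) (Or.inr le_rfl)
      (Or.inr (by norm_num)) (Or.inr (by norm_num)) (Or.inr le_rfl) (Or.inl n6) (Or.inl n7)
      (Or.inr rfl)
    rcases k t ht with ⟨r, s, hF, e3, e6, e7, q2, q1, q3, e8⟩ | ⟨r, hF, e3, e6, e7, q2, n8, e8⟩ |
      ⟨r, z, hF, e3, e6, hz, e7, q2⟩ | ⟨r, s, hF, e3, e6, e7, q1, q3, e8⟩ |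
      ⟨r, hF, e3, e6, e7, q2, n8, e8⟩ | ⟨r, z, hF, e3, e6, hz, e7, q2⟩ |
      ⟨r, v, hF, e3, e6, q, e7, e8, e8'⟩ | ⟨r, u, hF, e3, e6, e7, q, e8, e8'⟩ |
      ⟨r, j, hF, e3, e6, e7, hj, q, e8, e8'⟩
    · exact ⟨s, q1, q3, fun h => (e8 h).1⟩
    · exfalso; rify at hF e3 e6 e7; linarith
    · exfalso; rify at hF e3 e6 e7 hz; linarith
    · exfalso; rify at hF e3 e6 e7; linarith
    · exfalso; rify at hF e3 e6 e7; linarith
    · exfalso; rify at hF e3 e6 e7 hz; linarith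
    · exfalso
      have hv1 := vge1 v q
      have e7' := (e7 hv1).1
      rify at hF e3 e6 e7' hv1; linarith
    · exfalso; rify at hF e3 e6 e7; linarith
    · exfalso; rify at hF e3 e6 e7 hj; linarith
  have h62 : p 2 < p 6 := by linarith
  have noz : ∀ z : ℕ, 3 ≤ z → z * p 6 ≤ 2 * p 4 + 2 * p 2 - p 3 → False := by
    intro z hz hq
    have : (3 : ℝ) ≤ z := by exact_mod_cast hz
    nlinarith
  have h7p : 0 < p 7 := by
    by_contra hc
    have h0 : p 7 = 0 := le_antisymm (not_lt.1 hc) (hp 7)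
    rw [h0, mul_zero] at q3
    linarith
  by_cases h3c : 2 * p 6 + p 7 ≤ 2 * p 4 + 2 * p 2 - p 3
  · -- step three
    have sge : ∀ s : ℕ, p 6 + p 4 ≤ (s + 1) * p 7 → 2 ≤ s := by
      intro s hs
      by_contra hc
      have : (s : ℝ) ≤ 1 := by exact_mod_cast (by omega : s ≤ 1)
      nlinarith
    have h72 : p 7 < p 2 := by linarith
    have vge2 : ∀ v : ℕ, 2 * p 4 + 2 * p 2 - p 3 ≤ (v + 1) * p 6 → 2 ≤ v := by
      intro v hv
      by_contra hc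
      have : (v : ℝ) ≤ 1 := by exact_mod_cast (by omega : v ≤ 1)
      nlinarith
    have uge2 : ∀ u : ℕ, 2 * p 6 ≤ (u + 1) * p 7 → 2 ≤ u := by
      intro u hu
      by_contra hc
      have : (u : ℝ) ≤ 1 := by exact_mod_cast (by omega : u ≤ 1)
      nlinarith
    have n8 : 8 ≤ n := hs0 (by have := sge s0 q3; omega)
    obtain ⟨t, ht, hv⟩ := useS hn hG h1 hb h3 (-1) 0 0 5 10 10 (Or.inr le_rfl) (Or.inr le_rfl)
      (Or.inr (by norm_num)) (Or.inr (by norm_num)) (Or.inr (by norm_num)) (Or.inl n6)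
      (Or.inl n7) (Or.inl n8)
    rcases k t ht with ⟨r, s, hF, e3, e6, e7, q2, q1, q3, e8⟩ | ⟨r, hF, e3, e6, e7, q2, n8', e8⟩ |
      ⟨r, z, hF, e3, e6, hz, e7, q2⟩ | ⟨r, s, hF, e3, e6, e7, q1, q3, e8⟩ |
      ⟨r, hF, e3, e6, e7, q2, n8', e8⟩ | ⟨r, z, hF, e3, e6, hz, e7, q2⟩ |
      ⟨r, v, hF, e3, e6, q, e7, e8, e8'⟩ | ⟨r, u, hF, e3, e6, e7, q, e8, e8'⟩ |
      ⟨r, j, hF, e3, e6, e7, hj, q, e8, e8'⟩
    · have hs := sge s q3
      have e8' := (e8 (by omega)).2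
      rify at hF e3 e6 e7 e8' hs; linarith
    · rify at hF e3 e6 e7 e8; linarith
    · exact noz z hz q2
    · have hs := sge s q3
      have e8' := (e8 (by omega)).2
      rify at hF e3 e6 e7 e8' hs; linarith
    · rify at hF e3 e6 e7 e8; linarith
    · exact noz z hz q2
    · have hv2 := vge2 v q
      have e7' := (e7 (by omega)).1
      have e8'' := e8 n8 hv2
      rify at hF e3 e6 e7' e8'' hv2; linarith
    · have hu2 := uge2 u q
      have e8'' := e8 n8 (by omega)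
      rify at hF e3 e6 e7 e8'' hu2; linarith
    · have e8'' := e8 n8
      rify at hF e3 e6 e7 e8'' hj; linarith
  · push Not at h3c
    by_cases h7c : p 6 + p 4 ≤ p 7
    · obtain ⟨t, ht, hv⟩ := useS hn hG h1 hb h3 4 0 0 0 (-5) 0 (Or.inr le_rfl) (Or.inr le_rfl)
        (Or.inr le_rfl) (Or.inl h7p) (Or.inr le_rfl) (Or.inl n6) (Or.inl n7) (Or.inr rfl)
      rcases k t ht with ⟨r, s, hF, e3, e6, e7, q2, q1, q3, e8⟩ | ⟨r, hF, e3, e6, e7, q2, n8', e8⟩ |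
        ⟨r, z, hF, e3, e6, hz, e7, q2⟩ | ⟨r, s, hF, e3, e6, e7, q1, q3, e8⟩ |
        ⟨r, hF, e3, e6, e7, q2, n8', e8⟩ | ⟨r, z, hF, e3, e6, hz, e7, q2⟩ |
        ⟨r, v, hF, e3, e6, q, e7, e8, e8'⟩ | ⟨r, u, hF, e3, e6, e7, q, e8, e8'⟩ |
        ⟨r, j, hF, e3, e6, e7, hj, q, e8, e8'⟩
      · rify at hF e3 e6 e7; linarith
      · linarith
      · exact noz z hz q2
      · rify at hF e3 e6 e7; linarith
      · linarith
      · exact noz z hz q2
      · have hv1 := vge1 v q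
        obtain ⟨e7', q7⟩ := e7 hv1
        have hv2 : v ≤ 2 := by
          by_contra hc
          have : (3 : ℝ) ≤ v := by exact_mod_cast (by omega : 3 ≤ v)
          nlinarith
        rify at hF e3 e6 e7' hv2; linarith
      · rify at hF e3 e6 e7; linarith
      · have hj3 : j ≤ 3 := by
          by_contra hc
          have : (4 : ℝ) ≤ j := by exact_mod_cast (by omega : 4 ≤ j)
          nlinarith
        rify at hF e3 e6 e7 hj3; linarith
    · push Not at h7c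
      have sge : ∀ s : ℕ, p 6 + p 4 ≤ (s + 1) * p 7 → 1 ≤ s := by
        intro s hs
        by_contra hc
        have : s = 0 := by omega
        subst this
        simp at hs
        linarith
      have n8 : 8 ≤ n := hs0 (sge s0 q3)
      obtain ⟨t, ht, hv⟩ := useS hn hG h1 hb h3 9 0 0 15 (-10) 10 (Or.inr le_rfl) (Or.inr le_rfl)
        (Or.inr (by norm_num)) (Or.inl h7p) (Or.inr (by norm_num)) (Or.inl n6) (Or.inl n7)
        (Or.inl n8)
      rcases k t ht with ⟨r, s, hF, e3, e6, e7, q2, q1, q3, e8⟩ | ⟨r, hF, e3, e6, e7, q2, n8', e8⟩ |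
        ⟨r, z, hF, e3, e6, hz, e7, q2⟩ | ⟨r, s, hF, e3, e6, e7, q1, q3, e8⟩ |
        ⟨r, hF, e3, e6, e7, q2, n8', e8⟩ | ⟨r, z, hF, e3, e6, hz, e7, q2⟩ |
        ⟨r, v, hF, e3, e6, q, e7, e8, e8'⟩ | ⟨r, u, hF, e3, e6, e7, q, e8, e8'⟩ |
        ⟨r, j, hF, e3, e6, e7, hj, q, e8, e8'⟩
      · have hs := sge s q3
        have e8' := (e8 hs).2
        rify at hF e3 e6 e7 e8' hs; linarith
      · linarith
      · exact noz z hz q2
      · have hs := sge s q3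
        have e8' := (e8 hs).2
        rify at hF e3 e6 e7 e8' hs; linarith
      · linarith
      · exact noz z hz q2
      · have hv1 := vge1 v q
        have e7' := (e7 hv1).1
        have e8'' := e8' n8 hv1
        rify at hF e3 e6 e7' e8'' hv1; linarith
      · have e8'' := e8' n8
        rify at hF e3 e6 e7 e8''; linarith
      · have e8'' := e8' n8
        rify at hF e3 e6 e7 e8''; linarith

/-- the second subcase with `p 2` positive -/
lemma noS2 (hn : 5 ≤ n) (hp : ∀ i, 0 ≤ p i) (ha : p 1 = 2 * p 2) (hbc : p 2 < p 3)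
    (hb : 0 < p 2) (hG : Good n p (fun _ => True)) : False := by
  obtain ⟨he, h4d, hd, h6, n7, h4⟩ := stage1 hn hp ha hbc hb hG
  exact noH8 ⟨hp, ha, hbc, hb, he, h4d, hd, h6, n7, h4⟩ hG

/-- the second subcase with `p 2 = 0` -/
lemma noS0 (hn : 5 ≤ n) (hp : ∀ i, 0 ≤ p i) (h1 : p 1 = 0) (h2 : p 2 = 0)
    (h3 : 0 < p 3) (hG : Good n p (fun _ => True)) : False := by
  obtain ⟨t, ht, -, hv⟩ := Good_use hn hG 1 0 (-1) 0 0 0 0 0
    ⟨by ring, Or.inr (by norm_num), Or.inr le_rfl, Or.inl h3, Or.inr le_rfl, Or.inr le_rfl,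
      Or.inr le_rfl, Or.inr le_rfl, Or.inr le_rfl, Or.inr rfl, Or.inr rfl, Or.inr rfl⟩
  simp only [v8] at hv
  have hv' : (dep t 1 : ℝ) ≤ dep t 3 := by linarith
  have hv'' : dep t 1 ≤ dep t 3 := by exact_mod_cast hv'
  obtain ⟨m, U, s, rfl, hs, hU, hm, hc⟩ := cls3 ht.1 (by omega)
  have hO := Opt_gr ht hs hU
  have low : ∀ i, i < m → dep (gr s U) i = sp U + dep s i := fun i hi => dep_gr_low hU hi
  have d1 := low 1 (by omega)
  have d3 := low 3 (by omega)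
  rcases hc with ⟨m1, X, R, rfl, hX, hR, hXE⟩ | ⟨m1, Z, R, rfl, hZ, hR⟩ | ⟨m1, Z, R, rfl, hZ, hR⟩ |
    ⟨W, rfl, hW⟩ | ⟨W, rfl, hW⟩
  · have i1 := Bs_lt hX hXE
    have q := iA1 hO hX hR
    have q2 := le_wt hp hX (i := 3) le_rfl i1
    rw [h1, h2] at q
    have hwX := wt_nonneg hp X
    simp at q
    linarith
  · have q := iA2b hO hZ hR
    have hwZ := wt_nonneg hp Z
    rw [h1, h2] at q
    have := mul_nonneg (Nat.cast_nonneg (sp R) : (0:ℝ) ≤ sp R) (hp 3)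
    linarith
  · have q := iBb hO hZ hR
    have hwZ := wt_nonneg hp Z
    rw [h2] at q
    have := mul_nonneg (Nat.cast_nonneg (sp R) : (0:ℝ) ≤ sp R) (hp 3)
    linarith
  · have f1 : dep (N (N E 1 (N E 2 E)) 3 W) 1 = 1 := by
      rw [dep_N_lt (by omega), dep_N_self]
    have f3 : dep (N (N E 1 (N E 2 E)) 3 W) 3 = 0 := dep_N_self
    omega
  · have f1 : dep (N (N (N E 1 E) 2 E) 3 W) 1 = 2 := by
      rw [dep_N_lt (by omega), dep_N_lt (by omega), dep_N_self]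
    have f3 : dep (N (N (N E 1 E) 2 E) 3 W) 3 = 0 := dep_N_self
    omega

end Pool.Agent.Helper182.Dr
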