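import Mathlib
import Pool.Agent.Helper182.DrBase

set_option autoImplicit false

namespace Pool.Agent.Helper182.Dr

open T

/-- the key of the lowest common ancestor of the interval `[a, b]` -/
def lca : T → ℕ → ℕ → ℕ
  | E, a, _ => a
  | N l k r, a, b => if b < k then lca l a b else if k < a then lca r a b else k

lemma lca_E (a b : ℕ) : lca E a b = a := rfl
lemma lca_N (l : T) (k : ℕ) (r : T) (a b : ℕ) :
    lca (N l k r) a b = if b < k then lca l a b else if k < a then lca r a b else k := rfl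

lemma lca_mem (t : T) {a b : ℕ} (hab : a ≤ b) : a ≤ lca t a b ∧ lca t a b ≤ b := by
  induction t with
  | E => exact ⟨le_refl _, hab⟩
  | N l k r ihl ihr =>
    rw [lca_N]
    split_ifs with h1 h2
    · exact ihl
    · exact ihr
    · omega

/-- the strategy `s` follows the tree `t` on `[a, b]` -/
def Agrees (s : ℕ → ℕ → ℕ) : T → ℕ → ℕ → Prop
  | E, _, _ => True
  | N l k r, a, b => s a b = k ∧ Agrees s l a (k - 1) ∧ Agrees s r (k + 1) b

lemma agrees_lca (s : ℕ → ℕ → ℕ) (t : T) : ∀ {a b : ℕ}, 1 ≤ a → Bs a (b + 1) t →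
    (∀ a' b', a ≤ a' → a' ≤ b' → b' ≤ b → s a' b' = lca t a' b') → Agrees s t a b := by
  induction t with
  | E => intro a b _ _ _; trivial
  | N l k r ihl ihr =>
    intro a b ha hB hs
    have h1 := Bs_le hB.1
    have h2 := Bs_le hB.2
    refine ⟨?_, ihl ha ?_ ?_, ihr (by omega) hB.2 ?_⟩
    · rw [hs a b le_rfl (by omega) le_rfl, lca_N, if_neg (by omega), if_neg (by omega)]
    · rw [show k - 1 + 1 = k by omega]; exact hB.1
    · intro a' b' h3 h4 h5
      rw [hs a' b' h3 h4 (by omega), lca_N, if_pos (by omega)]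
    · intro a' b' h3 h4 h5
      rw [hs a' b' (by omega) h4 h5, lca_N, if_neg (by omega), if_pos (by omega)]

lemma exists_agrees (s : ℕ → ℕ → ℕ) (hs : ∀ a b, a ≤ b → a ≤ s a b ∧ s a b ≤ b) :
    ∀ (d a b : ℕ), b + 1 - a = d → 1 ≤ a → a ≤ b + 1 → ∃ t : T, Bs a (b + 1) t ∧ Agrees s t a b := by
  intro d
  induction d using Nat.strong_induction_on with
  | _ d ih =>
    intro a b hd ha hab
    rcases Nat.eq_or_lt_of_le hab with h | h
    · exact ⟨E, h, trivial⟩
    · obtain ⟨h1, h2⟩ := hs a b (by omega)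
      obtain ⟨l, hl, hl'⟩ := ih (s a b - a) (by omega) a (s a b - 1) (by omega) ha (by omega)
      obtain ⟨r, hr, hr'⟩ := ih (b - s a b) (by omega) (s a b + 1) b (by omega) (by omega) (by omega)
      refine ⟨N l (s a b) r, ⟨?_, hr⟩, rfl, hl', hr'⟩
      rw [show s a b - 1 + 1 = s a b by omega] at hl
      exact hl

/-- one step of the search for `h` -/
def stp (u : ℕ → ℕ → ℕ) (h : ℕ) (x : ℕ × ℕ) : ℕ × ℕ :=
  if u x.1 x.2 < h then (u x.1 x.2 + 1, x.2)
    else if h < u x.1 x.2 then (x.1, u x.1 x.2 - 1) else x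

lemma isLeast_dep (u : ℕ → ℕ → ℕ) (h : ℕ) (t : T) : ∀ {a b : ℕ}, 1 ≤ a → Bs a (b + 1) t →
    Agrees u t a b → a ≤ h → h ≤ b →
    IsLeast {i : ℕ | Function.uncurry u ((stp u h)^[i] (a, b)) = h} (dep t h) := by
  induction t with
  | E => intro a b _ hB _ h1 h2; rw [Bs_E] at hB; omega
  | N l k r ihl ihr =>
    intro a b ha hB hA h1 h2
    have e1 := Bs_le hB.1
    have e2 := Bs_le hB.2
    obtain ⟨hk, hl, hr⟩ := hA
    have aux : ∀ (c d m : ℕ), stp u h (a, b) = (c, d) → h ≠ k →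
        IsLeast {i : ℕ | Function.uncurry u ((stp u h)^[i] (c, d)) = h} m →
        IsLeast {i : ℕ | Function.uncurry u ((stp u h)^[i] (a, b)) = h} (m + 1) := by
      intro c d m hcd hne hm
      constructor
      · have := hm.1
        simp only [Set.mem_ofPred_eq] at this ⊢
        rw [Function.iterate_succ_apply, hcd]
        exact this
      · intro i hi
        simp only [Set.mem_ofPred_eq] at hi
        cases i with
        | zero =>
          exfalso
          simp only [Function.iterate_zero, id_eq, Function.uncurry_apply_pair] at hi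
          exact hne (by rw [← hi, hk])
        | succ j =>
          rw [Function.iterate_succ_apply, hcd] at hi
          have := hm.2 hi
          omega
    rcases lt_trichotomy h k with hlt | heq | hgt
    · rw [dep_N_lt hlt]
      apply aux a (k - 1) _ _ (by omega)
      · apply ihl ha _ hl h1 (by omega)
        rw [show k - 1 + 1 = k by omega]; exact hB.1
      · unfold stp
        simp only [hk]
        rw [if_neg (by omega), if_pos hlt]
    · subst heq
      rw [dep_N_self]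
      constructor
      · simp only [Set.mem_ofPred_eq, Function.iterate_zero, id_eq, Function.uncurry_apply_pair]
        exact hk
      · intro i _
        exact Nat.zero_le i
    · rw [dep_N_gt hgt]
      apply aux (k + 1) b _ _ (by omega)
      · exact ihr (by omega) hB.2 hr (by omega) h2
      · unfold stp
        simp only [hk]
        rw [if_pos hgt]

lemma F_eq (n : ℕ) (r : ℕ → ℝ) (u : ℕ → ℕ → ℕ) (t : T) (hB : Bs 1 (n + 1) t)
    (hA : Agrees u t 1 n) :
    ∑ h ∈ Finset.Icc 1 n, r h *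
      ((sInf {i : ℕ | Function.uncurry u
        ((fun x : ℕ × ℕ => if u x.1 x.2 < h then (u x.1 x.2 + 1, x.2)
            else if h < u x.1 x.2 then (x.1, u x.1 x.2 - 1) else x)^[i] (1, n)) = h} + 1 : ℕ) : ℝ)
      = co r t + ∑ h ∈ Finset.Icc 1 n, r h := by
  have hI : Finset.Ico 1 (n + 1) = Finset.Icc 1 n := by ext x; rw [Finset.mem_Ico, Finset.mem_Icc]; omega
  rw [co_eq hB, hI, ← Finset.sum_add_distrib]
  refine Finset.sum_congr rfl fun h hh => ?_
  have hh' := Finset.mem_Icc.1 hh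
  have := (isLeast_dep u h t le_rfl hB hA hh'.1 hh'.2).csInf_eq
  have e : sInf {i : ℕ | Function.uncurry u
        ((fun x : ℕ × ℕ => if u x.1 x.2 < h then (u x.1 x.2 + 1, x.2)
            else if h < u x.1 x.2 then (x.1, u x.1 x.2 - 1) else x)^[i] (1, n)) = h} = dep t h := this
  rw [e]
  push_cast
  ring

/-- TARGET. Translation of strategies (interval-guessing functions) into search trees and back. -/
lemma link (n : ℕ) (F : (ℕ → ℝ) → (ℕ → ℕ → ℕ) → ℝ)
    (hF : ∀ (r : ℕ → ℝ) (u : ℕ → ℕ → ℕ), F r u = ∑ h ∈ Finset.Icc 1 n, r h *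
      ((sInf {i : ℕ | Function.uncurry u
        ((fun x : ℕ × ℕ => if u x.1 x.2 < h then (u x.1 x.2 + 1, x.2)
            else if h < u x.1 x.2 then (x.1, u x.1 x.2 - 1) else x)^[i] (1, n)) = h} + 1 : ℕ) : ℝ))
    (p : ℕ → ℝ) (hp1 : ∑ h ∈ Finset.Icc 1 n, p h = 1)
    (hmax : ∀ q : ℕ → ℝ, (∀ h, 0 ≤ q h) → ∑ h ∈ Finset.Icc 1 n, q h = 1 →
      ∀ s : ℕ → ℕ → ℕ, (∀ a b, a ≤ b → a ≤ s a b ∧ s a b ≤ b) →
        ∃ t : ℕ → ℕ → ℕ, (∀ a b, a ≤ b → a ≤ t a b ∧ t a b ≤ b) ∧ F q t ≤ F p s) :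
    ∀ q : ℕ → ℝ, (∀ h, 0 ≤ q h) → ∑ h ∈ Finset.Icc 1 n, q h = 1 →
      ∀ t : T, Bs 1 (n + 1) t → ∃ t' : T, Bs 1 (n + 1) t' ∧ co q t' ≤ co p t := by
  intro q hq hq1 t ht
  have hs : ∀ a b, a ≤ b → a ≤ lca t a b ∧ lca t a b ≤ b := fun a b hab => lca_mem t hab
  obtain ⟨u, hu, hle⟩ := hmax q hq hq1 (lca t) hs
  obtain ⟨t', ht', hA'⟩ := exists_agrees u hu (n + 1 - 1) 1 n rfl le_rfl (by omega)
  have hA : Agrees (lca t) t 1 n := agrees_lca (lca t) t le_rfl ht (fun _ _ _ _ _ => rfl)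
  refine ⟨t', ht', ?_⟩
  rw [hF, hF, F_eq n q u t' ht' hA', F_eq n p (lca t) t ht hA, hq1, hp1] at hle
  linarith

end Pool.Agent.Helper182.Dr
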